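import Pool.Agent.TH972.LowerAvg
import Pool.Agent.W842.RST.ParEst

/-!
# The lower bound with explicit parameters
-/

set_option autoImplicit false
set_option linter.unusedSectionVars false

namespace Pool.Agent.TH972

open Finset MeasureTheory Pool.Agent.W842.RST Filter Topology

noncomputable section

variable {n : ℕ} {x y : ℝ}

theorem siz_ge_of {θ : ℝ} (N : Num n θ) (hθ1 : θ ≤ 1) : n * θ / 10 ≤ siz n θ := by
  have hθ := N.hθ
  have hn := N.n_pos
  have hL := N.hL
  have h1 := N.p_siz_ge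
  have h2 := N.log_r_ge
  have h3 : 2 / 5 * θ ≤ θ / (1 + 3 / 2 * θ) := by
    rw [le_div_iff₀ (by positivity)]
    nlinarith
  have h4 : 2 / 5 * θ - Pool.Agent.W842.RST.lev n θ ≤ Pool.Agent.W842.RST.lev n θ * siz n θ := by linarith
  have h5 : Pool.Agent.W842.RST.lev n θ ≤ 2 / n := by
    unfold Pool.Agent.W842.RST.lev
    apply div_le_div_of_nonneg_right _ hn.le
    linarith
  have h6 : 2 / 5 * θ - 2 / n ≤ 2 / n * siz n θ := by
    have h7 : (0 : ℝ) ≤ siz n θ := Nat.cast_nonneg _
    nlinarith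
  have h7 : 2 / 5 * (n * θ) - 2 ≤ 2 * siz n θ := by
    have h8 : (2 / 5 * θ - 2 / n) * n ≤ (2 / n * siz n θ) * n :=
      mul_le_mul_of_nonneg_right h6 hn.le
    have e1 : (2 / 5 * θ - 2 / n) * n = 2 / 5 * (n * θ) - 2 := by
      field_simp
    have e2 : (2 / n * siz n θ) * n = 2 * (siz n θ : ℝ) := by
      field_simp
    linarith
  have h8 := N.h1
  have h9 : 1 ≤ (1 + 8 * Real.log n) ^ 2 := one_le_pow₀ (by linarith)
  linarith

section

variable (H : LB n x y)

include H

theorem LB.num : Num n (1 / y) := by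
  have hx := H.x_pos
  have hxb := H.x_big
  have hy := H.y_pos
  have hyb := H.y_big
  have hL := H.hL
  have hn := H.n_pos
  have hn8 := H.hn
  set A := 1 + 8 * Real.log n with hA
  have hA1 : 1 ≤ A := by rw [hA]; linarith
  have hx6 : 1000000000000 * A ^ 6 ≤ x := H.hx
  have hA2 : A ^ 2 ≤ A ^ 6 := pow_le_pow_right₀ hA1 (by norm_num)
  have hny : x ^ 8 * y ^ 2 ≤ n * (1 / y) := by
    rw [mul_one_div, le_div_iff₀ hy]
    calc x ^ 8 * y ^ 2 * y = y ^ 3 * x ^ 8 := by ring
      _ ≤ (n : ℝ) := hn8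
  have hx8 : x ≤ x ^ 8 := le_self_pow₀ (by linarith) (by norm_num)
  have hy2 : (1:ℝ) ≤ y ^ 2 := one_le_pow₀ (by linarith)
  have h8 : x ≤ n * (1 / y) := by
    refine le_trans ?_ hny
    have : 0 < x ^ 8 := by positivity
    nlinarith
  have hny1 : n * (1 / y) ≤ n := by
    have : 1 / y ≤ 1 := by rw [div_le_one hy]; linarith
    nlinarith
  refine ⟨by positivity, hL, ?_, ?_, ?_, ?_⟩
  · have : 1 / y ≤ 1 := by rw [div_le_one hy]; linarith
    linarith
  · rw [← hA]; linarith
  · rw [← hA]; linarith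
  · have h9 : x ^ 8 ≤ n * (1 / y) ^ 3 := by
      rw [one_div, inv_pow, ← div_eq_mul_inv, le_div_iff₀ (by positivity)]
      linarith
    refine le_trans ?_ (hx8.trans h9)
    refine le_trans ?_ hx6
    rw [← hA]
    have hLA : Real.log n ≤ A ^ 2 := by
      have : A ≤ A ^ 2 := by nlinarith
      linarith
    calc 16000 * Real.log n * A ^ 4 ≤ 16000 * A ^ 2 * A ^ 4 := by
          apply mul_le_mul_of_nonneg_right _ (by positivity)
          linarith
      _ = 16000 * A ^ 6 := by ring
      _ ≤ 1000000000000 * A ^ 6 := by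
          have : 0 ≤ A ^ 6 := by positivity
          linarith

/-- lower bound for the diameter -/
theorem lower_num : 1 - 1 / Real.log n ≤
    avgw (wexp (n * y)) n (fun T => Real.sqrt (n / y) / x ^ 3 ≤ T.diam) := by
  classical
  obtain ⟨hθa, hθb, hθc⟩ := theta_facts H
  have hx := H.x_pos
  have hxb := H.x_big
  have hy := H.y_pos
  have hyb := H.y_big
  have hL := H.hL
  have hxL := H.x_L
  have hxy := H.hxy
  have hn := H.n_pos
  have hnb := H.n_big
  have hn8 := H.hn
  have hn2 : 2 ≤ n := by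
    have : (2:ℝ) ≤ n := by linarith
    exact_mod_cast this
  set S := Real.sqrt (n / y ^ 3) with hS
  have hS2 : S ^ 2 = n / y ^ 3 := Real.sq_sqrt (by positivity)
  have hS0 : 0 ≤ S := Real.sqrt_nonneg _
  have hSx : x ^ 4 ≤ S := by
    rw [hS]
    apply Real.le_sqrt_of_sq_le
    rw [le_div_iff₀ (by positivity)]
    calc (x ^ 4) ^ 2 * y ^ 3 = y ^ 3 * x ^ 8 := by ring
      _ ≤ (n : ℝ) := hn8
  have hSy : Real.sqrt (n / y) = S * y := by
    rw [hS]
    have e : (n : ℝ) / y = n / y ^ 3 * y ^ 2 := by field_simp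
    rw [e, Real.sqrt_mul (by positivity), Real.sqrt_sq hy.le]
  set M := ⌊S / x ^ 2⌋₊ with hM
  have hM1 : (M : ℝ) ≤ S / x ^ 2 := Nat.floor_le (by positivity)
  have hM2 : S / x ^ 2 < M + 1 := Nat.lt_floor_add_one _
  have hSx2 : x ^ 2 ≤ S / x ^ 2 := by
    rw [le_div_iff₀ (by positivity)]
    calc x ^ 2 * x ^ 2 = x ^ 4 := by ring
      _ ≤ S := hSx
  have hx2 : x ≤ x ^ 2 := le_self_pow₀ (by linarith) (by norm_num)
  have hM3 : S / x ^ 2 / 2 ≤ M := by linarith
  have hM4 : x / 2 ≤ M := by linarith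
  have hM5 : 1 ≤ M := by
    have : (1:ℝ) ≤ M := by linarith
    exact_mod_cast this
  have hM6 : (M : ℝ) ^ 2 * x ^ 4 * y ^ 3 ≤ n := by
    have h1 : (M : ℝ) ^ 2 ≤ (S / x ^ 2) ^ 2 := pow_le_pow_left₀ (Nat.cast_nonneg _) hM1 2
    have h2 : (S / x ^ 2) ^ 2 * x ^ 4 * y ^ 3 = n := by
      rw [div_pow, hS2]; field_simp
    calc (M : ℝ) ^ 2 * x ^ 4 * y ^ 3 ≤ (S / x ^ 2) ^ 2 * x ^ 4 * y ^ 3 := by
          apply mul_le_mul_of_nonneg_right _ (by positivity)
          exact mul_le_mul_of_nonneg_right h1 (by positivity)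
      _ = (n : ℝ) := h2
  -- the target
  have hr0 : (1:ℝ) ≤ y * x := by nlinarith
  have hrn : ⌈y * x⌉₊ ≤ n := by
    apply Nat.ceil_le.2
    refine le_trans ?_ hn8
    have h1 : y ≤ y ^ 3 := le_self_pow₀ (by linarith) (by norm_num)
    have h2 : x ≤ x ^ 8 := le_self_pow₀ (by linarith) (by norm_num)
    exact mul_le_mul h1 h2 hx.le (by positivity)
  obtain ⟨R, _, hR⟩ := Finset.exists_subset_card_eq (s := (univ : Finset (Fin n)))
    (n := ⌈y * x⌉₊) (by rw [Finset.card_univ, Fintype.card_fin]; exact hrn)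
  have hr1 : y * x ≤ R.card := by rw [hR]; exact Nat.le_ceil _
  have hr2 : (R.card : ℝ) ≤ 2 * (y * x) := by
    rw [hR]
    have := (Nat.ceil_lt_add_one (show (0:ℝ) ≤ y * x by positivity)).le
    linarith
  set k := kk x y M with hk
  have hk1 := kk_le_n H hM5 hM6
  have hk2 := kk_pos H hM5
  rw [← hk] at hk1 hk2
  have N := LB.num H
  have hs := siz_ge_of N (by rw [div_le_one hy]; linarith)
  set s := siz n (1 / y) with hsd
  have hks : k < s := by
    have h1 : (n : ℝ) / (32 * y) < n * (1 / y) / 10 := by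
      rw [div_lt_div_iff₀ (by positivity) (by norm_num)]
      have : (n : ℝ) * (1 / y) * (32 * y) = 32 * n := by field_simp
      rw [this]; linarith
    have : (k : ℝ) < s := by linarith
    exact_mod_cast this
  have hkn : k ≤ n := by
    have h1 : (n : ℝ) / (32 * y) ≤ n := div_le_self hn.le (by linarith)
    have : (k : ℝ) ≤ n := by linarith
    exact_mod_cast this
  -- number of steps
  set d := Real.exp (-(n * y)) / n with hd
  have hd0 : 0 < d := by positivity
  obtain ⟨m, hm⟩ := exists_pow_lt_of_lt_one (show (0:ℝ) < 1 / n ^ 3 by positivity)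
    (show 1 - d < 1 by linarith)
  -- the length
  set l0 := ⌊M * y / (48 * Real.log n)⌋₊ with hl0
  have hl1 : (l0 : ℝ) ≤ M * y / (48 * Real.log n) := Nat.floor_le (by positivity)
  have hl2 : M * y / (48 * Real.log n) < l0 + 1 := Nat.lt_floor_add_one _
  have hl3 : (l0 : ℝ) ≤ n := by
    have h1 := M_small H hM6 (c := 1) (by norm_num) (by nlinarith)
    have h2 : M * y / (48 * Real.log n) ≤ M * y := div_le_self (by positivity) (by linarith)
    have h3 : (M : ℝ) * y ≤ 1 * (M * x ^ 3 * y ^ 3) := by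
      have a1 : y ≤ y ^ 3 := le_self_pow₀ (by linarith) (by norm_num)
      have a2 : (1:ℝ) ≤ x ^ 3 := one_le_pow₀ (by linarith)
      have a3 : (0:ℝ) ≤ M := Nat.cast_nonneg _
      calc (M : ℝ) * y ≤ M * y ^ 3 := mul_le_mul_of_nonneg_left a1 a3
        _ = (M * y ^ 3) * 1 := by ring
        _ ≤ (M * y ^ 3) * x ^ 3 := mul_le_mul_of_nonneg_left a2 (by positivity)
        _ = 1 * (M * x ^ 3 * y ^ 3) := by ring
    linarith
  set b := 10000000 * Real.log n ^ 2 / (y * x) with hb
  have hp0 : (1 + 1 / y) / n = Pool.Agent.W842.RST.lev n (1 / y) := rfl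
  set I := 1 + 24 * Real.log n / y with hI
  have hI1 : 1 ≤ I := by
    have : 0 < 24 * Real.log n / y := by positivity
    linarith
  have key := avg_bound hn2 (PP n y R k) (by rw [PP_β]; positivity) (p0 := (1 + 1 / y) / n)
    (by
      rw [PP_pt]
      apply div_nonneg _ hn.le
      have : 1 / y ≤ 1 := by rw [div_le_one hy]; linarith
      linarith)
    (by
      rw [PP_pt, PP_p1]
      apply div_le_div_of_nonneg_right _ hn.le
      have : 0 < 1 / y := by positivity
      linarith)
    (by rw [PP_p1, div_le_one hn]; linarith) M l0 s (by rw [PP_k0]; omega)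
    (by rw [PP_k0]; exact hkn) (by rw [PP_k0]; exact hks) m (g := 1 / (n : ℝ) ^ 2) (b := b)
    (I := I) (by positivity)
    (by rw [hp0]; exact N.env_giant) (by positivity)
    (fun v hv => bnd_num H M hM5 hM6 R hr1 hr2 v (by rw [PP_R] at hv; exact hv) m)
    hI1 (by
      rw [PP_pt, PP_p1, hI]
      have e : (n : ℝ) * ((1 - 1 / y) / n + Real.exp 1 * ((1 + 1 / y * (1 + 6 * Real.log n)) / n -
          (1 - 1 / y) / n)) = 1 - 1 / y + Real.exp 1 * (1 / y * (1 + 6 * Real.log n) + 1 / y) := by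
        field_simp
        ring
      rw [e]
      have h1 : 1 / y * (1 + 6 * Real.log n) + 1 / y ≤ 8 * Real.log n / y := by
        have : 1 / y ≤ Real.log n / y := div_le_div_of_nonneg_right hL hy.le
        have e2 : 8 * Real.log n / y = 7 * Real.log n / y + Real.log n / y := by ring
        linarith
      have h2 : Real.exp 1 ≤ 3 := by have := Real.exp_one_lt_d9; linarith
      have h3 : 0 < 1 / y := by positivity
      have h4 : Real.exp 1 * (1 / y * (1 + 6 * Real.log n) + 1 / y) ≤ 3 * (8 * Real.log n / y) := by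
        apply mul_le_mul h2 h1 (by positivity) (by norm_num)
      have e3 : 3 * (8 * Real.log n / y) = 24 * Real.log n / y := by ring
      linarith)
  have hev : avgw (wexp (n * y)) n (fun T => l0 ≤ T.diam) ≤
      avgw (wexp (n * y)) n (fun T => Real.sqrt (n / y) / x ^ 3 ≤ T.diam) := by
    apply avgw_mono (wexp_pos _) (wexp_meas _)
    intro T _ hT
    have h1 : (l0 : ℝ) ≤ T.diam := by exact_mod_cast hT
    refine le_trans ?_ h1
    rw [hSy]
    have h2 : S * y / x ^ 3 * 2 ≤ M * y / (48 * Real.log n) := by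
      rw [le_div_iff₀ (by positivity)]
      have h3 : S / x ^ 2 / 2 * y ≤ M * y := mul_le_mul_of_nonneg_right hM3 hy.le
      refine le_trans ?_ h3
      have e : S * y / x ^ 3 * 2 * (48 * Real.log n) = S * y / x ^ 3 * (96 * Real.log n) := by ring
      have e2 : S / x ^ 2 / 2 * y = S * y / x ^ 3 * (x / 2) := by field_simp
      rw [e, e2]
      apply mul_le_mul_of_nonneg_left _ (by positivity)
      linarith
    have h3 : 1 ≤ S * y / x ^ 3 := by
      rw [le_div_iff₀ (by positivity)]
      calc 1 * x ^ 3 = x ^ 3 * 1 := by ring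
        _ ≤ x ^ 4 * y := by
          apply mul_le_mul _ (by linarith) (by norm_num) (by positivity)
          exact pow_le_pow_right₀ (by linarith) (by norm_num)
        _ ≤ S * y := mul_le_mul_of_nonneg_right hSx hy.le
    linarith
  rw [PP_β, PP_p1, PP_R] at key
  have e1 : (n : ℝ) * y * ((1 + 1 / y * (1 + 6 * Real.log n)) / n - (1 + 1 / y) / n) =
      6 * Real.log n := by field_simp; ring
  have e2 : Real.exp (-(6 * Real.log n)) = 1 / (n : ℝ) ^ 6 := by
    rw [Real.exp_neg, one_div]
    congr 1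
    rw [show 6 * Real.log (n : ℝ) = ((6 : ℕ) : ℝ) * Real.log n by norm_num,
      Real.exp_nat_mul, Real.exp_log hn]
  rw [e1, e2, ← hd] at key
  -- numerical estimates
  have t1 : (n : ℝ) * ((n : ℝ) ^ 3 * (1 / (n : ℝ) ^ 6)) = 1 / (n : ℝ) ^ 2 := by field_simp
  have t2 : (n : ℝ) * (1 - d) ^ m ≤ 1 / (n : ℝ) ^ 2 := by
    calc (n : ℝ) * (1 - d) ^ m ≤ n * (1 / (n : ℝ) ^ 3) := mul_le_mul_of_nonneg_left hm.le hn.le
      _ = 1 / (n : ℝ) ^ 2 := by field_simp
  have t3 : Real.exp (-(M : ℝ)) * (n * (l0 * I ^ l0)) ≤ 1 / n := by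
    have h1 : I ^ l0 ≤ Real.exp (M / 2) := by
      have h2 : I ≤ Real.exp (24 * Real.log n / y) := by
        have := Real.add_one_le_exp (24 * Real.log n / y)
        rw [hI]; linarith
      calc I ^ l0 ≤ Real.exp (24 * Real.log n / y) ^ l0 := pow_le_pow_left₀ (by linarith) h2 _
        _ = Real.exp (l0 * (24 * Real.log n / y)) := by rw [← Real.exp_nat_mul]
        _ ≤ Real.exp (M / 2) := by
            apply Real.exp_le_exp.2
            calc (l0 : ℝ) * (24 * Real.log n / y) ≤
                  M * y / (48 * Real.log n) * (24 * Real.log n / y) :=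
                  mul_le_mul_of_nonneg_right hl1 (by positivity)
              _ = M / 2 := by field_simp; ring
    have h2 : Real.exp (-(M : ℝ)) * Real.exp (M / 2) ≤ 1 / (n : ℝ) ^ 3 := by
      rw [← Real.exp_add]
      have e : -(M : ℝ) + M / 2 = -(M / 2) := by ring
      rw [e]
      calc Real.exp (-((M : ℝ) / 2)) ≤ Real.exp (-(3 * Real.log n)) := by
            apply Real.exp_le_exp.2
            linarith
        _ = 1 / (n : ℝ) ^ 3 := by
            rw [Real.exp_neg, one_div]
            congr 1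
            rw [show 3 * Real.log (n : ℝ) = ((3 : ℕ) : ℝ) * Real.log n by norm_num,
              Real.exp_nat_mul, Real.exp_log hn]
    calc Real.exp (-(M : ℝ)) * (n * (l0 * I ^ l0)) ≤
          Real.exp (-(M : ℝ)) * (n * (n * Real.exp (M / 2))) := by
          apply mul_le_mul_of_nonneg_left _ (Real.exp_pos _).le
          apply mul_le_mul_of_nonneg_left _ hn.le
          apply mul_le_mul hl3 h1 (by positivity) hn.le
      _ = (Real.exp (-(M : ℝ)) * Real.exp (M / 2)) * n ^ 2 := by ring
      _ ≤ 1 / (n : ℝ) ^ 3 * n ^ 2 := mul_le_mul_of_nonneg_right h2 (by positivity)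
      _ = 1 / n := by field_simp
  have t4 : (s : ℝ)⁻¹ * (R.card + n * b) ≤ 20 / x + 100000000 * Real.log n ^ 2 / x := by
    have h1 : (s : ℝ)⁻¹ ≤ 10 * y / n := by
      have h2 : (s : ℝ)⁻¹ ≤ (n * (1 / y) / 10)⁻¹ := inv_anti₀ (by positivity) hs
      refine h2.trans (le_of_eq ?_)
      field_simp
    have h2 : (R.card : ℝ) + n * b ≤ 2 * (y * x) + n * b := by linarith
    calc (s : ℝ)⁻¹ * (R.card + n * b) ≤ 10 * y / n * (2 * (y * x) + n * b) := by
          apply mul_le_mul h1 h2 (by positivity) (by positivity)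
      _ = 20 * (y ^ 2 * x) / n + 100000000 * Real.log n ^ 2 / x := by
          rw [hb]; field_simp; ring
      _ ≤ _ := by
          apply add_le_add_left
          rw [div_le_div_iff₀ hn hx]
          calc 20 * (y ^ 2 * x) * x = 20 * (y ^ 2 * x ^ 2) := by ring
            _ ≤ 20 * (y ^ 3 * x ^ 8) := by
              apply mul_le_mul_of_nonneg_left _ (by norm_num)
              apply mul_le_mul _ _ (by positivity) (by positivity)
              · exact pow_le_pow_right₀ (by linarith) (by norm_num)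
              · exact pow_le_pow_right₀ (by linarith) (by norm_num)
            _ ≤ 20 * n := by linarith
  have hL0 : 0 < Real.log n := by linarith
  have u1 : 1 / (n : ℝ) ≤ 1 / (100 * Real.log n) := by
    apply one_div_le_one_div_of_le (by positivity)
    have := H.y_le'
    linarith
  have u2 : 1 / (n : ℝ) ^ 2 ≤ 1 / n := by
    apply one_div_le_one_div_of_le hn
    have : (1:ℝ) ≤ n := by linarith
    nlinarith
  have u3 : 20 / x ≤ 1 / (100 * Real.log n) := by
    rw [div_le_div_iff₀ hx (by positivity)]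
    linarith
  have u4 : 100000000 * Real.log n ^ 2 / x ≤ 1 / (100 * Real.log n) := by
    rw [div_le_div_iff₀ hx (by positivity)]
    have := H.x_log 3 (by norm_num)
    nlinarith
  have u5 : 1 / Real.log n = 100 * (1 / (100 * Real.log n)) := by field_simp
  have u6 : 0 < 1 / (100 * Real.log n) := by positivity
  linarith

end

end

end Pool.Agent.TH972
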