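import Pool.Agent.TH972.Lower
import Pool.Agent.W842.RST.Main

/-!
# The upper bound
-/

set_option autoImplicit false
set_option linter.unusedSectionVars false

namespace Pool.Agent.TH972

open Finset MeasureTheory Pool.Agent.W842.RST Filter Topology

noncomputable section

variable {γ : ℝ} {n : ℕ} {x y : ℝ}

theorem kU_bad_le {β : ℝ} (hβ : 0 ≤ β) (U : Ev n) {p p' : ℝ} (hpp : p ≤ p') :
    GG (kU β U) (fun T => ¬ Good U p p' T) ≤ (n : ℝ) ^ 4 * Real.exp (-(β * (p' - p))) := by
  apply GG_bad_le (fun e => kU_pos β U e) U hpp (Real.exp_pos _).le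
  intro e f he hf
  unfold kU wexp
  rw [← Real.exp_add]
  apply Real.exp_le_exp.2
  nlinarith

/-- upper bound for the diameter -/
theorem upper_num (P : Par γ n x y) : 1 - 3000 / x ≤
    avgw (wexp (n * y)) n (fun T => (T.diam : ℝ) ≤ n * x ^ 4 / y ^ 2) := by
  classical
  have hx := P.x_pos
  have hy := P.y_pos
  have hn := P.n_pos
  have hL := P.hL
  have hθ0 := P.θ_pos
  have hθ1 := P.θ_le
  have hxb := P.x_big
  have hxb2 := P.x_big2
  have hyn := P.y_le
  have hxy := P.hxy
  have hγ := P.γ0
  have hn0 : 0 < n := by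
    by_contra hcon
    have : n = 0 := by omega
    rw [this] at hn
    simp at hn
  have : Nonempty (Fin n) := ⟨⟨0, hn0⟩⟩
  obtain ⟨N, hN1, hN2, hN3⟩ := P.levels
  set θ : ℕ → ℝ := fun i => x / y * (11 / 10) ^ i with hθ
  have hθN : θ N = x / y * (11 / 10) ^ N := rfl
  rw [← hθN] at hN1 hN2
  have hθge : ∀ i, x / y ≤ θ i := by
    intro i
    rw [hθ]
    simp only
    have : (1 : ℝ) ≤ (11 / 10) ^ i := one_le_pow₀ (by norm_num)
    nlinarith
  have hθle : ∀ i ≤ N, θ i ≤ 5 * Real.log n := by
    intro i hi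
    refine le_trans ?_ hN2
    rw [hθ]
    simp only
    apply mul_le_mul_of_nonneg_left _ hθ0.le
    exact pow_le_pow_right₀ (by norm_num) hi
  have hθ00 : θ 0 = x / y := by rw [hθ]; simp
  have hθs : ∀ i, 11 / 10 * θ (i + 1) = 121 / 100 * θ i := by
    intro i; rw [hθ]; simp only; ring
  have hnum : ∀ i ≤ N, Num n (θ i) := fun i hi => P.num (hθge i) (hθle i hi)
  set m := ⌈16 * Real.log n * (1 + 3 / 2 * (x / y)) / (x / y)⌉₊ with hm
  have hm1 : 16 * Real.log n * (1 + 3 / 2 * (x / y)) / (x / y) ≤ m := Nat.le_ceil _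
  have hmi : ∀ i, 16 * Real.log n * (1 + 3 / 2 * θ i) / θ i ≤ m := by
    intro i
    refine le_trans ?_ hm1
    have hi := hθge i
    have hi0 : 0 < θ i := by linarith
    rw [div_le_div_iff₀ hi0 hθ0]
    have : 16 * Real.log n * (x / y) ≤ 16 * Real.log n * θ i :=
      mul_le_mul_of_nonneg_left hi (by linarith)
    nlinarith
  have hm2 : (m : ℝ) ≤ 41 * Real.log n * (y / x) := by
    have h1 : (m : ℝ) ≤ 16 * Real.log n * (1 + 3 / 2 * (x / y)) / (x / y) + 1 :=
      (Nat.ceil_lt_add_one (by positivity)).le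
    have h2 : 16 * Real.log n * (1 + 3 / 2 * (x / y)) / (x / y) ≤ 40 * Real.log n * (y / x) := by
      have e1 : 40 * Real.log n * (y / x) = 40 * Real.log n / (x / y) := by
        field_simp
      rw [e1]
      apply div_le_div_of_nonneg_right _ hθ0.le
      nlinarith
    have h3 : 1 ≤ Real.log n * (y / x) := by
      have : 1 ≤ y / x := by rw [le_div_iff₀ hx]; linarith
      nlinarith
    linarith
  set K := ⌈n * x ^ 3 / y ^ 2⌉₊ with hK
  set B1 : Set (Sym2 (Fin n) → ℝ) := ⋃ i ∈ range (N + 1),
    {U | ¬ ∃ v, siz n (θ i) ≤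
      (comp (GU U (Pool.Agent.W842.RST.lev n (θ i))) v).card} with hB1
  set B2 : Set (Sym2 (Fin n) → ℝ) := ⋃ i ∈ range N,
    {U | AvoidBad m (siz n (θ i)) (Pool.Agent.W842.RST.lev n (θ i))
      (Pool.Agent.W842.RST.lev n (121 / 100 * θ i)) U} with hB2
  set B3 : Set (Sym2 (Fin n) → ℝ) := {U | LP K (
    (edg (univ : Finset (Fin n))).filter
      (fun e => U e ≤ Pool.Agent.W842.RST.lev n (11 / 10 * (x / y))))} with hB3
  set B4 : Set (Sym2 (Fin n) → ℝ) :=
    {U | ¬ (GU U (Pool.Agent.W842.RST.lev n (θ N))).Preconnected} with hB4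
  have m1 : env n B1 ≤ ENNReal.ofReal ((N + 1) * (1 / (n : ℝ) ^ 2)) := by
    calc env n B1 ≤ ∑ i ∈ range (N + 1),
          env n {U | ¬ ∃ v, siz n (θ i) ≤
            (comp (GU U (Pool.Agent.W842.RST.lev n (θ i))) v).card} :=
          measure_biUnion_finset_le _ _
      _ ≤ ∑ i ∈ range (N + 1), ENNReal.ofReal (1 / (n : ℝ) ^ 2) := by
          apply Finset.sum_le_sum
          intro i hi
          exact (hnum i (by have := Finset.mem_range.1 hi; omega)).env_giant
      _ = ENNReal.ofReal ((N + 1) * (1 / (n : ℝ) ^ 2)) := by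
          rw [← ENNReal.ofReal_sum_of_nonneg (fun _ _ => by positivity), Finset.sum_const,
            Finset.card_range, nsmul_eq_mul]
          push_cast
          rfl
  have m2 : env n B2 ≤ ENNReal.ofReal (N * (1 / (n : ℝ) ^ 2)) := by
    calc env n B2 ≤ ∑ i ∈ range N,
          env n {U | AvoidBad m (siz n (θ i)) (Pool.Agent.W842.RST.lev n (θ i))
            (Pool.Agent.W842.RST.lev n (121 / 100 * θ i)) U} :=
          measure_biUnion_finset_le _ _
      _ ≤ ∑ i ∈ range N, ENNReal.ofReal (1 / (n : ℝ) ^ 2) := by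
          apply Finset.sum_le_sum
          intro i hi
          exact (hnum i (by have := Finset.mem_range.1 hi; omega)).env_avoid m (hmi i)
      _ = ENNReal.ofReal (N * (1 / (n : ℝ) ^ 2)) := by
          rw [← ENNReal.ofReal_sum_of_nonneg (fun _ _ => by positivity), Finset.sum_const,
            Finset.card_range, nsmul_eq_mul]
  have m3 : env n B3 ≤ ENNReal.ofReal (1800 / x) := by
    have := P.long
    convert this
  have m4 : env n B4 ≤ ENNReal.ofReal (2 / n) := P.conn hN1 hN2
  set Bad := B1 ∪ (B2 ∪ (B3 ∪ B4)) with hBad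
  set η : ℝ := (N + 1) * (1 / (n : ℝ) ^ 2) + (N * (1 / (n : ℝ) ^ 2) + (1800 / x + 2 / n))
    with hη
  have hmBad : env n Bad ≤ ENNReal.ofReal η := by
    have e1 : env n Bad ≤ (ENNReal.ofReal ((N + 1) * (1 / (n : ℝ) ^ 2)) +
        (ENNReal.ofReal (N * (1 / (n : ℝ) ^ 2)) + (ENNReal.ofReal (1800 / x) +
          ENNReal.ofReal (2 / n)))) := by
      refine (measure_union_le _ _).trans (add_le_add m1 ?_)
      refine (measure_union_le _ _).trans (add_le_add m2 ?_)
      exact (measure_union_le _ _).trans (add_le_add m3 m4)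
    rw [← ENNReal.ofReal_add (by positivity) (by positivity),
      ← ENNReal.ofReal_add (by positivity) (by positivity),
      ← ENNReal.ofReal_add (by positivity) (by positivity)] at e1
    exact e1
  have hNn : (N + 1) * (1 / (n : ℝ) ^ 2) ≤ 1 / x := by
    rw [mul_one_div, div_le_div_iff₀ (by positivity) hx]
    have h1 : (N : ℝ) + 1 ≤ 13 * Real.log n := by linarith
    have h2 : 13 * Real.log n ≤ x := by nlinarith
    have h3 : ((N : ℝ) + 1) * x ≤ n * n := by
      apply mul_le_mul (by linarith) (by linarith) hx.le hn.le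
    nlinarith
  have hδ : ∀ U, U ∉ Bad → 1 - 1 / x ≤ GG (fun e => wexp (n * y) (U e))
      (fun T => (T.diam : ℝ) ≤ n * x ^ 4 / y ^ 2) := by
    intro U hU
    rw [hBad] at hU
    simp only [Set.mem_union, not_or] at hU
    obtain ⟨u1, u2, u3, u4⟩ := hU
    have hgi : ∀ i ≤ N, ∃ v, siz n (θ i) ≤
        (comp (GU U (Pool.Agent.W842.RST.lev n (θ i))) v).card := by
      intro i hi
      by_contra hcon
      apply u1
      rw [hB1, Set.mem_iUnion₂]
      exact ⟨i, Finset.mem_range.2 (by omega), hcon⟩
    have hav : ∀ i < N, ¬ AvoidBad m (siz n (θ i)) (Pool.Agent.W842.RST.lev n (θ i))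
        (Pool.Agent.W842.RST.lev n (121 / 100 * θ i)) U := by
      intro i hi hcon
      apply u2
      rw [hB2, Set.mem_iUnion₂]
      exact ⟨i, Finset.mem_range.2 hi, hcon⟩
    have hpc : (GU U (Pool.Agent.W842.RST.lev n (θ N))).Preconnected := by
      by_contra hcon
      exact u4 hcon
    have key := GG_ge (κ := kU (n * y) U) (fun e => kU_pos _ _ e) (range (N + 1))
      (fun T => (T.diam : ℝ) ≤ n * x ^ 4 / y ^ 2)
      (fun i T => Good U (Pool.Agent.W842.RST.lev n (θ i))
        (Pool.Agent.W842.RST.lev n (11 / 10 * θ i)) T) ?_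
    · refine le_trans ?_ key
      have h1 : ∑ i ∈ range (N + 1), GG (kU (n * y) U)
          (fun T => ¬ Good U (Pool.Agent.W842.RST.lev n (θ i))
            (Pool.Agent.W842.RST.lev n (11 / 10 * θ i)) T) ≤
          ∑ i ∈ range (N + 1), 1 / (n : ℝ) ^ 2 := by
        apply Finset.sum_le_sum
        intro i hi
        have hi' : i ≤ N := by have := Finset.mem_range.1 hi; omega
        have hθi : 0 < θ i := (hnum i hi').hθ
        have hpp : Pool.Agent.W842.RST.lev n (θ i) ≤
            Pool.Agent.W842.RST.lev n (11 / 10 * θ i) := by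
          unfold Pool.Agent.W842.RST.lev
          apply div_le_div_of_nonneg_right _ hn.le
          linarith
        refine (kU_bad_le (by positivity) U hpp).trans ?_
        have h2 : 6 * Real.log n ≤ n * y * (Pool.Agent.W842.RST.lev n (11 / 10 * θ i) -
            Pool.Agent.W842.RST.lev n (θ i)) := by
          have e : (n : ℝ) * y * (Pool.Agent.W842.RST.lev n (11 / 10 * θ i) -
            Pool.Agent.W842.RST.lev n (θ i)) = y * θ i / 10 := by
            unfold Pool.Agent.W842.RST.lev
            field_simp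
            ring
          rw [e]
          have h3 : y * (x / y) ≤ y * θ i := mul_le_mul_of_nonneg_left (hθge i) hy.le
          have h4 : y * (x / y) = x := by field_simp
          have h5 : 60 * Real.log n ≤ x := by nlinarith
          linarith
        have h3 : Real.exp (-(n * y * (Pool.Agent.W842.RST.lev n (11 / 10 * θ i) -
            Pool.Agent.W842.RST.lev n (θ i)))) ≤ 1 / (n : ℝ) ^ 6 := by
          calc Real.exp (-(n * y * (Pool.Agent.W842.RST.lev n (11 / 10 * θ i) -
                Pool.Agent.W842.RST.lev n (θ i)))) ≤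
                Real.exp (-(6 * Real.log n)) := Real.exp_le_exp.2 (by linarith)
            _ = 1 / (n : ℝ) ^ 6 := by
              rw [Real.exp_neg, one_div]
              congr 1
              rw [show 6 * Real.log (n : ℝ) = ((6 : ℕ) : ℝ) * Real.log n by norm_num,
                Real.exp_nat_mul, Real.exp_log hn]
        calc (n : ℝ) ^ 4 * Real.exp (-(n * y * (Pool.Agent.W842.RST.lev n (11 / 10 * θ i) -
                Pool.Agent.W842.RST.lev n (θ i)))) ≤
              (n : ℝ) ^ 4 * (1 / (n : ℝ) ^ 6) := mul_le_mul_of_nonneg_left h3 (by positivity)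
          _ = 1 / (n : ℝ) ^ 2 := by field_simp
      rw [Finset.sum_const, Finset.card_range, nsmul_eq_mul] at h1
      push_cast at h1
      linarith
    · intro T hT hgood
      have hg : ∀ i ≤ N, Good U (Pool.Agent.W842.RST.lev n (θ i))
          (Pool.Agent.W842.RST.lev n (11 / 10 * θ i)) T := fun i hi =>
        hgood i (Finset.mem_range.2 (by omega))
      have hg0 := hg 0 (by omega)
      rw [hθ00] at hg0
      have hD : ∀ i ≤ N, ∀ a b, (GU U (Pool.Agent.W842.RST.lev n (θ i))).Reachable a b →
            T.dist a b ≤ K + 2 * m * i := by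
          intro i
          induction i with
          | zero =>
            intro _ a b hab
            rw [hθ00] at hab
            have := base T hg0 (K := K) (by
              intro h
              apply u3
              rw [hB3]
              simp only [Set.mem_ofPred_eq]
              convert h) a b hab
            omega
          | succ i ih =>
            intro hi a b hab
            have hgi1 := hg (i + 1) hi
            rw [hθs] at hgi1
            have := step T hT hgi1 (hav i (by omega)) (hgi i (by omega)) (ih (by omega)) a b hab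
            calc T.dist a b ≤ K + 2 * m * i + 2 * m := this
              _ = K + 2 * m * (i + 1) := by ring
      have h1 := diam_le_of T hpc (hD N le_rfl)
      have h2 : (T.diam : ℝ) ≤ ((K + 2 * m * N : ℕ) : ℝ) := by exact_mod_cast h1
      exact h2.trans (P.final_num hN3 hm2)
  have hη0 : 0 ≤ η := by positivity
  have key := avgw_ge (wexp_pos _) (wexp_meas _) _ Bad hη0 (by positivity : (0 : ℝ) ≤ 1 / x)
    hmBad hδ
  refine le_trans ?_ key
  have h1 : (N : ℝ) * (1 / (n : ℝ) ^ 2) ≤ 1 / x := by
    have : (0 : ℝ) ≤ 1 / (n : ℝ) ^ 2 := by positivity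
    linarith
  have h2 : 2 / (n : ℝ) ≤ 2 / x := by
    apply div_le_div_of_nonneg_left (by norm_num) hx
    linarith
  have h3 : 3000 / x = 1 / x + (1 / x + (1 / x + (1800 / x + 2 / x))) + 1195 / x := by
    ring
  have h4 : 0 ≤ 1195 / x := by positivity
  linarith

end

end Pool.Agent.TH972
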