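import Pool.Agent.TH972.RDefs
import Pool.Agent.TH972.LowerNum
import Pool.Agent.TH972.Upper
import Pool.Agent.W842.RST.Asym

/-!
# Asymptotics
-/

set_option autoImplicit false
set_option linter.unusedSectionVars false

namespace Pool.Agent.TH972

open Finset MeasureTheory Pool.Agent.W842.RST Filter Topology

noncomputable section

theorem avg_eq (β : ℝ) (n : ℕ) (A : SimpleGraph (Fin n) → Prop) :
    RSTRE.avg β n A = avgw (wexp β) n A := by
  classical
  unfold RSTRE.avg avgw
  have h : ∀ U : Sym2 (Fin n) → ℝ, RSTRE.gibbs β U A = GG (fun e => wexp β (U e)) A := by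
    intro U
    unfold RSTRE.gibbs GG sumT
    congr 1
    apply Finset.sum_congr _ (fun _ _ => rfl)
    ext T
    simp
  simp_rw [h]
  rfl

theorem LB.par {n : ℕ} {x y : ℝ} (H : LB n x y) : Par 1 n x y := by
  have hL := H.hL
  have hx := H.hx
  have hxp := H.x_pos
  have hA1 : 1 ≤ 1 + 8 * Real.log n := by linarith
  have hA : (1 + 8 * Real.log n) ^ 2 ≤ (1 + 8 * Real.log n) ^ 6 :=
    pow_le_pow_right₀ hA1 (by norm_num)
  have h6 : 0 < (1 + 8 * Real.log n) ^ 6 := by positivity
  refine ⟨one_pos, hL, by linarith, H.hxy, H.n_ge, ?_, ?_⟩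
  · rw [Real.rpow_one]; exact H.y_le'
  · rw [Real.rpow_one]
    nlinarith

/-- eventual bounds for the sequence of inverse temperatures -/
theorem eventually_beta {g δ : ℝ} (hg0 : 0 < g) (hδ : 0 < δ) (hδg : δ ≤ g) {β : ℕ → ℝ}
    (hβ0 : ∀ n, 0 ≤ β n)
    (hβ : Tendsto (fun n : ℕ => Real.log (β n) / Real.log n) atTop (𝓝 (1 + g))) :
    ∀ᶠ n : ℕ in atTop, (n : ℝ) ^ (g - δ) ≤ β n / n ∧ β n / n ≤ (n : ℝ) ^ (g + δ) := by
  have h1 := hβ.eventually (Metric.ball_mem_nhds (1 + g) hδ)
  have h3 : ∀ᶠ n : ℕ in atTop, 1 ≤ Real.log n :=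
    (Real.tendsto_log_atTop.comp (tendsto_natCast_atTop_atTop (R := ℝ))).eventually
      (eventually_ge_atTop 1)
  filter_upwards [h1, h3, eventually_ge_atTop 2] with n h1 hL hn
  have hn1 : (1 : ℝ) < n := by exact_mod_cast hn
  have hn0 : (0 : ℝ) < n := by linarith
  rw [Real.dist_eq, abs_lt] at h1
  have h4 : (1 + g - δ) * Real.log n ≤ Real.log (β n) := by
    have : 1 + g - δ ≤ Real.log (β n) / Real.log n := by linarith [h1.1]
    rwa [le_div_iff₀ (by linarith)] at this
  have h5 : Real.log (β n) ≤ (1 + g + δ) * Real.log n := by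
    have : Real.log (β n) / Real.log n ≤ 1 + g + δ := by linarith [h1.2]
    rwa [div_le_iff₀ (by linarith)] at this
  have hpos : 0 < β n := by
    rcases (hβ0 n).eq_or_lt with h | h
    · rw [← h, Real.log_zero] at h4
      nlinarith
    · exact h
  constructor
  · rw [le_div_iff₀ hn0]
    have e : (n : ℝ) ^ (g - δ) * n = (n : ℝ) ^ (1 + g - δ) := by
      conv_lhs => rw [← Real.rpow_one (n : ℝ), ← Real.rpow_mul hn0.le]
      rw [← Real.rpow_add hn0]
      congr 1
      ring
    rw [e]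
    calc (n : ℝ) ^ (1 + g - δ) = Real.exp (Real.log n * (1 + g - δ)) := Real.rpow_def_of_pos hn0 _
      _ ≤ Real.exp (Real.log (β n)) := Real.exp_le_exp.2 (by linarith)
      _ = β n := Real.exp_log hpos
  · rw [div_le_iff₀ hn0]
    have e : (n : ℝ) ^ (g + δ) * n = (n : ℝ) ^ (1 + g + δ) := by
      conv_lhs => rw [← Real.rpow_one (n : ℝ), ← Real.rpow_mul hn0.le]
      rw [← Real.rpow_add hn0]
      congr 1
      ring
    rw [e]
    calc β n = Real.exp (Real.log (β n)) := (Real.exp_log hpos).symm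
      _ ≤ Real.exp (Real.log n * (1 + g + δ)) := Real.exp_le_exp.2 (by linarith)
      _ = (n : ℝ) ^ (1 + g + δ) := (Real.rpow_def_of_pos hn0 _).symm

theorem eventually_LB {g δ : ℝ} (hg0 : 0 < g) (hδ : 0 < δ) (hδg : 2 * δ ≤ g)
    (hδ3 : 3 * g + 11 * δ ≤ 1) {β : ℕ → ℝ} (hβ0 : ∀ n, 0 ≤ β n)
    (hβ : Tendsto (fun n : ℕ => Real.log (β n) / Real.log n) atTop (𝓝 (1 + g))) :
    ∀ᶠ n : ℕ in atTop, LB n ((n : ℝ) ^ δ) (β n / n) := by
  have h0 := eventually_beta hg0 hδ (by linarith) hβ0 hβ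
  have h1 := eventually_log 6 hδ (C := 1000000000000 * 9 ^ 6) (by norm_num)
  have h3 : ∀ᶠ n : ℕ in atTop, 1 ≤ Real.log n :=
    (Real.tendsto_log_atTop.comp (tendsto_natCast_atTop_atTop (R := ℝ))).eventually
      (eventually_ge_atTop 1)
  filter_upwards [h0, h1, h3, eventually_ge_atTop 2] with n h0 h1 hL hn
  have hn1 : (1 : ℝ) ≤ n := by
    have : 1 ≤ n := by omega
    exact_mod_cast this
  have hn0 : (0 : ℝ) < n := by linarith
  refine ⟨hL, ?_, ?_, ?_⟩
  · refine le_trans ?_ h1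
    have e1 : Real.log n ^ (6 : ℝ) = Real.log n ^ 6 := by
      rw [← Real.rpow_natCast]; norm_num
    rw [e1]
    have e2 : (1 + 8 * Real.log n) ^ 6 ≤ (9 * Real.log n) ^ 6 :=
      pow_le_pow_left₀ (by linarith) (by linarith) 6
    calc 1000000000000 * (1 + 8 * Real.log n) ^ 6 ≤ 1000000000000 * (9 * Real.log n) ^ 6 := by
          linarith
      _ = 1000000000000 * 9 ^ 6 * Real.log n ^ 6 := by ring
  · refine le_trans ?_ h0.1
    exact Real.rpow_le_rpow_of_exponent_le hn1 (by linarith)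
  · have hy0 : 0 ≤ β n / n := div_nonneg (hβ0 n) hn0.le
    calc (β n / n) ^ 3 * ((n : ℝ) ^ δ) ^ 8 ≤ ((n : ℝ) ^ (g + δ)) ^ 3 * ((n : ℝ) ^ δ) ^ 8 := by
          apply mul_le_mul_of_nonneg_right _ (by positivity)
          exact pow_le_pow_left₀ hy0 h0.2 3
      _ = (n : ℝ) ^ (3 * g + 11 * δ) := by
          rw [← Real.rpow_natCast, ← Real.rpow_mul hn0.le, ← Real.rpow_natCast (_ ^ δ),
            ← Real.rpow_mul hn0.le, ← Real.rpow_add hn0]
          congr 1
          push_cast
          ring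
      _ ≤ (n : ℝ) ^ (1 : ℝ) := Real.rpow_le_rpow_of_exponent_le hn1 hδ3
      _ = n := Real.rpow_one _

/-- two-sided bounds in the whole intermediate regime -/
theorem two_sided (g : ℝ) (hg0 : 0 < g) (hg3 : g < 1 / 3) (β : ℕ → ℝ) (hβ0 : ∀ n, 0 ≤ β n)
    (hβ : Tendsto (fun n : ℕ => Real.log (β n) / Real.log n) atTop (𝓝 (1 + g)))
    (ε : ℝ) (hε : 0 < ε) :
    Tendsto (fun n : ℕ => RSTRE.avg (β n) n (fun T =>
      (n : ℝ) ^ ((1 - g) / 2 - ε) ≤ (T.diam : ℝ) ∧
        (T.diam : ℝ) ≤ (n : ℝ) ^ (1 - 2 * g + ε))) atTop (𝓝 1) := by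
  set δ : ℝ := min (min (ε / 8) (g / 2)) ((1 - 3 * g) / 11) with hδd
  have hδ : 0 < δ := lt_min (lt_min (by linarith) (by linarith)) (by linarith)
  have hδ1 : δ ≤ ε / 8 := (min_le_left _ _).trans (min_le_left _ _)
  have hδ2 : δ ≤ g / 2 := (min_le_left _ _).trans (min_le_right _ _)
  have hδ3 : δ ≤ (1 - 3 * g) / 11 := min_le_right _ _
  have hLB := eventually_LB hg0 hδ (by linarith) (by linarith) hβ0 hβ
  have hbe := eventually_beta hg0 hδ (by linarith) hβ0 hβ
  have hlim : Tendsto (fun n : ℕ => 1 - (1 / Real.log n + 3000 / (n : ℝ) ^ δ)) atTop (𝓝 1) := by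
    have h1 : Tendsto (fun n : ℕ => (n : ℝ) ^ δ) atTop atTop :=
      (tendsto_rpow_atTop hδ).comp (tendsto_natCast_atTop_atTop (R := ℝ))
    have h2 := h1.const_div_atTop 3000
    have h3 : Tendsto (fun n : ℕ => Real.log n) atTop atTop :=
      Real.tendsto_log_atTop.comp (tendsto_natCast_atTop_atTop (R := ℝ))
    have h4 := h3.const_div_atTop 1
    simpa using (tendsto_const_nhds (x := (1 : ℝ))).sub (h4.add h2)
  refine tendsto_of_tendsto_of_tendsto_of_le_of_le' hlim tendsto_const_nhds ?_ ?_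
  · filter_upwards [hLB, hbe, eventually_ge_atTop 2] with n H hb hn
    have hn1 : (1 : ℝ) ≤ n := by
      have : 1 ≤ n := by omega
      exact_mod_cast this
    have hn0 : (0 : ℝ) < n := by linarith
    have : Nonempty (Fin n) := ⟨⟨0, by omega⟩⟩
    have hlo := lower_num H
    have hup := upper_num (LB.par H)
    have hny : (n : ℝ) * (β n / n) = β n := by field_simp
    rw [hny] at hlo hup
    rw [avg_eq]
    apply avgw_inter (wexp_pos _) (wexp_meas _) _ hlo hup
    intro T _ h1 h2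
    have hy := H.y_pos
    constructor
    · refine le_trans ?_ h1
      have e1 : (n : ℝ) ^ (1 - g - δ) ≤ n / (β n / n) := by
        rw [le_div_iff₀ hy]
        calc (n : ℝ) ^ (1 - g - δ) * (β n / n) ≤ (n : ℝ) ^ (1 - g - δ) * (n : ℝ) ^ (g + δ) :=
              mul_le_mul_of_nonneg_left hb.2 (by positivity)
          _ = n := by
              rw [← Real.rpow_add hn0]
              have : 1 - g - δ + (g + δ) = 1 := by ring
              rw [this, Real.rpow_one]
      have e2 : (n : ℝ) ^ ((1 - g - δ) / 2) ≤ Real.sqrt (n / (β n / n)) := by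
        apply Real.le_sqrt_of_sq_le
        rw [← Real.rpow_natCast, ← Real.rpow_mul hn0.le]
        have : (1 - g - δ) / 2 * ((2 : ℕ) : ℝ) = 1 - g - δ := by push_cast; ring
        rw [this]
        exact e1
      rw [le_div_iff₀ (by positivity)]
      refine le_trans ?_ e2
      rw [← Real.rpow_natCast, ← Real.rpow_mul hn0.le, ← Real.rpow_add hn0]
      apply Real.rpow_le_rpow_of_exponent_le hn1
      push_cast
      linarith
    · refine h2.trans ?_
      rw [div_le_iff₀ (by positivity)]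
      have e1 : ((n : ℝ) ^ (g - δ)) ^ 2 ≤ (β n / n) ^ 2 :=
        pow_le_pow_left₀ (by positivity) hb.1 2
      calc (n : ℝ) * ((n : ℝ) ^ δ) ^ 4 = (n : ℝ) ^ (1 + 4 * δ) := by
            conv_lhs => rw [← Real.rpow_natCast, ← Real.rpow_mul hn0.le]
            nth_rewrite 1 [← Real.rpow_one (n : ℝ)]
            rw [← Real.rpow_add hn0]
            congr 1
            push_cast
            ring
        _ ≤ (n : ℝ) ^ (1 - 2 * g + ε + (g - δ) * 2) := by
            apply Real.rpow_le_rpow_of_exponent_le hn1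
            linarith
        _ = (n : ℝ) ^ (1 - 2 * g + ε) * ((n : ℝ) ^ (g - δ)) ^ 2 := by
            rw [Real.rpow_add hn0]
            congr 1
            rw [Real.rpow_mul hn0.le]
            norm_num
        _ ≤ _ := mul_le_mul_of_nonneg_left e1 (by positivity)
  · filter_upwards with n
    rw [avg_eq]
    exact avgw_le_one (wexp_pos _) (wexp_meas _) _

end

end Pool.Agent.TH972
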