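import Pool.Agent.TH972.RAsym

/-!
# The low temperature regime
-/

set_option autoImplicit false
set_option linter.unusedSectionVars false

namespace Pool.Agent.TH972

open Finset MeasureTheory Pool.Agent.W842.RST Filter Topology

noncomputable section

variable {γ : ℝ} {n : ℕ} {x y : ℝ}

/-- two-sided bounds for the diameter with fixed parameters, all large inverse temperatures -/
theorem main_exp (P : Par γ n x y) {β : ℝ} (hβ : n * y ≤ β) (A : SimpleGraph (Fin n) → Prop)
    (hA : ∀ T : SimpleGraph (Fin n), y / x ≤ (T.diam : ℝ) →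
      (T.diam : ℝ) ≤ n * x ^ 4 / y ^ 2 → A T) :
    1 - 3000 / x ≤ avgw (wexp β) n A := by
  classical
  have hx := P.x_pos
  have hy := P.y_pos
  have hn := P.n_pos
  have hL := P.hL
  have hθ0 := P.θ_pos
  have hθ1 := P.θ_le
  have hxb := P.x_big
  have hxb2 := P.x_big2
  have hyn := P.y_le
  have hxy := P.hxy
  have hγ := P.γ0
  have hβ0 : 0 ≤ β := le_trans (by positivity) hβ
  have hn0 : 0 < n := by
    by_contra hcon
    have : n = 0 := by omega
    rw [this] at hn
    simp at hn
  have : Nonempty (Fin n) := ⟨⟨0, hn0⟩⟩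
  obtain ⟨N, hN1, hN2, hN3⟩ := P.levels
  set θ : ℕ → ℝ := fun i => x / y * (11 / 10) ^ i with hθ
  have hθN : θ N = x / y * (11 / 10) ^ N := rfl
  rw [← hθN] at hN1 hN2
  have hθge : ∀ i, x / y ≤ θ i := by
    intro i
    rw [hθ]
    simp only
    have : (1 : ℝ) ≤ (11 / 10) ^ i := one_le_pow₀ (by norm_num)
    nlinarith
  have hθle : ∀ i ≤ N, θ i ≤ 5 * Real.log n := by
    intro i hi
    refine le_trans ?_ hN2
    rw [hθ]
    simp only
    apply mul_le_mul_of_nonneg_left _ hθ0.le
    exact pow_le_pow_right₀ (by norm_num) hi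
  have hθ00 : θ 0 = x / y := by rw [hθ]; simp
  have hθs : ∀ i, 11 / 10 * θ (i + 1) = 121 / 100 * θ i := by
    intro i; rw [hθ]; simp only; ring
  have hnum : ∀ i ≤ N, Num n (θ i) := fun i hi => P.num (hθge i) (hθle i hi)
  set m := ⌈16 * Real.log n * (1 + 3 / 2 * (x / y)) / (x / y)⌉₊ with hm
  have hm1 : 16 * Real.log n * (1 + 3 / 2 * (x / y)) / (x / y) ≤ m := Nat.le_ceil _
  have hmi : ∀ i, 16 * Real.log n * (1 + 3 / 2 * θ i) / θ i ≤ m := by
    intro i
    refine le_trans ?_ hm1
    have hi := hθge i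
    have hi0 : 0 < θ i := by linarith
    rw [div_le_div_iff₀ hi0 hθ0]
    have : 16 * Real.log n * (x / y) ≤ 16 * Real.log n * θ i :=
      mul_le_mul_of_nonneg_left hi (by linarith)
    nlinarith
  have hm2 : (m : ℝ) ≤ 41 * Real.log n * (y / x) := by
    have h1 : (m : ℝ) ≤ 16 * Real.log n * (1 + 3 / 2 * (x / y)) / (x / y) + 1 :=
      (Nat.ceil_lt_add_one (by positivity)).le
    have h2 : 16 * Real.log n * (1 + 3 / 2 * (x / y)) / (x / y) ≤ 40 * Real.log n * (y / x) := by
      have e1 : 40 * Real.log n * (y / x) = 40 * Real.log n / (x / y) := by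
        field_simp
      rw [e1]
      apply div_le_div_of_nonneg_right _ hθ0.le
      nlinarith
    have h3 : 1 ≤ Real.log n * (y / x) := by
      have : 1 ≤ y / x := by rw [le_div_iff₀ hx]; linarith
      nlinarith
    linarith
  set K := ⌈n * x ^ 3 / y ^ 2⌉₊ with hK
  set l := ⌊y / x⌋₊ with hl
  set B1 : Set (Sym2 (Fin n) → ℝ) := ⋃ i ∈ range (N + 1),
    {U | ¬ ∃ v, siz n (θ i) ≤ (comp (GU U (Pool.Agent.W842.RST.lev n (θ i))) v).card} with hB1
  set B2 : Set (Sym2 (Fin n) → ℝ) := ⋃ i ∈ range N,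
    {U | AvoidBad m (siz n (θ i)) (Pool.Agent.W842.RST.lev n (θ i)) (Pool.Agent.W842.RST.lev n (121 / 100 * θ i)) U} with hB2
  set B3 : Set (Sym2 (Fin n) → ℝ) := {U | LP K (
    (edg (univ : Finset (Fin n))).filter (fun e => U e ≤ Pool.Agent.W842.RST.lev n (11 / 10 * (x / y))))} with hB3
  set B4 : Set (Sym2 (Fin n) → ℝ) := {U | ¬ (GU U (Pool.Agent.W842.RST.lev n (θ N))).Preconnected} with hB4
  set B5 : Set (Sym2 (Fin n) → ℝ) := {U | (siz n (x / y)) ^ 2 ≤
    (shortPairs (GU U (Pool.Agent.W842.RST.lev n (11 / 10 * (x / y)))) l).card} with hB5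
  have m1 : env n B1 ≤ ENNReal.ofReal ((N + 1) * (1 / (n : ℝ) ^ 2)) := by
    calc env n B1 ≤ ∑ i ∈ range (N + 1),
          env n {U | ¬ ∃ v, siz n (θ i) ≤ (comp (GU U (Pool.Agent.W842.RST.lev n (θ i))) v).card} :=
          measure_biUnion_finset_le _ _
      _ ≤ ∑ i ∈ range (N + 1), ENNReal.ofReal (1 / (n : ℝ) ^ 2) := by
          apply Finset.sum_le_sum
          intro i hi
          exact (hnum i (by have := Finset.mem_range.1 hi; omega)).env_giant
      _ = ENNReal.ofReal ((N + 1) * (1 / (n : ℝ) ^ 2)) := by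
          rw [← ENNReal.ofReal_sum_of_nonneg (fun _ _ => by positivity), Finset.sum_const,
            Finset.card_range, nsmul_eq_mul]
          push_cast
          rfl
  have m2 : env n B2 ≤ ENNReal.ofReal (N * (1 / (n : ℝ) ^ 2)) := by
    calc env n B2 ≤ ∑ i ∈ range N,
          env n {U | AvoidBad m (siz n (θ i)) (Pool.Agent.W842.RST.lev n (θ i)) (Pool.Agent.W842.RST.lev n (121 / 100 * θ i)) U} :=
          measure_biUnion_finset_le _ _
      _ ≤ ∑ i ∈ range N, ENNReal.ofReal (1 / (n : ℝ) ^ 2) := by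
          apply Finset.sum_le_sum
          intro i hi
          exact (hnum i (by have := Finset.mem_range.1 hi; omega)).env_avoid m (hmi i)
      _ = ENNReal.ofReal (N * (1 / (n : ℝ) ^ 2)) := by
          rw [← ENNReal.ofReal_sum_of_nonneg (fun _ _ => by positivity), Finset.sum_const,
            Finset.card_range, nsmul_eq_mul]
  have m3 : env n B3 ≤ ENNReal.ofReal (1800 / x) := by
    have := P.long
    convert this
  have m4 : env n B4 ≤ ENNReal.ofReal (2 / n) := P.conn hN1 hN2
  have m5 : env n B5 ≤ ENNReal.ofReal (640 / x) := P.short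
  set Bad := B1 ∪ (B2 ∪ (B3 ∪ (B4 ∪ B5))) with hBad
  set η : ℝ := (N + 1) * (1 / (n : ℝ) ^ 2) + (N * (1 / (n : ℝ) ^ 2) + (1800 / x + (2 / n + 640 / x)))
    with hη
  have hmBad : env n Bad ≤ ENNReal.ofReal η := by
    have e1 : env n Bad ≤ (ENNReal.ofReal ((N + 1) * (1 / (n : ℝ) ^ 2)) +
        (ENNReal.ofReal (N * (1 / (n : ℝ) ^ 2)) + (ENNReal.ofReal (1800 / x) +
          (ENNReal.ofReal (2 / n) + ENNReal.ofReal (640 / x))))) := by
      refine (measure_union_le _ _).trans (add_le_add m1 ?_)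
      refine (measure_union_le _ _).trans (add_le_add m2 ?_)
      refine (measure_union_le _ _).trans (add_le_add m3 ?_)
      exact (measure_union_le _ _).trans (add_le_add m4 m5)
    rw [← ENNReal.ofReal_add (by positivity) (by positivity),
      ← ENNReal.ofReal_add (by positivity) (by positivity),
      ← ENNReal.ofReal_add (by positivity) (by positivity),
      ← ENNReal.ofReal_add (by positivity) (by positivity)] at e1
    exact e1
  have hNn : (N + 1) * (1 / (n : ℝ) ^ 2) ≤ 1 / x := by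
    rw [mul_one_div, div_le_div_iff₀ (by positivity) hx]
    have h1 : (N : ℝ) + 1 ≤ 13 * Real.log n := by linarith
    have h2 : 13 * Real.log n ≤ x := by nlinarith
    have h3 : ((N : ℝ) + 1) * x ≤ n * n := by
      apply mul_le_mul (by linarith) (by linarith) hx.le hn.le
    nlinarith
  have hδ : ∀ U, U ∉ Bad → 1 - 1 / x ≤ GG (fun e => wexp β (U e)) A := by
    intro U hU
    rw [hBad] at hU
    simp only [Set.mem_union, not_or] at hU
    obtain ⟨u1, u2, u3, u4, u5⟩ := hU
    have hgi : ∀ i ≤ N, ∃ v, siz n (θ i) ≤ (comp (GU U (Pool.Agent.W842.RST.lev n (θ i))) v).card := by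
      intro i hi
      by_contra hcon
      apply u1
      rw [hB1, Set.mem_iUnion₂]
      exact ⟨i, Finset.mem_range.2 (by omega), hcon⟩
    have hav : ∀ i < N, ¬ AvoidBad m (siz n (θ i)) (Pool.Agent.W842.RST.lev n (θ i)) (Pool.Agent.W842.RST.lev n (121 / 100 * θ i)) U := by
      intro i hi hcon
      apply u2
      rw [hB2, Set.mem_iUnion₂]
      exact ⟨i, Finset.mem_range.2 hi, hcon⟩
    have hpc : (GU U (Pool.Agent.W842.RST.lev n (θ N))).Preconnected := by
      by_contra hcon
      exact u4 hcon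
    have hsh : (shortPairs (GU U (Pool.Agent.W842.RST.lev n (11 / 10 * (x / y)))) l).card < (siz n (x / y)) ^ 2 := by
      by_contra hcon
      push Not at hcon
      exact u5 hcon
    have key := GG_ge (κ := kU β U) (fun e => kU_pos _ _ e) (range (N + 1)) A
      (fun i T => Good U (Pool.Agent.W842.RST.lev n (θ i)) (Pool.Agent.W842.RST.lev n (11 / 10 * θ i)) T) ?_
    · refine le_trans ?_ key
      have h1 : ∑ i ∈ range (N + 1), GG (kU β U)
          (fun T => ¬ Good U (Pool.Agent.W842.RST.lev n (θ i)) (Pool.Agent.W842.RST.lev n (11 / 10 * θ i)) T) ≤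
          ∑ i ∈ range (N + 1), 1 / (n : ℝ) ^ 2 := by
        apply Finset.sum_le_sum
        intro i hi
        have hi' : i ≤ N := by have := Finset.mem_range.1 hi; omega
        have hθi : 0 < θ i := (hnum i hi').hθ
        have hpp : Pool.Agent.W842.RST.lev n (θ i) ≤
            Pool.Agent.W842.RST.lev n (11 / 10 * θ i) := by
          unfold Pool.Agent.W842.RST.lev
          apply div_le_div_of_nonneg_right _ hn.le
          linarith
        refine (kU_bad_le hβ0 U hpp).trans ?_
        have h2 : 6 * Real.log n ≤ β * (Pool.Agent.W842.RST.lev n (11 / 10 * θ i) -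
            Pool.Agent.W842.RST.lev n (θ i)) := by
          have e0 : (n : ℝ) * y * (Pool.Agent.W842.RST.lev n (11 / 10 * θ i) -
            Pool.Agent.W842.RST.lev n (θ i)) ≤ β * (Pool.Agent.W842.RST.lev n (11 / 10 * θ i) -
            Pool.Agent.W842.RST.lev n (θ i)) := mul_le_mul_of_nonneg_right hβ (by linarith)
          refine le_trans ?_ e0
          have e : (n : ℝ) * y * (Pool.Agent.W842.RST.lev n (11 / 10 * θ i) -
            Pool.Agent.W842.RST.lev n (θ i)) = y * θ i / 10 := by
            unfold Pool.Agent.W842.RST.lev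
            field_simp
            ring
          rw [e]
          have h3 : y * (x / y) ≤ y * θ i := mul_le_mul_of_nonneg_left (hθge i) hy.le
          have h4 : y * (x / y) = x := by field_simp
          have h5 : 60 * Real.log n ≤ x := by nlinarith
          linarith
        have h3 : Real.exp (-(β * (Pool.Agent.W842.RST.lev n (11 / 10 * θ i) -
            Pool.Agent.W842.RST.lev n (θ i)))) ≤ 1 / (n : ℝ) ^ 6 := by
          calc Real.exp (-(β * (Pool.Agent.W842.RST.lev n (11 / 10 * θ i) -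
                Pool.Agent.W842.RST.lev n (θ i)))) ≤
                Real.exp (-(6 * Real.log n)) := Real.exp_le_exp.2 (by linarith)
            _ = 1 / (n : ℝ) ^ 6 := by
              rw [Real.exp_neg, one_div]
              congr 1
              rw [show 6 * Real.log (n : ℝ) = ((6 : ℕ) : ℝ) * Real.log n by norm_num,
                Real.exp_nat_mul, Real.exp_log hn]
        calc (n : ℝ) ^ 4 * Real.exp (-(β * (Pool.Agent.W842.RST.lev n (11 / 10 * θ i) -
                Pool.Agent.W842.RST.lev n (θ i)))) ≤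
              (n : ℝ) ^ 4 * (1 / (n : ℝ) ^ 6) := mul_le_mul_of_nonneg_left h3 (by positivity)
          _ = 1 / (n : ℝ) ^ 2 := by field_simp
      rw [Finset.sum_const, Finset.card_range, nsmul_eq_mul] at h1
      push_cast at h1
      linarith
    · intro T hT hgood
      have hg : ∀ i ≤ N, Good U (Pool.Agent.W842.RST.lev n (θ i)) (Pool.Agent.W842.RST.lev n (11 / 10 * θ i)) T := fun i hi =>
        hgood i (Finset.mem_range.2 (by omega))
      have hg0 := hg 0 (by omega)
      rw [hθ00] at hg0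
      obtain ⟨v, hv⟩ := hgi 0 (by omega)
      rw [hθ00] at hv
      apply hA
      · have h1 := diam_lower T hT hg0 v hv hsh
        have h2 := (Nat.lt_floor_add_one (y / x)).le
        rw [← hl] at h2
        have h3 : ((l + 1 : ℕ) : ℝ) ≤ T.diam := by exact_mod_cast h1
        push_cast at h3
        linarith
      · have hD : ∀ i ≤ N, ∀ a b, (GU U (Pool.Agent.W842.RST.lev n (θ i))).Reachable a b →
            T.dist a b ≤ K + 2 * m * i := by
          intro i
          induction i with
          | zero =>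
            intro _ a b hab
            rw [hθ00] at hab
            have := base T hg0 (K := K) (by
              intro h
              apply u3
              rw [hB3]
              simp only [Set.mem_ofPred_eq]
              convert h) a b hab
            omega
          | succ i ih =>
            intro hi a b hab
            have hgi1 := hg (i + 1) hi
            rw [hθs] at hgi1
            have := step T hT hgi1 (hav i (by omega)) (hgi i (by omega)) (ih (by omega)) a b hab
            calc T.dist a b ≤ K + 2 * m * i + 2 * m := this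
              _ = K + 2 * m * (i + 1) := by ring
        have h1 := diam_le_of T hpc (hD N le_rfl)
        have h2 : (T.diam : ℝ) ≤ ((K + 2 * m * N : ℕ) : ℝ) := by exact_mod_cast h1
        exact h2.trans (P.final_num hN3 hm2)
  have hη0 : 0 ≤ η := by positivity
  have key := avgw_ge (wexp_pos _) (wexp_meas _) A Bad hη0 (by positivity : (0 : ℝ) ≤ 1 / x) hmBad hδ
  refine le_trans ?_ key
  have h1 : (N : ℝ) * (1 / (n : ℝ) ^ 2) ≤ 1 / x := by
    have : (0 : ℝ) ≤ 1 / (n : ℝ) ^ 2 := by positivity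
    linarith
  have h2 : 2 / (n : ℝ) ≤ 2 / x := by
    apply div_le_div_of_nonneg_left (by norm_num) hx
    linarith
  have h3 : 3000 / x = 1 / x + (1 / x + (1 / x + (1800 / x + (2 / x + 640 / x)))) + 555 / x := by
    ring
  have h4 : 0 ≤ 555 / x := by positivity
  linarith

/-- low temperature: the diameter is `n ^ (1/3 + o(1))` -/
theorem low_temp (C : ℝ) (hC : 0 < C) (β : ℕ → ℝ)
    (hβ : ∀ᶠ n : ℕ in atTop, C * (n : ℝ) ^ (4 / 3 : ℝ) ≤ β n) (ε : ℝ) (hε : 0 < ε) :
    Tendsto (fun n : ℕ => RSTRE.avg (β n) n (fun T =>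
      (n : ℝ) ^ (1 / 3 - ε) ≤ (T.diam : ℝ) ∧ (T.diam : ℝ) ≤ (n : ℝ) ^ (1 / 3 + ε)))
      atTop (𝓝 1) := by
  obtain ⟨δ, hδd⟩ : ∃ δ : ℝ, δ = min (ε / 6) (1 / 6) := ⟨_, rfl⟩
  have hδ : 0 < δ := by
    rw [hδd]
    exact lt_min (by linarith) (by norm_num)
  have hδ1 : δ ≤ ε / 6 := by rw [hδd]; exact min_le_left _ _
  have hδ2 : δ ≤ 1 / 6 := by rw [hδd]; exact min_le_right _ _
  have hpar := eventually_Par (γ := 1) (g := 1 / 3 - δ) (ε := δ) one_pos (by linarith) (by linarith) hδ
    (by linarith)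
  have hnδ : Tendsto (fun n : ℕ => (n : ℝ) ^ δ) atTop atTop :=
    (tendsto_rpow_atTop hδ).comp (tendsto_natCast_atTop_atTop (R := ℝ))
  have hlim : Tendsto (fun n : ℕ => 1 - 3000 / (n : ℝ) ^ δ) atTop (𝓝 1) := by
    have h2 := hnδ.const_div_atTop 3000
    simpa using (tendsto_const_nhds (x := (1 : ℝ))).sub h2
  refine tendsto_of_tendsto_of_tendsto_of_le_of_le' hlim tendsto_const_nhds ?_ ?_
  · filter_upwards [hpar, hβ, hnδ.eventually_ge_atTop (1 / C), eventually_ge_atTop 1] with n P hb hd hn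
    have hn1 : (1 : ℝ) ≤ n := by exact_mod_cast hn
    have hn0 : (0 : ℝ) < n := by linarith
    rw [avg_eq]
    have hny : (n : ℝ) * (n : ℝ) ^ (1 / 3 - δ) ≤ β n := by
      refine le_trans ?_ hb
      have e1 : (n : ℝ) * (n : ℝ) ^ (1 / 3 - δ) = (n : ℝ) ^ (4 / 3 - δ) := by
        conv_lhs => rw [← Real.rpow_one (n : ℝ), ← Real.rpow_mul hn0.le]
        rw [← Real.rpow_add hn0]
        congr 1
        ring
      have e2 : (n : ℝ) ^ (4 / 3 : ℝ) = (n : ℝ) ^ (4 / 3 - δ) * (n : ℝ) ^ δ := by
        rw [← Real.rpow_add hn0]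
        congr 1
        ring
      rw [e1, e2]
      have hp : 0 < (n : ℝ) ^ (4 / 3 - δ) := Real.rpow_pos_of_pos hn0 _
      have h1 : 1 ≤ C * (n : ℝ) ^ δ := by
        rw [div_le_iff₀ hC] at hd
        linarith
      calc (n : ℝ) ^ (4 / 3 - δ) = (n : ℝ) ^ (4 / 3 - δ) * 1 := (mul_one _).symm
        _ ≤ (n : ℝ) ^ (4 / 3 - δ) * (C * (n : ℝ) ^ δ) := mul_le_mul_of_nonneg_left h1 hp.le
        _ = C * ((n : ℝ) ^ (4 / 3 - δ) * (n : ℝ) ^ δ) := by ring
    refine main_exp P hny _ ?_
    intro T h1 h2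
    constructor
    · refine le_trans ?_ h1
      rw [← Real.rpow_sub hn0]
      exact Real.rpow_le_rpow_of_exponent_le hn1 (by linarith)
    · refine h2.trans ?_
      have e1 : (n : ℝ) * ((n : ℝ) ^ δ) ^ 4 / ((n : ℝ) ^ (1 / 3 - δ)) ^ 2 =
          (n : ℝ) ^ (1 + δ * 4 - (1 / 3 - δ) * 2) := by
        have a1 : ((n : ℝ) ^ δ) ^ 4 = (n : ℝ) ^ (δ * 4) := by
          rw [← Real.rpow_natCast, ← Real.rpow_mul hn0.le]; norm_num
        have a2 : ((n : ℝ) ^ (1 / 3 - δ)) ^ 2 = (n : ℝ) ^ ((1 / 3 - δ) * 2) := by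
          rw [← Real.rpow_natCast, ← Real.rpow_mul hn0.le]; norm_num
        rw [a1, a2, Real.rpow_sub hn0, Real.rpow_add hn0, Real.rpow_one]
      rw [e1]
      exact Real.rpow_le_rpow_of_exponent_le hn1 (by linarith)
  · filter_upwards with n
    rw [avg_eq]
    exact avgw_le_one (wexp_pos _) (wexp_meas _) _

end

end Pool.Agent.TH972
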