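import Pool.Agent.TH972.AB

/-!
# Spanning trees and rooted trees
-/

set_option autoImplicit false
set_option linter.unusedSectionVars false

namespace Pool.Agent.TH972

open Finset

noncomputable section

variable {V : Type*} [Fintype V] [DecidableEq V]

open Classical in
/-- weight of a graph -/
def wT (κ : Sym2 V → ℝ) (T : SimpleGraph V) : ℝ :=
  ∏ e ∈ univ.filter (fun e => e ∈ T.edgeSet), κ e

/-- the graph of a function -/
def gf (f : V → V) : SimpleGraph V := SimpleGraph.fromEdgeSet (fed f)

theorem Arb.ne {f : V → V} {r : V} (hf : Arb f r) {x : V} (hx : x ≠ r) : f x ≠ x := by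
  intro h
  obtain ⟨k, hk⟩ := hf.2 x
  rw [Function.iterate_fixed h] at hk
  exact hx hk

theorem Arb.no_two {f : V → V} {r : V} (hf : Arb f r) {x : V} (hx : x ≠ r) : f (f x) ≠ x := by
  intro h
  have key : ∀ k, f^[k] x ≠ r ∧ (f^[k] x = x ∨ f^[k] x = f x) := by
    intro k
    induction k with
    | zero => exact ⟨hx, Or.inl rfl⟩
    | succ k ih =>
      rw [Function.iterate_succ_apply']
      rcases ih.2 with h1 | h1
      · refine ⟨?_, Or.inr (by rw [h1])⟩
        intro h2
        rw [h1] at h2
        rw [h2, hf.1] at h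
        exact hx h.symm
      · refine ⟨?_, Or.inl (by rw [h1, h])⟩
        rw [h1, h]; exact hx
  obtain ⟨k, hk⟩ := hf.2 x
  exact (key k).1 hk

theorem fed_eq {f : V → V} {r : V} (hf : Arb f r) :
    fed f = ((univ.erase r).image (fun x => s(x, f x)) : Finset (Sym2 V)) := by
  ext e
  rw [Finset.mem_coe, Finset.mem_image]
  constructor
  · rintro ⟨x, hx, rfl⟩
    refine ⟨x, Finset.mem_erase.2 ⟨?_, Finset.mem_univ _⟩, rfl⟩
    rintro rfl
    exact hx hf.1
  · rintro ⟨x, hx, rfl⟩
    exact ⟨x, hf.ne (Finset.mem_erase.1 hx).1, rfl⟩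

theorem Arb.injOn {f : V → V} {r : V} (hf : Arb f r) :
    Set.InjOn (fun x => s(x, f x)) ((univ.erase r : Finset V) : Set V) := by
  intro x hx y hy hxy
  rw [Finset.coe_erase, Set.mem_sdiff, Set.mem_singleton_iff] at hx hy
  simp only [Sym2.eq_iff] at hxy
  rcases hxy with h | h
  · exact h.1
  · exact absurd (by rw [h.2, ← h.1]) (hf.no_two hx.2)

theorem gf_edgeSet (f : V → V) : (gf f).edgeSet = fed f := by
  unfold gf
  rw [SimpleGraph.edgeSet_fromEdgeSet, sdiff_eq_left.2]
  rw [Set.disjoint_left]
  rintro e ⟨x, hx, rfl⟩ h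
  simp only [Sym2.mem_diagSet, Sym2.mk_isDiag_iff] at h
  exact hx h.symm

theorem gf_isTree {f : V → V} {r : V} (hf : Arb f r) : (gf f).IsTree := by
  classical
  rw [SimpleGraph.isTree_iff_connected_and_card]
  have hr : ∀ x, (gf f).Reachable x r := by
    intro x
    obtain ⟨k, hk⟩ := hf.2 x
    induction k generalizing x with
    | zero => simp only [Function.iterate_zero, id_eq] at hk; rw [hk]
    | succ k ih =>
      rw [Function.iterate_succ_apply] at hk
      by_cases hx : f x = x
      · have := ih (f x) hk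
        rwa [hx] at this
      · refine SimpleGraph.Reachable.trans ?_ (ih (f x) hk)
        apply SimpleGraph.Adj.reachable
        unfold gf
        rw [SimpleGraph.fromEdgeSet_adj]
        exact ⟨⟨x, hx, rfl⟩, fun h => hx h.symm⟩
  have : Nonempty V := ⟨r⟩
  refine ⟨⟨fun x y => (hr x).trans (hr y).symm⟩, ?_⟩
  rw [gf_edgeSet, fed_eq hf, Nat.card_eq_fintype_card]
  simp only [Finset.coe_sort_coe, Fintype.card_coe]
  rw [Finset.card_image_of_injOn hf.injOn, Finset.card_erase_of_mem (Finset.mem_univ _),
    Finset.card_univ, Nat.card_eq_fintype_card]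
  have : 0 < Fintype.card V := Fintype.card_pos
  omega

theorem wT_gf (κ : Sym2 V → ℝ) {f : V → V} {r : V} (hf : Arb f r) :
    wT κ (gf f) = Wt κ f r := by
  classical
  unfold wT Wt
  have h1 : (univ : Finset (Sym2 V)).filter (fun e => e ∈ (gf f).edgeSet) =
      (univ.erase r).image (fun x => s(x, f x)) := by
    ext e
    rw [Finset.mem_filter, gf_edgeSet, fed_eq hf, Finset.mem_coe]
    simp
  rw [h1, Finset.prod_image hf.injOn]
  apply Finset.prod_congr rfl
  intro x hx
  unfold Kc
  rw [if_neg (hf.ne (Finset.mem_erase.1 hx).1).symm]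

theorem gf_inj {f g : V → V} {r : V} (hf : Arb f r) (hg : Arb g r) (h : gf f = gf g) :
    f = g := by
  have h' : fed f = fed g := by rw [← gf_edgeSet, ← gf_edgeSet, h]
  funext x
  by_contra hne
  have hxr : x ≠ r := by
    rintro rfl
    exact hne (hf.1.trans hg.1.symm)
  have key : ∀ k, f^[k] x ≠ r ∧ g (f^[k + 1] x) = f^[k] x := by
    intro k
    induction k with
    | zero =>
      refine ⟨hxr, ?_⟩
      have h1 : s(x, f x) ∈ fed g := h' ▸ ⟨x, hf.ne hxr, rfl⟩
      obtain ⟨y, hy, hy2⟩ := h1
      simp only [Sym2.eq_iff] at hy2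
      rcases hy2 with h2 | h2
      · exfalso
        apply hne
        rw [h2.2, h2.1]
      · simp only [zero_add, Function.iterate_one, Function.iterate_zero, id_eq]
        rw [h2.2, ← h2.1]
    | succ k ih =>
      have hk : f^[k + 1] x ≠ r := by
        intro h1
        have h2 := ih.2
        rw [h1, hg.1] at h2
        exact ih.1 h2.symm
      refine ⟨hk, ?_⟩
      set z := f^[k + 1] x with hz
      have h1 : s(z, f z) ∈ fed g := h' ▸ ⟨z, hf.ne hk, rfl⟩
      obtain ⟨y, hy, hy2⟩ := h1
      rw [Function.iterate_succ_apply' f (k + 1), ← hz]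
      simp only [Sym2.eq_iff] at hy2
      rcases hy2 with h2 | h2
      · exfalso
        have h3 : f z = f^[k] x := by rw [h2.2, ← h2.1, ih.2]
        have h4 : z = f (f^[k] x) := by rw [hz, Function.iterate_succ_apply']
        apply hf.no_two ih.1
        rw [← h4, h3]
      · rw [h2.2, ← h2.1]
  obtain ⟨k, hk⟩ := hf.2 x
  exact (key k).1 hk

theorem exists_arb (T : SimpleGraph V) (hT : T.IsTree) (r : V) :
    ∃ f : V → V, Arb f r ∧ gf f = T := by
  classical
  have hnext : ∀ v : V, ∃ u : V, (v = r → u = r) ∧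
      (v ≠ r → T.Adj v u ∧ T.dist u r + 1 ≤ T.dist v r) := by
    intro v
    by_cases hv : v = r
    · exact ⟨r, fun _ => rfl, fun h => absurd hv h⟩
    · obtain ⟨w, hw⟩ := (hT.connected.preconnected v r).exists_walk_length_eq_dist
      cases w with
      | nil => exact absurd rfl hv
      | @cons _ u _ hadj w =>
        refine ⟨u, fun h => absurd h hv, fun _ => ⟨hadj, ?_⟩⟩
        rw [← hw, SimpleGraph.Walk.length_cons]
        have := SimpleGraph.dist_le w
        omega
  choose f hf using hnext
  have harb : Arb f r := by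
    refine ⟨(hf r).1 rfl, ?_⟩
    intro x
    have : ∀ k : ℕ, ∀ x, T.dist x r ≤ k → ∃ k : ℕ, f^[k] x = r := by
      intro k
      induction k with
      | zero =>
        intro x hx
        have h0 : T.dist x r = 0 := by omega
        rw [(hT.connected.preconnected x r).dist_eq_zero_iff] at h0
        exact ⟨0, h0⟩
      | succ k ih =>
        intro x hx
        by_cases hxr : x = r
        · exact ⟨0, hxr⟩
        · obtain ⟨j, hj⟩ := ih (f x) (by have := ((hf x).2 hxr).2; omega)
          exact ⟨j + 1, by rw [Function.iterate_succ_apply]; exact hj⟩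
    exact this _ x le_rfl
  refine ⟨f, harb, ?_⟩
  have hle : gf f ≤ T := by
    rw [← SimpleGraph.edgeSet_subset_edgeSet, gf_edgeSet]
    rintro e ⟨x, hx, rfl⟩
    rw [SimpleGraph.mem_edgeSet]
    have hxr : x ≠ r := by
      rintro rfl
      exact hx harb.1
    exact ((hf x).2 hxr).1
  have hc1 := (SimpleGraph.isTree_iff_connected_and_card.1 hT).2
  have hc2 := (SimpleGraph.isTree_iff_connected_and_card.1 (gf_isTree harb)).2
  apply SimpleGraph.edgeSet_injective
  apply Set.eq_of_subset_of_ncard_le (SimpleGraph.edgeSet_subset_edgeSet.2 hle)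
  · rw [← Nat.card_coe_set_eq, ← Nat.card_coe_set_eq]
    omega

open Classical in
/-- total weight of the spanning trees with a property -/
def sumT (κ : Sym2 V → ℝ) (A : SimpleGraph V → Prop) : ℝ :=
  ∑ T ∈ univ.filter (fun T : SimpleGraph V => T.IsTree ∧ A T), wT κ T

theorem wT_nonneg {κ : Sym2 V → ℝ} (h : ∀ e, 0 ≤ κ e) (T : SimpleGraph V) : 0 ≤ wT κ T :=
  Finset.prod_nonneg (fun _ _ => h _)

theorem sumA_le_sumT {κ : Sym2 V → ℝ} (h : ∀ e, 0 ≤ κ e) (A : SimpleGraph V → Prop) (r : V) :
    sumA κ r (fun f => open Classical in if A (gf f) then 1 else 0) ≤ sumT κ A := by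
  classical
  unfold sumA sumT
  have e1 : ∑ f ∈ univ.filter (fun f : V → V => Arb f r), Wt κ f r *
      (if A (gf f) then (1:ℝ) else 0) =
      ∑ f ∈ univ.filter (fun f : V → V => Arb f r ∧ A (gf f)), wT κ (gf f) := by
    rw [Finset.sum_filter, Finset.sum_filter]
    apply Finset.sum_congr rfl
    intro f _
    by_cases hf : Arb f r
    · by_cases hA : A (gf f)
      · rw [if_pos hf, if_pos hA, if_pos ⟨hf, hA⟩, wT_gf κ hf, mul_one]
      · rw [if_pos hf, if_neg hA, if_neg (fun h => hA h.2), mul_zero]
    · rw [if_neg hf, if_neg (fun h => hf h.1)]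
  have e2 : Set.InjOn (fun f : V → V => gf f)
      ((univ.filter (fun f : V → V => Arb f r ∧ A (gf f)) : Finset (V → V)) : Set (V → V)) := by
    intro f hf g hg hfg
    rw [Finset.coe_filter, Set.mem_ofPred_eq] at hf hg
    exact gf_inj hf.2.1 hg.2.1 hfg
  have e3 : ∑ f ∈ univ.filter (fun f : V → V => Arb f r ∧ A (gf f)), wT κ (gf f) =
      ∑ T ∈ (univ.filter (fun f : V → V => Arb f r ∧ A (gf f))).image (fun f => gf f),
        wT κ T := (Finset.sum_image (f := wT κ) e2).symm
  refine (le_of_eq (Eq.trans ?_ (e1.trans e3))).trans ?_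
  · apply Finset.sum_congr rfl
    intro f _
    congr 1
  apply Finset.sum_le_sum_of_subset_of_nonneg
  · intro T hT
    obtain ⟨f, hf, rfl⟩ := Finset.mem_image.1 hT
    rw [Finset.mem_filter] at hf ⊢
    exact ⟨Finset.mem_univ _, gf_isTree hf.2.1, hf.2.2⟩
  · intro T _ _
    exact wT_nonneg h T

theorem sumT_le_sumA {κ : Sym2 V → ℝ} (h : ∀ e, 0 ≤ κ e) (r : V) :
    sumT κ (fun _ => True) ≤ sumA κ r (fun _ => 1) := by
  classical
  unfold sumA sumT
  have hch : ∀ T ∈ univ.filter (fun T : SimpleGraph V => T.IsTree ∧ True),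
      ∃ f : V → V, Arb f r ∧ gf f = T := by
    intro T hT
    rw [Finset.mem_filter] at hT
    exact exists_arb T hT.2.1 r
  have hne : Nonempty (V → V) := ⟨id⟩
  choose! F hF using hch
  calc _ = ∑ T ∈ univ.filter (fun T : SimpleGraph V => T.IsTree ∧ True), Wt κ (F T) r := by
        refine Finset.sum_congr (by ext T; simp) ?_
        intro T hT
        rw [← wT_gf κ (hF T hT).1, (hF T hT).2]
    _ = ∑ f ∈ (univ.filter (fun T : SimpleGraph V => T.IsTree ∧ True)).image F, Wt κ f r := by
        rw [Finset.sum_image]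
        intro T hT T' hT' hTT
        rw [← (hF T hT).2, ← (hF T' hT').2, hTT]
    _ ≤ ∑ f ∈ univ.filter (fun f : V → V => Arb f r), Wt κ f r := by
        apply Finset.sum_le_sum_of_subset_of_nonneg
        · intro f hf
          obtain ⟨T, hT, rfl⟩ := Finset.mem_image.1 hf
          rw [Finset.mem_filter]
          exact ⟨Finset.mem_univ _, (hF T hT).1⟩
        · intro f _ _
          exact Wt_nonneg h f r
    _ = _ := by simp

/-- the Aldous-Broder inequality: an increasing event for the tree is at least as likely as for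
the first entrance edges of the walk at a given time -/
theorem aldous_broder {κ : Sym2 V → ℝ} (h : ∀ e, 0 ≤ κ e) (A : Set (Sym2 V) → Prop)
    (hA : ∀ S S' : Set (Sym2 V), S ⊆ S' → A S → A S') (m : ℕ) (r : V) :
    sumT κ (fun _ => True) * run κ (fun l => open Classical in if A (fe l) then 1 else 0) m r [] ≤
      sumT κ (fun T => A T.edgeSet) := by
  classical
  set Z := sumT κ (fun _ => True) with hZ
  have hZ0 : 0 ≤ Z := Finset.sum_nonneg (fun T _ => wT_nonneg h T)
  set ψ : List V → ℝ := fun l => match l with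
      | [] => 0
      | (y :: s) => sumA κ y (fun f => (fun g : V → V => if A (gf g).edgeSet then (1:ℝ) else 0)
        (endf f (y :: s))) with hψ
  have h1 : Z * run κ (fun l => if A (fe l) then 1 else 0) m r [] ≤ run κ ψ m r [] := by
    have h2 : ∀ (m : ℕ) (x : V) (t : List V), List.IsChain (· ≠ ·) (x :: t) →
        Z * run κ (fun l => if A (fe l) then 1 else 0) m x t ≤ run κ ψ m x t := by
      intro m
      induction m with
      | zero =>
        intro x t ht
        show Z * (if A (fe (x :: t)) then 1 else 0) ≤ sumA κ x _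
        by_cases hAt : A (fe (x :: t))
        · rw [if_pos hAt, mul_one]
          refine (sumT_le_sumA h x).trans ?_
          unfold sumA
          apply Finset.sum_le_sum
          intro f _
          apply mul_le_mul_of_nonneg_left _ (Wt_nonneg h f x)
          show (1:ℝ) ≤ if A (gf (endf f (x :: t))).edgeSet then (1:ℝ) else 0
          rw [if_pos]
          apply hA _ _ _ hAt
          rw [gf_edgeSet]
          exact fe_subset _ f ht
        · rw [if_neg hAt, mul_zero]
          unfold sumA
          apply Finset.sum_nonneg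
          intro f _
          apply mul_nonneg (Wt_nonneg h f x)
          show (0:ℝ) ≤ if A (gf (endf f (x :: t))).edgeSet then (1:ℝ) else 0
          split_ifs <;> norm_num
      | succ m ih =>
        intro x t ht
        show Z * ∑ y, tr κ x y * run κ _ m y (x :: t) ≤ ∑ y, tr κ x y * run κ ψ m y (x :: t)
        rw [Finset.mul_sum]
        apply Finset.sum_le_sum
        intro y _
        by_cases hy : y = x
        · rw [hy, tr_self, zero_mul, zero_mul, mul_zero]
        · have h3 := ih y (x :: t) (List.isChain_cons_cons.2 ⟨hy, ht⟩)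
          have h4 := tr_nonneg h x y
          nlinarith
    exact h2 m r [] (List.isChain_singleton r)
  refine h1.trans ?_
  refine (run_le_sumA h (fun g : V → V => if A (gf g).edgeSet then (1:ℝ) else 0)
    (fun g => by split_ifs <;> norm_num) m r []).trans ?_
  refine le_trans (le_of_eq ?_) (sumA_le_sumT h (fun T => A T.edgeSet) r)
  unfold sumA endf
  apply Finset.sum_congr rfl
  intro f _
  congr 1

end

end Pool.Agent.TH972
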