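import Mathlib

/-!
# Rooted trees as functions and the walk on them
-/

set_option autoImplicit false
set_option linter.unusedSectionVars false

namespace Pool.Agent.TH972

open Finset

noncomputable section

variable {V : Type*} [Fintype V] [DecidableEq V]

/-- the conductances between two vertices -/
def Kc (κ : Sym2 V → ℝ) (x y : V) : ℝ := if x = y then 0 else κ s(x, y)

/-- total conductance at a vertex -/
def cs (κ : Sym2 V → ℝ) (x : V) : ℝ := ∑ y, Kc κ x y

/-- transition probabilities -/
def tr (κ : Sym2 V → ℝ) (x y : V) : ℝ := Kc κ x y / cs κ x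

theorem Kc_nonneg {κ : Sym2 V → ℝ} (h : ∀ e, 0 ≤ κ e) (x y : V) : 0 ≤ Kc κ x y := by
  unfold Kc; split_ifs
  · exact le_rfl
  · exact h _

theorem Kc_symm (κ : Sym2 V → ℝ) (x y : V) : Kc κ x y = Kc κ y x := by
  unfold Kc
  by_cases h : x = y
  · rw [if_pos h, if_pos h.symm]
  · rw [if_neg h, if_neg (fun h' => h h'.symm), Sym2.eq_swap]

theorem Kc_self (κ : Sym2 V → ℝ) (x : V) : Kc κ x x = 0 := if_pos rfl

theorem cs_nonneg {κ : Sym2 V → ℝ} (h : ∀ e, 0 ≤ κ e) (x : V) : 0 ≤ cs κ x :=
  Finset.sum_nonneg (fun _ _ => Kc_nonneg h _ _)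

theorem tr_nonneg {κ : Sym2 V → ℝ} (h : ∀ e, 0 ≤ κ e) (x y : V) : 0 ≤ tr κ x y :=
  div_nonneg (Kc_nonneg h _ _) (cs_nonneg h _)

theorem tr_self (κ : Sym2 V → ℝ) (x : V) : tr κ x x = 0 := by
  unfold tr; rw [Kc_self, zero_div]

theorem sum_tr_le {κ : Sym2 V → ℝ} (h : ∀ e, 0 ≤ κ e) (x : V) : ∑ y, tr κ x y ≤ 1 := by
  unfold tr
  rw [← Finset.sum_div]
  rcases (cs_nonneg h x).eq_or_lt with h0 | h0
  · rw [← h0, div_zero]; norm_num
  · exact (div_self h0.ne').le

/-- `f` is a tree with root `r` -/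
def Arb (f : V → V) (r : V) : Prop := f r = r ∧ ∀ x, ∃ k : ℕ, f^[k] x = r

/-- weight of a rooted tree -/
def Wt (κ : Sym2 V → ℝ) (f : V → V) (r : V) : ℝ := ∏ x ∈ univ.erase r, Kc κ x (f x)

/-- move the root from `y` to `x` -/
def upd (f : V → V) (y x : V) : V → V := Function.update (Function.update f y x) x x

omit [Fintype V] in
theorem upd_self (f : V → V) (y x : V) : upd f y x x = x := by
  unfold upd; rw [Function.update_self]

omit [Fintype V] in
theorem upd_old (f : V → V) {y x : V} (h : y ≠ x) : upd f y x y = x := by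
  unfold upd; rw [Function.update_of_ne h, Function.update_self]

omit [Fintype V] in
theorem upd_other (f : V → V) {y x z : V} (h : z ≠ x) (h' : z ≠ y) : upd f y x z = f z := by
  unfold upd; rw [Function.update_of_ne h, Function.update_of_ne h']

omit [Fintype V] in
theorem Arb.upd {f : V → V} {y : V} (hf : Arb f y) (x : V) (hxy : y ≠ x) :
    Arb (upd f y x) x := by
  refine ⟨upd_self f y x, ?_⟩
  intro z
  obtain ⟨k, hk⟩ := hf.2 z
  induction k generalizing z with
  | zero =>
    simp only [Function.iterate_zero, id_eq] at hk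
    subst hk
    exact ⟨1, by simpa using upd_old f hxy⟩
  | succ k ih =>
    by_cases hzx : z = x
    · exact ⟨0, by simpa using hzx⟩
    by_cases hzy : z = y
    · subst hzy
      exact ⟨1, by simpa using upd_old f hxy⟩
    rw [Function.iterate_succ_apply] at hk
    obtain ⟨j, hj⟩ := ih (f z) hk
    refine ⟨j + 1, ?_⟩
    rw [Function.iterate_succ_apply, upd_other f hzx hzy]
    exact hj

omit [Fintype V] in
/-- the path from `f x` to the old root in the new tree -/
theorem Arb.exists_path {f : V → V} {y : V} (hf : Arb f y) (x : V) :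
    ∃ k : ℕ, (Pool.Agent.TH972.upd f y x)^[k] (f x) = y := by
  classical
  set s := f x with hs
  have hex : ∃ k : ℕ, f^[k] s = y := hf.2 s
  set k := Nat.find hex with hk
  have hk1 : f^[k] s = y := Nat.find_spec hex
  have hmin : ∀ i < k, f^[i] s ≠ y := fun i hi => Nat.find_min hex hi
  have hnx : ∀ i < k, f^[i] s ≠ x := by
    intro i hi he
    have h1 : f^[i + 1] s = s := by
      rw [Function.iterate_succ_apply', he]
    have h2 : f^[k] s = f^[k - (i + 1)] s := by
      conv_lhs => rw [show k = (k - (i + 1)) + (i + 1) by omega]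
      rw [Function.iterate_add_apply, h1]
    exact hmin (k - (i + 1)) (by omega) (h2 ▸ hk1)
  have heq : ∀ i ≤ k, (Pool.Agent.TH972.upd f y x)^[i] s = f^[i] s := by
    intro i
    induction i with
    | zero => intro _; rfl
    | succ i ih =>
      intro hi
      rw [Function.iterate_succ_apply', Function.iterate_succ_apply', ih (by omega)]
      exact upd_other f (hnx i (by omega)) (hmin i (by omega))
  exact ⟨k, (heq k le_rfl).trans hk1⟩

omit [Fintype V] [DecidableEq V] in
theorem last_unique {g : V → V} {x s y y' : V} (hx : g x = x) {k k' : ℕ}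
    (h : g^[k] s = y) (h' : g^[k'] s = y') (hy : g y = x) (hy' : g y' = x)
    (hyx : y ≠ x) (hyx' : y' ≠ x) : y = y' := by
  have fix : ∀ j, g^[j] x = x := fun j => Function.iterate_fixed hx j
  have key : ∀ (a b : V) (i j : ℕ), g^[i] s = a → g^[j] s = b → g a = x → b ≠ x → ¬ i < j := by
    intro a b i j h1 h2 h3 h4 hij
    apply h4
    rw [← h2, show j = (j - i - 1) + (1 + i) by omega, Function.iterate_add_apply,
      Function.iterate_add_apply, h1, Function.iterate_one, h3, fix]
  have h1 := key y y' k k' h h' hy hyx'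
  have h2 := key y' y k' k h' h hy' hyx
  have : k = k' := by omega
  subst this
  exact h.symm.trans h'

theorem upd_inj {f₁ f₂ : V → V} {y₁ y₂ x : V} (h₁ : Arb f₁ y₁) (h₂ : Arb f₂ y₂)
    (n₁ : y₁ ≠ x) (n₂ : y₂ ≠ x) (h : upd f₁ y₁ x = upd f₂ y₂ x) (hs : f₁ x = f₂ x) :
    y₁ = y₂ ∧ f₁ = f₂ := by
  obtain ⟨k₁, hk₁⟩ := h₁.exists_path x
  obtain ⟨k₂, hk₂⟩ := h₂.exists_path x
  have hy : y₁ = y₂ := by
    rw [← hs, ← h] at hk₂
    refine last_unique (upd_self f₁ y₁ x) hk₁ hk₂ (upd_old f₁ n₁) ?_ n₁ n₂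
    rw [h]; exact upd_old f₂ n₂
  subst hy
  refine ⟨rfl, ?_⟩
  funext z
  by_cases hzx : z = x
  · rw [hzx]; exact hs
  by_cases hzy : z = y₁
  · rw [hzy, h₁.1, h₂.1]
  rw [← upd_other f₁ hzx hzy, ← upd_other f₂ hzx hzy, h]

theorem Wt_upd (κ : Sym2 V → ℝ) (f : V → V) {x y : V} (h : y ≠ x) :
    Kc κ x y * Wt κ f y = Wt κ (upd f y x) x * Kc κ x (f x) := by
  unfold Wt
  have hx : x ∈ (univ : Finset V).erase y := Finset.mem_erase.2 ⟨h.symm, Finset.mem_univ _⟩
  have hy : y ∈ (univ : Finset V).erase x := Finset.mem_erase.2 ⟨h, Finset.mem_univ _⟩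
  rw [← Finset.mul_prod_erase _ _ hx, ← Finset.mul_prod_erase _ _ hy, upd_old f h,
    Finset.erase_right_comm, Kc_symm κ y x]
  have : ∏ z ∈ ((univ : Finset V).erase x).erase y, Kc κ z (upd f y x z) =
      ∏ z ∈ ((univ : Finset V).erase x).erase y, Kc κ z (f z) := by
    apply Finset.prod_congr rfl
    intro z hz
    rw [Finset.mem_erase, Finset.mem_erase] at hz
    rw [upd_other f hz.2.1 hz.1]
  rw [this]
  ring

theorem Wt_nonneg {κ : Sym2 V → ℝ} (h : ∀ e, 0 ≤ κ e) (f : V → V) (r : V) : 0 ≤ Wt κ f r :=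
  Finset.prod_nonneg (fun _ _ => Kc_nonneg h _ _)

open Classical in
/-- sum over the trees with root `r` -/
def sumA (κ : Sym2 V → ℝ) (r : V) (G : (V → V) → ℝ) : ℝ :=
  ∑ f ∈ univ.filter (fun f : V → V => Arb f r), Wt κ f r * G f

theorem sub_inv {κ : Sym2 V → ℝ} (h : ∀ e, 0 ≤ κ e) (x : V) (G : (V → V) → ℝ)
    (hG : ∀ f, 0 ≤ G f) :
    ∑ y, tr κ x y * sumA κ y (fun f => G (upd f y x)) ≤ sumA κ x G := by
  classical
  rcases (cs_nonneg h x).eq_or_lt with h0 | h0
  · have : ∀ y, tr κ x y = 0 := fun y => by unfold tr; rw [← h0, div_zero]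
    simp only [this, zero_mul, Finset.sum_const_zero]
    unfold sumA
    exact Finset.sum_nonneg (fun f _ => mul_nonneg (Wt_nonneg h _ _) (hG _))
  set I : Finset (V × (V → V)) := (univ : Finset (V × (V → V))).filter
    (fun q => q.1 ≠ x ∧ Arb q.2 q.1) with hI
  have e1 : ∑ y, tr κ x y * sumA κ y (fun f => G (upd f y x)) =
      ∑ q ∈ I, (cs κ x)⁻¹ * (Wt κ (upd q.2 q.1 x) x * Kc κ x (q.2 x) * G (upd q.2 q.1 x)) := by
    rw [hI, Finset.sum_filter, Fintype.sum_prod_type]
    apply Finset.sum_congr rfl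
    intro y _
    unfold sumA
    rw [Finset.mul_sum, Finset.sum_filter]
    apply Finset.sum_congr rfl
    intro f _
    by_cases hy : y = x
    · subst hy
      rw [tr_self]
      simp
    · by_cases hf : Arb f y
      · rw [if_pos hf, if_pos ⟨hy, hf⟩, ← Wt_upd κ f hy]
        unfold tr
        rw [div_eq_mul_inv]
        ring
      · rw [if_neg hf, if_neg (fun h' => hf h'.2)]
  rw [e1]
  set Θ : V × (V → V) → (V → V) × V := fun q => (upd q.2 q.1 x, q.2 x) with hΘ
  have hinj : Set.InjOn Θ I := by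
    rintro ⟨y₁, f₁⟩ hq₁ ⟨y₂, f₂⟩ hq₂ h12
    rw [hI, Finset.coe_filter, Set.mem_ofPred_eq] at hq₁ hq₂
    have h3 : upd f₁ y₁ x = upd f₂ y₂ x ∧ f₁ x = f₂ x := by
      rw [hΘ] at h12
      exact ⟨congrArg Prod.fst h12, congrArg Prod.snd h12⟩
    obtain ⟨h4, h5⟩ := upd_inj hq₁.2.2 hq₂.2.2 hq₁.2.1 hq₂.2.1 h3.1 h3.2
    exact Prod.ext h4 h5
  calc ∑ q ∈ I, (cs κ x)⁻¹ * (Wt κ (upd q.2 q.1 x) x * Kc κ x (q.2 x) * G (upd q.2 q.1 x))
      = ∑ q ∈ I.image Θ, (cs κ x)⁻¹ * (Wt κ q.1 x * Kc κ x q.2 * G q.1) := by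
        rw [Finset.sum_image hinj]
    _ ≤ ∑ q ∈ (univ.filter (fun f : V → V => Arb f x)) ×ˢ (univ : Finset V),
          (cs κ x)⁻¹ * (Wt κ q.1 x * Kc κ x q.2 * G q.1) := by
        apply Finset.sum_le_sum_of_subset_of_nonneg
        · intro q hq
          obtain ⟨⟨y, f⟩, hq', rfl⟩ := Finset.mem_image.1 hq
          rw [hI, Finset.mem_filter] at hq'
          rw [Finset.mem_product, Finset.mem_filter]
          exact ⟨⟨Finset.mem_univ _, hq'.2.2.upd x hq'.2.1⟩, Finset.mem_univ _⟩
        · intro q _ _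
          have a := Wt_nonneg h q.1 x
          have b := Kc_nonneg h x q.2
          have c := hG q.1
          have d := cs_nonneg h x
          positivity
    _ = sumA κ x G := by
        unfold sumA
        rw [Finset.sum_product]
        apply Finset.sum_congr rfl
        intro f _
        simp only
        have : ∀ y, (cs κ x)⁻¹ * (Wt κ f x * Kc κ x y * G f) =
            (cs κ x)⁻¹ * (Wt κ f x * G f) * Kc κ x y := fun y => by ring
        simp only [this]
        rw [← Finset.mul_sum]
        show (cs κ x)⁻¹ * (Wt κ f x * G f) * cs κ x = _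
        field_simp

/-- edges of first entrance; the list is the history, the last position first -/
def fe : List V → Set (Sym2 V)
  | [] => ∅
  | [_] => ∅
  | (y :: x :: t) => if y ∈ x :: t then fe (x :: t) else insert s(x, y) (fe (x :: t))

/-- the tree at the end of the path `h`, started with the tree `f` with root the head of `h` -/
def endf (f : V → V) : List V → (V → V)
  | [] => f
  | [_] => f
  | (y :: x :: t) => endf (upd f y x) (x :: t)

/-- edges of a function -/
def fed (f : V → V) : Set (Sym2 V) := {e | ∃ x, f x ≠ x ∧ e = s(x, f x)}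

omit [Fintype V] in
theorem endf_of_notMem (h : List V) (f : V → V) (z : V) (hz : z ∉ h) : endf f h z = f z := by
  induction h generalizing f with
  | nil => rfl
  | cons y t ih =>
    cases t with
    | nil => rfl
    | cons x t =>
      show endf (upd f y x) (x :: t) z = f z
      rw [ih (upd f y x) (fun h' => hz (List.mem_cons_of_mem _ h'))]
      apply upd_other
      · intro h'; apply hz; rw [h']; simp
      · intro h'; apply hz; rw [h']; simp

omit [Fintype V] in
theorem fe_subset (h : List V) (f : V → V) (hne : List.IsChain (· ≠ ·) h) :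
    fe h ⊆ fed (endf f h) := by
  induction h generalizing f with
  | nil => intro e he; exact absurd he (Set.notMem_empty _)
  | cons y t ih =>
    cases t with
    | nil => intro e he; exact absurd he (Set.notMem_empty _)
    | cons x t =>
      rw [List.isChain_cons_cons] at hne
      have ih' := ih (upd f y x) hne.2
      show fe (y :: x :: t) ⊆ fed (endf (upd f y x) (x :: t))
      unfold fe
      split_ifs with hy
      · exact ih'
      · intro e he
        rcases he with he | he
        · have h1 : endf (upd f y x) (x :: t) y = x := by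
            rw [endf_of_notMem _ _ _ hy]
            exact upd_old f hne.1
          refine ⟨y, ?_, ?_⟩
          · rw [h1]; exact hne.1.symm
          · rw [h1, he, Sym2.eq_swap]
        · exact ih' he

/-- the expectation of `φ` after `m` steps of the walk with history `x :: t` -/
def run (κ : Sym2 V → ℝ) (φ : List V → ℝ) : ℕ → V → List V → ℝ
  | 0, x, t => φ (x :: t)
  | (m + 1), x, t => ∑ y, tr κ x y * run κ φ m y (x :: t)

theorem run_mono {κ : Sym2 V → ℝ} (h : ∀ e, 0 ≤ κ e) {φ ψ : List V → ℝ}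
    (hφ : ∀ t : List V, List.IsChain (· ≠ ·) t → φ t ≤ ψ t) (m : ℕ) (x : V) (t : List V)
    (ht : List.IsChain (· ≠ ·) (x :: t)) : run κ φ m x t ≤ run κ ψ m x t := by
  induction m generalizing x t with
  | zero => exact hφ _ ht
  | succ m ih =>
    apply Finset.sum_le_sum
    intro y _
    by_cases hy : y = x
    · rw [hy, tr_self, zero_mul, zero_mul]
    · apply mul_le_mul_of_nonneg_left (ih y (x :: t) _) (tr_nonneg h x y)
      exact List.isChain_cons_cons.2 ⟨hy, ht⟩

/-- super martingale property -/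
theorem run_le_sumA {κ : Sym2 V → ℝ} (h : ∀ e, 0 ≤ κ e) (A : (V → V) → ℝ) (hA : ∀ f, 0 ≤ A f)
    (m : ℕ) (x : V) (t : List V) :
    run κ (fun l => match l with
      | [] => 0
      | (y :: s) => sumA κ y (fun f => A (endf f (y :: s)))) m x t ≤
      sumA κ x (fun f => A (endf f (x :: t))) := by
  induction m generalizing x t with
  | zero => exact le_rfl
  | succ m ih =>
    calc _ ≤ ∑ y, tr κ x y * sumA κ y (fun f => A (endf f (y :: x :: t))) := by
          apply Finset.sum_le_sum
          intro y _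
          exact mul_le_mul_of_nonneg_left (ih y (x :: t)) (tr_nonneg h x y)
      _ = ∑ y, tr κ x y * sumA κ y (fun f => (fun g => A (endf g (x :: t))) (upd f y x)) := rfl
      _ ≤ _ := sub_inv h x (fun g => A (endf g (x :: t))) (fun _ => hA _)

end

end Pool.Agent.TH972
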