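import Pool.Agent.TH972.Expect

/-!
# The annealed walk
-/

set_option autoImplicit false
set_option linter.unusedSectionVars false

namespace Pool.Agent.TH972

open Finset MeasureTheory Pool.Agent.W842.RST

noncomputable section

variable {n : ℕ}

/-- parameters of the walk -/
structure Prm (n : ℕ) where
  /-- inverse temperature -/
  β : ℝ
  /-- open edges have variable at most `p1` -/
  p1 : ℝ
  /-- top edges have variable larger than `pt` -/
  pt : ℝ
  /-- target -/
  R : Finset (Fin n)
  /-- number of vertices -/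
  k0 : ℕ

/-- conductances of the open edges -/
def kap1 (β p1 : ℝ) (U : Ev n) (e : Sym2 (Fin n)) : ℝ :=
  open Classical in if U e ≤ p1 then Real.exp (-(β * U e)) else 0

theorem kap1_nonneg (β p1 : ℝ) (U : Ev n) (e : Sym2 (Fin n)) : 0 ≤ kap1 β p1 U e := by
  unfold kap1; split_ifs
  · exact (Real.exp_pos _).le
  · exact le_rfl

/-- the data of the walk in the environment `U` -/
def Dt (P : Prm n) (U : Ev n) : Dat (Fin n) where
  κ := kap1 P.β P.p1 U
  g := fun e => U e ≤ P.p1
  top := fun e => P.pt < U e
  R := P.R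
  k0 := P.k0
  κ0 := kap1_nonneg _ _ _
  κg := by
    intro e he
    by_contra hcon
    apply he
    unfold kap1
    rw [if_neg hcon]

/-- `U` and `U'` agree on the edges which touch `B` -/
def agr (B : List (Fin n)) (U U' : Ev n) : Prop := ∀ b ∈ B, ∀ c, U s(b, c) = U' s(b, c)

theorem agr.mono {B B' : List (Fin n)} {U U' : Ev n} (h : agr B U U') (hB : ∀ b ∈ B', b ∈ B) :
    agr B' U U' := fun b hb c => h b (hB b hb) c

section

variable (P : Prm n) {U U' : Ev n}

theorem Kc_congr {a b : Fin n} (h : U s(a, b) = U' s(a, b)) :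
    Kc (Dt P U).κ a b = Kc (Dt P U').κ a b := by
  show Kc (kap1 P.β P.p1 U) a b = Kc (kap1 P.β P.p1 U') a b
  unfold Kc kap1
  rw [h]

theorem cs_congr {a : Fin n} (h : ∀ c, U s(a, c) = U' s(a, c)) :
    cs (Dt P U).κ a = cs (Dt P U').κ a :=
  Finset.sum_congr rfl (fun c _ => Kc_congr P (h c))

theorem tr_congr {a b : Fin n} (h : ∀ c, U s(a, c) = U' s(a, c)) :
    tr (Dt P U).κ a b = tr (Dt P U').κ a b := by
  unfold tr
  rw [Kc_congr P (h b), cs_congr P h]

theorem clo_congr {x : Fin n} {t : List (Fin n)} (h : ∀ w ∈ t, U s(w, x) = U' s(w, x)) :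
    clo (Dt P U).g x t ↔ clo (Dt P U').g x t := by
  unfold clo
  refine and_congr_right (fun _ => exists_congr (fun w => ?_))
  refine and_congr_right (fun hw => and_congr_right (fun _ => ?_))
  show U s(w, x) ≤ P.p1 ↔ U' s(w, x) ≤ P.p1
  rw [h w hw]

theorem stp_congr {x : Fin n} {t : List (Fin n)} (h : ∀ w ∈ t, U s(w, x) = U' s(w, x)) :
    stp (Dt P U) x t ↔ stp (Dt P U') x t := by
  unfold stp
  rw [clo_congr P h]
  rfl

theorem lev_congr (h : List (Fin n)) (hU : ∀ a ∈ h, ∀ b ∈ h, U s(a, b) = U' s(a, b)) :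
    lev (Dt P U).top h = lev (Dt P U').top h := by
  induction h with
  | nil => rfl
  | cons y t ih =>
    cases t with
    | nil => rfl
    | cons x t =>
      have ih' := ih (fun a ha b hb => hU a (List.mem_cons_of_mem _ ha) b
        (List.mem_cons_of_mem _ hb))
      by_cases hy : y ∈ x :: t
      · rw [lev_old _ hy, lev_old _ hy, ih']
      · funext w
        by_cases hw : w = y
        · subst hw
          rw [lev_new _ hy, lev_new _ hy, ih']
          have h1 : (Dt P U).top s(x, w) ↔ (Dt P U').top s(x, w) := by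
            show P.pt < U s(x, w) ↔ P.pt < U' s(x, w)
            rw [hU x (by simp) w (by simp)]
          by_cases h2 : (Dt P U).top s(x, w)
          · rw [if_pos h2, if_pos (h1.1 h2)]
          · rw [if_neg h2, if_neg (fun h => h2 (h1.2 h))]
        · rw [lev_other _ hw, lev_other _ hw, ih']

end

/-- annealed weight of a history -/
def wt (P : Prm n) (U : Ev n) : Fin n → List (Fin n) → ℝ
  | _, [] => 1
  | y, (x :: t) => open Classical in if stp (Dt P U) x t then 0 else
      wt P U x t * tr (Dt P U).κ x y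

section

variable (P : Prm n) (U : Ev n)

theorem wt_nonneg (y : Fin n) (s : List (Fin n)) : 0 ≤ wt P U y s := by
  induction s generalizing y with
  | nil => unfold wt; norm_num
  | cons x t ih =>
    unfold wt
    split_ifs
    · exact le_rfl
    · exact mul_nonneg (ih x) (tr_nonneg (Dt P U).κ0 x y)

theorem tr_le_one (x y : Fin n) : tr (Dt P U).κ x y ≤ 1 :=
  (Finset.single_le_sum (f := fun y => tr (Dt P U).κ x y)
    (fun y _ => tr_nonneg (Dt P U).κ0 x y) (Finset.mem_univ y)).trans (sum_tr_le (Dt P U).κ0 x)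

theorem wt_le_one (y : Fin n) (s : List (Fin n)) : wt P U y s ≤ 1 := by
  induction s generalizing y with
  | nil => unfold wt; norm_num
  | cons x t ih =>
    unfold wt
    split_ifs
    · norm_num
    · exact mul_le_one₀ (ih x) (tr_nonneg (Dt P U).κ0 x y) (tr_le_one P U x y)

theorem wt_congr {U U' : Ev n} (y : Fin n) (s : List (Fin n)) (h : agr s U U') :
    wt P U y s = wt P U' y s := by
  induction s generalizing y with
  | nil => rfl
  | cons x t ih =>
    have h1 : stp (Dt P U) x t ↔ stp (Dt P U') x t :=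
      stp_congr P (fun w hw => h w (List.mem_cons_of_mem _ hw) x)
    unfold wt
    rw [ih x (h.mono (fun b hb => List.mem_cons_of_mem _ hb)),
      tr_congr P (h x List.mem_cons_self)]
    by_cases hs : stp (Dt P U) x t
    · rw [if_pos hs, if_pos (h1.1 hs)]
    · rw [if_neg hs, if_neg (fun h' => hs (h1.2 h'))]

theorem wt_ne_zero {y x : Fin n} {t : List (Fin n)} (h : wt P U y (x :: t) ≠ 0) :
    ¬ stp (Dt P U) x t ∧ wt P U x t ≠ 0 := by
  unfold wt at h
  by_cases hs : stp (Dt P U) x t
  · rw [if_pos hs] at h; exact absurd rfl h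
  · rw [if_neg hs] at h
    exact ⟨hs, fun h0 => h (by rw [h0, zero_mul])⟩

theorem wt_R {y : Fin n} {s : List (Fin n)} (h : wt P U y s ≠ 0) : ∀ w ∈ s, w ∉ P.R := by
  induction s generalizing y with
  | nil => intro w hw; exact absurd hw (by simp)
  | cons x t ih =>
    obtain ⟨h1, h2⟩ := wt_ne_zero P U h
    intro w hw
    rcases List.mem_cons.1 hw with h3 | h3
    · rw [h3]
      exact fun h4 => h1 (Or.inl h4)
    · exact ih h2 w h3

theorem wt_card {y x : Fin n} {t : List (Fin n)} (h : wt P U y (x :: t) ≠ 0) :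
    (vis x t).card < P.k0 := by
  obtain ⟨h1, _⟩ := wt_ne_zero P U h
  by_contra hcon
  exact h1 (Or.inr (Or.inr (not_lt.1 hcon)))

end

/-! ### measurability -/

section

variable (P : Prm n)

theorem meas_U (e : Sym2 (Fin n)) : Measurable (fun U : Ev n => U e) := measurable_pi_apply e

theorem mset_le (e : Sym2 (Fin n)) (p : ℝ) : MeasurableSet {U : Ev n | U e ≤ p} :=
  measurableSet_le (meas_U e) measurable_const

theorem mset_lt (e : Sym2 (Fin n)) (p : ℝ) : MeasurableSet {U : Ev n | p < U e} :=
  measurableSet_lt measurable_const (meas_U e)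

theorem meas_kap1 (β p1 : ℝ) (e : Sym2 (Fin n)) : Measurable (fun U : Ev n => kap1 β p1 U e) := by
  unfold kap1
  apply Measurable.ite (mset_le e p1)
  · exact Real.measurable_exp.comp ((meas_U e).const_mul β).neg
  · exact measurable_const

theorem meas_Kc (a b : Fin n) : Measurable (fun U : Ev n => Kc (Dt P U).κ a b) := by
  show Measurable (fun U : Ev n => Kc (kap1 P.β P.p1 U) a b)
  unfold Kc
  by_cases h : a = b
  · simp only [if_pos h]; exact measurable_const
  · simp only [if_neg h]; exact meas_kap1 _ _ _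

theorem meas_cs (a : Fin n) : Measurable (fun U : Ev n => cs (Dt P U).κ a) := by
  unfold cs
  exact Finset.measurable_sum _ (fun b _ => meas_Kc P a b)

theorem BM_tr (a b : Fin n) : BM (fun U : Ev n => tr (Dt P U).κ a b) := by
  refine ⟨?_, 1, fun U => ?_⟩
  · unfold tr
    exact (meas_Kc P a b).div (meas_cs P a)
  · rw [abs_of_nonneg (tr_nonneg (Dt P U).κ0 a b)]
    exact tr_le_one P U a b

theorem mset_clo (x : Fin n) (t : List (Fin n)) :
    MeasurableSet {U : Ev n | clo (Dt P U).g x t} := by
  unfold clo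
  by_cases hx : x ∉ t
  · have : {U : Ev n | x ∉ t ∧ ∃ w ∈ t, t.head? ≠ some w ∧ (Dt P U).g s(w, x)} =
        ⋃ w ∈ {w | w ∈ t ∧ t.head? ≠ some w}, {U : Ev n | U s(w, x) ≤ P.p1} := by
      ext U
      simp only [Set.mem_ofPred_eq, Set.mem_iUnion, exists_prop]
      constructor
      · rintro ⟨_, w, h1, h2, h3⟩
        exact ⟨w, ⟨h1, h2⟩, h3⟩
      · rintro ⟨w, ⟨h1, h2⟩, h3⟩
        exact ⟨hx, w, h1, h2, h3⟩
    rw [this]
    exact MeasurableSet.biUnion (Set.to_countable _) (fun w _ => mset_le _ _)
  · have : {U : Ev n | x ∉ t ∧ ∃ w ∈ t, t.head? ≠ some w ∧ (Dt P U).g s(w, x)} = ∅ := by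
      ext U
      simp only [Set.mem_ofPred_eq, Set.mem_empty_iff_false, iff_false]
      exact fun h => hx h.1
    rw [this]
    exact MeasurableSet.empty

theorem mset_stp (x : Fin n) (t : List (Fin n)) : MeasurableSet {U : Ev n | stp (Dt P U) x t} := by
  have : {U : Ev n | stp (Dt P U) x t} = {U | x ∈ P.R} ∪ {U | clo (Dt P U).g x t} ∪
      {U | P.k0 ≤ (vis x t).card} := by
    ext U
    simp only [Set.mem_ofPred_eq, Set.mem_union]
    unfold stp
    rw [or_assoc]
    rfl
  rw [this]
  exact ((MeasurableSet.const _).union (mset_clo P x t)).union (MeasurableSet.const _)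

theorem BM_wt (y : Fin n) (s : List (Fin n)) : BM (fun U : Ev n => wt P U y s) := by
  induction s generalizing y with
  | nil => unfold wt; exact BM.const 1
  | cons x t ih =>
    unfold wt
    exact BM.ite (mset_stp P x t) (BM.const 0) ((ih x).mul (BM_tr P x y))

theorem meas_lev (h : List (Fin n)) (w : Fin n) :
    Measurable (fun U : Ev n => lev (Dt P U).top h w) := by
  induction h generalizing w with
  | nil => unfold lev; exact measurable_const
  | cons y t ih =>
    cases t with
    | nil => unfold lev; exact measurable_const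
    | cons x t =>
      by_cases hy : y ∈ x :: t
      · simp only [lev_old _ hy]
        exact ih w
      · by_cases hw : w = y
        · subst hw
          simp only [lev_new _ hy]
          apply (ih x).add
          exact Measurable.ite (mset_lt s(x, w) P.pt) measurable_const measurable_const
        · simp only [lev_other _ hw]
          exact ih w

theorem mset_lev (h : List (Fin n)) (w : Fin n) (q : ℕ → Prop) :
    MeasurableSet {U : Ev n | q (lev (Dt P U).top h w)} :=
  (meas_lev P h w) (MeasurableSet.of_discrete (s := {k | q k}))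

theorem mset_isL (j : ℕ) (y : Fin n) (s : List (Fin n)) :
    MeasurableSet {U : Ev n | isL (Dt P U) j y s} := by
  cases s with
  | nil =>
    have : {U : Ev n | isL (Dt P U) j y []} = ∅ := by
      ext U
      simp only [Set.mem_ofPred_eq, Set.mem_empty_iff_false, iff_false]
      exact fun h => h
    rw [this]; exact MeasurableSet.empty
  | cons x t =>
    have : {U : Ev n | isL (Dt P U) j y (x :: t)} = {U | y ∉ x :: t} ∩ {U | P.pt < U s(x, y)} ∩
        {U | lev (Dt P U).top (x :: t) x + 1 = j} := by
      ext U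
      simp only [Set.mem_ofPred_eq, Set.mem_inter_iff]
      unfold isL
      rw [and_assoc]
      rfl
    rw [this]
    exact ((MeasurableSet.const _).inter (mset_lt _ _)).inter
      (mset_lev P (x :: t) x (fun k => k + 1 = j))

theorem mset_new (y : Fin n) (s : List (Fin n)) (q : ℕ → Prop) :
    MeasurableSet {U : Ev n | y ∉ s ∧ q (lev (Dt P U).top (y :: s) y)} :=
  (MeasurableSet.const _).inter (mset_lev P (y :: s) y q)

theorem BM_occ {G : Ev n → ℕ → Fin n → List (Fin n) → ℝ}
    (hG : ∀ m x t, BM (fun U => G U m x t)) (m : ℕ) (x : Fin n) (t : List (Fin n)) :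
    BM (fun U => occ (Dt P U) (G U) m x t) := by
  induction m generalizing x t with
  | zero => unfold occ; exact BM.const 0
  | succ m ih =>
    unfold occ
    exact BM.ite (mset_stp P x t) (BM.const 0)
      ((hG m x t).add (BM.sum _ (fun y _ => (BM_tr P x y).mul (ih y (x :: t)))))

theorem BM_st {g : Ev n → Fin n → List (Fin n) → ℝ} (hg : ∀ y s, BM (fun U => g U y s))
    (x : Fin n) (t : List (Fin n)) : BM (fun U => st (Dt P U) (g U) x t) := by
  unfold st
  exact BM.sum _ (fun y _ => (BM_tr P x y).mul (hg y (x :: t)))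

theorem BM_oc {g : Ev n → Fin n → List (Fin n) → ℝ} (hg : ∀ y s, BM (fun U => g U y s))
    (m : ℕ) (x : Fin n) (t : List (Fin n)) : BM (fun U => oc (Dt P U) (g U) m x t) :=
  BM_occ P (fun _ x t => BM_st P hg x t) m x t

theorem BM_ef (z : Fin n) (m : ℕ) (x : Fin n) (t : List (Fin n)) :
    BM (fun U => ef (Dt P U) z m x t) := by
  induction m generalizing x t with
  | zero => unfold ef; exact BM.ind (mset_stp P x t)
  | succ m ih =>
    unfold ef
    apply BM.ite (mset_stp P x t) (BM.const 1)
    apply BM.sum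
    intro y _
    apply (BM_tr P x y).mul
    by_cases hy : y = z
    · simp only [if_pos hy]; exact BM.const 0
    · simp only [if_neg hy]; exact ih y (x :: t)

theorem BM_Bf (m : ℕ) (x : Fin n) (t : List (Fin n)) :
    BM (fun U => Bf (Dt P U) m x t) := by
  induction m generalizing x t with
  | zero => unfold Bf; exact BM.ind (mset_stp P x t)
  | succ m ih =>
    unfold Bf
    exact BM.ite (mset_stp P x t) (BM.const 1)
      (BM.sum _ (fun y _ => (BM_tr P x y).mul (ih y (x :: t))))

end

/-! ### the annealing lemma -/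

section

variable (P : Prm n)

theorem wt_mul_occ (U : Ev n) (G : ℕ → Fin n → List (Fin n) → ℝ) (m : ℕ) (x : Fin n)
    (t : List (Fin n)) :
    wt P U x t * occ (Dt P U) G (m + 1) x t =
      (open Classical in if stp (Dt P U) x t then 0 else wt P U x t * G m x t) +
      ∑ y, wt P U y (x :: t) * occ (Dt P U) G m y (x :: t) := by
  by_cases hs : stp (Dt P U) x t
  · rw [occ_stp _ _ _ hs, if_pos hs, mul_zero, zero_add]
    symm
    apply Finset.sum_eq_zero
    intro y _
    unfold wt
    rw [if_pos hs, zero_mul]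
  · rw [occ_succ _ _ m hs, if_neg hs, mul_add, Finset.mul_sum]
    congr 1
    apply Finset.sum_congr rfl
    intro y _
    conv_rhs => unfold wt
    rw [if_neg hs]
    ring

open Classical in
theorem anneal {G G' : Ev n → ℕ → Fin n → List (Fin n) → ℝ}
    (hG : ∀ m x t, BM (fun U => G U m x t)) (hG' : ∀ m x t, BM (fun U => G' U m x t))
    (h : ∀ m x t, Ex (fun U => if stp (Dt P U) x t then 0 else wt P U x t * G U m x t) ≤
      Ex (fun U => if stp (Dt P U) x t then 0 else wt P U x t * G' U m x t))
    (m : ℕ) (x : Fin n) (t : List (Fin n)) :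
    Ex (fun U => wt P U x t * occ (Dt P U) (G U) m x t) ≤
      Ex (fun U => wt P U x t * occ (Dt P U) (G' U) m x t) := by
  induction m generalizing x t with
  | zero => unfold occ; exact le_rfl
  | succ m ih =>
    simp_rw [wt_mul_occ]
    have b1 : ∀ (G : Ev n → ℕ → Fin n → List (Fin n) → ℝ), (∀ m x t, BM (fun U => G U m x t)) →
        BM (fun U => if stp (Dt P U) x t then 0 else wt P U x t * G U m x t) := fun G hG =>
      BM.ite (mset_stp P x t) (BM.const 0) ((BM_wt P x t).mul (hG m x t))
    have b2 : ∀ (G : Ev n → ℕ → Fin n → List (Fin n) → ℝ), (∀ m x t, BM (fun U => G U m x t)) →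
        ∀ y, BM (fun U => wt P U y (x :: t) * occ (Dt P U) (G U) m y (x :: t)) := fun G hG y =>
      (BM_wt P y (x :: t)).mul (BM_occ P hG m y (x :: t))
    rw [Ex_add (b1 G hG) (BM.sum _ (fun y _ => b2 G hG y)),
      Ex_add (b1 G' hG') (BM.sum _ (fun y _ => b2 G' hG' y)),
      Ex_sum _ (fun y _ => b2 G hG y), Ex_sum _ (fun y _ => b2 G' hG' y)]
    apply add_le_add (h m x t)
    exact Finset.sum_le_sum (fun y _ => ih y (x :: t))

open Classical in
theorem anneal0 {G G' : Ev n → ℕ → Fin n → List (Fin n) → ℝ}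
    (hG : ∀ m x t, BM (fun U => G U m x t)) (hG' : ∀ m x t, BM (fun U => G' U m x t))
    (h : ∀ m x t, Ex (fun U => if stp (Dt P U) x t then 0 else wt P U x t * G U m x t) ≤
      Ex (fun U => if stp (Dt P U) x t then 0 else wt P U x t * G' U m x t))
    (m : ℕ) (v : Fin n) :
    Ex (fun U => occ (Dt P U) (G U) m v []) ≤ Ex (fun U => occ (Dt P U) (G' U) m v []) := by
  have := anneal P hG hG' h m v []
  simpa [wt] using this

/-- annealing for step functionals -/
theorem anneal_oc {g g' : Ev n → Fin n → List (Fin n) → ℝ}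
    (hg : ∀ y s, BM (fun U => g U y s)) (hg' : ∀ y s, BM (fun U => g' U y s))
    (h : ∀ x t, ∑ y, Ex (fun U => wt P U y (x :: t) * g U y (x :: t)) ≤
      ∑ y, Ex (fun U => wt P U y (x :: t) * g' U y (x :: t)))
    (m : ℕ) (v : Fin n) :
    Ex (fun U => oc (Dt P U) (g U) m v []) ≤ Ex (fun U => oc (Dt P U) (g' U) m v []) := by
  classical
  unfold oc
  apply anneal0 P (G := fun U _ => st (Dt P U) (g U)) (G' := fun U _ => st (Dt P U) (g' U))
    (fun _ x t => BM_st P hg x t) (fun _ x t => BM_st P hg' x t)
  intro m x t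
  have e : ∀ (g : Ev n → Fin n → List (Fin n) → ℝ), (∀ y s, BM (fun U => g U y s)) →
      Ex (fun U => if stp (Dt P U) x t then 0 else wt P U x t * st (Dt P U) (g U) x t) =
      ∑ y, Ex (fun U => wt P U y (x :: t) * g U y (x :: t)) := by
    intro g hg
    rw [← Ex_sum _ (fun y _ => (BM_wt P y (x :: t)).mul (hg y (x :: t)))]
    apply Ex_congr
    intro U
    by_cases hs : stp (Dt P U) x t
    · rw [if_pos hs]
      symm
      apply Finset.sum_eq_zero
      intro y _
      unfold wt
      rw [if_pos hs, zero_mul]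
    · rw [if_neg hs]
      unfold st
      rw [Finset.mul_sum]
      apply Finset.sum_congr rfl
      intro y _
      conv_rhs => unfold wt
      rw [if_neg hs]
      ring
  rw [e g hg, e g' hg']
  exact h x t

end

end

end Pool.Agent.TH972
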