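import Pool.Agent.W842.RST.Giant

/-!
# Exploration with depth: short connections to a target
-/

set_option autoImplicit false
set_option linter.unusedSectionVars false

namespace Pool.Agent.TH972

open Finset Pool.Agent.W842.RST

noncomputable section

variable {V : Type*} [DecidableEq V]

open Classical in
/-- the exploration fails to find `R` within depth `h` -/
def Gx (R : Finset V) (h : ℕ) : ℕ → Finset V → Finset V → (V → ℕ) → Finset (Sym2 V) → Prop
  | 0, _, _, _, _ => True
  | (k + 1), W, A, d, S =>
    if hA : A.Nonempty then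
      if h ≤ d hA.choose then Gx R h k (W.erase hA.choose) (A.erase hA.choose) d S
      else if ∃ u ∈ R, u ∈ (W \ A).filter (fun u => s(hA.choose, u) ∈ S) then False
      else Gx R h k (W.erase hA.choose)
        ((A.erase hA.choose) ∪ (W \ A).filter (fun u => s(hA.choose, u) ∈ S))
        (fun u => if u ∈ (W \ A).filter (fun u => s(hA.choose, u) ∈ S) then
          d hA.choose + 1 else d u) S
    else True

theorem Gx_sound (R : Finset V) (h : ℕ) (S : Finset (Sym2 V)) (y : V) (k : ℕ) (W A : Finset V)
    (d : V → ℕ) (hAW : A ⊆ W)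
    (hA : ∀ a ∈ A, ∃ w : (gr S).Walk y a, w.length ≤ d a)
    (hno : ¬ ∃ r ∈ R, ∃ w : (gr S).Walk y r, w.length ≤ h) : Gx R h k W A d S := by
  classical
  induction k generalizing W A d with
  | zero => trivial
  | succ k ih =>
    unfold Gx
    split_ifs with hne hd hR
    · apply ih
      · intro x hx
        exact Finset.mem_erase.2 ⟨Finset.ne_of_mem_erase hx, hAW (Finset.mem_of_mem_erase hx)⟩
      · intro a ha
        exact hA a (Finset.mem_of_mem_erase ha)
    · obtain ⟨u, huR, hu⟩ := hR
      rw [Finset.mem_filter, Finset.mem_sdiff] at hu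
      obtain ⟨w, hw⟩ := hA _ hne.choose_spec
      apply hno
      have hadj : (gr S).Adj hne.choose u := by
        rw [SimpleGraph.fromEdgeSet_adj]
        refine ⟨by exact_mod_cast hu.2, ?_⟩
        intro he
        exact hu.1.2 (he ▸ hne.choose_spec)
      refine ⟨u, huR, w.concat hadj, ?_⟩
      rw [SimpleGraph.Walk.length_concat]
      omega
    · set w := hne.choose with hwd
      have hw : w ∈ A := hne.choose_spec
      apply ih
      · intro x hx
        rcases Finset.mem_union.1 hx with h1 | h1
        · exact Finset.mem_erase.2 ⟨Finset.ne_of_mem_erase h1,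
            hAW (Finset.mem_of_mem_erase h1)⟩
        · rw [Finset.mem_filter, Finset.mem_sdiff] at h1
          exact Finset.mem_erase.2 ⟨fun h => h1.1.2 (h ▸ hw), h1.1.1⟩
      · intro a ha
        by_cases haN : a ∈ (W \ A).filter (fun u => s(w, u) ∈ S)
        · rw [if_pos haN]
          rw [Finset.mem_filter, Finset.mem_sdiff] at haN
          obtain ⟨q, hq⟩ := hA w hw
          have hadj : (gr S).Adj w a := by
            rw [SimpleGraph.fromEdgeSet_adj]
            refine ⟨by exact_mod_cast haN.2, ?_⟩
            intro he
            exact haN.1.2 (he ▸ hw)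
          refine ⟨q.concat hadj, ?_⟩
          rw [SimpleGraph.Walk.length_concat]
          omega
        · rw [if_neg haN]
          rcases Finset.mem_union.1 ha with h1 | h1
          · exact hA a (Finset.mem_of_mem_erase h1)
          · exact absurd h1 haN

theorem Gx_congr (R : Finset V) (h : ℕ) (k : ℕ) (W A : Finset V) (d : V → ℕ) (hAW : A ⊆ W)
    (S T : Finset (Sym2 V)) (hST : ∀ e ∈ edg W, (e ∈ S ↔ e ∈ T)) :
    Gx R h k W A d S ↔ Gx R h k W A d T := by
  classical
  induction k generalizing W A d with
  | zero => exact Iff.rfl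
  | succ k ih =>
    by_cases hne : A.Nonempty
    · have hw : hne.choose ∈ A := hne.choose_spec
      have e1 : (W \ A).filter (fun u => s(hne.choose, u) ∈ S) =
          (W \ A).filter (fun u => s(hne.choose, u) ∈ T) := by
        apply Finset.filter_congr
        intro u hu
        rw [Finset.mem_sdiff] at hu
        apply hST
        rw [mem_edg]
        exact ⟨hAW hw, hu.1, fun h => hu.2 (h ▸ hw)⟩
      have e2 : ∀ e ∈ edg (W.erase hne.choose), (e ∈ S ↔ e ∈ T) := fun e he =>
        hST e (edg_mono (Finset.erase_subset _ _) he)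
      unfold Gx
      rw [dif_pos hne, dif_pos hne, e1]
      split_ifs
      · apply ih _ _ _ _ e2
        intro x hx
        exact Finset.mem_erase.2 ⟨Finset.ne_of_mem_erase hx, hAW (Finset.mem_of_mem_erase hx)⟩
      · exact Iff.rfl
      · apply ih _ _ _ _ e2
        intro x hx
        rcases Finset.mem_union.1 hx with h1 | h1
        · exact Finset.mem_erase.2 ⟨Finset.ne_of_mem_erase h1,
            hAW (Finset.mem_of_mem_erase h1)⟩
        · rw [Finset.mem_filter, Finset.mem_sdiff] at h1
          exact Finset.mem_erase.2 ⟨fun h => h1.1.2 (h ▸ hw), h1.1.1⟩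
    · unfold Gx
      rw [dif_neg hne, dif_neg hne]

theorem ex_prod (p : ℝ) (E : Finset V) (g : V → ℝ) :
    ex p E (fun S => ∏ u ∈ S, g u) = ∏ u ∈ E, (1 - p + p * g u) := by
  induction E using Finset.induction_on with
  | empty => simp [ex_empty]
  | insert a E ha ih =>
    rw [ex_insert p ha, Finset.prod_insert ha, ih]
    have : ex p E (fun S => ∏ u ∈ insert a S, g u) = g a * ∏ u ∈ E, (1 - p + p * g u) := by
      rw [← ih, ← ex_mul_left]
      apply ex_congr
      intro S hS
      rw [Finset.prod_insert (fun h => ha (hS h))]
    rw [this]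
    ring

open Classical in
theorem pr_Gx_step (p : ℝ) (R : Finset V) (h k : ℕ) (W A : Finset V) (d : V → ℕ) (hAW : A ⊆ W)
    (hne : A.Nonempty) (hd : ¬ h ≤ d hne.choose) :
    pr p (edg W) (Gx R h (k + 1) W A d) =
      ex p (W \ A) (fun N => if ∃ u ∈ R, u ∈ N then 0 else pr p (edg (W.erase hne.choose))
        (Gx R h k (W.erase hne.choose) ((A.erase hne.choose) ∪ N)
          (fun u => if u ∈ N then d hne.choose + 1 else d u))) := by
  have hw : hne.choose ∈ A := hne.choose_spec
  have hunf : ∀ S, Gx R h (k + 1) W A d S =
      (if ∃ u ∈ R, u ∈ (W \ A).filter (fun u => s(hne.choose, u) ∈ S) then False else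
        Gx R h k (W.erase hne.choose)
        ((A.erase hne.choose) ∪ (W \ A).filter (fun u => s(hne.choose, u) ∈ S))
        (fun u => if u ∈ (W \ A).filter (fun u => s(hne.choose, u) ∈ S) then
          d hne.choose + 1 else d u) S) := by
    intro S
    conv_lhs => unfold Gx
    rw [dif_pos hne, if_neg hd]
  set w := hne.choose with hwd
  have hwW : w ∈ W := hAW hw
  have hnot : w ∉ W.erase w := Finset.notMem_erase _ _
  have e0 : edg W = edg (W.erase w) ∪ star w (W.erase w) := by
    rw [← edg_insert hnot, Finset.insert_erase hwW]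
  have e1 : W.erase w = (A.erase w) ∪ (W \ A) := by
    ext x
    simp only [Finset.mem_erase, Finset.mem_union, Finset.mem_sdiff]
    constructor
    · rintro ⟨h1, h2⟩
      by_cases h3 : x ∈ A
      · exact Or.inl ⟨h1, h3⟩
      · exact Or.inr ⟨h2, h3⟩
    · rintro (⟨h1, h2⟩ | ⟨h1, h2⟩)
      · exact ⟨h1, hAW h2⟩
      · exact ⟨fun h => h2 (h ▸ hw), h1⟩
  have hdis : Disjoint (A.erase w) (W \ A) := by
    rw [Finset.disjoint_left]
    intro x hx hx'
    exact (Finset.mem_sdiff.1 hx').2 (Finset.mem_of_mem_erase hx)
  set Φ : Finset V → Finset (Sym2 V) → Prop := fun N S =>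
    (if ∃ u ∈ R, u ∈ N then False else Gx R h k (W.erase w) ((A.erase w) ∪ N)
      (fun u => if u ∈ N then d w + 1 else d u) S) with hΦ
  have hΦc : ∀ (N : Finset V), N ⊆ W \ A → ∀ S T : Finset (Sym2 V),
      (∀ e ∈ edg (W.erase w), (e ∈ S ↔ e ∈ T)) → (Φ N S ↔ Φ N T) := by
    intro N hN S T hST
    rw [hΦ]
    simp only
    split_ifs
    · exact Iff.rfl
    · apply Gx_congr _ _ _ _ _ _ _ _ _ hST
      intro x hx
      rw [e1]
      rcases Finset.mem_union.1 hx with h1 | h1
      · exact Finset.mem_union_left _ h1
      · exact Finset.mem_union_right _ (hN h1)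
  rw [e0, pr_union p (disjoint_edg_star hnot)]
  have e2 : ∀ S₁ ⊆ edg (W.erase w), pr p (star w (W.erase w))
      (fun S₂ => Gx R h (k + 1) W A d (S₁ ∪ S₂)) =
      pr p (W \ A) (fun N => Φ N S₁) := by
    intro S₁ hS₁
    rw [pr_star]
    have e3 : pr p (W.erase w) (fun N => Gx R h (k + 1) W A d (S₁ ∪ star w N)) =
        pr p (W.erase w) (fun N => Φ ((W \ A) ∩ N) S₁) := by
      apply pr_congr
      intro N hN
      have e4 : (W \ A).filter (fun u => s(w, u) ∈ S₁ ∪ star w N) = (W \ A) ∩ N := by
        ext u
        rw [Finset.mem_filter, Finset.mem_inter, Finset.mem_union, mem_star]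
        constructor
        · rintro ⟨h1, h2 | h2⟩
          · exact absurd (mem_edg.1 (hS₁ h2)).1 hnot
          · exact ⟨h1, h2⟩
        · rintro ⟨h1, h2⟩
          exact ⟨h1, Or.inr h2⟩
      rw [hunf, e4]
      apply hΦc _ Finset.inter_subset_left
      intro e he
      rw [Finset.mem_union]
      constructor
      · rintro (h1 | h1)
        · exact h1
        · exact absurd h1 (Finset.disjoint_left.1 (disjoint_edg_star hnot) he)
      · exact Or.inl
    rw [e3]
    conv_lhs => rw [e1]
    rw [Finset.union_comm (A.erase w) (W \ A)]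
    have e5 := pr_union_left p (hdis.symm) (fun N => Φ ((W \ A) ∩ N) S₁) (by
      intro N₁ h1 N₂ h2
      have e6 : (W \ A) ∩ (N₁ ∪ N₂) = (W \ A) ∩ N₁ := by
        ext u
        simp only [Finset.mem_inter, Finset.mem_union]
        constructor
        · rintro ⟨h3, h4 | h4⟩
          · exact ⟨h3, h4⟩
          · exact absurd h3 (Finset.disjoint_left.1 hdis (h2 h4))
        · rintro ⟨h3, h4⟩
          exact ⟨h3, Or.inl h4⟩
      rw [e6])
    rw [e5]
    apply pr_congr
    intro N hN
    rw [Finset.inter_eq_right.2 hN]
  have e7 : ex p (edg (W.erase w)) (fun S₁ => pr p (star w (W.erase w))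
      (fun S₂ => Gx R h (k + 1) W A d (S₁ ∪ S₂))) =
      ex p (edg (W.erase w)) (fun S₁ => pr p (W \ A) (fun N => Φ N S₁)) :=
    ex_congr p e2
  rw [e7]
  unfold pr
  rw [ex_comm]
  apply ex_congr
  intro N _
  beta_reduce
  by_cases hR : ∃ u ∈ R, u ∈ N
  · rw [if_pos hR]
    have hF : ∀ S, ¬ Φ N S := by
      intro S
      rw [hΦ]
      simp only
      rw [if_pos hR]
      exact not_false
    refine (ex_congr p (g := fun _ => (0:ℝ)) ?_).trans (ex_const _ _ _)
    intro S _
    rw [if_neg (hF S)]
  · rw [if_neg hR]
    have hF : ∀ S, (Φ N S ↔ Gx R h k (W.erase w) (A.erase w ∪ N)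
        (fun u => if u ∈ N then d w + 1 else d u) S) := by
      intro S
      rw [hΦ]
      simp only
      rw [if_neg hR]
    apply ex_congr
    intro S _
    by_cases hS : Φ N S
    · rw [if_pos hS, if_pos ((hF S).1 hS)]
    · rw [if_neg hS, if_neg (fun h' => hS ((hF S).2 h'))]

theorem one_sub_exp_ge {l : ℝ} (hl0 : 0 ≤ l) : l - l ^ 2 / 2 ≤ 1 - Real.exp (-l) := by
  have hq : Real.exp (-l) ≤ 1 - l + l ^ 2 / 2 := by
    have h5 := Real.quadratic_le_exp_of_nonneg hl0
    have h6 : Real.exp (-l) * Real.exp l = 1 := by rw [← Real.exp_add]; simp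
    have h7 : 0 < Real.exp (-l) := Real.exp_pos _
    by_cases hbig : 1 - l + l ^ 2 / 2 ≤ 0
    · nlinarith [sq_nonneg (l - 1)]
    · push Not at hbig
      have h8 : 1 ≤ (1 - l + l ^ 2 / 2) * Real.exp l := by
        have h9 : 1 ≤ (1 - l + l ^ 2 / 2) * (1 + l + l ^ 2 / 2) := by
          nlinarith [sq_nonneg (l ^ 2)]
        nlinarith
      by_contra hcon
      push Not at hcon
      have : (1 - l + l ^ 2 / 2) * Real.exp l < Real.exp (-l) * Real.exp l :=
        mul_lt_mul_of_pos_right hcon (Real.exp_pos _)
      rw [h6] at this
      linarith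
  linarith

/-- one step of the exploration -/
theorem ex_step {p : ℝ} (h0 : 0 ≤ p) (h1 : p ≤ 1) (E R : Finset V) (hR : R ⊆ E) {c : ℝ}
    (hc : 0 ≤ c) :
    ex p E (fun N => open Classical in if ∃ u ∈ R, u ∈ N then 0 else c ^ N.card) ≤
      Real.exp (-(p * R.card) - p * (1 - c) * (E.card - R.card)) := by
  classical
  set g : V → ℝ := fun u => if u ∈ R then 0 else c with hg
  have e1 : ex p E (fun N => if ∃ u ∈ R, u ∈ N then 0 else c ^ N.card) =
      ex p E (fun N => ∏ u ∈ N, g u) := by
    apply ex_congr
    intro N _
    by_cases hN : ∃ u ∈ R, u ∈ N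
    · rw [if_pos hN]
      obtain ⟨u, hu, hu'⟩ := hN
      symm
      apply Finset.prod_eq_zero hu'
      rw [hg]; simp [hu]
    · rw [if_neg hN]
      push Not at hN
      rw [Finset.prod_congr rfl (g := fun _ => c), Finset.prod_const]
      intro u hu
      rw [hg]
      simp only
      rw [if_neg (fun h => hN u h hu)]
  rw [e1, ex_prod]
  have e2 : ∀ u ∈ E, 1 - p + p * g u ≤ Real.exp (- (p * (1 - g u))) := by
    intro u _
    have := Real.add_one_le_exp (-(p * (1 - g u)))
    linarith
  have e3 : ∀ u ∈ E, 0 ≤ 1 - p + p * g u := by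
    intro u _
    have : 0 ≤ g u := by
      rw [hg]; simp only; split_ifs
      · exact le_rfl
      · exact hc
    have := mul_nonneg h0 this
    linarith
  refine (Finset.prod_le_prod e3 e2).trans ?_
  rw [← Real.exp_sum]
  apply Real.exp_le_exp.2
  have e4 : ∑ u ∈ E, -(p * (1 - g u)) = -(p * R.card) + -(p * (1 - c) * (E.card - R.card)) := by
    have : E = R ∪ (E \ R) := by rw [Finset.union_sdiff_of_subset hR]
    conv_lhs => rw [this]
    rw [Finset.sum_union Finset.disjoint_sdiff]
    have a1 : ∑ u ∈ R, -(p * (1 - g u)) = -(p * R.card) := by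
      rw [Finset.sum_congr rfl (g := fun _ => -p)]
      · rw [Finset.sum_const, nsmul_eq_mul]; ring
      · intro u hu
        rw [hg]; simp only; rw [if_pos hu]; ring
    have a2 : ∑ u ∈ E \ R, -(p * (1 - g u)) = -(p * (1 - c) * (E.card - R.card)) := by
      rw [Finset.sum_congr rfl (g := fun _ => -(p * (1 - c)))]
      · rw [Finset.sum_const, nsmul_eq_mul, Finset.card_sdiff_of_subset hR,
          Nat.cast_sub (Finset.card_le_card hR)]
        ring
      · intro u hu
        rw [hg]; simp only; rw [if_neg (Finset.mem_sdiff.1 hu).2]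
    rw [a1, a2]
  rw [e4]
  linarith

/-- the failure probability of the exploration -/
theorem pr_Gx_le {p : ℝ} (h0 : 0 ≤ p) (h1 : p ≤ 1) (n : ℕ) (R : Finset V) (h : ℕ) (α : ℕ → ℝ)
    (ρ um : ℝ) (hα0 : ∀ i, 0 ≤ α i) (hα1 : ∀ i, α i ≤ 1) (hαh : ∀ i, h ≤ i → α i = 0)
    (hρ0 : 0 ≤ ρ) (hum : (R.card : ℝ) ≤ um)
    (hα : ∀ i < h, α i ≤ p * R.card + p * (um - R.card) * (α (i + 1) - α (i + 1) ^ 2 / 2))
    (hρ : (Real.exp ρ - 1) * n ≤ R.card)
    (k : ℕ) (W A : Finset V) (d : V → ℕ) (hAW : A ⊆ W) (hk : W.card ≤ k) (hWn : W.card ≤ n)
    (hR : R ⊆ W \ A) :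
    pr p (edg W) (Gx R h k W A d) ≤
      Real.exp (-∑ a ∈ A, α (d a)) + Real.exp (-(ρ * ((W \ A).card - um))) := by
  classical
  have htriv : ∀ (k : ℕ) (W A : Finset V) (d : V → ℕ), ((W \ A).card : ℝ) ≤ um →
      pr p (edg W) (Gx R h k W A d) ≤
      Real.exp (-∑ a ∈ A, α (d a)) + Real.exp (-(ρ * ((W \ A).card - um))) := by
    intro k W A d hu
    have h2 := pr_le_one h0 h1 (edg W) (Gx R h k W A d)
    have h3 : 1 ≤ Real.exp (-(ρ * ((W \ A).card - um))) := by
      apply Real.one_le_exp
      nlinarith
    have h4 := Real.exp_pos (-∑ a ∈ A, α (d a))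
    linarith
  induction k generalizing W A d with
  | zero =>
    have hW : W = ∅ := Finset.card_eq_zero.1 (by omega)
    subst hW
    have hA : A = ∅ := Finset.subset_empty.1 hAW
    subst hA
    have h2 := pr_le_one h0 h1 (edg (∅ : Finset V)) (Gx R h 0 ∅ ∅ d)
    have h3 := Real.exp_pos (-(ρ * (((∅ : Finset V) \ ∅).card - um)))
    rw [Finset.sum_empty, neg_zero, Real.exp_zero]
    linarith
  | succ k ih =>
    by_cases hu : ((W \ A).card : ℝ) ≤ um
    · exact htriv _ _ _ _ hu
    push Not at hu
    by_cases hne : A.Nonempty
    · have hw : hne.choose ∈ A := hne.choose_spec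
      by_cases hd : h ≤ d hne.choose
      · have hunf : ∀ S, Gx R h (k + 1) W A d S =
            Gx R h k (W.erase hne.choose) (A.erase hne.choose) d S := by
          intro S
          conv_lhs => unfold Gx
          rw [dif_pos hne, if_pos hd]
        set w := hne.choose with hwd
        have hwW : w ∈ W := hAW hw
        have hnot : w ∉ W.erase w := Finset.notMem_erase _ _
        have hA' : A.erase w ⊆ W.erase w := Finset.erase_subset_erase _ hAW
        have e0 : edg W = edg (W.erase w) ∪ star w (W.erase w) := by
          rw [← edg_insert hnot, Finset.insert_erase hwW]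
        have e1 : pr p (edg W) (Gx R h (k + 1) W A d) =
            pr p (edg (W.erase w)) (Gx R h k (W.erase w) (A.erase w) d) := by
          have e2 : pr p (edg W) (Gx R h (k + 1) W A d) =
              pr p (edg W) (Gx R h k (W.erase w) (A.erase w) d) :=
            pr_congr p (fun S _ => by rw [hunf])
          rw [e2, e0]
          apply pr_union_left p (disjoint_edg_star hnot)
          intro S₁ _ S₂ hS₂
          apply Gx_congr _ _ _ _ _ _ hA'
          intro e he
          rw [Finset.mem_union]
          constructor
          · rintro (h1 | h1)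
            · exact h1
            · exact absurd (hS₂ h1) (Finset.disjoint_left.1 (disjoint_edg_star hnot) he)
          · exact Or.inl
        rw [e1]
        have e3 : W.erase w \ A.erase w = W \ A := by
          ext x
          simp only [Finset.mem_sdiff, Finset.mem_erase]
          constructor
          · rintro ⟨⟨h1, h2⟩, h3⟩
            exact ⟨h2, fun h4 => h3 ⟨h1, h4⟩⟩
          · rintro ⟨h1, h2⟩
            have : x ≠ w := fun h => h2 (h ▸ hw)
            exact ⟨⟨this, h1⟩, fun h3 => h2 h3.2⟩
        have h3 := ih (W.erase w) (A.erase w) d hA' (by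
          rw [Finset.card_erase_of_mem hwW]; omega)
          ((Finset.card_le_card (Finset.erase_subset _ _)).trans hWn) (by rw [e3]; exact hR)
        rw [e3] at h3
        have e4 : ∑ a ∈ A, α (d a) = ∑ a ∈ A.erase w, α (d a) := by
          rw [← Finset.add_sum_erase A _ hw, hαh _ hd, zero_add]
        rw [e4]
        exact h3
      · rw [pr_Gx_step p R h k W A d hAW hne hd]
        set w := hne.choose with hwd
        have hwW : w ∈ W := hAW hw
        set u := (W \ A).card with hud
        set i := d w with hi
        have hilt : i < h := by omega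
        set X := ∑ a ∈ A.erase w, α (d a) with hX
        have hstep : ∀ N ⊆ W \ A, (if ∃ u ∈ R, u ∈ N then 0 else pr p (edg (W.erase w))
            (Gx R h k (W.erase w) ((A.erase w) ∪ N)
              (fun u => if u ∈ N then i + 1 else d u))) ≤
            Real.exp (-X) * (if ∃ u ∈ R, u ∈ N then 0 else Real.exp (-α (i + 1)) ^ N.card) +
            Real.exp (-(ρ * (u - um))) *
              (if ∃ u ∈ R, u ∈ N then 0 else Real.exp ρ ^ N.card) := by
          intro N hN
          by_cases hRN : ∃ u ∈ R, u ∈ N
          · rw [if_pos hRN, if_pos hRN, if_pos hRN]; simp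
          · rw [if_neg hRN, if_neg hRN, if_neg hRN]
            have hNd : Disjoint (A.erase w) N := by
              rw [Finset.disjoint_left]
              intro x hx hx'
              exact (Finset.mem_sdiff.1 (hN hx')).2 (Finset.mem_of_mem_erase hx)
            have hA' : (A.erase w) ∪ N ⊆ W.erase w := by
              intro x hx
              rcases Finset.mem_union.1 hx with h1 | h1
              · exact Finset.mem_erase.2 ⟨Finset.ne_of_mem_erase h1,
                  hAW (Finset.mem_of_mem_erase h1)⟩
              · have h2 := Finset.mem_sdiff.1 (hN h1)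
                exact Finset.mem_erase.2 ⟨fun h => h2.2 (h ▸ hw), h2.1⟩
            have e3 : W.erase w \ ((A.erase w) ∪ N) = (W \ A) \ N := by
              ext x
              simp only [Finset.mem_sdiff, Finset.mem_erase, Finset.mem_union]
              constructor
              · rintro ⟨⟨h1, h2⟩, h3⟩
                push Not at h3
                exact ⟨⟨h2, fun h4 => (h3.1 h1) h4⟩, h3.2⟩
              · rintro ⟨⟨h1, h2⟩, h3⟩
                have : x ≠ w := fun h => h2 (h ▸ hw)
                refine ⟨⟨this, h1⟩, ?_⟩
                rintro (h4 | h4)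
                · exact h2 h4.2
                · exact h3 h4
            have h3 := ih (W.erase w) ((A.erase w) ∪ N)
              (fun u => if u ∈ N then i + 1 else d u) hA' (by
              rw [Finset.card_erase_of_mem hwW]; omega)
              ((Finset.card_le_card (Finset.erase_subset _ _)).trans hWn) (by
                rw [e3]
                intro x hx
                rw [Finset.mem_sdiff]
                exact ⟨hR hx, fun hxN => hRN ⟨x, hx, hxN⟩⟩)
            rw [e3, Finset.card_sdiff_of_subset hN,
              Nat.cast_sub (Finset.card_le_card hN), ← hud] at h3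
            have e5 : ∑ a ∈ A.erase w ∪ N, α (if a ∈ N then i + 1 else d a) =
                X + N.card * α (i + 1) := by
              rw [Finset.sum_union hNd]
              congr 1
              · apply Finset.sum_congr rfl
                intro a ha
                rw [if_neg (Finset.disjoint_left.1 hNd ha)]
              · rw [Finset.sum_congr rfl (g := fun _ => α (i + 1)), Finset.sum_const,
                  nsmul_eq_mul]
                intro a ha
                rw [if_pos ha]
            refine h3.trans (le_of_eq ?_)
            rw [e5]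
            congr 1
            · rw [← Real.exp_nat_mul, ← Real.exp_add]
              congr 1
              ring
            · rw [← Real.exp_nat_mul, ← Real.exp_add]
              congr 1
              ring
        refine (ex_mono h0 h1 hstep).trans ?_
        rw [ex_add, ex_mul_left, ex_mul_left]
        have hRc : (R.card : ℝ) ≤ u := by exact_mod_cast Finset.card_le_card hR
        have hb1 := ex_step h0 h1 (W \ A) R hR (Real.exp_pos (-α (i + 1))).le
        have hb2 := ex_step h0 h1 (W \ A) R hR (Real.exp_pos ρ).le
        rw [← hud] at hb1 hb2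
        apply add_le_add
        · have e6 : ∑ a ∈ A, α (d a) = α i + X := by
            rw [← Finset.add_sum_erase A _ hw]
          rw [e6]
          calc _ ≤ Real.exp (-X) * Real.exp (-(p * R.card) -
                p * (1 - Real.exp (-α (i + 1))) * (u - R.card)) :=
                mul_le_mul_of_nonneg_left hb1 (Real.exp_pos _).le
            _ = Real.exp (-X - (p * R.card) -
                p * (1 - Real.exp (-α (i + 1))) * (u - R.card)) := by
                rw [← Real.exp_add]; ring_nf
            _ ≤ _ := by
                apply Real.exp_le_exp.2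
                have h5 := hα i hilt
                have h6 := one_sub_exp_ge (hα0 (i + 1))
                have h7 : 0 ≤ α (i + 1) - α (i + 1) ^ 2 / 2 := by
                  have a0 := hα0 (i + 1)
                  have a1 := hα1 (i + 1)
                  nlinarith
                have h8 : p * (um - R.card) * (α (i + 1) - α (i + 1) ^ 2 / 2) ≤
                    p * (1 - Real.exp (-α (i + 1))) * (u - R.card) := by
                  have h9 : (um - R.card) * (α (i + 1) - α (i + 1) ^ 2 / 2) ≤
                      (u - R.card) * (1 - Real.exp (-α (i + 1))) := by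
                    apply mul_le_mul (by linarith) h6 h7 (by linarith)
                  have := mul_le_mul_of_nonneg_left h9 h0
                  linarith
                linarith
        · calc _ ≤ Real.exp (-(ρ * (u - um))) * Real.exp (-(p * R.card) -
                p * (1 - Real.exp ρ) * (u - R.card)) :=
                mul_le_mul_of_nonneg_left hb2 (Real.exp_pos _).le
            _ = Real.exp (-(ρ * (u - um)) - (p * R.card) -
                p * (1 - Real.exp ρ) * (u - R.card)) := by
                rw [← Real.exp_add]; ring_nf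
            _ ≤ _ := by
                apply Real.exp_le_exp.2
                have h5 : 0 ≤ Real.exp ρ - 1 := by
                  have := Real.one_le_exp hρ0
                  linarith
                have h6 : (u : ℝ) ≤ n := by
                  exact_mod_cast (Finset.card_le_card Finset.sdiff_subset).trans hWn
                have h7 : (Real.exp ρ - 1) * (u - R.card) ≤ R.card := by
                  have hr0 : (0:ℝ) ≤ R.card := Nat.cast_nonneg _
                  calc _ ≤ (Real.exp ρ - 1) * n :=
                        mul_le_mul_of_nonneg_left (by linarith) h5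
                    _ ≤ _ := hρ
                have := mul_le_mul_of_nonneg_left h7 h0
                nlinarith
    · have hAe : A = ∅ := Finset.not_nonempty_iff_eq_empty.1 hne
      subst hAe
      have h2 := pr_le_one h0 h1 (edg W) (Gx R h (k + 1) W ∅ d)
      have h3 := Real.exp_pos (-(ρ * ((W \ ∅).card - um)))
      rw [Finset.sum_empty, neg_zero, Real.exp_zero]
      linarith

end

end Pool.Agent.TH972
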