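import Pool.Agent.TH972.Potential
import Pool.Agent.TH972.Trees

/-!
# The walk on the complete graph and its heavy edges
-/

set_option autoImplicit false
set_option linter.unusedSectionVars false

namespace Pool.Agent.TH972

open Finset

noncomputable section

variable {V : Type*} [Fintype V] [DecidableEq V]

theorem cs_mul_tr {κ : Sym2 V → ℝ} (h : ∀ e, 0 ≤ κ e) (x y : V) :
    cs κ x * tr κ x y = Kc κ x y := by
  unfold tr
  rcases (cs_nonneg h x).eq_or_lt with h0 | h0
  · have : Kc κ x y = 0 :=
      (Finset.sum_eq_zero_iff_of_nonneg (fun y _ => Kc_nonneg h x y)).1 h0.symm y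
        (Finset.mem_univ _)
    rw [this, zero_div, mul_zero]
  · rw [mul_div_cancel₀ _ h0.ne']

/-- the walk killed at `z` -/
def Tz (κ : Sym2 V → ℝ) (z : V) (a : V → ℝ) (x : V) : ℝ :=
  if x = z then 0 else ∑ y, tr κ x y * a y

/-- Green function of the walk killed at `z`, applied to `a` -/
def Gz (κ : Sym2 V → ℝ) (z : V) (a : V → ℝ) : ℕ → V → ℝ
  | 0, _ => 0
  | (m + 1), x => a x + Tz κ z (Gz κ z a m) x

theorem Tz_add (κ : Sym2 V → ℝ) (z : V) (a b : V → ℝ) (x : V) :
    Tz κ z (fun x => a x + b x) x = Tz κ z a x + Tz κ z b x := by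
  unfold Tz
  split_ifs
  · ring
  · rw [← Finset.sum_add_distrib]
    apply Finset.sum_congr rfl
    intro y _
    ring

theorem Gz_comm (κ : Sym2 V → ℝ) (z : V) (a : V → ℝ) (m : ℕ) (x : V) :
    Gz κ z a (m + 1) x = a x + Gz κ z (Tz κ z a) m x := by
  induction m generalizing x with
  | zero =>
    unfold Gz Tz
    simp [Gz]
  | succ m ih =>
    have h1 : Gz κ z a (m + 1) = fun x => a x + Gz κ z (Tz κ z a) m x := funext ih
    rw [Gz, h1, Tz_add]
    rfl

theorem Tz_symm {κ : Sym2 V → ℝ} (h : ∀ e, 0 ≤ κ e) (z : V) (a b : V → ℝ) (ha : a z = 0)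
    (hb : b z = 0) : ∑ x, cs κ x * a x * Tz κ z b x = ∑ x, cs κ x * Tz κ z a x * b x := by
  have e1 : ∀ (a b : V → ℝ), a z = 0 → ∑ x, cs κ x * a x * Tz κ z b x =
      ∑ x, ∑ y, a x * b y * Kc κ x y := by
    intro a b ha
    apply Finset.sum_congr rfl
    intro x _
    unfold Tz
    by_cases hx : x = z
    · rw [if_pos hx, hx, ha]
      simp
    · rw [if_neg hx, Finset.mul_sum]
      apply Finset.sum_congr rfl
      intro y _
      rw [← cs_mul_tr h x y]
      ring
  rw [e1 a b ha]
  have e2 : ∑ x, cs κ x * Tz κ z a x * b x = ∑ x, cs κ x * b x * Tz κ z a x := by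
    apply Finset.sum_congr rfl
    intro x _
    ring
  rw [e2, e1 b a hb, Finset.sum_comm]
  apply Finset.sum_congr rfl
  intro x _
  apply Finset.sum_congr rfl
  intro y _
  rw [Kc_symm κ y x]
  ring

theorem Tz_z (κ : Sym2 V → ℝ) (z : V) (a : V → ℝ) : Tz κ z a z = 0 := if_pos rfl

theorem Gz_z (κ : Sym2 V → ℝ) (z : V) (a : V → ℝ) (ha : a z = 0) (m : ℕ) : Gz κ z a m z = 0 := by
  cases m with
  | zero => rfl
  | succ m => unfold Gz; rw [ha, Tz_z, add_zero]

theorem Gz_symm {κ : Sym2 V → ℝ} (h : ∀ e, 0 ≤ κ e) (z : V) (m : ℕ) (a b : V → ℝ) (ha : a z = 0)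
    (hb : b z = 0) : ∑ x, cs κ x * a x * Gz κ z b m x = ∑ x, cs κ x * b x * Gz κ z a m x := by
  induction m generalizing a b with
  | zero => simp [Gz]
  | succ m ih =>
    have e1 : ∑ x, cs κ x * a x * Gz κ z b (m + 1) x =
        ∑ x, cs κ x * a x * b x + ∑ x, cs κ x * a x * Tz κ z (Gz κ z b m) x := by
      rw [← Finset.sum_add_distrib]
      apply Finset.sum_congr rfl
      intro x _
      rw [Gz]; ring
    have e2 : ∑ x, cs κ x * b x * Gz κ z a (m + 1) x =
        ∑ x, cs κ x * a x * b x + ∑ x, cs κ x * b x * Gz κ z (Tz κ z a) m x := by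
      rw [← Finset.sum_add_distrib]
      apply Finset.sum_congr rfl
      intro x _
      rw [Gz_comm]; ring
    rw [e1, e2, Tz_symm h z a _ ha (Gz_z κ z b hb m), ← ih (Tz κ z a) b (Tz_z κ z a) hb]

/-- the walk uses a bad edge before it hits `z`, within `m` steps -/
def crs (κ : Sym2 V → ℝ) (bad : Sym2 V → Prop) (z : V) : ℕ → V → ℝ
  | 0, _ => 0
  | (m + 1), x => if x = z then 0 else
      ∑ y, tr κ x y * (open Classical in if bad s(x, y) then 1 else crs κ bad z m y)

theorem crs_z (κ : Sym2 V → ℝ) (bad : Sym2 V → Prop) (z : V) (m : ℕ) : crs κ bad z m z = 0 := by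
  cases m with
  | zero => rfl
  | succ m => unfold crs; rw [if_pos rfl]

theorem crs_nonneg {κ : Sym2 V → ℝ} (h : ∀ e, 0 ≤ κ e) (bad : Sym2 V → Prop) (z : V) (m : ℕ)
    (x : V) : 0 ≤ crs κ bad z m x := by
  induction m generalizing x with
  | zero => exact le_rfl
  | succ m ih =>
    unfold crs
    split_ifs
    · exact le_rfl
    · apply Finset.sum_nonneg
      intro y _
      apply mul_nonneg (tr_nonneg h x y)
      split_ifs
      · norm_num
      · exact ih y

open Classical in
/-- probability of a bad edge in one step -/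
def bd (κ : Sym2 V → ℝ) (bad : Sym2 V → Prop) (z : V) (x : V) : ℝ :=
  if x = z then 0 else ∑ y, if bad s(x, y) then tr κ x y else 0

theorem crs_le_Gz {κ : Sym2 V → ℝ} (h : ∀ e, 0 ≤ κ e) (bad : Sym2 V → Prop) (z : V) (m : ℕ)
    (x : V) : crs κ bad z m x ≤ Gz κ z (bd κ bad z) m x := by
  classical
  have hG : ∀ m x, 0 ≤ Gz κ z (bd κ bad z) m x := by
    intro m
    induction m with
    | zero => intro x; exact le_rfl
    | succ m ih =>
      intro x
      unfold Gz
      apply add_nonneg
      · unfold bd
        split_ifs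
        · exact le_rfl
        · apply Finset.sum_nonneg
          intro y _
          split_ifs
          · exact tr_nonneg h x y
          · exact le_rfl
      · unfold Tz
        split_ifs
        · exact le_rfl
        · exact Finset.sum_nonneg (fun y _ => mul_nonneg (tr_nonneg h x y) (ih y))
  induction m generalizing x with
  | zero => exact le_rfl
  | succ m ih =>
    rw [crs, Gz]
    by_cases hx : x = z
    · rw [if_pos hx]
      unfold bd Tz
      rw [if_pos hx, if_pos hx]
      norm_num
    · rw [if_neg hx]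
      have hb1 : bd κ bad z x = ∑ y, if bad s(x, y) then tr κ x y else 0 := by
        unfold bd; rw [if_neg hx]
      rw [hb1]
      unfold Tz
      rw [if_neg hx, ← Finset.sum_add_distrib]
      apply Finset.sum_le_sum
      intro y _
      have h1 := tr_nonneg h x y
      have h2 := ih y
      have h3 := hG m y
      split_ifs
      · nlinarith
      · nlinarith

/-- the Green function is bounded by the resistance -/
theorem Gz_le {κ : Sym2 V → ℝ} (h : ∀ e, 0 ≤ κ e) {v z : V} (hvz : v ≠ z) (l : ℕ) (x : ℕ → V)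
    (hinj : Set.InjOn x (Set.Iic l)) (hpos : ∀ i < l, 0 < κ s(x i, x (i + 1)))
    (h0 : x 0 = v) (hl' : x l = z) (m : ℕ) (w : V) :
    Gz κ z (fun u => if u = v then 1 else 0) m w ≤
      cs κ v * ∑ i ∈ range l, (κ s(x i, x (i + 1)))⁻¹ := by
  classical
  set S := ∑ i ∈ range l, (κ s(x i, x (i + 1)))⁻¹ with hS
  have hS0 : 0 ≤ S := Finset.sum_nonneg (fun i _ => inv_nonneg.2 (h _))
  set K := cs κ v * S with hK
  have hK0 : 0 ≤ K := mul_nonneg (cs_nonneg h v) hS0
  have hk0 : ∀ v : V, (0:ℝ) ≤ (fun _ : V => (0:ℝ)) v := fun v => le_rfl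
  set f := hl κ (fun _ => 0) {z} {v} with hf
  have hf0 : ∀ u, 0 ≤ f u := fun u => hl_nonneg h hk0 u
  have hf1 : ∀ u, f u ≤ 1 := fun u => hl_le_one h hk0 u
  have hesc := escape_vertex h hvz l x hinj hpos h0 hl'
  have key : ∀ w, Gz κ z (fun u => if u = v then 1 else 0) m w ≤ K * (1 - f w) := by
    induction m with
    | zero =>
      intro w
      unfold Gz
      exact mul_nonneg hK0 (by linarith [hf1 w])
    | succ m ih =>
      intro w
      rw [Gz]
      unfold Tz
      by_cases hwz : w = z
      · rw [if_pos hwz]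
        have : w ≠ v := by rw [hwz]; exact hvz.symm
        rw [if_neg this]
        have := hf1 w
        nlinarith
      · rw [if_neg hwz]
        have e1 : ∑ y, tr κ w y * Gz κ z (fun u => if u = v then 1 else 0) m y ≤
            K * ∑ y, tr κ w y - K * ∑ y, tr κ w y * f y := by
          rw [Finset.mul_sum, Finset.mul_sum, ← Finset.sum_sub_distrib]
          apply Finset.sum_le_sum
          intro y _
          have := mul_le_mul_of_nonneg_left (ih y) (tr_nonneg h w y)
          linarith
        have e2 : K * ∑ y, tr κ w y ≤ K := by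
          have := mul_le_mul_of_nonneg_left (sum_tr_le h w) hK0
          linarith
        by_cases hwv : w = v
        · rw [if_pos hwv]
          have e3 : f v = 0 := hl_Z h hk0 (by simpa using hvz) (by simp)
          have e4 : 1 ≤ K * ∑ y, tr κ v y * f y := by
            have : K * ∑ y, tr κ v y * f y = S * ∑ y, Kc κ v y * f y := by
              rw [hK, mul_comm (cs κ v) S, mul_assoc, Finset.mul_sum]
              congr 1
              apply Finset.sum_congr rfl
              intro y _
              rw [← cs_mul_tr h v y]; ring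
            rw [this]
            exact hesc
          subst hwv
          rw [e3]
          linarith
        · rw [if_neg hwv]
          have e3 := hl_eq (κ := κ) (k := fun _ => 0) (A := {z}) (Z := {v}) h hk0 (x := w)
            (by simpa using hwz) (by simpa using hwv)
          rw [add_zero] at e3
          rcases (cs_nonneg h w).eq_or_lt with h0' | h0'
          · have e5 : ∀ y, tr κ w y = 0 := fun y => by unfold tr; rw [← h0', div_zero]
            simp only [e5, zero_mul, Finset.sum_const_zero, add_zero]
            exact mul_nonneg hK0 (by linarith [hf1 w])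
          · have e4 : ∑ y, tr κ w y * f y = f w := by
              apply mul_left_cancel₀ h0'.ne'
              rw [Finset.mul_sum]
              rw [e3]
              apply Finset.sum_congr rfl
              intro y _
              rw [← cs_mul_tr h w y]; ring
            rw [e4] at e1
            linarith
  refine (key w).trans ?_
  have := hf0 w
  nlinarith

/-- the walk from `v` uses a bad edge before it hits `z` with small probability -/
theorem crs_le {κ : Sym2 V → ℝ} (h : ∀ e, 0 ≤ κ e) (bad : Sym2 V → Prop) {v z : V} (hvz : v ≠ z)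
    (l : ℕ) (x : ℕ → V)
    (hinj : Set.InjOn x (Set.Iic l)) (hpos : ∀ i < l, 0 < κ s(x i, x (i + 1)))
    (h0 : x 0 = v) (hl' : x l = z) (hv : 0 < cs κ v) {B : ℝ} (hB : ∀ e, bad e → κ e ≤ B)
    (hB0 : 0 ≤ B) (m : ℕ) :
    crs κ bad z m v ≤ (Fintype.card V : ℝ) ^ 2 * B * ∑ i ∈ range l, (κ s(x i, x (i + 1)))⁻¹ := by
  classical
  set S := ∑ i ∈ range l, (κ s(x i, x (i + 1)))⁻¹ with hS
  have hS0 : 0 ≤ S := Finset.sum_nonneg (fun i _ => inv_nonneg.2 (h _))
  refine (crs_le_Gz h bad z m v).trans ?_
  set b := bd κ bad z with hb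
  have hb0 : ∀ x, 0 ≤ b x := by
    intro x
    rw [hb]; unfold bd
    split_ifs
    · exact le_rfl
    · apply Finset.sum_nonneg
      intro y _
      split_ifs
      · exact tr_nonneg h x y
      · exact le_rfl
  have hcb : ∀ x, cs κ x * b x ≤ (Fintype.card V : ℝ) * B := by
    intro x
    rw [hb]; unfold bd
    split_ifs
    · rw [mul_zero]; positivity
    · rw [Finset.mul_sum]
      calc ∑ y, cs κ x * (if bad s(x, y) then tr κ x y else 0) ≤ ∑ _y : V, B := by
            apply Finset.sum_le_sum
            intro y _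
            split_ifs with hbad
            · rw [cs_mul_tr h]
              unfold Kc
              split_ifs
              · exact hB0
              · exact hB _ hbad
            · rw [mul_zero]; exact hB0
        _ = _ := by rw [Finset.sum_const, Finset.card_univ, nsmul_eq_mul]
  have e1 := Gz_symm h z m (fun u => if u = v then 1 else 0) b (by simp [hvz.symm])
    (by rw [hb]; unfold bd; simp)
  have e2 : ∑ x, cs κ x * (if x = v then (1:ℝ) else 0) * Gz κ z b m x =
      cs κ v * Gz κ z b m v := by
    rw [Finset.sum_eq_single v]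
    · simp
    · intro w _ hw; simp [hw]
    · intro hh; exact absurd (Finset.mem_univ _) hh
  rw [e2] at e1
  have e3 : ∑ x, cs κ x * b x * Gz κ z (fun u => if u = v then 1 else 0) m x ≤
      (Fintype.card V : ℝ) * ((Fintype.card V : ℝ) * B) * (cs κ v * S) := by
    calc _ ≤ ∑ _x : V, ((Fintype.card V : ℝ) * B) * (cs κ v * S) := by
          apply Finset.sum_le_sum
          intro w _
          have a1 := Gz_le h hvz l x hinj hpos h0 hl' m w
          have a2 := hcb w
          have a3 : 0 ≤ cs κ w * b w := mul_nonneg (cs_nonneg h w) (hb0 w)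
          have a4 : 0 ≤ cs κ v * S := mul_nonneg (cs_nonneg h v) hS0
          calc _ ≤ cs κ w * b w * (cs κ v * S) := mul_le_mul_of_nonneg_left a1 a3
            _ ≤ _ := mul_le_mul_of_nonneg_right a2 a4
      _ = _ := by
          rw [Finset.sum_const, Finset.card_univ, nsmul_eq_mul]; ring
  have e4 : cs κ v * Gz κ z b m v ≤ cs κ v * ((Fintype.card V : ℝ) ^ 2 * B * S) := by
    rw [e1]
    refine e3.trans (le_of_eq ?_)
    ring
  exact le_of_mul_le_mul_left e4 hv

end

end Pool.Agent.TH972
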