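import Pool.Agent.TH972.PathSum
import Pool.Agent.TH972.Connect

/-!
# Escape probabilities in the fresh environment
-/

set_option autoImplicit false
set_option linter.unusedSectionVars false

namespace Pool.Agent.TH972

open Finset MeasureTheory Pool.Agent.W842.RST Filter Topology

noncomputable section

variable {n : ℕ}

theorem exp_le_two {x : ℝ} (h0 : 0 ≤ x) (h1 : x ≤ 1) : Real.exp x ≤ 1 + 2 * x := by
  have h := Real.abs_exp_sub_one_sub_id_le (x := x) (by rw [abs_of_nonneg h0]; exact h1)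
  have h2 := (abs_le.1 h).2
  nlinarith

theorem exp_neg_half_le {a : ℝ} (h0 : 0 ≤ a) (h1 : a ≤ 1) :
    Real.exp (-(a / 2)) ≤ 1 - 3 * a / 8 := by
  have h := one_sub_exp_ge (l := a / 2) (by linarith)
  nlinarith

/-- lower bounds for the survival in the exploration -/
def al (a δ : ℝ) (h i : ℕ) : ℝ := if i < h then min (a / 2) (δ * (1 + a / 8) ^ (h - 1 - i)) else 0

theorem al_nonneg {a δ : ℝ} (ha : 0 ≤ a) (hδ : 0 ≤ δ) (h i : ℕ) : 0 ≤ al a δ h i := by
  unfold al; split_ifs
  · apply le_min <;> positivity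
  · exact le_rfl

theorem al_le {a δ : ℝ} (ha : 0 ≤ a) (h i : ℕ) : al a δ h i ≤ a / 2 := by
  unfold al; split_ifs
  · exact min_le_left _ _
  · linarith

theorem al_step {a δ μ : ℝ} (ha : 0 ≤ a) (ha1 : a ≤ 1) (hδ : 0 ≤ δ)
    (hμ : 1 + a / 8 ≤ μ * (1 - a / 4)) (h i : ℕ) (hi : i < h) :
    al a δ h i ≤ δ + μ * (al a δ h (i + 1) - al a δ h (i + 1) ^ 2 / 2) := by
  have hμ0 : 0 ≤ μ := by
    by_contra hcon
    push Not at hcon
    have : 0 < 1 - a / 4 := by linarith
    nlinarith
  set s := al a δ h (i + 1) with hs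
  have hs0 : 0 ≤ s := al_nonneg ha hδ h (i + 1)
  have hs1 : s ≤ a / 2 := al_le ha h (i + 1)
  have h1 : (1 + a / 8) * s ≤ μ * (s - s ^ 2 / 2) := by
    have h2 : μ * (1 - a / 4) * s ≤ μ * (s - s ^ 2 / 2) := by
      have : (1 - a / 4) * s ≤ s - s ^ 2 / 2 := by nlinarith
      nlinarith
    nlinarith
  by_cases hi' : i + 1 < h
  · have e1 : s = min (a / 2) (δ * (1 + a / 8) ^ (h - 1 - (i + 1))) := by
      rw [hs]; unfold al; rw [if_pos hi']
    have e2 : h - 1 - i = (h - 1 - (i + 1)) + 1 := by omega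
    unfold al
    rw [if_pos hi, e2, pow_succ]
    rcases le_total (a / 2) (δ * (1 + a / 8) ^ (h - 1 - (i + 1))) with h3 | h3
    · rw [min_eq_left h3] at e1
      refine (min_le_left _ _).trans ?_
      rw [e1] at h1 ⊢
      nlinarith
    · rw [min_eq_right h3] at e1
      refine (min_le_right _ _).trans ?_
      have : δ * ((1 + a / 8) ^ (h - 1 - (i + 1)) * (1 + a / 8)) = (1 + a / 8) * s := by
        rw [e1]; ring
      rw [this]
      linarith
  · have e2 : h - 1 - i = 0 := by omega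
    have h4 : al a δ h i ≤ δ := by
      unfold al
      rw [if_pos hi, e2, pow_zero, mul_one]
      exact min_le_right _ _
    have h5 : 0 ≤ (1 + a / 8) * s := by positivity
    linarith

/-- the exploration fails with probability at most `1 - a / 4` -/
theorem explore_fail {p a ρ : ℝ} (h0 : 0 ≤ p) (h1 : p ≤ 1) (ha0 : 0 < a) (ha1 : a ≤ 1 / 2)
    (hp : (1 + a) ≤ n * p) (R W : Finset (Fin n)) (v : Fin n) (hvW : v ∈ W) (hvR : v ∉ R)
    (hR : R ⊆ W) (h : ℕ) (hh : a / 2 ≤ p * R.card * (1 + a / 8) ^ (h - 1)) (hh1 : 1 ≤ h)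
    (hρ0 : 0 ≤ ρ) (hρ : (Real.exp ρ - 1) * n ≤ R.card)
    (hfar : Real.exp (-(ρ * ((W.card : ℝ) - 1 - (n * (1 - a / 4) + R.card)))) ≤ a / 8) :
    pr p (edg W) (Gx R h W.card W {v} (fun _ => 0)) ≤ 1 - a / 4 := by
  set δ := p * R.card with hδ
  have hδ0 : 0 ≤ δ := by positivity
  have hn0 : (0:ℝ) ≤ n := Nat.cast_nonneg _
  have key := pr_Gx_le h0 h1 n R h (al a δ h) ρ (n * (1 - a / 4) + R.card)
    (fun i => al_nonneg ha0.le hδ0 h i) (fun i => (al_le ha0.le h i).trans (by linarith))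
    (fun i hi => by unfold al; rw [if_neg (by omega)]) hρ0 (by
      have : 0 ≤ (n : ℝ) * (1 - a / 4) := mul_nonneg hn0 (by linarith)
      linarith) (by
      intro i hi
      have e : (n : ℝ) * (1 - a / 4) + R.card - R.card = n * (1 - a / 4) := by ring
      rw [e]
      apply al_step ha0.le (by linarith) hδ0 _ h i hi
      have h3 : (1 + a) * (1 - a / 4) ≤ p * (n * (1 - a / 4)) := by
        have := mul_le_mul_of_nonneg_right hp (by linarith : (0:ℝ) ≤ 1 - a / 4)
        linarith
      have h4 : 1 + a / 8 ≤ (1 + a) * (1 - a / 4) * (1 - a / 4) := by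
        have a1 : 0 ≤ a * (1 / 2 - a) := mul_nonneg ha0.le (by linarith)
        have a2 : 0 ≤ a ^ 3 := by positivity
        nlinarith
      have h5 := mul_le_mul_of_nonneg_right h3 (by linarith : (0:ℝ) ≤ 1 - a / 4)
      linarith) hρ W.card W {v} (fun _ => 0) (by simpa using hvW) le_rfl (by
        refine (Finset.card_le_univ _).trans ?_
        rw [Fintype.card_fin]) (by
        intro u hu
        rw [Finset.mem_sdiff, Finset.mem_singleton]
        exact ⟨hR hu, fun h => hvR (h ▸ hu)⟩)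
  rw [Finset.sum_singleton] at key
  have e1 : (((W \ {v}).card : ℕ) : ℝ) = (W.card : ℝ) - 1 := by
    rw [Finset.card_sdiff_of_subset (by simpa using hvW), Finset.card_singleton,
      Nat.cast_sub (Finset.card_pos.2 ⟨v, hvW⟩)]
    norm_num
  rw [e1] at key
  have e2 : al a δ h 0 = a / 2 := by
    unfold al
    rw [if_pos (by omega), Nat.sub_zero]
    exact min_eq_left hh
  rw [e2] at key
  have h5 := exp_neg_half_le ha0.le (by linarith)
  linarith

/-- integral of a truncated exponential -/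
theorem integral_exp_trunc {b : ℝ} (hb : 0 < b) (p : ℝ) :
    ∫ u, ind (u ≤ p) * Real.exp (b * u) ∂nu ≤ Real.exp (b * p) / b := by
  have hint := integrableOn_exp_mul_Iic hb p
  have e1 : (fun u : ℝ => ind (u ≤ p) * Real.exp (b * u)) =
      Set.indicator (Set.Iic p) (fun u => Real.exp (b * u)) := by
    funext u
    by_cases h : u ≤ p
    · rw [ind_true h, Set.indicator_of_mem (show u ∈ Set.Iic p from h), one_mul]
    · rw [ind_false h, Set.indicator_of_notMem (show u ∉ Set.Iic p from h), zero_mul]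
  rw [e1, integral_indicator measurableSet_Iic]
  have e2 : nu.restrict (Set.Iic p) ≤ (volume : Measure ℝ).restrict (Set.Iic p) := by
    unfold nu
    exact Measure.restrict_mono_measure Measure.restrict_le_self _
  have e3 : ∫ u in Set.Iic p, Real.exp (b * u) ∂nu ≤ ∫ u in Set.Iic p, Real.exp (b * u) :=
    integral_mono_measure e2 (Filter.Eventually.of_forall (fun _ => (Real.exp_pos _).le)) hint
  refine e3.trans (le_of_eq ?_)
  exact integral_exp_mul_Iic hb p

/-- the weight used for the resistance of paths -/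
def phiR (lam b p0 pt : ℝ) (u : ℝ) : ℝ := ind (u ≤ p0) * Real.exp (lam * Real.exp (b * (u - pt)))

theorem phiR_nonneg (lam b p0 pt u : ℝ) : 0 ≤ phiR lam b p0 pt u :=
  mul_nonneg (ind_nonneg _) (Real.exp_pos _).le

theorem phiR_meas (lam b p0 pt : ℝ) : Measurable (phiR lam b p0 pt) := by
  unfold phiR
  apply (meas_ind_le p0).mul
  fun_prop

theorem phiR_le {lam b p0 pt : ℝ} (hl : 0 ≤ lam) (hb : 0 ≤ b)
    (h1 : lam * Real.exp (b * (p0 - pt)) ≤ 1) (u : ℝ) :
    phiR lam b p0 pt u ≤ ind (u ≤ p0) + 2 * lam * Real.exp (-(b * pt)) *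
      (ind (u ≤ p0) * Real.exp (b * u)) := by
  unfold phiR
  by_cases h : u ≤ p0
  · rw [ind_true h, one_mul, one_mul]
    have h2 : lam * Real.exp (b * (u - pt)) ≤ 1 := by
      refine le_trans ?_ h1
      apply mul_le_mul_of_nonneg_left _ hl
      apply Real.exp_le_exp.2
      apply mul_le_mul_of_nonneg_left _ hb
      linarith
    have h3 := exp_le_two (mul_nonneg hl (Real.exp_pos (b * (u - pt))).le) h2
    refine h3.trans (le_of_eq ?_)
    have : Real.exp (b * (u - pt)) = Real.exp (-(b * pt)) * Real.exp (b * u) := by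
      rw [← Real.exp_add]; ring_nf
    rw [this]
    ring
  · rw [ind_false h]; simp

theorem phiR_abs {lam b p0 pt : ℝ} (hl : 0 ≤ lam) (hb : 0 ≤ b)
    (h1 : lam * Real.exp (b * (p0 - pt)) ≤ 1) (u : ℝ) : |phiR lam b p0 pt u| ≤ 3 := by
  rw [abs_of_nonneg (phiR_nonneg _ _ _ _ _)]
  unfold phiR
  by_cases h : u ≤ p0
  · rw [ind_true h, one_mul]
    have h2 : lam * Real.exp (b * (u - pt)) ≤ 1 := by
      refine le_trans ?_ h1
      apply mul_le_mul_of_nonneg_left _ hl
      apply Real.exp_le_exp.2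
      apply mul_le_mul_of_nonneg_left _ hb
      linarith
    have h3 := exp_le_two (mul_nonneg hl (Real.exp_pos (b * (u - pt))).le) h2
    linarith
  · rw [ind_false h]; norm_num

theorem integral_phiR {lam b p0 pt : ℝ} (hl : 0 ≤ lam) (hb : 0 < b) (hp0 : 0 ≤ p0)
    (hp1 : p0 ≤ 1) (h1 : lam * Real.exp (b * (p0 - pt)) ≤ 1) :
    ∫ u, phiR lam b p0 pt u ∂nu ≤ p0 + 2 / b := by
  have hi1 : Integrable (fun u : ℝ => ind (u ≤ p0)) nu :=
    Integrable.of_bound (meas_ind_le p0).aestronglyMeasurable 1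
      (Filter.Eventually.of_forall (fun u => by
        rw [Real.norm_eq_abs, abs_of_nonneg (ind_nonneg _)]; exact ind_le_one _))
  have hi2 : Integrable (fun u : ℝ => ind (u ≤ p0) * Real.exp (b * u)) nu :=
    Integrable.of_bound ((meas_ind_le p0).mul (by fun_prop)).aestronglyMeasurable
      (Real.exp (b * p0))
      (Filter.Eventually.of_forall (fun u => by
        rw [Real.norm_eq_abs, abs_of_nonneg (mul_nonneg (ind_nonneg _) (Real.exp_pos _).le)]
        by_cases h : u ≤ p0
        · rw [ind_true h, one_mul]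
          apply Real.exp_le_exp.2
          exact mul_le_mul_of_nonneg_left h hb.le
        · rw [ind_false h, zero_mul]; exact (Real.exp_pos _).le))
  have hi3 : Integrable (phiR lam b p0 pt) nu :=
    Integrable.of_bound (phiR_meas _ _ _ _).aestronglyMeasurable 3
      (Filter.Eventually.of_forall (fun u => by
        rw [Real.norm_eq_abs]; exact phiR_abs hl hb.le h1 u))
  calc ∫ u, phiR lam b p0 pt u ∂nu ≤ ∫ u, (ind (u ≤ p0) + 2 * lam * Real.exp (-(b * pt)) *
      (ind (u ≤ p0) * Real.exp (b * u))) ∂nu :=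
        integral_mono hi3 (hi1.add (hi2.const_mul _)) (phiR_le hl hb.le h1)
    _ = p0 + 2 * lam * Real.exp (-(b * pt)) *
        ∫ u, ind (u ≤ p0) * Real.exp (b * u) ∂nu := by
        rw [integral_add hi1 (hi2.const_mul _), integral_ind hp0 hp1, integral_const_mul]
    _ ≤ p0 + 2 * lam * Real.exp (-(b * pt)) * (Real.exp (b * p0) / b) := by
        apply add_le_add_right
        apply mul_le_mul_of_nonneg_left (integral_exp_trunc hb p0)
        have := Real.exp_pos (-(b * pt))
        positivity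
    _ = p0 + 2 * (lam * Real.exp (b * (p0 - pt))) / b := by
        have : Real.exp (b * (p0 - pt)) = Real.exp (-(b * pt)) * Real.exp (b * p0) := by
          rw [← Real.exp_add]; ring_nf
        rw [this]
        ring
    _ ≤ p0 + 2 / b := by
        apply add_le_add_right
        apply div_le_div_of_nonneg_right _ hb.le
        linarith

/-- simple path from a walk -/
theorem walk_simple {V : Type*} [DecidableEq V] {G : SimpleGraph V} {v w : V}
    (q : G.Walk v w) : ∃ (l : ℕ) (x : ℕ → V), l ≤ q.length ∧ Set.InjOn x (Set.Iic l) ∧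
      x 0 = v ∧ x l = w ∧ ∀ i < l, G.Adj (x i) (x (i + 1)) := by
  refine ⟨q.bypass.length, q.bypass.getVert, q.length_bypass_le_length, ?_, by simp, by simp,
    fun i hi => q.bypass.adj_getVert_succ hi⟩
  intro a ha b hb hab
  exact q.bypass_isPath.getVert_injOn ha hb hab

section

variable (P : Prm n)

/-- limit of the hitting probabilities -/
def Hl (c : ℝ) (B : Finset (Fin n)) (y : Fin n) (U : Ev n) : ℝ :=
  hl (off (kap1 P.β P.p1 U) B) (fun v => if v = y then c else 0) P.R ∅ y

theorem Hm_tendsto {c : ℝ} (hc : 0 ≤ c) (B : Finset (Fin n)) (y : Fin n) (U : Ev n) :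
    Tendsto (fun m => Hm P c B y m U) atTop (𝓝 (Hl P c B y U)) :=
  hit_tendsto (off_nonneg (kap1_nonneg _ _ _) _) (Hk0 hc y) y

theorem BM_Hl {c : ℝ} (hc : 0 ≤ c) (B : Finset (Fin n)) (y : Fin n) :
    BM (fun U => Hl P c B y U) := by
  refine ⟨?_, 1, fun U => ?_⟩
  · apply measurable_of_tendsto_metrizable (fun m => (BM_Hm P hc B y m).meas)
    rw [tendsto_pi_nhds]
    exact fun U => Hm_tendsto P hc B y U
  · unfold Hl
    rw [abs_of_nonneg (hl_nonneg (off_nonneg (kap1_nonneg _ _ _) _) (Hk0 hc y) _)]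
    exact hl_le_one (off_nonneg (kap1_nonneg _ _ _) _) (Hk0 hc y) _

theorem Ex_Hm_tendsto {c : ℝ} (hc : 0 ≤ c) (B : Finset (Fin n)) (y : Fin n) :
    Tendsto (fun m => Ex (fun U => Hm P c B y m U)) atTop (𝓝 (Ex (fun U => Hl P c B y U))) := by
  unfold Ex
  apply tendsto_integral_of_dominated_convergence (fun _ => (1:ℝ))
  · intro m
    exact (BM_Hm P hc B y m).meas.aestronglyMeasurable
  · exact integrable_const _
  · intro m
    apply Filter.Eventually.of_forall
    intro U
    rw [Real.norm_eq_abs]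
    unfold Hm
    rw [abs_of_nonneg (hit_nonneg (off_nonneg (kap1_nonneg _ _ _) _) (Hk0 hc y) _ _)]
    exact hit_le_one (off_nonneg (kap1_nonneg _ _ _) _) (Hk0 hc y) _ _
  · exact Filter.Eventually.of_forall (fun U => Hm_tendsto P hc B y U)

open Classical in
/-- the failure of the exploration in the environment -/
def Cf (p0 : ℝ) (B : Finset (Fin n)) (y : Fin n) (h : ℕ) (U : Ev n) : Prop :=
  Gx P.R h (Bᶜ).card Bᶜ {y} (fun _ => 0) ((edg (Bᶜ)).filter (fun e => U e ≤ p0))

theorem Hl_ge (hβ : 0 < P.β) {p0 lam Rs : ℝ} (hp01 : p0 ≤ P.p1) (hlam : 0 < lam) (hRs : 0 ≤ Rs)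
    (B : Finset (Fin n)) (y : Fin n) (hyB : y ∉ B) (h : ℕ) (U : Ev n) :
    (1 + Rs)⁻¹ * (1 - ind (Cf P p0 B y h U) - ∑ l ∈ range (h + 1),
      Real.exp (-(lam * Rs)) * Wp (phiR lam P.β p0 P.pt) U l y (univ.erase y)) ≤
      Hl P (Real.exp (-(P.β * P.pt))) B y U := by
  classical
  set c := Real.exp (-(P.β * P.pt)) with hc
  have hc0 : 0 ≤ c := (Real.exp_pos _).le
  have hHl0 : 0 ≤ Hl P c B y U := hl_nonneg (off_nonneg (kap1_nonneg _ _ _) _) (Hk0 hc0 y) _
  have hS0 : 0 ≤ ∑ l ∈ range (h + 1),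
      Real.exp (-(lam * Rs)) * Wp (phiR lam P.β p0 P.pt) U l y (univ.erase y) :=
    Finset.sum_nonneg (fun l _ => mul_nonneg (Real.exp_pos _).le
      (Wp_nonneg (phiR_nonneg _ _ _ _) _ _ _ _))
  have hinv : 0 ≤ (1 + Rs)⁻¹ := by positivity
  by_cases hC : Cf P p0 B y h U
  · rw [ind_true hC]
    refine le_trans ?_ hHl0
    have : 1 - 1 - ∑ l ∈ range (h + 1),
      Real.exp (-(lam * Rs)) * Wp (phiR lam P.β p0 P.pt) U l y (univ.erase y) ≤ 0 := by linarith
    exact mul_nonpos_of_nonneg_of_nonpos hinv this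
  · rw [ind_false hC, sub_zero]
    -- there is a path
    have hpath : ∃ r ∈ P.R, ∃ w : (gr ((edg (Bᶜ)).filter (fun e => U e ≤ p0))).Walk y r,
        w.length ≤ h := by
      by_contra hno
      apply hC
      apply Gx_sound _ _ _ y
      · simpa using hyB
      · intro a ha
        rw [Finset.mem_singleton] at ha
        subst ha
        exact ⟨SimpleGraph.Walk.nil, by simp⟩
      · exact hno
    obtain ⟨r, hr, w, hw⟩ := hpath
    obtain ⟨l, x, hl1, hinj, hx0, hxl, hadj⟩ := walk_simple w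
    have hadj' : ∀ i < l, x i ∉ B ∧ x (i + 1) ∉ B ∧ U s(x i, x (i + 1)) ≤ p0 := by
      intro i hi
      have := hadj i hi
      rw [SimpleGraph.fromEdgeSet_adj, Finset.mem_coe, Finset.mem_filter, mem_edg,
        Finset.mem_compl, Finset.mem_compl] at this
      exact ⟨this.1.1.1, this.1.1.2.1, this.1.2⟩
    have hcond : ∀ i < l, off (kap1 P.β P.p1 U) B s(x i, x (i + 1)) =
        Real.exp (-(P.β * U s(x i, x (i + 1)))) := by
      intro i hi
      obtain ⟨h1, h2, h3⟩ := hadj' i hi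
      unfold off kap1
      have : ¬ ∃ b ∈ B, b ∈ s(x i, x (i + 1)) := by
        rintro ⟨b, hb, hb'⟩
        rw [Sym2.mem_iff] at hb'
        rcases hb' with h4 | h4
        · exact h1 (h4 ▸ hb)
        · exact h2 (h4 ▸ hb)
      rw [if_neg this, if_pos (h3.trans hp01)]
    set sr := ∑ i ∈ range l, Real.exp (P.β * (U s(x i, x (i + 1)) - P.pt)) with hsr
    have e1 : c * ∑ i ∈ range l, (off (kap1 P.β P.p1 U) B s(x i, x (i + 1)))⁻¹ = sr := by
      rw [Finset.mul_sum]
      apply Finset.sum_congr rfl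
      intro i hi
      rw [hcond i (Finset.mem_range.1 hi), ← Real.exp_neg, neg_neg, hc, ← Real.exp_add]
      ring_nf
    by_cases hheavy : sr ≤ Rs
    · have h5 := escape (κ := off (kap1 P.β P.p1 U) B) (A := P.R) (R := Rs)
        (off_nonneg (kap1_nonneg _ _ _) _) hc0 y l x hinj (by
          intro i hi
          rw [hcond i hi]; exact Real.exp_pos _) hx0 (by rw [hxl]; exact hr)
        (by rw [e1]; exact hheavy)
      refine le_trans ?_ h5
      have : 1 - ∑ l ∈ range (h + 1),
        Real.exp (-(lam * Rs)) * Wp (phiR lam P.β p0 P.pt) U l y (univ.erase y) ≤ 1 := by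
        linarith
      calc _ ≤ (1 + Rs)⁻¹ * 1 := mul_le_mul_of_nonneg_left this hinv
        _ = _ := mul_one _
    · push Not at hheavy
      refine le_trans ?_ hHl0
      apply mul_nonpos_of_nonneg_of_nonpos hinv
      have h6 : Real.exp (lam * sr) ≤ Wp (phiR lam P.β p0 P.pt) U l y (univ.erase y) := by
        have h7 := prod_le_Wp (phiR_nonneg lam P.β p0 P.pt) U l x (univ.erase y) hinj (by
          intro i hi hi'
          rw [Finset.mem_erase]
          refine ⟨?_, Finset.mem_univ _⟩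
          intro he
          have := hinj (x₁ := i) (x₂ := 0) (by simp only [Set.mem_Iic]; omega)
            (by simp only [Set.mem_Iic]; omega) (by rw [he, hx0])
          omega)
        rw [hx0] at h7
        refine le_trans (le_of_eq ?_) h7
        rw [hsr, Finset.mul_sum, Real.exp_sum]
        apply Finset.prod_congr rfl
        intro i hi
        unfold phiR
        rw [ind_true (hadj' i (Finset.mem_range.1 hi)).2.2, one_mul]
      have h8 : 1 ≤ Real.exp (-(lam * Rs)) *
          Wp (phiR lam P.β p0 P.pt) U l y (univ.erase y) := by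
        calc (1:ℝ) ≤ Real.exp (-(lam * Rs)) * Real.exp (lam * sr) := by
              rw [← Real.exp_add]
              apply Real.one_le_exp
              nlinarith
          _ ≤ _ := mul_le_mul_of_nonneg_left h6 (Real.exp_pos _).le
      have h9 : Real.exp (-(lam * Rs)) * Wp (phiR lam P.β p0 P.pt) U l y (univ.erase y) ≤
          ∑ l ∈ range (h + 1),
          Real.exp (-(lam * Rs)) * Wp (phiR lam P.β p0 P.pt) U l y (univ.erase y) :=
        Finset.single_le_sum (f := fun l => Real.exp (-(lam * Rs)) *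
          Wp (phiR lam P.β p0 P.pt) U l y (univ.erase y))
          (fun l _ => mul_nonneg (Real.exp_pos _).le (Wp_nonneg (phiR_nonneg _ _ _ _) _ _ _ _))
          (Finset.mem_range.2 (by omega))
      linarith

theorem Ex_Cf {p0 : ℝ} (hp0 : 0 ≤ p0) (hp1 : p0 ≤ 1) (B : Finset (Fin n)) (y : Fin n) (h : ℕ)
    {r : ℝ} (hr : pr p0 (edg (Bᶜ)) (Gx P.R h (Bᶜ).card Bᶜ {y} (fun _ => 0)) ≤ r) :
    Ex (fun U => ind (Cf P p0 B y h U)) ≤ r := by
  classical
  have hr0 : 0 ≤ r := (pr_nonneg hp0 hp1 _ _).trans hr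
  apply Ex_ind_le (mset_filter p0 _ _) hr0
  refine (env_le_pr hp0 hp1 (edg (Bᶜ)) _).trans ?_
  exact ENNReal.ofReal_le_ofReal hr

theorem Ex_Hl_ge (hβ : 0 < P.β) {p0 lam Rs I b d : ℝ} (hp01 : p0 ≤ P.p1) (hp0 : 0 ≤ p0)
    (hp1 : p0 ≤ 1) (hlam : 0 < lam) (hRs : 0 ≤ Rs)
    (hl1 : lam * Real.exp (P.β * (p0 - P.pt)) ≤ 1) (hI : n * (p0 + 2 / P.β) ≤ I) (hI1 : 1 ≤ I)
    (B : Finset (Fin n)) (y : Fin n) (hyB : y ∉ B) (h : ℕ)
    (hC : pr p0 (edg (Bᶜ)) (Gx P.R h (Bᶜ).card Bᶜ {y} (fun _ => 0)) ≤ 1 - b)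
    (hd : (h + 1) * (Real.exp (-(lam * Rs)) * I ^ h) ≤ d) :
    (1 + Rs)⁻¹ * (b - d) ≤ Ex (fun U => Hl P (Real.exp (-(P.β * P.pt))) B y U) := by
  classical
  have hc0 : 0 ≤ Real.exp (-(P.β * P.pt)) := (Real.exp_pos _).le
  have bC : BM (fun U => ind (Cf P p0 B y h U)) := BM.ind (mset_filter p0 _ _)
  have bW : ∀ l, BM (fun U : Ev n => Real.exp (-(lam * Rs)) *
      Wp (phiR lam P.β p0 P.pt) U l y (univ.erase y)) := fun l =>
    (BM.const _).mul (BM_Wp (phiR_meas _ _ _ _) (phiR_abs hlam.le hβ.le hl1) l y _)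
  have h1 : Ex (fun U => (1 + Rs)⁻¹ * (1 - ind (Cf P p0 B y h U) - ∑ l ∈ range (h + 1),
      Real.exp (-(lam * Rs)) * Wp (phiR lam P.β p0 P.pt) U l y (univ.erase y))) ≤
      Ex (fun U => Hl P (Real.exp (-(P.β * P.pt))) B y U) := by
    apply Ex_mono ((BM.const _).mul (((BM.const 1).sub bC).sub (BM.sum _ (fun l _ => bW l))))
      (BM_Hl P hc0 B y)
    intro U
    exact Hl_ge P hβ hp01 hlam hRs B y hyB h U
  refine le_trans ?_ h1
  rw [Ex_const_mul, Ex_sub ((BM.const 1).sub bC) (BM.sum _ (fun l _ => bW l)),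
    Ex_sub (BM.const 1) bC, Ex_const, Ex_sum _ (fun l _ => bW l)]
  apply mul_le_mul_of_nonneg_left _ (by positivity)
  have h2 := Ex_Cf P hp0 hp1 B y h hC
  have h3 : ∑ l ∈ range (h + 1), Ex (fun U : Ev n => Real.exp (-(lam * Rs)) *
      Wp (phiR lam P.β p0 P.pt) U l y (univ.erase y)) ≤
      (h + 1) * (Real.exp (-(lam * Rs)) * I ^ h) := by
    calc _ ≤ ∑ _l ∈ range (h + 1), Real.exp (-(lam * Rs)) * I ^ h := by
          apply Finset.sum_le_sum
          intro l hl
          rw [Ex_const_mul]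
          apply mul_le_mul_of_nonneg_left _ (Real.exp_pos _).le
          have h4 := Ex_Wp_le (n := n) (phiR_meas lam P.β p0 P.pt)
            (phiR_abs hlam.le hβ.le hl1) (phiR_nonneg _ _ _ _) (I := I) (by
              refine le_trans ?_ hI
              apply mul_le_mul_of_nonneg_left _ (Nat.cast_nonneg _)
              exact integral_phiR hlam.le hβ hp0 hp1 hl1) l y (univ.erase y)
            (Finset.notMem_erase _ _)
          refine h4.trans ?_
          apply pow_le_pow_right₀ hI1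
          have := Finset.mem_range.1 hl
          omega
      _ = _ := by
          rw [Finset.sum_const, Finset.card_range, nsmul_eq_mul]
          push_cast
          ring
  linarith

end

end

end Pool.Agent.TH972
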