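import Pool.Agent.TH972.Walk2

/-!
# Levels, paths, and the fresh part of the environment
-/

set_option autoImplicit false
set_option linter.unusedSectionVars false

namespace Pool.Agent.TH972

open Finset

noncomputable section

variable {V : Type*} [Fintype V] [DecidableEq V]

theorem failG_le_one {κ : Sym2 V → ℝ} (h : ∀ e, 0 ≤ κ e) (k0 : ℕ) (A : Set (Sym2 V) → Prop)
    (m : ℕ) (x : V) (t : List V) : failG κ k0 A m x t ≤ 1 := by
  induction m generalizing x t with
  | zero => unfold failG; split_ifs <;> norm_num
  | succ m ih =>
    unfold failG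
    split_ifs
    · norm_num
    · norm_num
    · refine le_trans ?_ (sum_tr_le h x)
      apply Finset.sum_le_sum
      intro y _
      have := mul_le_mul_of_nonneg_left (ih y (x :: t)) (tr_nonneg h x y)
      linarith

/-- the history is a path of the walk -/
def Chn (D : Dat V) (t : List V) : Prop := List.IsChain (fun a b => D.g s(b, a) ∧ b ≠ a) t

/-- number of visited vertices of level less than `M` -/
def cM (D : Dat V) (M : ℕ) (x : V) (t : List V) : ℝ :=
  ∑ w ∈ vis x t, ind (lev D.top (x :: t) w < M)

theorem failG_le (D : Dat V) (M : ℕ) (A : Set (Sym2 V) → Prop) (hk0 : 0 < D.k0)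
    (hA : ∀ x t, Chn D (x :: t) → ∀ w ∈ vis x t, M ≤ lev D.top (x :: t) w → A (fe (x :: t)))
    (m : ℕ) (x : V) (t : List V) (hch : Chn D (x :: t)) (hxR : x ∉ D.R)
    (hcl : ¬ clo D.g x t) :
    failG D.κ D.k0 A m x t ≤ oc D (fun y s => ind (clo D.g y s) + ind (y ∈ D.R)) m x t +
      (D.k0 : ℝ)⁻¹ * (cM D M x t +
        oc D (fun y s => ind (y ∉ s ∧ lev D.top (y :: s) y < M)) m x t) := by
  have hg0 : ∀ y s, (0:ℝ) ≤ ind (clo D.g y s) + ind (y ∈ D.R) :=
    fun y s => add_nonneg (ind_nonneg _) (ind_nonneg _)
  have hk : (0:ℝ) < D.k0 := by exact_mod_cast hk0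
  have hc0 : ∀ x t, 0 ≤ cM D M x t := fun x t => Finset.sum_nonneg (fun _ _ => ind_nonneg _)
  have hn0 : ∀ (y : V) (s : List V), (0:ℝ) ≤ ind (y ∉ s ∧ lev D.top (y :: s) y < M) :=
    fun y s => ind_nonneg _
  have hfull : ∀ (m : ℕ) (x : V) (t : List V), Chn D (x :: t) → D.k0 ≤ (vis x t).card →
      failG D.κ D.k0 A m x t ≤ oc D (fun y s => ind (clo D.g y s) + ind (y ∈ D.R)) m x t +
      (D.k0 : ℝ)⁻¹ * (cM D M x t +
        oc D (fun y s => ind (y ∉ s ∧ lev D.top (y :: s) y < M)) m x t) := by
    intro m x t hch hf
    have h1 : failG D.κ D.k0 A m x t = open Classical in if A (fe (x :: t)) then 0 else 1 := by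
      cases m <;> (unfold failG; rw [if_pos hf])
    have h2 := oc_nonneg D hg0 m x t
    have h3 := oc_nonneg D hn0 m x t
    have h4 := hc0 x t
    rw [h1]
    split_ifs with hAx
    · positivity
    · have h5 : cM D M x t = (vis x t).card := by
        unfold cM
        rw [Finset.card_eq_sum_ones, Nat.cast_sum]
        apply Finset.sum_congr rfl
        intro w hw
        rw [ind_true]
        · norm_num
        · by_contra hcon
          push Not at hcon
          exact hAx (hA x t hch w hw hcon)
      rw [h5]
      have h6 : (D.k0 : ℝ) ≤ (vis x t).card := by exact_mod_cast hf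
      have h7 : 1 ≤ (D.k0 : ℝ)⁻¹ * ((vis x t).card +
          oc D (fun y s => ind (y ∉ s ∧ lev D.top (y :: s) y < M)) m x t) := by
        rw [inv_mul_eq_div, le_div_iff₀ hk]
        linarith
      linarith
  induction m generalizing x t with
  | zero =>
    by_cases hf : D.k0 ≤ (vis x t).card
    · exact hfull 0 x t hch hf
    · unfold failG
      rw [if_neg hf, oc_zero, oc_zero, zero_add, add_zero]
      have := hc0 x t
      positivity
  | succ m ih =>
    by_cases hf : D.k0 ≤ (vis x t).card
    · exact hfull (m + 1) x t hch hf
    · have hs : ¬ stp D x t := by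
        rintro (h | h | h)
        · exact hxR h
        · exact hcl h
        · exact hf h
      rw [oc_succ D _ m hs, oc_succ D _ m hs]
      unfold failG
      rw [if_neg hf]
      have h1 : ∑ y, tr D.κ x y * failG D.κ D.k0 A m y (x :: t) ≤
          ∑ y, tr D.κ x y * ((fun y s => ind (clo D.g y s) + ind (y ∈ D.R)) y (x :: t) +
            oc D (fun y s => ind (clo D.g y s) + ind (y ∈ D.R)) m y (x :: t)) +
          (D.k0 : ℝ)⁻¹ * (∑ y, tr D.κ x y * cM D M x t +
            ∑ y, tr D.κ x y *
              ((fun y s => ind (y ∉ s ∧ lev D.top (y :: s) y < M)) y (x :: t) +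
              oc D (fun y s => ind (y ∉ s ∧ lev D.top (y :: s) y < M)) m y (x :: t))) := by
        rw [← Finset.sum_add_distrib, Finset.mul_sum, ← Finset.sum_add_distrib]
        apply Finset.sum_le_sum
        intro y _
        by_cases ht : tr D.κ x y = 0
        · rw [ht]; simp
        · obtain ⟨hg, hxy⟩ := tr_pos_g D ht
          have ht0 := tr_nonneg D.κ0 x y
          have key : failG D.κ D.k0 A m y (x :: t) ≤
              ((ind (clo D.g y (x :: t)) + ind (y ∈ D.R)) +
                oc D (fun y s => ind (clo D.g y s) + ind (y ∈ D.R)) m y (x :: t)) +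
              (D.k0 : ℝ)⁻¹ * (cM D M x t + (ind (y ∉ x :: t ∧ lev D.top (y :: x :: t) y < M) +
              oc D (fun y s => ind (y ∉ s ∧ lev D.top (y :: s) y < M)) m y (x :: t))) := by
            have h2 := oc_nonneg D hg0 m y (x :: t)
            have h3 := oc_nonneg D hn0 m y (x :: t)
            have h4 := hc0 x t
            have h5 := hn0 y (x :: t)
            have h8 := hg0 y (x :: t)
            by_cases hbad : clo D.g y (x :: t) ∨ y ∈ D.R
            · have h6 := failG_le_one D.κ0 D.k0 A m y (x :: t)
              have h7 : (1:ℝ) ≤ ind (clo D.g y (x :: t)) + ind (y ∈ D.R) := by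
                rcases hbad with h | h
                · rw [ind_true h]; have := ind_nonneg (y ∈ D.R); linarith
                · rw [ind_true h]; have := ind_nonneg (clo D.g y (x :: t)); linarith
              have h9 : 0 ≤ (D.k0 : ℝ)⁻¹ * (cM D M x t +
                (ind (y ∉ x :: t ∧ lev D.top (y :: x :: t) y < M) +
                oc D (fun y s => ind (y ∉ s ∧ lev D.top (y :: s) y < M)) m y (x :: t))) := by
                positivity
              linarith
            · push Not at hbad
              have h6 := ih y (x :: t) (List.isChain_cons_cons.2 ⟨⟨hg, hxy⟩, hch⟩) hbad.2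
                hbad.1
              have h7 : cM D M y (x :: t) ≤ cM D M x t +
                  ind (y ∉ x :: t ∧ lev D.top (y :: x :: t) y < M) := by
                by_cases hy : y ∈ x :: t
                · have e1 : vis y (x :: t) = vis x t := by
                    rw [vis_cons, Finset.insert_eq_of_mem (mem_vis.2 hy)]
                  unfold cM
                  rw [e1, lev_old D.top hy]
                  have := ind_nonneg (y ∉ x :: t ∧ lev D.top (x :: t) y < M)
                  linarith
                · have hy' : y ∉ vis x t := fun h => hy (mem_vis.1 h)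
                  unfold cM
                  rw [vis_cons, Finset.sum_insert hy']
                  have e2 : ∑ w ∈ vis x t, ind (lev D.top (y :: x :: t) w < M) =
                      ∑ w ∈ vis x t, ind (lev D.top (x :: t) w < M) := by
                    apply Finset.sum_congr rfl
                    intro w hw
                    have : w ≠ y := fun h => hy' (h ▸ hw)
                    rw [lev_other D.top this]
                  rw [e2]
                  have e3 : ind (lev D.top (y :: x :: t) y < M) ≤
                      ind (y ∉ x :: t ∧ lev D.top (y :: x :: t) y < M) :=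
                    ind_mono (fun h => ⟨hy, h⟩)
                  linarith
              have h9 : (D.k0 : ℝ)⁻¹ * (cM D M y (x :: t) +
                  oc D (fun y s => ind (y ∉ s ∧ lev D.top (y :: s) y < M)) m y (x :: t)) ≤
                  (D.k0 : ℝ)⁻¹ * (cM D M x t + (ind (y ∉ x :: t ∧ lev D.top (y :: x :: t) y < M) +
                  oc D (fun y s => ind (y ∉ s ∧ lev D.top (y :: s) y < M)) m y (x :: t))) := by
                apply mul_le_mul_of_nonneg_left _ (inv_nonneg.2 hk.le)
                linarith
              linarith
          have := mul_le_mul_of_nonneg_left key ht0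
          refine this.trans (le_of_eq ?_)
          ring
      have h2 : ∑ y, tr D.κ x y * cM D M x t ≤ cM D M x t :=
        sum_tr_mul_le D x (hc0 x t) (fun _ _ => le_rfl)
      have h3 := mul_le_mul_of_nonneg_left h2 (inv_nonneg.2 hk.le)
      linarith

/-- a simple path in `S` of open edges with at least `M` top edges -/
def LTP (D : Dat V) (M : ℕ) (S : Set (Sym2 V)) : Prop :=
  ∃ (l : ℕ) (p : ℕ → V), Set.InjOn p (Set.Iic l) ∧ (∀ i < l, s(p i, p (i + 1)) ∈ S) ∧
    (∀ i < l, D.g s(p i, p (i + 1))) ∧
    M ≤ (open Classical in (range l).filter (fun i => D.top s(p i, p (i + 1)))).card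

theorem LTP_mono (D : Dat V) (M : ℕ) (S S' : Set (Sym2 V)) (h : S ⊆ S') (hS : LTP D M S) :
    LTP D M S' := by
  obtain ⟨l, p, h1, h2, h3, h4⟩ := hS
  exact ⟨l, p, h1, fun i hi => h (h2 i hi), h3, h4⟩

open Classical in
theorem exists_path_fe (D : Dat V) (x : V) (t : List V) (hch : Chn D (x :: t)) :
    ∀ w ∈ vis x t, ∃ (l : ℕ) (p : ℕ → V), Set.InjOn p (Set.Iic l) ∧ p l = w ∧
      (∀ i ≤ l, p i ∈ vis x t) ∧
      (∀ i < l, s(p i, p (i + 1)) ∈ fe (x :: t)) ∧ (∀ i < l, D.g s(p i, p (i + 1))) ∧
      ((range l).filter (fun i => D.top s(p i, p (i + 1)))).card = lev D.top (x :: t) w := by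
  induction t generalizing x with
  | nil =>
    intro w hw
    have hw' : w = x := by simpa [vis] using hw
    subst hw'
    refine ⟨0, fun _ => w, ?_, rfl, fun i _ => hw, fun i hi => absurd hi (by omega),
      fun i hi => absurd hi (by omega), by simp [lev]⟩
    intro a ha b hb _
    simp only [Set.mem_Iic] at ha hb
    omega
  | cons z t ih =>
    have hch' := List.isChain_cons_cons.1 hch
    have ih' := ih z hch'.2
    by_cases hx : x ∈ z :: t
    · intro w hw
      have e1 : vis x (z :: t) = vis z t := by
        rw [vis_cons, Finset.insert_eq_of_mem (mem_vis.2 hx)]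
      rw [e1] at hw
      obtain ⟨l, p, h1, h2, h3, h4, h5, h6⟩ := ih' w hw
      refine ⟨l, p, h1, h2, by rw [e1]; exact h3, fun i hi => fe_mono x z t (h4 i hi), h5, ?_⟩
      rw [h6, lev_old D.top hx]
    · have hx' : x ∉ vis z t := fun h => hx (mem_vis.1 h)
      intro w hw
      rw [vis_cons] at hw
      rcases Finset.mem_insert.1 hw with hw' | hw'
      · subst hw'
        obtain ⟨l, p, h1, h2, h3, h4, h5, h6⟩ := ih' z (self_mem_vis z t)
        set q : ℕ → V := fun i => if i ≤ l then p i else w with hq
        have hq1 : ∀ i ≤ l, q i = p i := fun i hi => by rw [hq]; simp only; rw [if_pos hi]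
        have hq2 : q (l + 1) = w := by rw [hq]; simp only; rw [if_neg (by omega)]
        have hfe : fe (w :: z :: t) = insert s(z, w) (fe (z :: t)) := by
          conv_lhs => unfold fe
          rw [if_neg hx]
        refine ⟨l + 1, q, ?_, hq2, ?_, ?_, ?_, ?_⟩
        · intro a ha b hb hab
          simp only [Set.mem_Iic] at ha hb
          by_cases ha' : a ≤ l
          · by_cases hb' : b ≤ l
            · rw [hq1 a ha', hq1 b hb'] at hab
              exact h1 ha' hb' hab
            · have : b = l + 1 := by omega
              rw [this, hq1 a ha', hq2] at hab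
              exact absurd (hab ▸ h3 a ha') hx'
          · have : a = l + 1 := by omega
            by_cases hb' : b ≤ l
            · rw [this, hq1 b hb', hq2] at hab
              exact absurd (hab ▸ h3 b hb') hx'
            · omega
        · intro i hi
          rw [vis_cons]
          by_cases hi' : i ≤ l
          · rw [hq1 i hi']; exact Finset.mem_insert_of_mem (h3 i hi')
          · have : i = l + 1 := by omega
            rw [this, hq2]; exact Finset.mem_insert_self _ _
        · intro i hi
          by_cases hi' : i < l
          · rw [hq1 i hi'.le, hq1 (i + 1) hi']; exact fe_mono w z t (h4 i hi')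
          · have : i = l := by omega
            subst this
            rw [hq1 i le_rfl, hq2, h2, hfe]
            exact Set.mem_insert _ _
        · intro i hi
          by_cases hi' : i < l
          · rw [hq1 i hi'.le, hq1 (i + 1) hi']; exact h5 i hi'
          · have : i = l := by omega
            subst this
            rw [hq1 i le_rfl, hq2, h2]
            exact hch'.1.1
        · rw [Finset.range_add_one, Finset.filter_insert]
          have e2 : (range l).filter (fun i => D.top s(q i, q (i + 1))) =
              (range l).filter (fun i => D.top s(p i, p (i + 1))) := by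
            apply Finset.filter_congr
            intro i hi
            rw [Finset.mem_range] at hi
            rw [hq1 i hi.le, hq1 (i + 1) hi]
          rw [hq1 l le_rfl, hq2, h2, e2, lev_new D.top hx]
          split_ifs with htop
          · rw [Finset.card_insert_of_notMem (by simp), h6]
          · rw [h6, add_zero]
      · obtain ⟨l, p, h1, h2, h3, h4, h5, h6⟩ := ih' w hw'
        have hwx : w ≠ x := fun h => hx' (h ▸ hw')
        refine ⟨l, p, h1, h2, ?_, fun i hi => fe_mono x z t (h4 i hi), h5, ?_⟩
        · intro i hi
          rw [vis_cons]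
          exact Finset.mem_insert_of_mem (h3 i hi)
        · rw [h6, lev_other D.top hwx]

theorem LTP_fe (D : Dat V) (M : ℕ) (x : V) (t : List V) (hch : Chn D (x :: t)) (w : V)
    (hw : w ∈ vis x t) (hM : M ≤ lev D.top (x :: t) w) : LTP D M (fe (x :: t)) := by
  obtain ⟨l, p, h1, _, _, h4, h5, h6⟩ := exists_path_fe D x t hch w hw
  exact ⟨l, p, h1, h4, h5, by rw [h6]; exact hM⟩

/-- restriction of the conductances to the edges which avoid `B` -/
def off (κ : Sym2 V → ℝ) (B : Finset V) (e : Sym2 V) : ℝ :=
  open Classical in if ∃ b ∈ B, b ∈ e then 0 else κ e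

theorem off_nonneg {κ : Sym2 V → ℝ} (h : ∀ e, 0 ≤ κ e) (B : Finset V) (e : Sym2 V) :
    0 ≤ off κ B e := by
  unfold off; split_ifs
  · exact le_rfl
  · exact h e

theorem Kc_off_zero {κ : Sym2 V → ℝ} {B : Finset V} {a b : V} (h : a ∈ B ∨ b ∈ B) :
    Kc (off κ B) a b = 0 := by
  unfold Kc off
  rcases h with h | h
  · rw [if_pos (show ∃ c ∈ B, c ∈ s(a, b) from ⟨a, h, by simp⟩)]; simp
  · rw [if_pos (show ∃ c ∈ B, c ∈ s(a, b) from ⟨b, h, by simp⟩)]; simp

theorem Kc_off {κ : Sym2 V → ℝ} {B : Finset V} {a b : V} (ha : a ∉ B) (hb : b ∉ B) :
    Kc (off κ B) a b = Kc κ a b := by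
  unfold Kc off
  have : ¬ ∃ c ∈ B, c ∈ s(a, b) := by
    rintro ⟨c, hc, hc'⟩
    rw [Sym2.mem_iff] at hc'
    rcases hc' with h | h
    · exact ha (h ▸ hc)
    · exact hb (h ▸ hc)
  rw [if_neg this]

/-- the walk stops before it returns to `z` with at least the probability that the walk in the
fresh environment hits `R` before it is killed -/
theorem hit_le_ef (D : Dat V) (B : Finset V) (y z : V) (hz : z ∈ B) {c : ℝ}
    (hc : Kc D.κ y z ≤ c) (hc0 : 0 ≤ c) (m : ℕ) (a : V) (t : List V) (haB : a ∉ B)
    (hJ2 : ∀ w ∈ vis a t, w ∉ B → w ≠ y → ∀ b ∈ B, ¬ D.g s(w, b))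
    (hJ3 : ∀ b ∈ B, D.g s(y, b) → b = z) (hyv : y ∈ vis a t) (hBv : B ⊆ vis a t) :
    hit (off D.κ B) (fun v => if v = y then c else 0) D.R ∅ m a ≤ ef D z m a t := by
  have hk0 : ∀ v : V, (0:ℝ) ≤ (fun v => if v = y then c else 0) v := by
    intro v; simp only; split_ifs
    · exact hc0
    · exact le_rfl
  induction m generalizing a t with
  | zero =>
    unfold hit ef
    by_cases haR : a ∈ D.R
    · rw [if_pos haR, ind_true (show stp D a t from Or.inl haR)]
    · rw [if_neg haR]; exact ind_nonneg _
  | succ m ih =>
    by_cases hs : stp D a t
    · rw [ef_stp D z _ hs]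
      exact hit_le_one (off_nonneg D.κ0 B) hk0 _ _
    · have haR : a ∉ D.R := fun h => hs (Or.inl h)
      unfold hit ef
      rw [if_neg haR, if_neg (Finset.notMem_empty a), if_neg hs, Finset.sum_div]
      apply Finset.sum_le_sum
      intro b _
      by_cases hbB : b ∈ B
      · rw [Kc_off_zero (Or.inr hbB), zero_mul, zero_div]
        apply mul_nonneg (tr_nonneg D.κ0 a b)
        split_ifs
        · exact le_rfl
        · exact ef_nonneg _ _ _ _ _
      · have hbz : b ≠ z := fun h => hbB (h ▸ hz)
        rw [if_neg hbz, Kc_off haB hbB]
        -- comparison of the denominators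
        have hden : cs D.κ a ≤ cs (off D.κ B) a + (if a = y then c else 0) := by
          by_cases hay : a = y
          · subst hay
            rw [if_pos rfl]
            have e1 : cs D.κ a = ∑ b, (if b = z then Kc D.κ a b else Kc (off D.κ B) a b) := by
              unfold cs
              apply Finset.sum_congr rfl
              intro b _
              split_ifs with hb
              · rfl
              · by_cases hb' : b ∈ B
                · rw [Kc_off_zero (Or.inr hb')]
                  by_contra hne
                  have hne' : D.κ s(a, b) ≠ 0 := by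
                    intro h0
                    apply hne
                    unfold Kc
                    rw [h0]; simp
                  exact hb (hJ3 b hb' (D.κg _ hne'))
                · rw [Kc_off haB hb']
            have e2 : ∑ b, (if b = z then Kc D.κ a b else Kc (off D.κ B) a b) ≤
                ∑ b, (Kc (off D.κ B) a b + (if b = z then c else 0)) := by
              apply Finset.sum_le_sum
              intro b _
              have h0 := Kc_nonneg (off_nonneg D.κ0 B) a b
              split_ifs with hb
              · subst hb; linarith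
              · linarith
            rw [e1]
            refine e2.trans (le_of_eq ?_)
            rw [Finset.sum_add_distrib]
            unfold cs
            congr 1
            simp
          · rw [if_neg hay, add_zero]
            apply le_of_eq
            unfold cs
            apply Finset.sum_congr rfl
            intro b _
            by_cases hb' : b ∈ B
            · rw [Kc_off_zero (Or.inr hb')]
              by_contra hne
              have hne' : D.κ s(a, b) ≠ 0 := by
                intro h0
                apply hne
                unfold Kc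
                rw [h0]; simp
              exact hJ2 a (self_mem_vis a t) haB hay b hb' (D.κg _ hne')
            · rw [Kc_off haB hb']
        by_cases hK : Kc D.κ a b = 0
        · rw [hK, zero_mul, zero_div]
          exact mul_nonneg (tr_nonneg D.κ0 a b) (ef_nonneg _ _ _ _ _)
        · have hKpos : 0 < Kc D.κ a b := lt_of_le_of_ne (Kc_nonneg D.κ0 a b) (Ne.symm hK)
          have hcs : 0 < cs D.κ a :=
            lt_of_lt_of_le hKpos (Finset.single_le_sum (f := fun b => Kc D.κ a b)
              (fun b _ => Kc_nonneg D.κ0 a b) (Finset.mem_univ b))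
          have ht : tr D.κ a b ≠ 0 := by
            unfold tr
            exact div_ne_zero hK hcs.ne'
          obtain ⟨hg, hab⟩ := tr_pos_g D ht
          have hh0 := hit_nonneg (A := D.R) (Z := ∅) (off_nonneg D.κ0 B) hk0 m b
          have hIH : hit (off D.κ B) (fun v => if v = y then c else 0) D.R ∅ m b ≤
              ef D z m b (a :: t) := by
            by_cases hs' : stp D b (a :: t)
            · rw [ef_stp D z _ hs']
              exact hit_le_one (off_nonneg D.κ0 B) hk0 _ _
            · apply ih b (a :: t) hbB
              · intro w hw hwB hwy b' hb' hgw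
                rw [vis_cons] at hw
                rcases Finset.mem_insert.1 hw with h1 | h1
                · subst h1
                  by_cases hwv : w ∈ vis a t
                  · exact hJ2 w hwv hwB hwy b' hb' hgw
                  · apply hs'
                    right; left
                    refine ⟨fun h => hwv (mem_vis.2 h), b', mem_vis.1 (hBv hb'), ?_, ?_⟩
                    · simp only [List.head?_cons, ne_eq, Option.some.injEq]
                      rintro rfl
                      exact haB hb'
                    · rwa [Sym2.eq_swap]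
                · exact hJ2 w h1 hwB hwy b' hb' hgw
              · rw [vis_cons]; exact Finset.mem_insert_of_mem hyv
              · rw [vis_cons]; exact hBv.trans (Finset.subset_insert _ _)
          unfold tr
          rw [mul_div_right_comm]
          apply mul_le_mul _ hIH hh0 (div_nonneg hKpos.le hcs.le)
          exact div_le_div_of_nonneg_left hKpos.le hcs hden

end

end Pool.Agent.TH972
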