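import Pool.Agent.W842.RST.Env
import Pool.Agent.TH972.Walk3

/-!
# Expectations over the environment
-/

set_option autoImplicit false
set_option linter.unusedSectionVars false

namespace Pool.Agent.TH972

open Finset MeasureTheory Pool.Agent.W842.RST

noncomputable section

variable {n : ℕ}

/-- environments -/
abbrev Ev (n : ℕ) : Type := Sym2 (Fin n) → ℝ

/-- expectation over the environment -/
def Ex (F : Ev n → ℝ) : ℝ := ∫ U, F U ∂(env n)

/-- bounded measurable functions -/
structure BM (F : Ev n → ℝ) : Prop where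
  meas : Measurable F
  bdd : ∃ C, ∀ U, |F U| ≤ C

theorem BM.integrable {F : Ev n → ℝ} (h : BM F) : Integrable F (env n) := by
  obtain ⟨C, hC⟩ := h.bdd
  exact Integrable.of_bound h.meas.aestronglyMeasurable C
    (Filter.Eventually.of_forall (fun U => by rw [Real.norm_eq_abs]; exact hC U))

theorem BM.const (c : ℝ) : BM (fun _ : Ev n => c) := ⟨measurable_const, |c|, fun _ => le_rfl⟩

theorem BM.add {F G : Ev n → ℝ} (hF : BM F) (hG : BM G) : BM (fun U => F U + G U) := by
  obtain ⟨a, ha⟩ := hF.bdd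
  obtain ⟨b, hb⟩ := hG.bdd
  exact ⟨hF.meas.add hG.meas, a + b, fun U => (abs_add_le _ _).trans (add_le_add (ha U) (hb U))⟩

theorem BM.neg {F : Ev n → ℝ} (hF : BM F) : BM (fun U => - F U) := by
  obtain ⟨a, ha⟩ := hF.bdd
  exact ⟨hF.meas.neg, a, fun U => by rw [abs_neg]; exact ha U⟩

theorem BM.sub {F G : Ev n → ℝ} (hF : BM F) (hG : BM G) : BM (fun U => F U - G U) := by
  simp only [sub_eq_add_neg]
  exact hF.add hG.neg

theorem BM.mul {F G : Ev n → ℝ} (hF : BM F) (hG : BM G) : BM (fun U => F U * G U) := by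
  obtain ⟨a, ha⟩ := hF.bdd
  obtain ⟨b, hb⟩ := hG.bdd
  refine ⟨hF.meas.mul hG.meas, a * b, fun U => ?_⟩
  rw [abs_mul]
  exact mul_le_mul (ha U) (hb U) (abs_nonneg _) ((abs_nonneg _).trans (ha U))

theorem BM.sum {ι : Type*} (s : Finset ι) {F : ι → Ev n → ℝ} (h : ∀ i ∈ s, BM (F i)) :
    BM (fun U => ∑ i ∈ s, F i U) := by
  classical
  induction s using Finset.induction_on with
  | empty => simpa using BM.const 0
  | insert a s ha ih =>
    simp only [Finset.sum_insert ha]
    exact (h a (Finset.mem_insert_self _ _)).add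
      (ih (fun i hi => h i (Finset.mem_insert_of_mem hi)))

theorem BM.ind {P : Ev n → Prop} (h : MeasurableSet {U | P U}) : BM (fun U => ind (P U)) := by
  refine ⟨?_, 1, fun U => ?_⟩
  · unfold Pool.Agent.TH972.ind
    exact Measurable.ite h measurable_const measurable_const
  · rw [abs_of_nonneg (ind_nonneg _)]
    exact ind_le_one _

open Classical in
theorem BM.ite {P : Ev n → Prop} (h : MeasurableSet {U | P U}) {F G : Ev n → ℝ} (hF : BM F)
    (hG : BM G) : BM (fun U => if P U then F U else G U) := by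
  have h1 := ((BM.ind h).mul hF).add (((BM.const 1).sub (BM.ind h)).mul hG)
  convert h1 using 2 with U
  by_cases hP : P U
  · rw [if_pos hP, ind_true hP]; ring
  · rw [if_neg hP, ind_false hP]; ring

theorem Ex_add {F G : Ev n → ℝ} (hF : BM F) (hG : BM G) :
    Ex (fun U => F U + G U) = Ex F + Ex G := integral_add hF.integrable hG.integrable

theorem Ex_sub {F G : Ev n → ℝ} (hF : BM F) (hG : BM G) :
    Ex (fun U => F U - G U) = Ex F - Ex G := integral_sub hF.integrable hG.integrable

theorem Ex_sum {ι : Type*} (s : Finset ι) {F : ι → Ev n → ℝ} (h : ∀ i ∈ s, BM (F i)) :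
    Ex (fun U => ∑ i ∈ s, F i U) = ∑ i ∈ s, Ex (F i) :=
  integral_finsetSum s (fun i hi => (h i hi).integrable)

theorem Ex_const_mul (c : ℝ) (F : Ev n → ℝ) : Ex (fun U => c * F U) = c * Ex F :=
  integral_const_mul c F

theorem Ex_const (c : ℝ) : Ex (fun _ : Ev n => c) = c := by
  unfold Ex
  rw [integral_const]
  simp

theorem Ex_mono {F G : Ev n → ℝ} (hF : BM F) (hG : BM G) (h : ∀ U, F U ≤ G U) : Ex F ≤ Ex G :=
  integral_mono hF.integrable hG.integrable h

theorem Ex_nonneg {F : Ev n → ℝ} (h : ∀ U, 0 ≤ F U) : 0 ≤ Ex F := integral_nonneg h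

theorem Ex_congr {F G : Ev n → ℝ} (h : ∀ U, F U = G U) : Ex F = Ex G := by
  have : F = G := funext h
  rw [this]

/-- independence -/
theorem Ex_mul_of_dependsOn {F G : Ev n → ℝ} (A : Set (Sym2 (Fin n))) (hF : DependsOn F A)
    (hG : DependsOn G Aᶜ) : Ex (fun U => F U * G U) = Ex F * Ex G := by
  classical
  have hμ : env n = Measure.pi (fun _ => nu) := rfl
  set e := MeasurableEquiv.piEquivPiSubtypeProd (fun _ : Sym2 (Fin n) => ℝ) (fun i => i ∈ A)
    with he
  have hmp := measurePreserving_piEquivPiSubtypeProd (fun _ : Sym2 (Fin n) => nu)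
    (fun i => i ∈ A)
  rw [← he] at hmp
  set f : ({i // i ∈ A} → ℝ) → ℝ := fun a => F (e.symm (a, fun _ => 0)) with hf
  set g : ({i // i ∉ A} → ℝ) → ℝ := fun b => G (e.symm (fun _ => 0, b)) with hg
  have hFf : ∀ U, F U = f (e U).1 := by
    intro U
    rw [hf]
    apply hF
    intro i hi
    have : e.symm ((e U).1, fun _ => 0) i = (e U).1 ⟨i, hi⟩ := by
      rw [he]
      simp [MeasurableEquiv.piEquivPiSubtypeProd, Equiv.piEquivPiSubtypeProd, hi]
    rw [this]
    rfl
  have hGg : ∀ U, G U = g (e U).2 := by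
    intro U
    rw [hg]
    apply hG
    intro i hi
    have hi' : i ∉ A := hi
    have : e.symm (fun _ => 0, (e U).2) i = (e U).2 ⟨i, hi'⟩ := by
      rw [he]
      simp [MeasurableEquiv.piEquivPiSubtypeProd, Equiv.piEquivPiSubtypeProd, hi']
    rw [this]
    rfl
  have h1 : Ex (fun U => F U * G U) = (∫ a, f a ∂(Measure.pi fun _ => nu)) *
      ∫ b, g b ∂(Measure.pi fun _ => nu) := by
    unfold Ex
    rw [hμ, ← integral_prod_mul, ← hmp.integral_comp']
    apply integral_congr_ae
    exact Filter.Eventually.of_forall (fun U => by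
      show F U * G U = f (e U).1 * g (e U).2
      rw [hFf U, hGg U])
  have h2 : Ex F = ∫ a, f a ∂(Measure.pi fun _ => nu) := by
    unfold Ex
    have h3 : ∫ z, f z.1 * (fun _ => (1:ℝ)) z.2 ∂((Measure.pi fun i : {i // i ∈ A} => nu).prod
        (Measure.pi fun i : {i // ¬ i ∈ A} => nu)) = _ := integral_prod_mul f (fun _ => (1:ℝ))
    rw [integral_const, smul_eq_mul, mul_one] at h3
    simp only [mul_one, probReal_univ] at h3
    rw [hμ, ← h3, ← hmp.integral_comp']
    apply integral_congr_ae
    exact Filter.Eventually.of_forall (fun U => by rw [hFf U])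
  have h4 : Ex G = ∫ b, g b ∂(Measure.pi fun _ => nu) := by
    unfold Ex
    have h3 : ∫ z, (fun _ => (1:ℝ)) z.1 * g z.2 ∂((Measure.pi fun i : {i // i ∈ A} => nu).prod
        (Measure.pi fun i : {i // ¬ i ∈ A} => nu)) = _ := integral_prod_mul (fun _ => (1:ℝ)) g
    rw [integral_const, smul_eq_mul, mul_one] at h3
    simp only [one_mul, probReal_univ] at h3
    rw [hμ, ← h3, ← hmp.integral_comp']
    apply integral_congr_ae
    exact Filter.Eventually.of_forall (fun U => by rw [hGg U])
  rw [h1, h2, h4]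

/-- invariance under permutations of the coordinates -/
theorem Ex_perm (σ : Equiv.Perm (Sym2 (Fin n))) (F : Ev n → ℝ) :
    Ex (fun U => F (fun e => U (σ e))) = Ex F := by
  have hμ : env n = Measure.pi (fun _ => nu) := rfl
  have hmp := measurePreserving_piCongrLeft (fun _ : Sym2 (Fin n) => nu) σ
  unfold Ex
  rw [hμ, ← hmp.integral_comp' (fun U : Ev n => F (fun e => U (σ e)))]
  apply integral_congr_ae
  apply Filter.Eventually.of_forall
  intro U
  show F _ = F U
  congr 1
  funext e
  exact MeasurableEquiv.piCongrLeft_apply_apply (β := fun _ => ℝ) σ U e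

/-- probability of one coordinate below a level -/
theorem Ex_le {p : ℝ} (h0 : 0 ≤ p) (h1 : p ≤ 1) (e : Sym2 (Fin n)) :
    Ex (fun U => ind (U e ≤ p)) = p := by
  have hμ : env n = Measure.pi (fun _ => nu) := rfl
  have hms : MeasurableSet {U : Ev n | U e ≤ p} :=
    measurableSet_le (measurable_pi_apply e) measurable_const
  have h2 : (fun U : Ev n => ind (U e ≤ p)) = Set.indicator {U : Ev n | U e ≤ p} 1 := by
    funext U
    by_cases h : U e ≤ p
    · rw [ind_true h, Set.indicator_of_mem (show U ∈ {U : Ev n | U e ≤ p} from h)]; rfl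
    · rw [ind_false h, Set.indicator_of_notMem (show U ∉ {U : Ev n | U e ≤ p} from h)]
  unfold Ex
  rw [h2, integral_indicator_one hms, measureReal_def]
  have h3 : {U : Ev n | U e ≤ p} = (fun U : Ev n => U e) ⁻¹' (Set.Iic p) := rfl
  have h4 : (env n) ((fun U : Ev n => U e) ⁻¹' (Set.Iic p)) = nu (Set.Iic p) := by
    rw [hμ]
    exact (measurePreserving_eval (fun _ : Sym2 (Fin n) => nu) e).measure_preimage
      measurableSet_Iic.nullMeasurableSet
  rw [h3, h4, nu_Iic h0 h1, ENNReal.toReal_ofReal h0]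

end

end Pool.Agent.TH972
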