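import Pool.Agent.TH972.Trees
import Pool.Agent.W842.RST.Gibbs

/-!
# The random tree with general weights
-/

set_option autoImplicit false
set_option linter.unusedSectionVars false

namespace Pool.Agent.TH972

open Finset MeasureTheory Pool.Agent.W842.RST Filter Topology

noncomputable section

variable {n : ℕ}

/-- probability of the event `A` for the random tree with weights `κ` -/
def GG (κ : Sym2 (Fin n) → ℝ) (A : SimpleGraph (Fin n) → Prop) : ℝ :=
  sumT κ A / sumT κ (fun _ => True)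

open Classical in
theorem mem_trees {A : SimpleGraph (Fin n) → Prop} {T : SimpleGraph (Fin n)} :
    T ∈ (univ : Finset (SimpleGraph (Fin n))).filter (fun T => T.IsTree ∧ A T) ↔
      T.IsTree ∧ A T := by
  simp

theorem wT_pos {κ : Sym2 (Fin n) → ℝ} (h : ∀ e, 0 < κ e) (T : SimpleGraph (Fin n)) : 0 < wT κ T :=
  Finset.prod_pos (fun e _ => h e)

theorem sumT_nonneg {κ : Sym2 (Fin n) → ℝ} (h : ∀ e, 0 < κ e) (A : SimpleGraph (Fin n) → Prop) :
    0 ≤ sumT κ A := Finset.sum_nonneg (fun T _ => (wT_pos h T).le)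

theorem sumT_mono {κ : Sym2 (Fin n) → ℝ} (h : ∀ e, 0 < κ e) {A B : SimpleGraph (Fin n) → Prop}
    (hAB : ∀ T : SimpleGraph (Fin n), T.IsTree → A T → B T) : sumT κ A ≤ sumT κ B := by
  classical
  unfold sumT
  apply Finset.sum_le_sum_of_subset_of_nonneg
  · intro T hT
    rw [Finset.mem_filter] at hT ⊢
    exact ⟨hT.1, hT.2.1, hAB T hT.2.1 hT.2.2⟩
  · intro T _ _
    exact (wT_pos h T).le

theorem sumT_add_compl (κ : Sym2 (Fin n) → ℝ) (A : SimpleGraph (Fin n) → Prop) :
    sumT κ A + sumT κ (fun T => ¬ A T) = sumT κ (fun _ => True) := by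
  classical
  unfold sumT
  rw [← Finset.sum_union]
  · apply Finset.sum_congr _ (fun _ _ => rfl)
    ext T
    simp only [Finset.mem_union, Finset.mem_filter, Finset.mem_univ, true_and, and_true]
    tauto
  · rw [Finset.disjoint_left]
    intro T h1 h2
    exact ((mem_trees (A := fun T => ¬ A T)).1 h2).2 (mem_trees.1 h1).2

theorem sumT_pos [Nonempty (Fin n)] {κ : Sym2 (Fin n) → ℝ} (h : ∀ e, 0 < κ e) :
    0 < sumT κ (fun _ => True) := by
  classical
  obtain ⟨T, hT⟩ := exists_tree (n := n)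
  unfold sumT
  apply Finset.sum_pos (fun T _ => wT_pos h T)
  exact ⟨T, (mem_trees (A := fun _ => True)).2 ⟨hT, trivial⟩⟩

theorem GG_nonneg {κ : Sym2 (Fin n) → ℝ} (h : ∀ e, 0 < κ e) (A : SimpleGraph (Fin n) → Prop) :
    0 ≤ GG κ A := div_nonneg (sumT_nonneg h A) (sumT_nonneg h _)

theorem GG_mono {κ : Sym2 (Fin n) → ℝ} (h : ∀ e, 0 < κ e) {A B : SimpleGraph (Fin n) → Prop}
    (hAB : ∀ T : SimpleGraph (Fin n), T.IsTree → A T → B T) : GG κ A ≤ GG κ B :=
  div_le_div_of_nonneg_right (sumT_mono h hAB) (sumT_nonneg h _)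

theorem GG_le_one {κ : Sym2 (Fin n) → ℝ} (h : ∀ e, 0 < κ e) (A : SimpleGraph (Fin n) → Prop) :
    GG κ A ≤ 1 :=
  div_le_one_of_le₀ (sumT_mono h (fun _ _ _ => trivial)) (sumT_nonneg h _)

theorem GG_compl [Nonempty (Fin n)] {κ : Sym2 (Fin n) → ℝ} (h : ∀ e, 0 < κ e)
    (A : SimpleGraph (Fin n) → Prop) : GG κ A + GG κ (fun T => ¬ A T) = 1 := by
  unfold GG
  rw [← add_div, sumT_add_compl, div_self (sumT_pos h).ne']

/-- subadditivity -/
theorem GG_add_ge {κ : Sym2 (Fin n) → ℝ} (h : ∀ e, 0 < κ e) {A B C : SimpleGraph (Fin n) → Prop}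
    (hABC : ∀ T : SimpleGraph (Fin n), T.IsTree → C T → A T ∨ B T) :
    GG κ C ≤ GG κ A + GG κ B := by
  classical
  unfold GG
  rw [← add_div]
  apply div_le_div_of_nonneg_right _ (sumT_nonneg h _)
  unfold sumT
  calc ∑ T ∈ univ.filter (fun T : SimpleGraph (Fin n) => T.IsTree ∧ C T), wT κ T ≤
        ∑ T ∈ univ.filter (fun T : SimpleGraph (Fin n) => T.IsTree ∧ A T) ∪
          univ.filter (fun T : SimpleGraph (Fin n) => T.IsTree ∧ B T), wT κ T := by
        apply Finset.sum_le_sum_of_subset_of_nonneg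
        · intro T hT
          rw [Finset.mem_filter] at hT
          rw [Finset.mem_union, Finset.mem_filter, Finset.mem_filter]
          rcases hABC T hT.2.1 hT.2.2 with h1 | h1
          · left; exact ⟨Finset.mem_univ _, hT.2.1, h1⟩
          · right; exact ⟨Finset.mem_univ _, hT.2.1, h1⟩
        · intro T _ _
          exact (wT_pos h T).le
    _ ≤ _ := by
        rw [← Finset.sum_union_inter]
        have : 0 ≤ ∑ T ∈ univ.filter (fun T : SimpleGraph (Fin n) => T.IsTree ∧ A T) ∩
          univ.filter (fun T : SimpleGraph (Fin n) => T.IsTree ∧ B T), wT κ T :=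
          Finset.sum_nonneg (fun T _ => (wT_pos h T).le)
        linarith

/-- union bound -/
theorem GG_ge [Nonempty (Fin n)] {κ : Sym2 (Fin n) → ℝ} (hκ : ∀ e, 0 < κ e) {ι : Type*}
    (I : Finset ι)
    (A : SimpleGraph (Fin n) → Prop) (B : ι → SimpleGraph (Fin n) → Prop)
    (h : ∀ T : SimpleGraph (Fin n), T.IsTree → (∀ i ∈ I, B i T) → A T) :
    1 - ∑ i ∈ I, GG κ (fun T => ¬ B i T) ≤ GG κ A := by
  classical
  have h1 : ∀ J : Finset ι, GG κ (fun T => ∃ i ∈ J, ¬ B i T) ≤ ∑ i ∈ J, GG κ (fun T => ¬ B i T) := by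
    intro J
    induction J using Finset.induction_on with
    | empty =>
      have : GG κ (fun T => ∃ i ∈ (∅ : Finset ι), ¬ B i T) = 0 := by
        unfold GG sumT
        rw [Finset.sum_eq_zero, zero_div]
        intro T hT
        obtain ⟨_, i, hi, _⟩ := (mem_trees (A := fun T => ∃ i ∈ (∅ : Finset ι), ¬ B i T)).1 hT
        exact absurd hi (Finset.notMem_empty i)
      rw [this, Finset.sum_empty]
    | insert a J ha ih =>
      rw [Finset.sum_insert ha]
      refine le_trans (GG_add_ge hκ (A := fun T => ¬ B a T)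
        (B := fun T => ∃ i ∈ J, ¬ B i T) ?_) (by linarith)
      rintro T _ ⟨i, hi, hB⟩
      rcases Finset.mem_insert.1 hi with h2 | h2
      · left; rw [← h2]; exact hB
      · right; exact ⟨i, h2, hB⟩
  have h2 := GG_compl hκ A
  have h3 : GG κ (fun T => ¬ A T) ≤ GG κ (fun T => ∃ i ∈ I, ¬ B i T) := by
    apply GG_mono hκ
    intro T hT hA
    by_contra hcon
    push Not at hcon
    exact hA (h T hT hcon)
  have h4 := h1 I
  linarith

theorem wT_exchange {κ : Sym2 (Fin n) → ℝ} (hκ : ∀ e, 0 < κ e) {δ : ℝ}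
    (T T' : SimpleGraph (Fin n)) (e f : Sym2 (Fin n)) (hef : κ f ≤ δ * κ e)
    (hfT : f ∈ T.edgeSet) (heT : e ∉ T.edgeSet)
    (hset : T'.edgeSet = insert e (T.edgeSet \ {f})) :
    wT κ T ≤ δ * wT κ T' := by
  classical
  unfold wT
  set F : Finset (Sym2 (Fin n)) := univ.filter (fun e => e ∈ T.edgeSet) with hF
  have h1 : (univ : Finset (Sym2 (Fin n))).filter (fun e => e ∈ T'.edgeSet) =
      insert e (F.erase f) := by
    ext x
    rw [Finset.mem_filter, hset, Finset.mem_insert, Finset.mem_erase, hF, Finset.mem_filter,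
      Set.mem_insert_iff, Set.mem_sdiff, Set.mem_singleton_iff]
    simp only [Finset.mem_univ, true_and]
    tauto
  have h2 : f ∈ F := by rw [hF, Finset.mem_filter]; exact ⟨Finset.mem_univ _, hfT⟩
  have h3 : e ∉ F.erase f := by
    rw [Finset.mem_erase, hF, Finset.mem_filter]
    rintro ⟨_, _, h⟩
    exact heT h
  rw [h1, Finset.prod_insert h3, ← Finset.mul_prod_erase F _ h2]
  have h4 : 0 < ∏ x ∈ F.erase f, κ x := Finset.prod_pos (fun e _ => hκ e)
  rw [← mul_assoc]
  exact mul_le_mul_of_nonneg_right hef h4.le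

theorem GG_bad_le {κ : Sym2 (Fin n) → ℝ} (hκ : ∀ e, 0 < κ e) (U : Sym2 (Fin n) → ℝ)
    {p p' : ℝ} (hpp : p ≤ p') {δ : ℝ} (hδ : 0 ≤ δ)
    (hκδ : ∀ e f, U e ≤ p → p' < U f → κ f ≤ δ * κ e) :
    GG κ (fun T => ¬ Good U p p' T) ≤ (n : ℝ) ^ 4 * δ := by
  classical
  have e0 : sumT κ (fun _ => True) =
      ∑ T ∈ univ.filter (fun T : SimpleGraph (Fin n) => T.IsTree), wT κ T := by
    unfold sumT
    apply Finset.sum_congr _ (fun _ _ => rfl)
    ext T
    simp
  unfold GG
  rw [e0]
  unfold sumT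
  set Z : ℝ := ∑ T ∈ univ.filter (fun T : SimpleGraph (Fin n) => T.IsTree), wT κ T with hZ
  have hZ0 : 0 ≤ Z := Finset.sum_nonneg (fun T _ => (wT_pos hκ T).le)
  rcases hZ0.eq_or_lt with h0 | hZpos
  · rw [← h0, div_zero]; positivity
  rw [div_le_iff₀ hZpos]
  set B := (univ : Finset (SimpleGraph (Fin n))).filter
    (fun T : SimpleGraph (Fin n) => T.IsTree ∧ ¬ Good U p p' T) with hB
  have hch : ∀ T ∈ B, ∃ q : SimpleGraph (Fin n) × (Sym2 (Fin n) × Sym2 (Fin n)),
      q.1.IsTree ∧ U q.2.1 ≤ p ∧ p' < U q.2.2 ∧ q.2.2 ∈ T.edgeSet ∧ q.2.1 ∉ T.edgeSet ∧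
        q.1.edgeSet = insert q.2.1 (T.edgeSet \ {q.2.2}) := by
    intro T hT
    rw [hB, Finset.mem_filter] at hT
    obtain ⟨T', e, f, h⟩ := exchange U hpp T hT.2.1 hT.2.2
    exact ⟨(T', e, f), h⟩
  refine (le_of_eq (Finset.sum_congr (s₂ := B) ?_ (fun _ _ => rfl))).trans ?_
  · ext T
    simp [hB]
  rcases B.eq_empty_or_nonempty with hBe | ⟨T0, hT0⟩
  · rw [hBe, Finset.sum_empty]; positivity
  obtain ⟨q0, _⟩ := hch T0 hT0
  have : Nonempty (SimpleGraph (Fin n) × (Sym2 (Fin n) × Sym2 (Fin n))) := ⟨q0⟩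
  choose! F hF using hch
  have hinj : Set.InjOn F B := by
    intro T hT T₂ hT₂ h12
    have a := hF T hT
    have b := hF T₂ hT₂
    rw [← h12] at b
    have key : ∀ S : SimpleGraph (Fin n), (F T).2.2 ∈ S.edgeSet → (F T).2.1 ∉ S.edgeSet →
        (F T).1.edgeSet = insert (F T).2.1 (S.edgeSet \ {(F T).2.2}) →
        S.edgeSet = insert (F T).2.2 ((F T).1.edgeSet \ {(F T).2.1}) := by
      intro S h1 h2 h3
      rw [h3]
      ext x
      simp only [Set.mem_insert_iff, Set.mem_sdiff, Set.mem_singleton_iff]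
      constructor
      · intro hx
        by_cases hx2 : x = (F T).2.2
        · exact Or.inl hx2
        · right
          exact ⟨Or.inr ⟨hx, hx2⟩, fun h => h2 (h ▸ hx)⟩
      · rintro (hx | ⟨hx | hx, hx2⟩)
        · rw [hx]; exact h1
        · exact absurd hx hx2
        · exact hx.1
    have e1 := key T a.2.2.2.1 a.2.2.2.2.1 a.2.2.2.2.2
    have e2 := key T₂ b.2.2.2.1 b.2.2.2.2.1 b.2.2.2.2.2
    exact SimpleGraph.edgeSet_injective (e1.trans e2.symm)
  calc ∑ T ∈ B, wT κ T ≤ ∑ T ∈ B, δ * wT κ (F T).1 := by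
        apply Finset.sum_le_sum
        intro T hT
        have a := hF T hT
        exact wT_exchange hκ T (F T).1 (F T).2.1 (F T).2.2 (hκδ _ _ a.2.1 a.2.2.1)
          a.2.2.2.1 a.2.2.2.2.1 a.2.2.2.2.2
    _ = ∑ q ∈ B.image F, δ * wT κ q.1 := by
        rw [Finset.sum_image hinj]
    _ ≤ ∑ q ∈ (univ.filter (fun T : SimpleGraph (Fin n) => T.IsTree)) ×ˢ
          (univ : Finset (Sym2 (Fin n) × Sym2 (Fin n))), δ * wT κ q.1 := by
        apply Finset.sum_le_sum_of_subset_of_nonneg
        · intro q hq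
          obtain ⟨T, hT, rfl⟩ := Finset.mem_image.1 hq
          rw [Finset.mem_product, Finset.mem_filter]
          exact ⟨⟨Finset.mem_univ _, (hF T hT).1⟩, Finset.mem_univ _⟩
        · intro q _ _
          have := wT_pos hκ q.1
          positivity
    _ = (Fintype.card (Sym2 (Fin n)) : ℝ) ^ 2 * (δ * Z) := by
        rw [Finset.sum_product]
        simp only
        simp_rw [Finset.sum_const, Finset.card_univ, Fintype.card_prod, nsmul_eq_mul]
        rw [← Finset.mul_sum, ← Finset.mul_sum]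
        push_cast
        ring
    _ ≤ (n : ℝ) ^ 4 * δ * Z := by
        have hc : (Fintype.card (Sym2 (Fin n)) : ℝ) ≤ (n : ℝ) ^ 2 := by
          have : Fintype.card (Sym2 (Fin n)) ≤ Fintype.card (Fin n × Fin n) :=
            Fintype.card_le_of_surjective (fun q : Fin n × Fin n => s(q.1, q.2)) (by
              intro e
              induction e using Sym2.ind with
              | _ a b => exact ⟨(a, b), rfl⟩)
          rw [Fintype.card_prod, Fintype.card_fin] at this
          calc (Fintype.card (Sym2 (Fin n)) : ℝ) ≤ ((n * n : ℕ) : ℝ) := by exact_mod_cast this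
            _ = (n : ℝ) ^ 2 := by push_cast; ring
        calc (Fintype.card (Sym2 (Fin n)) : ℝ) ^ 2 * (δ * Z) ≤ ((n : ℝ) ^ 2) ^ 2 * (δ * Z) := by
              apply mul_le_mul_of_nonneg_right _ (by positivity)
              exact pow_le_pow_left₀ (by positivity) hc 2
          _ = _ := by ring

/-- the averaged probability, for the weights `w (U e)` -/
def avgw (w : ℝ → ℝ) (n : ℕ) (A : SimpleGraph (Fin n) → Prop) : ℝ :=
  ∫ U, GG (fun e => w (U e)) A ∂(env n)

section

variable {w : ℝ → ℝ} (hw : ∀ u, 0 < w u) (hm : Measurable w)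

include hm

theorem measurable_GG (A : SimpleGraph (Fin n) → Prop) :
    Measurable (fun U : Sym2 (Fin n) → ℝ => GG (fun e => w (U e)) A) := by
  classical
  have h : ∀ T : SimpleGraph (Fin n), Measurable (fun U : Sym2 (Fin n) → ℝ =>
      wT (fun e => w (U e)) T) := by
    intro T
    unfold wT
    apply Finset.measurable_prod
    intro e _
    exact hm.comp (measurable_pi_apply e)
  unfold GG sumT
  apply Measurable.div
  · exact Finset.measurable_sum _ (fun T _ => h T)
  · exact Finset.measurable_sum _ (fun T _ => h T)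

include hw

theorem integrable_GG (A : SimpleGraph (Fin n) → Prop) :
    Integrable (fun U : Sym2 (Fin n) → ℝ => GG (fun e => w (U e)) A) (env n) := by
  apply Integrable.of_bound (measurable_GG hm A).aestronglyMeasurable 1
  refine Filter.Eventually.of_forall (fun U => ?_)
  rw [Real.norm_eq_abs, abs_of_nonneg (GG_nonneg (fun e => hw _) A)]
  exact GG_le_one (fun e => hw _) A

theorem avgw_le_one (A : SimpleGraph (Fin n) → Prop) : avgw w n A ≤ 1 := by
  unfold avgw
  have h1 : ∫ U, GG (fun e => w (U e)) A ∂(env n) ≤ ∫ _, (1 : ℝ) ∂(env n) := by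
    apply integral_mono (integrable_GG hw hm A) (integrable_const _)
    intro U
    exact GG_le_one (fun e => hw _) A
  rw [integral_const] at h1
  simpa using h1

theorem avgw_mono {A B : SimpleGraph (Fin n) → Prop}
    (hAB : ∀ T : SimpleGraph (Fin n), T.IsTree → A T → B T) : avgw w n A ≤ avgw w n B := by
  unfold avgw
  apply integral_mono (integrable_GG hw hm A) (integrable_GG hw hm B)
  intro U
  exact GG_mono (fun e => hw _) hAB

theorem avgw_add_ge {A B C : SimpleGraph (Fin n) → Prop}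
    (hABC : ∀ T : SimpleGraph (Fin n), T.IsTree → C T → A T ∨ B T) :
    avgw w n C ≤ avgw w n A + avgw w n B := by
  unfold avgw
  rw [← integral_add (integrable_GG hw hm A) (integrable_GG hw hm B)]
  apply integral_mono (integrable_GG hw hm C)
    ((integrable_GG hw hm A).add (integrable_GG hw hm B))
  intro U
  exact GG_add_ge (fun e => hw _) hABC

theorem avgw_compl [Nonempty (Fin n)] (A : SimpleGraph (Fin n) → Prop) :
    avgw w n A + avgw w n (fun T => ¬ A T) = 1 := by
  unfold avgw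
  rw [← integral_add (integrable_GG hw hm A) (integrable_GG hw hm _)]
  have : (fun U : Sym2 (Fin n) → ℝ => GG (fun e => w (U e)) A +
      GG (fun e => w (U e)) (fun T => ¬ A T)) = fun _ => (1:ℝ) := by
    funext U
    exact GG_compl (fun e => hw _) A
  rw [this, integral_const]
  simp

/-- two events of large probability -/
theorem avgw_inter [Nonempty (Fin n)] {A B C : SimpleGraph (Fin n) → Prop}
    (hABC : ∀ T : SimpleGraph (Fin n), T.IsTree → A T → B T → C T) {a b : ℝ}
    (hA : 1 - a ≤ avgw w n A) (hB : 1 - b ≤ avgw w n B) : 1 - (a + b) ≤ avgw w n C := by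
  have h1 := avgw_compl hw hm A
  have h2 := avgw_compl hw hm B
  have h3 := avgw_compl hw hm C
  have h4 := avgw_add_ge hw hm (A := fun T => ¬ A T) (B := fun T => ¬ B T) (C := fun T => ¬ C T)
    (by
      intro T hT hC
      by_contra hcon
      push Not at hcon
      exact hC (hABC T hT hcon.1 hcon.2))
  linarith

theorem avgw_ge (A : SimpleGraph (Fin n) → Prop) (Bad : Set (Sym2 (Fin n) → ℝ))
    {η δ : ℝ} (hη : 0 ≤ η) (hδ : 0 ≤ δ) (hBad : env n Bad ≤ ENNReal.ofReal η)
    (h : ∀ U, U ∉ Bad → 1 - δ ≤ GG (fun e => w (U e)) A) : 1 - δ - η ≤ avgw w n A := by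
  classical
  set B := toMeasurable (env n) Bad with hB
  have hBm : MeasurableSet B := measurableSet_toMeasurable _ _
  have hBe : env n B = env n Bad := measure_toMeasurable _
  have hsub : Bad ⊆ B := subset_toMeasurable _ _
  have hint := integrable_GG (n := n) hw hm A
  have h1 : ∫ U, (Bᶜ).indicator (fun _ => (1 - δ : ℝ)) U ∂(env n) ≤
      ∫ U, GG (fun e => w (U e)) A ∂(env n) := by
    apply integral_mono _ hint
    · intro U
      simp only [Set.indicator_apply]
      split_ifs with hU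
      · exact h U (fun hU' => hU (hsub hU'))
      · exact GG_nonneg (fun e => hw _) A
    · exact (integrable_const _).indicator hBm.compl
  rw [integral_indicator_const _ hBm.compl] at h1
  have h2 : (env n).real Bᶜ = 1 - (env n).real B := by
    rw [measureReal_compl hBm]
    simp
  have h3 : (env n).real B ≤ η := by
    rw [measureReal_def, hBe]
    exact ENNReal.toReal_le_of_le_ofReal hη hBad
  have h4 : 0 ≤ (env n).real B := measureReal_nonneg
  rw [h2, smul_eq_mul] at h1
  unfold avgw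
  refine le_trans ?_ h1
  nlinarith

end

end

end Pool.Agent.TH972
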