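import Pool.Agent.TH972.Cross

/-!
# Comparison of the walk on the complete graph with the walk on a subgraph
-/

set_option autoImplicit false
set_option linter.unusedSectionVars false

namespace Pool.Agent.TH972

open Finset

noncomputable section

variable {V : Type*} [Fintype V] [DecidableEq V]

/-- the set of visited vertices -/
def vis (x : V) (t : List V) : Finset V := (x :: t).toFinset

theorem mem_vis {x y : V} {t : List V} : y ∈ vis x t ↔ y ∈ x :: t := by
  unfold vis; rw [List.mem_toFinset]

theorem vis_cons (y x : V) (t : List V) : vis y (x :: t) = insert y (vis x t) := by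
  unfold vis; rw [List.toFinset_cons]

/-- a bad edge is used before `k0` vertices are visited -/
def badW (κ : Sym2 V → ℝ) (bad : Sym2 V → Prop) (k0 : ℕ) : ℕ → V → List V → ℝ
  | 0, _, _ => 0
  | (m + 1), x, t => if k0 ≤ (vis x t).card then 0 else
      ∑ y, tr κ x y * (open Classical in if bad s(x, y) then 1 else badW κ bad k0 m y (x :: t))

/-- `k0` vertices are not visited in `m` steps -/
def slow (κ : Sym2 V → ℝ) (k0 : ℕ) : ℕ → V → List V → ℝ
  | 0, x, t => if k0 ≤ (vis x t).card then 0 else 1
  | (m + 1), x, t => if k0 ≤ (vis x t).card then 0 else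
      ∑ y, tr κ x y * slow κ k0 m y (x :: t)

/-- `k0` vertices are visited within `m` steps, and the event `A` fails then -/
def failG (κ : Sym2 V → ℝ) (k0 : ℕ) (A : Set (Sym2 V) → Prop) : ℕ → V → List V → ℝ
  | 0, x, t => if k0 ≤ (vis x t).card then (open Classical in if A (fe (x :: t)) then 0 else 1)
      else 0
  | (m + 1), x, t => if k0 ≤ (vis x t).card then
      (open Classical in if A (fe (x :: t)) then 0 else 1) else
      ∑ y, tr κ x y * failG κ k0 A m y (x :: t)

theorem badW_nonneg {κ : Sym2 V → ℝ} (h : ∀ e, 0 ≤ κ e) (bad : Sym2 V → Prop) (k0 m : ℕ) (x : V)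
    (t : List V) : 0 ≤ badW κ bad k0 m x t := by
  induction m generalizing x t with
  | zero => exact le_rfl
  | succ m ih =>
    unfold badW
    split_ifs
    · exact le_rfl
    · apply Finset.sum_nonneg
      intro y _
      apply mul_nonneg (tr_nonneg h x y)
      split_ifs
      · norm_num
      · exact ih y _

theorem slow_nonneg {κ : Sym2 V → ℝ} (h : ∀ e, 0 ≤ κ e) (k0 m : ℕ) (x : V)
    (t : List V) : 0 ≤ slow κ k0 m x t := by
  induction m generalizing x t with
  | zero => unfold slow; split_ifs <;> norm_num
  | succ m ih =>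
    unfold slow
    split_ifs
    · exact le_rfl
    · exact Finset.sum_nonneg (fun y _ => mul_nonneg (tr_nonneg h x y) (ih y _))

theorem failG_nonneg {κ : Sym2 V → ℝ} (h : ∀ e, 0 ≤ κ e) (k0 : ℕ) (A : Set (Sym2 V) → Prop)
    (m : ℕ) (x : V) (t : List V) : 0 ≤ failG κ k0 A m x t := by
  induction m generalizing x t with
  | zero => unfold failG; split_ifs <;> norm_num
  | succ m ih =>
    unfold failG
    split_ifs
    · norm_num
    · norm_num
    · exact Finset.sum_nonneg (fun y _ => mul_nonneg (tr_nonneg h x y) (ih y _))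

theorem fe_mono (y x : V) (t : List V) : fe (x :: t) ⊆ fe (y :: x :: t) := by
  conv_rhs => unfold fe
  split_ifs
  · exact subset_rfl
  · exact Set.subset_insert _ _

open Classical in
theorem run_not_le {κ : Sym2 V → ℝ} (h : ∀ e, 0 ≤ κ e) (A : Set (Sym2 V) → Prop)
    (hA : ∀ S S' : Set (Sym2 V), S ⊆ S' → A S → A S') (m : ℕ) (x : V) (t : List V) :
    run κ (fun l => if A (fe l) then 0 else 1) m x t ≤ if A (fe (x :: t)) then 0 else 1 := by
  induction m generalizing x t with
  | zero => exact le_rfl
  | succ m ih =>
    show ∑ y, tr κ x y * run κ _ m y (x :: t) ≤ _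
    split_ifs with hAx
    · apply le_of_eq
      apply Finset.sum_eq_zero
      intro y _
      have h1 := ih y (x :: t)
      rw [if_pos (hA _ _ (fe_mono y x t) hAx)] at h1
      have h2 : 0 ≤ run κ (fun l => if A (fe l) then (0:ℝ) else 1) m y (x :: t) := by
        clear h1
        have : ∀ (m : ℕ) (y : V) (t : List V),
            0 ≤ run κ (fun l => if A (fe l) then (0:ℝ) else 1) m y t := by
          intro m
          induction m with
          | zero => intro y t; unfold run; split_ifs <;> norm_num
          | succ m ih =>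
            intro y t
            exact Finset.sum_nonneg (fun z _ => mul_nonneg (tr_nonneg h y z) (ih z _))
        exact this m y _
      rw [le_antisymm h1 h2, mul_zero]
    · refine le_trans ?_ (sum_tr_le h x)
      apply Finset.sum_le_sum
      intro y _
      have h1 := ih y (x :: t)
      have h2 : (if A (fe (y :: x :: t)) then (0:ℝ) else 1) ≤ 1 := by split_ifs <;> norm_num
      have h3 := mul_le_mul_of_nonneg_left (h1.trans h2) (tr_nonneg h x y)
      linarith

/-- restriction of the conductances to the good edges -/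
def good (κ : Sym2 V → ℝ) (bad : Sym2 V → Prop) (e : Sym2 V) : ℝ :=
  open Classical in if bad e then 0 else κ e

theorem good_nonneg {κ : Sym2 V → ℝ} (h : ∀ e, 0 ≤ κ e) (bad : Sym2 V → Prop) (e : Sym2 V) :
    0 ≤ good κ bad e := by
  unfold good; split_ifs
  · exact le_rfl
  · exact h e

theorem tr_le_good {κ : Sym2 V → ℝ} (h : ∀ e, 0 ≤ κ e) (bad : Sym2 V → Prop) (x y : V)
    (hb : ¬ bad s(x, y)) : tr κ x y ≤ tr (good κ bad) x y := by
  unfold tr
  have h1 : Kc (good κ bad) x y = Kc κ x y := by
    unfold Kc good
    rw [if_neg hb]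
  rw [h1]
  rcases (Kc_nonneg h x y).eq_or_lt with h0 | h0
  · rw [← h0]; simp
  · have h2 : Kc (good κ bad) x y ≤ cs (good κ bad) x :=
      Finset.single_le_sum (f := fun y => Kc (good κ bad) x y)
        (fun y _ => Kc_nonneg (good_nonneg h bad) x y) (Finset.mem_univ y)
    have h3 : cs (good κ bad) x ≤ cs κ x := by
      apply Finset.sum_le_sum
      intro y _
      unfold Kc good
      split_ifs
      · exact le_rfl
      · exact h _
      · exact le_rfl
    apply div_le_div_of_nonneg_left h0.le _ h3
    rw [h1] at h2
    linarith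

open Classical in
theorem run_le_three {κ : Sym2 V → ℝ} (h : ∀ e, 0 ≤ κ e) (bad : Sym2 V → Prop) (k0 : ℕ)
    (A : Set (Sym2 V) → Prop) (hA : ∀ S S' : Set (Sym2 V), S ⊆ S' → A S → A S') (m : ℕ)
    (x : V) (t : List V) :
    run κ (fun l => if A (fe l) then 0 else 1) m x t ≤
      badW κ bad k0 m x t + slow κ k0 m x t + failG (good κ bad) k0 A m x t := by
  induction m generalizing x t with
  | zero =>
    unfold run badW slow failG
    split_ifs <;> norm_num
  | succ m ih =>
    by_cases hk : k0 ≤ (vis x t).card
    · have h1 := run_not_le h A hA (m + 1) x t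
      unfold badW slow failG
      rw [if_pos hk, if_pos hk, if_pos hk]
      linarith
    · unfold run badW slow failG
      rw [if_neg hk, if_neg hk, if_neg hk, ← Finset.sum_add_distrib, ← Finset.sum_add_distrib]
      apply Finset.sum_le_sum
      intro y _
      have h1 := ih y (x :: t)
      have h2 := tr_nonneg h x y
      have h3 := tr_nonneg (good_nonneg h bad) x y
      have h4 := failG_nonneg (good_nonneg h bad) k0 A m y (x :: t)
      have h5 := slow_nonneg h k0 m y (x :: t)
      by_cases hb : bad s(x, y)
      · rw [if_pos hb]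
        have h6 := run_not_le h A hA m y (x :: t)
        have h7 : (if A (fe (y :: x :: t)) then (0:ℝ) else 1) ≤ 1 := by split_ifs <;> norm_num
        have h8 := mul_le_mul_of_nonneg_left (h6.trans h7) h2
        have h9 := mul_nonneg h2 h5
        have h10 := mul_nonneg h3 h4
        linarith
      · rw [if_neg hb]
        have h6 := tr_le_good h bad x y hb
        have h7 := mul_le_mul_of_nonneg_right h6 h4
        have h8 := mul_le_mul_of_nonneg_left h1 h2
        linarith

/-- probability of not hitting `z` within `m` steps -/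
def surv (κ : Sym2 V → ℝ) (z : V) : ℕ → V → ℝ
  | 0, x => if x = z then 0 else 1
  | (m + 1), x => if x = z then 0 else ∑ y, tr κ x y * surv κ z m y

theorem surv_z (κ : Sym2 V → ℝ) (z : V) (m : ℕ) : surv κ z m z = 0 := by
  cases m <;> simp [surv]

theorem surv_nonneg {κ : Sym2 V → ℝ} (h : ∀ e, 0 ≤ κ e) (z : V) (m : ℕ) (x : V) :
    0 ≤ surv κ z m x := by
  induction m generalizing x with
  | zero => unfold surv; split_ifs <;> norm_num
  | succ m ih =>
    unfold surv
    split_ifs
    · exact le_rfl
    · exact Finset.sum_nonneg (fun y _ => mul_nonneg (tr_nonneg h x y) (ih y))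

theorem surv_le {κ : Sym2 V → ℝ} (h : ∀ e, 0 ≤ κ e) (z : V) {d : ℝ} (hd1 : d ≤ 1)
    (hd : ∀ x, x ≠ z → d ≤ tr κ x z) (m : ℕ) (x : V) : surv κ z m x ≤ (1 - d) ^ m := by
  have hd' : 0 ≤ 1 - d := by linarith
  induction m generalizing x with
  | zero => unfold surv; split_ifs <;> norm_num
  | succ m ih =>
    unfold surv
    split_ifs with hx
    · positivity
    · have h1 : ∑ y, tr κ x y * surv κ z m y = ∑ y ∈ univ.erase z, tr κ x y * surv κ z m y := by
        rw [← Finset.add_sum_erase _ _ (Finset.mem_univ z), surv_z, mul_zero, zero_add]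
      rw [h1]
      have h2 : ∑ y ∈ univ.erase z, tr κ x y ≤ 1 - d := by
        have h3 := sum_tr_le h x
        rw [← Finset.add_sum_erase _ _ (Finset.mem_univ z)] at h3
        have := hd x hx
        linarith
      calc ∑ y ∈ univ.erase z, tr κ x y * surv κ z m y ≤
            ∑ y ∈ univ.erase z, tr κ x y * (1 - d) ^ m := by
            apply Finset.sum_le_sum
            intro y _
            exact mul_le_mul_of_nonneg_left (ih y) (tr_nonneg h x y)
        _ = (∑ y ∈ univ.erase z, tr κ x y) * (1 - d) ^ m := by rw [Finset.sum_mul]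
        _ ≤ (1 - d) * (1 - d) ^ m := mul_le_mul_of_nonneg_right h2 (by positivity)
        _ = _ := by rw [pow_succ]; ring

theorem slow_le_surv {κ : Sym2 V → ℝ} (h : ∀ e, 0 ≤ κ e) {k0 : ℕ} (hk0 : k0 ≤ Fintype.card V)
    (m : ℕ) (x : V) (t : List V) :
    slow κ k0 m x t ≤ ∑ z ∈ univ \ vis x t, surv κ z m x := by
  induction m generalizing x t with
  | zero =>
    unfold slow
    split_ifs with hk
    · exact Finset.sum_nonneg (fun z _ => surv_nonneg h z 0 x)
    · obtain ⟨z, hz⟩ : ∃ z, z ∈ univ \ vis x t := by
        by_contra hcon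
        push Not at hcon
        apply hk
        have : vis x t = univ := by
          ext z
          have := hcon z
          rw [Finset.mem_sdiff] at this
          push Not at this
          simp only [Finset.mem_univ, iff_true]
          exact this (Finset.mem_univ _)
        rw [this, Finset.card_univ]
        exact hk0
      have h1 : surv κ z 0 x = 1 := by
        unfold surv
        rw [if_neg]
        rintro rfl
        exact (Finset.mem_sdiff.1 hz).2 (mem_vis.2 (by simp))
      rw [← h1]
      exact Finset.single_le_sum (f := fun z => surv κ z 0 x)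
        (fun z _ => surv_nonneg h z 0 x) hz
  | succ m ih =>
    unfold slow
    split_ifs with hk
    · exact Finset.sum_nonneg (fun z _ => surv_nonneg h z (m + 1) x)
    · have h1 : ∑ z ∈ univ \ vis x t, surv κ z (m + 1) x =
          ∑ y, tr κ x y * ∑ z ∈ univ \ vis x t, surv κ z m y := by
        simp_rw [Finset.mul_sum]
        rw [Finset.sum_comm]
        apply Finset.sum_congr rfl
        intro z hz
        rw [surv, if_neg]
        rintro rfl
        exact (Finset.mem_sdiff.1 hz).2 (mem_vis.2 (by simp))
      rw [h1]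
      apply Finset.sum_le_sum
      intro y _
      apply mul_le_mul_of_nonneg_left _ (tr_nonneg h x y)
      refine (ih y (x :: t)).trans ?_
      apply Finset.sum_le_sum_of_subset_of_nonneg
      · rw [vis_cons]
        exact Finset.sdiff_subset_sdiff subset_rfl (Finset.subset_insert _ _)
      · intro z _ _
        exact surv_nonneg h z m y

theorem badW_le_crs {κ : Sym2 V → ℝ} (h : ∀ e, 0 ≤ κ e) (bad : Sym2 V → Prop) {k0 s : ℕ}
    (C : Finset V) (hC : s ≤ C.card) (m : ℕ) (x : V) (t : List V) :
    ((s : ℝ) - k0) * badW κ bad k0 m x t ≤ ∑ z ∈ C \ vis x t, crs κ bad z m x := by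
  classical
  induction m generalizing x t with
  | zero =>
    unfold badW
    rw [mul_zero]
    exact Finset.sum_nonneg (fun z _ => crs_nonneg h bad z 0 x)
  | succ m ih =>
    unfold badW
    split_ifs with hk
    · rw [mul_zero]
      exact Finset.sum_nonneg (fun z _ => crs_nonneg h bad z (m + 1) x)
    · have h1 : ∑ z ∈ C \ vis x t, crs κ bad z (m + 1) x =
          ∑ y, tr κ x y * ∑ z ∈ C \ vis x t, (if bad s(x, y) then 1 else crs κ bad z m y) := by
        simp_rw [Finset.mul_sum]
        rw [Finset.sum_comm]
        apply Finset.sum_congr rfl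
        intro z hz
        rw [crs, if_neg]
        rintro rfl
        exact (Finset.mem_sdiff.1 hz).2 (mem_vis.2 (by simp))
      rw [h1, Finset.mul_sum]
      apply Finset.sum_le_sum
      intro y _
      have h2 := tr_nonneg h x y
      have h3 : ((s : ℝ) - k0) * (if bad s(x, y) then 1 else badW κ bad k0 m y (x :: t)) ≤
          ∑ z ∈ C \ vis x t, (if bad s(x, y) then 1 else crs κ bad z m y) := by
        split_ifs with hb
        · rw [Finset.sum_const, nsmul_eq_mul, mul_one, mul_one]
          have h4 : C.card ≤ (C \ vis x t).card + (vis x t).card := by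
            have := Finset.card_le_card (Finset.subset_union_left (s₁ := C) (s₂ := vis x t))
            rw [← Finset.sdiff_union_self_eq_union] at this
            exact this.trans (Finset.card_union_le _ _)
          have h5 : (s : ℝ) ≤ ((C \ vis x t).card : ℝ) + (vis x t).card := by
            exact_mod_cast hC.trans h4
          have h6 : ((vis x t).card : ℝ) ≤ k0 := by
            exact_mod_cast (by omega : (vis x t).card ≤ k0)
          linarith
        · refine (ih y (x :: t)).trans ?_
          apply Finset.sum_le_sum_of_subset_of_nonneg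
          · rw [vis_cons]
            exact Finset.sdiff_subset_sdiff subset_rfl (Finset.subset_insert _ _)
          · intro z _ _
            exact crs_nonneg h bad z m y
      calc ((s : ℝ) - k0) * (tr κ x y * (if bad s(x, y) then 1 else badW κ bad k0 m y (x :: t)))
          = tr κ x y * (((s : ℝ) - k0) *
            (if bad s(x, y) then 1 else badW κ bad k0 m y (x :: t))) := by ring
        _ ≤ _ := mul_le_mul_of_nonneg_left h3 h2

open Classical in
theorem run_add_run {κ : Sym2 V → ℝ} (hs : ∀ x, ∑ y, tr κ x y = 1) (A : Set (Sym2 V) → Prop)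
    (m : ℕ) (x : V) (t : List V) :
    run κ (fun l => if A (fe l) then 1 else 0) m x t +
      run κ (fun l => if A (fe l) then 0 else 1) m x t = 1 := by
  induction m generalizing x t with
  | zero => unfold run; split_ifs <;> norm_num
  | succ m ih =>
    unfold run
    rw [← Finset.sum_add_distrib]
    refine Eq.trans ?_ (hs x)
    apply Finset.sum_congr rfl
    intro y _
    rw [← mul_add, ih, mul_one]

/-- the main bound for fixed conductances -/
theorem fail_bound {κ : Sym2 V → ℝ} (h : ∀ e, 0 ≤ κ e) (hs : ∀ x, ∑ y, tr κ x y = 1)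
    (bad : Sym2 V → Prop) (k0 s : ℕ) (hk0 : k0 ≤ Fintype.card V) (hks : k0 < s)
    (A : Set (Sym2 V) → Prop) (hA : ∀ S S' : Set (Sym2 V), S ⊆ S' → A S → A S')
    (C : Finset V) (hC : s ≤ C.card) {B d : ℝ} (hd1 : d ≤ 1)
    (hd : ∀ x z, x ≠ z → d ≤ tr κ x z) (m : ℕ) (v : V)
    (hB : ∀ z ∈ C, crs κ bad z m v ≤ B) (hB0 : 0 ≤ B) :
    sumT κ (fun _ => True) * (1 - (C.card / ((s : ℝ) - k0) * B +
      Fintype.card V * (1 - d) ^ m + failG (good κ bad) k0 A m v [])) ≤
      sumT κ (fun T => A T.edgeSet) := by
  classical
  have h1 := aldous_broder h A hA m v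
  have h2 := run_add_run hs A m v []
  have h3 := run_le_three h bad k0 A hA m v []
  have hZ0 : 0 ≤ sumT κ (fun _ => True) := Finset.sum_nonneg (fun T _ => wT_nonneg h T)
  have hsk : (0:ℝ) < (s : ℝ) - k0 := by
    have : (k0 : ℝ) < s := by exact_mod_cast hks
    linarith
  have h4 : slow κ k0 m v [] ≤ Fintype.card V * (1 - d) ^ m := by
    refine (slow_le_surv h hk0 m v []).trans ?_
    calc ∑ z ∈ univ \ vis v [], surv κ z m v ≤ ∑ z ∈ univ \ vis v [], (1 - d) ^ m := by
          apply Finset.sum_le_sum
          intro z _
          exact surv_le h z hd1 (fun x hx => hd x z hx) m v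
      _ ≤ ∑ _z : V, (1 - d) ^ m := by
          apply Finset.sum_le_sum_of_subset_of_nonneg (Finset.subset_univ _)
          intro _ _ _
          have : 0 ≤ 1 - d := by linarith
          positivity
      _ = _ := by rw [Finset.sum_const, Finset.card_univ, nsmul_eq_mul]
  have h5 : badW κ bad k0 m v [] ≤ C.card / ((s : ℝ) - k0) * B := by
    have h6 := badW_le_crs (k0 := k0) h bad C hC m v []
    have h7 : ∑ z ∈ C \ vis v [], crs κ bad z m v ≤ C.card * B := by
      calc ∑ z ∈ C \ vis v [], crs κ bad z m v ≤ ∑ z ∈ C \ vis v [], B := by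
            apply Finset.sum_le_sum
            intro z hz
            exact hB z (Finset.mem_sdiff.1 hz).1
        _ ≤ ∑ _z ∈ C, B :=
            Finset.sum_le_sum_of_subset_of_nonneg Finset.sdiff_subset (fun _ _ _ => hB0)
        _ = _ := by rw [Finset.sum_const, nsmul_eq_mul]
    rw [div_mul_eq_mul_div, le_div_iff₀ hsk]
    linarith
  refine le_trans ?_ h1
  apply mul_le_mul_of_nonneg_left _ hZ0
  have e1 : run κ (fun l => if A (fe l) then (1:ℝ) else 0) m v [] =
      1 - run κ (fun l => if A (fe l) then (0:ℝ) else 1) m v [] := by linarith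
  rw [e1]
  linarith

end

end Pool.Agent.TH972
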