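import Pool.Agent.TH972.Anneal

/-!
# Local inequalities for the annealed walk
-/

set_option autoImplicit false
set_option linter.unusedSectionVars false

namespace Pool.Agent.TH972

open Finset MeasureTheory Pool.Agent.W842.RST

noncomputable section

variable {n : ℕ}

theorem Ex_indep {F G : Ev n → ℝ} (B : List (Fin n))
    (hF : ∀ U U' : Ev n, agr B U U' → F U = F U')
    (hG : ∀ U U' : Ev n, (∀ e : Sym2 (Fin n), (∀ b ∈ B, b ∉ e) → U e = U' e) → G U = G U') :
    Ex (fun U => F U * G U) = Ex F * Ex G := by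
  apply Ex_mul_of_dependsOn {e | ∃ b ∈ B, b ∈ e}
  · intro U U' h
    apply hF
    intro b hb c
    exact h s(b, c) ⟨b, hb, by simp⟩
  · intro U U' h
    apply hG
    intro e he
    apply h e
    rintro ⟨b, hb, hb'⟩
    exact he b hb hb'

theorem Ex_cnt {p : ℝ} (h0 : 0 ≤ p) (h1 : p ≤ 1) {y : Fin n} {s : List (Fin n)} (hy : y ∉ s)
    {F : Ev n → ℝ} (hF : BM F) (hFs : ∀ U U' : Ev n, agr s U U' → F U = F U') :
    Ex (fun U => F U * cnt (fun e => U e ≤ p) (vis y s) y) = ((vis y s)ᶜ.card * p) * Ex F := by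
  have e1 : Ex (fun U => F U * cnt (fun e => U e ≤ p) (vis y s) y) =
      ∑ u ∈ (vis y s)ᶜ, Ex (fun U => F U * ind (U s(y, u) ≤ p)) := by
    rw [← Ex_sum _ (fun u _ => hF.mul (BM.ind (mset_le _ _)))]
    apply Ex_congr
    intro U
    unfold cnt
    rw [Finset.mul_sum]
  rw [e1]
  have e2 : ∀ u ∈ (vis y s)ᶜ, Ex (fun U => F U * ind (U s(y, u) ≤ p)) = Ex F * p := by
    intro u hu
    rw [Ex_indep s hFs, Ex_le h0 h1]
    intro U U' h
    rw [h s(y, u)]
    intro b hb hb'
    rw [Sym2.mem_iff] at hb'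
    rcases hb' with h2 | h2
    · exact hy (h2 ▸ hb)
    · rw [Finset.mem_compl, mem_vis] at hu
      apply hu
      rw [← h2]
      exact List.mem_cons_of_mem _ hb
  rw [Finset.sum_congr rfl e2, Finset.sum_const, nsmul_eq_mul]
  ring

theorem BM_cnt (p : ℝ) (S : Finset (Fin n)) (w : Fin n) :
    BM (fun U : Ev n => cnt (fun e => U e ≤ p) S w) := by
  unfold cnt
  exact BM.sum _ (fun u _ => BM.ind (mset_le _ _))

theorem Ex_cnt1 {p : ℝ} (h0 : 0 ≤ p) (h1 : p ≤ 1) (S : Finset (Fin n)) (y : Fin n) :
    Ex (fun U : Ev n => cnt (fun e => U e ≤ p) S y) = Sᶜ.card * p := by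
  unfold cnt
  rw [Ex_sum _ (fun u _ => BM.ind (mset_le _ _))]
  simp_rw [Ex_le h0 h1]
  rw [Finset.sum_const, nsmul_eq_mul]

section

variable (P : Prm n)

theorem not_top_eq (U : Ev n) : (fun e => ¬ (Dt P U).top e) = fun e => U e ≤ P.pt := by
  funext e
  show (¬ P.pt < U e) = (U e ≤ P.pt)
  rw [not_lt]

theorem isL_congr {U U' : Ev n} (j : ℕ) (y : Fin n) (s : List (Fin n)) (h : agr s U U') :
    isL (Dt P U) j y s ↔ isL (Dt P U') j y s := by
  cases s with
  | nil => exact Iff.rfl
  | cons x t =>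
    show (y ∉ x :: t ∧ (Dt P U).top s(x, y) ∧ lev (Dt P U).top (x :: t) x + 1 = j) ↔
      (y ∉ x :: t ∧ (Dt P U').top s(x, y) ∧ lev (Dt P U').top (x :: t) x + 1 = j)
    have h1 : (Dt P U).top s(x, y) ↔ (Dt P U').top s(x, y) := by
      show P.pt < U s(x, y) ↔ P.pt < U' s(x, y)
      rw [h x List.mem_cons_self y]
    rw [h1, lev_congr P (x :: t) (fun a ha b _ => h a ha b)]

theorem new_congr {U U' : Ev n} (q : ℕ → Prop) (y : Fin n) (s : List (Fin n))
    (h : agr s U U') :
    (y ∉ s ∧ q (lev (Dt P U).top (y :: s) y)) ↔ (y ∉ s ∧ q (lev (Dt P U').top (y :: s) y)) := by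
  refine and_congr_right (fun hy => ?_)
  cases s with
  | nil => unfold lev; exact Iff.rfl
  | cons x t =>
    rw [lev_new _ hy, lev_new _ hy, lev_congr P (x :: t) (fun a ha b _ => h a ha b)]
    have h1 : (Dt P U).top s(x, y) ↔ (Dt P U').top s(x, y) := by
      show P.pt < U s(x, y) ↔ P.pt < U' s(x, y)
      rw [h x List.mem_cons_self y]
    by_cases h2 : (Dt P U).top s(x, y)
    · rw [if_pos h2, if_pos (h1.1 h2)]
    · rw [if_neg h2, if_neg (fun h => h2 (h1.2 h))]

/-- the functional of the new vertices at level `j` -/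
def gnew (j : ℕ) (U : Ev n) (y : Fin n) (s : List (Fin n)) : ℝ :=
  ind (y ∉ s ∧ lev (Dt P U).top (y :: s) y = j)

/-- the functional of the entrances of level `j` -/
def gL (j : ℕ) (U : Ev n) (y : Fin n) (s : List (Fin n)) : ℝ := ind (isL (Dt P U) j y s)

theorem BM_gnew (j : ℕ) (y : Fin n) (s : List (Fin n)) : BM (fun U => gnew P j U y s) :=
  BM.ind (mset_new P y s (fun k => k = j))

theorem BM_gL (j : ℕ) (y : Fin n) (s : List (Fin n)) : BM (fun U => gL P j U y s) :=
  BM.ind (mset_isL P j y s)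

theorem BM_cntt (S : Finset (Fin n)) (w : Fin n) :
    BM (fun U : Ev n => cnt (fun e => ¬ (Dt P U).top e) S w) := by
  simp_rw [not_top_eq]
  exact BM_cnt _ _ _

/-- mass balance at level `j` -/
theorem Ex_newj (hpt0 : 0 ≤ P.pt) (hpt1 : P.pt ≤ 1) (hn : (n : ℝ) * P.pt ≤ 1) (j m : ℕ)
    (v : Fin n) :
    (1 - n * P.pt) * Ex (fun U => oc (Dt P U) (gnew P j U) m v []) ≤
      1 + Ex (fun U => oc (Dt P U) (gL P j U) m v []) := by
  set E1 := Ex (fun U => oc (Dt P U) (gnew P j U) m v []) with hE1
  set E2 := Ex (fun U => oc (Dt P U) (gL P j U) m v []) with hE2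
  set g1 : Ev n → Fin n → List (Fin n) → ℝ := fun U y s =>
    gL P j U y s + gnew P j U y s * cnt (fun e => ¬ (Dt P U).top e) (vis y s) y with hg1
  set g2 : Ev n → Fin n → List (Fin n) → ℝ := fun U y s =>
    gL P j U y s + (n * P.pt) * gnew P j U y s with hg2
  have bg1 : ∀ y s, BM (fun U => g1 U y s) := fun y s =>
    (BM_gL P j y s).add ((BM_gnew P j y s).mul (BM_cntt P _ _))
  have bg2 : ∀ y s, BM (fun U => g2 U y s) := fun y s =>
    (BM_gL P j y s).add ((BM.const _).mul (BM_gnew P j y s))
  have hcard : ∀ S : Finset (Fin n), ((Sᶜ.card : ℕ) : ℝ) * P.pt ≤ n * P.pt := by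
    intro S
    apply mul_le_mul_of_nonneg_right _ hpt0
    have := Finset.card_le_univ (Sᶜ)
    rw [Fintype.card_fin] at this
    exact_mod_cast this
  -- first inequality
  have h1 : E1 ≤ Ex (fun U => bdy (fun e => ¬ (Dt P U).top e)
      (fun w => lev (Dt P U).top [v] w = j) (vis v [])) +
      Ex (fun U => oc (Dt P U) (g1 U) m v []) := by
    have bb : BM (fun U : Ev n => bdy (fun e => ¬ (Dt P U).top e)
        (fun w => lev (Dt P U).top [v] w = j) (vis v [])) := by
      unfold bdy
      exact BM.sum _ (fun w _ => (BM.ind (mset_lev P [v] w (fun k => k = j))).mul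
        (BM_cntt P _ _))
    rw [← Ex_add bb (BM_oc P bg1 m v [])]
    apply Ex_mono (BM_oc P (BM_gnew P j) m v []) (bb.add (BM_oc P bg1 m v []))
    intro U
    exact oc_newj (Dt P U) j m v []
  have h2 : Ex (fun U => bdy (fun e => ¬ (Dt P U).top e)
      (fun w => lev (Dt P U).top [v] w = j) (vis v [])) ≤ 1 := by
    have hv : vis v ([] : List (Fin n)) = {v} := by unfold vis; rfl
    calc _ ≤ Ex (fun U : Ev n => cnt (fun e => U e ≤ P.pt) {v} v) := by
          apply Ex_mono _ (BM_cnt _ _ _)
          · intro U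
            rw [hv]
            unfold bdy
            rw [Finset.sum_singleton, not_top_eq]
            have h3 := ind_le_one (lev (Dt P U).top [v] v = j)
            have h4 := cnt_nonneg (fun e => U e ≤ P.pt) {v} v
            nlinarith
          · unfold bdy
            exact BM.sum _ (fun w _ => (BM.ind (mset_lev P [v] w (fun k => k = j))).mul
              (BM_cntt P _ _))
      _ = (({v} : Finset (Fin n))ᶜ.card : ℝ) * P.pt := Ex_cnt1 hpt0 hpt1 _ _
      _ ≤ n * P.pt := hcard _
      _ ≤ 1 := hn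
  have h3 : Ex (fun U => oc (Dt P U) (g1 U) m v []) ≤
      Ex (fun U => oc (Dt P U) (g2 U) m v []) := by
    apply anneal_oc P bg1 bg2
    intro x t
    apply Finset.sum_le_sum
    intro y _
    have bF : BM (fun U => wt P U y (x :: t) * gnew P j U y (x :: t)) :=
      (BM_wt P y _).mul (BM_gnew P j y _)
    have e1 : Ex (fun U => wt P U y (x :: t) * g1 U y (x :: t)) =
        Ex (fun U => wt P U y (x :: t) * gL P j U y (x :: t)) +
        Ex (fun U => (wt P U y (x :: t) * gnew P j U y (x :: t)) *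
          cnt (fun e => ¬ (Dt P U).top e) (vis y (x :: t)) y) := by
      rw [← Ex_add ((BM_wt P y _).mul (BM_gL P j y _)) (bF.mul (BM_cntt P _ _))]
      apply Ex_congr
      intro U
      rw [hg1]
      ring
    have e2 : Ex (fun U => wt P U y (x :: t) * g2 U y (x :: t)) =
        Ex (fun U => wt P U y (x :: t) * gL P j U y (x :: t)) +
        (n * P.pt) * Ex (fun U => wt P U y (x :: t) * gnew P j U y (x :: t)) := by
      rw [← Ex_const_mul, ← Ex_add ((BM_wt P y _).mul (BM_gL P j y _)) ((BM.const _).mul bF)]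
      apply Ex_congr
      intro U
      rw [hg2]
      ring
    rw [e1, e2]
    apply add_le_add_right
    by_cases hy : y ∈ x :: t
    · have z1 : ∀ U : Ev n, gnew P j U y (x :: t) = 0 := fun U =>
        ind_false (fun h => h.1 hy)
      simp only [z1, mul_zero, zero_mul]
      rw [Ex_const]; simp
    · simp_rw [not_top_eq]
      rw [Ex_cnt hpt0 hpt1 hy bF]
      · apply mul_le_mul_of_nonneg_right (hcard _)
        exact Ex_nonneg (fun U => mul_nonneg (wt_nonneg _ _ _ _) (ind_nonneg _))
      · intro U U' h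
        rw [wt_congr P y (x :: t) h]
        unfold gnew
        have := new_congr P (fun k => k = j) y (x :: t) h
        by_cases h5 : y ∉ x :: t ∧ lev (Dt P U).top (y :: x :: t) y = j
        · rw [ind_true h5, ind_true (this.1 h5)]
        · rw [ind_false h5, ind_false (fun h6 => h5 (this.2 h6))]
  have h4 : Ex (fun U => oc (Dt P U) (g2 U) m v []) = E2 + n * P.pt * E1 := by
    rw [hE1, hE2, ← Ex_const_mul, ← Ex_add (BM_oc P (BM_gL P j) m v [])
      ((BM.const _).mul (BM_oc P (BM_gnew P j) m v []))]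
    apply Ex_congr
    intro U
    unfold oc
    have e5 : (fun (_ : ℕ) => st (Dt P U) (g2 U)) = fun (_ : ℕ) x t =>
        st (Dt P U) (gL P j U) x t + (n * P.pt) * st (Dt P U) (gnew P j U) x t := by
      funext _ x t
      unfold st
      rw [Finset.mul_sum, ← Finset.sum_add_distrib]
      apply Finset.sum_congr rfl
      intro y _
      rw [hg2]
      ring
    rw [e5, occ_add (Dt P U) (fun _ => st (Dt P U) (gL P j U))
      (fun _ x t => (n * P.pt) * st (Dt P U) (gnew P j U) x t), occ_mul]
  linarith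

/-- the functional of the new vertices -/
def gN (_ : Ev n) (y : Fin n) (s : List (Fin n)) : ℝ := ind (y ∉ s)

theorem BM_gN (y : Fin n) (s : List (Fin n)) : BM (fun U => gN U y s) := BM.const _

theorem BM_bdyg (S : Finset (Fin n)) : BM (fun U => bdy (Dt P U).g (fun _ => True) S) := by
  unfold bdy
  exact BM.sum _ (fun w _ => (BM.const _).mul (BM_cnt P.p1 _ _))

/-- the boundary of the visited set is small at the steps to new vertices -/
theorem Ex_bdy (hp0 : 0 ≤ P.p1) (hp1 : P.p1 ≤ 1) {θ : ℝ} (hθ0 : 0 ≤ θ)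
    (hθ : (n : ℝ) * P.p1 ≤ 1 + θ) (hk0 : 1 ≤ P.k0) (m : ℕ) (v : Fin n) :
    Ex (fun U => oc (Dt P U) (fun y s => ind (y ∉ s) *
      bdy (Dt P U).g (fun _ => True) (s.toFinset)) m v []) ≤
      P.k0 * (1 + θ) + P.k0 * θ * Ex (fun U => oc (Dt P U) (gN U) m v []) := by
  set E1 := Ex (fun U => oc (Dt P U) (gN U) m v []) with hE1
  set g0 : Ev n → Fin n → List (Fin n) → ℝ := fun U y s =>
    ind (y ∉ s) * bdy (Dt P U).g (fun _ => True) (s.toFinset) with hg0
  set g1 : Ev n → Fin n → List (Fin n) → ℝ := fun U y s =>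
    ind (y ∉ s) * (((P.k0 : ℝ) - (vis y s).card) * (cnt (Dt P U).g (vis y s) y - 1)) with hg1
  set g2 : Ev n → Fin n → List (Fin n) → ℝ := fun U y s => (P.k0 * θ) * gN U y s with hg2
  have bg0 : ∀ y s, BM (fun U => g0 U y s) := fun y s => (BM.const _).mul (BM_bdyg P _)
  have bg1 : ∀ y s, BM (fun U => g1 U y s) := fun y s =>
    (BM.const _).mul ((BM.const _).mul ((BM_cnt P.p1 _ _).sub (BM.const 1)))
  have bg2 : ∀ y s, BM (fun U => g2 U y s) := fun y s => (BM.const _).mul (BM_gN y s)
  have hcard : ∀ S : Finset (Fin n), ((Sᶜ.card : ℕ) : ℝ) * P.p1 ≤ n * P.p1 := by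
    intro S
    apply mul_le_mul_of_nonneg_right _ hp0
    have := Finset.card_le_univ (Sᶜ)
    rw [Fintype.card_fin] at this
    exact_mod_cast this
  have hv : vis v ([] : List (Fin n)) = {v} := by unfold vis; rfl
  have hk1 : (1:ℝ) ≤ P.k0 := by exact_mod_cast hk0
  have h1 : Ex (fun U => oc (Dt P U) (g0 U) m v []) ≤
      Ex (fun U => ((P.k0 : ℝ) - (vis v []).card) * bdy (Dt P U).g (fun _ => True) (vis v [])) +
      Ex (fun U => oc (Dt P U) (g1 U) m v []) := by
    have bb : BM (fun U : Ev n => ((P.k0 : ℝ) - (vis v []).card) *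
        bdy (Dt P U).g (fun _ => True) (vis v [])) := (BM.const _).mul (BM_bdyg P _)
    rw [← Ex_add bb (BM_oc P bg1 m v [])]
    apply Ex_mono (BM_oc P bg0 m v []) (bb.add (BM_oc P bg1 m v []))
    intro U
    exact oc_bdy (Dt P U) m v [] (by rw [hv, Finset.card_singleton]; exact hk0)
  have h2 : Ex (fun U => ((P.k0 : ℝ) - (vis v []).card) *
      bdy (Dt P U).g (fun _ => True) (vis v [])) ≤ P.k0 * (1 + θ) := by
    rw [Ex_const_mul]
    have e1 : Ex (fun U => bdy (Dt P U).g (fun _ => True) (vis v [])) ≤ 1 + θ := by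
      have e2 : Ex (fun U => bdy (Dt P U).g (fun _ => True) (vis v [])) =
          Ex (fun U : Ev n => cnt (fun e => U e ≤ P.p1) {v} v) := by
        apply Ex_congr
        intro U
        rw [hv]
        unfold bdy
        rw [Finset.sum_singleton, ind_true trivial, one_mul]
        rfl
      rw [e2, Ex_cnt1 hp0 hp1]
      exact (hcard _).trans hθ
    have e3 : 0 ≤ Ex (fun U => bdy (Dt P U).g (fun _ => True) (vis v [])) :=
      Ex_nonneg (fun U => bdy_nonneg _ _ _)
    have e4 : (P.k0 : ℝ) - (vis v []).card ≤ P.k0 := by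
      have : (0:ℝ) ≤ ((vis v []).card : ℝ) := Nat.cast_nonneg _
      linarith
    calc _ ≤ (P.k0 : ℝ) * Ex (fun U => bdy (Dt P U).g (fun _ => True) (vis v [])) :=
          mul_le_mul_of_nonneg_right e4 e3
      _ ≤ _ := mul_le_mul_of_nonneg_left e1 (by linarith)
  have h3 : Ex (fun U => oc (Dt P U) (g1 U) m v []) ≤
      Ex (fun U => oc (Dt P U) (g2 U) m v []) := by
    apply anneal_oc P bg1 bg2
    intro x t
    apply Finset.sum_le_sum
    intro y _
    have bW : BM (fun U => wt P U y (x :: t)) := BM_wt P y _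
    have hW0 : 0 ≤ Ex (fun U => wt P U y (x :: t)) := Ex_nonneg (fun U => wt_nonneg _ _ _ _)
    by_cases hy : y ∈ x :: t
    · have z1 : ∀ U : Ev n, g1 U y (x :: t) = 0 := fun U => by
        rw [hg1]; simp only; rw [ind_false (fun h => h hy), zero_mul]
      have z2 : ∀ U : Ev n, g2 U y (x :: t) = 0 := fun U => by
        rw [hg2]; simp only; unfold gN; rw [ind_false (fun h => h hy), mul_zero]
      simp only [z1, z2]
      exact le_rfl
    · have hy' : y ∉ vis x t := fun h => hy (mem_vis.1 h)
      by_cases hlt : (vis x t).card < P.k0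
      · have hc : (vis y (x :: t)).card = (vis x t).card + 1 := by
          rw [vis_cons, Finset.card_insert_of_notMem hy']
        set c : ℝ := (P.k0 : ℝ) - (vis y (x :: t)).card with hcd
        have hc0 : 0 ≤ c := by
          rw [hcd, hc]
          have : ((vis x t).card : ℝ) + 1 ≤ P.k0 := by exact_mod_cast hlt
          push_cast
          linarith
        have hck : c ≤ P.k0 := by
          rw [hcd]
          have : (0:ℝ) ≤ ((vis y (x :: t)).card : ℝ) := Nat.cast_nonneg _
          linarith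
        have e1 : Ex (fun U => wt P U y (x :: t) * g1 U y (x :: t)) =
            c * (Ex (fun U => wt P U y (x :: t) *
              cnt (fun e => U e ≤ P.p1) (vis y (x :: t)) y) -
              Ex (fun U => wt P U y (x :: t))) := by
          rw [← Ex_sub (bW.mul (BM_cnt _ _ _)) bW, ← Ex_const_mul]
          apply Ex_congr
          intro U
          rw [hg1]
          simp only
          rw [ind_true hy]
          show wt P U y (x :: t) * (1 * (c * (cnt (fun e => U e ≤ P.p1) (vis y (x :: t)) y - 1)))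
            = _
          ring
        have e2 : Ex (fun U => wt P U y (x :: t) * g2 U y (x :: t)) =
            (P.k0 * θ) * Ex (fun U => wt P U y (x :: t)) := by
          rw [← Ex_const_mul]
          apply Ex_congr
          intro U
          rw [hg2]
          simp only
          unfold gN
          rw [ind_true hy]
          ring
        rw [e1, e2, Ex_cnt hp0 hp1 hy bW (fun U U' h => wt_congr P y (x :: t) h)]
        have e3 : ((vis y (x :: t))ᶜ.card : ℝ) * P.p1 - 1 ≤ θ := by
          have := hcard (vis y (x :: t))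
          linarith
        have e4 : c * (((vis y (x :: t))ᶜ.card : ℝ) * P.p1 *
            Ex (fun U => wt P U y (x :: t)) - Ex (fun U => wt P U y (x :: t))) =
            c * ((((vis y (x :: t))ᶜ.card : ℝ) * P.p1 - 1) *
            Ex (fun U => wt P U y (x :: t))) := by ring
        rw [e4]
        have e5 : (((vis y (x :: t))ᶜ.card : ℝ) * P.p1 - 1) * Ex (fun U => wt P U y (x :: t)) ≤
            θ * Ex (fun U => wt P U y (x :: t)) := mul_le_mul_of_nonneg_right e3 hW0
        calc _ ≤ c * (θ * Ex (fun U => wt P U y (x :: t))) :=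
              mul_le_mul_of_nonneg_left e5 hc0
          _ ≤ P.k0 * (θ * Ex (fun U => wt P U y (x :: t))) :=
              mul_le_mul_of_nonneg_right hck (mul_nonneg hθ0 hW0)
          _ = _ := by ring
      · have z1 : ∀ U : Ev n, wt P U y (x :: t) = 0 := by
          intro U
          by_contra hne
          exact hlt (wt_card P U hne)
        simp only [z1, zero_mul]
        exact le_rfl
  have h4 : Ex (fun U => oc (Dt P U) (g2 U) m v []) = P.k0 * θ * E1 := by
    rw [hE1, ← Ex_const_mul]
    apply Ex_congr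
    intro U
    unfold oc
    have e5 : (fun (_ : ℕ) => st (Dt P U) (g2 U)) = fun (_ : ℕ) x t =>
        (P.k0 * θ) * st (Dt P U) (gN U) x t := by
      funext _ x t
      unfold st
      rw [Finset.mul_sum]
      apply Finset.sum_congr rfl
      intro y _
      rw [hg2]
      ring
    rw [e5, occ_mul]
  linarith

end

end

end Pool.Agent.TH972
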