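import Pool.Agent.TH972.PathSum

/-!
# Paths with many top edges are long
-/

set_option autoImplicit false
set_option linter.unusedSectionVars false

namespace Pool.Agent.TH972

open Finset MeasureTheory Pool.Agent.W842.RST Filter Topology

noncomputable section

variable {n : ℕ}

/-- the weight: the factor `e` for every top edge -/
def phiT (pt p1 : ℝ) (u : ℝ) : ℝ := ind (u ≤ pt) + Real.exp 1 * (ind (u ≤ p1) - ind (u ≤ pt))

theorem phiT_eq {pt p1 : ℝ} (h : pt ≤ p1) (u : ℝ) :
    phiT pt p1 u = if u ≤ pt then 1 else if u ≤ p1 then Real.exp 1 else 0 := by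
  unfold phiT
  by_cases h1 : u ≤ pt
  · rw [if_pos h1, ind_true h1, ind_true (h1.trans h)]; ring
  · rw [if_neg h1, ind_false h1]
    by_cases h2 : u ≤ p1
    · rw [if_pos h2, ind_true h2]; ring
    · rw [if_neg h2, ind_false h2]; ring

theorem phiT_nonneg {pt p1 : ℝ} (h : pt ≤ p1) (u : ℝ) : 0 ≤ phiT pt p1 u := by
  rw [phiT_eq h]
  split_ifs
  · norm_num
  · exact (Real.exp_pos _).le
  · exact le_rfl

theorem phiT_abs {pt p1 : ℝ} (h : pt ≤ p1) (u : ℝ) : |phiT pt p1 u| ≤ 3 := by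
  rw [abs_of_nonneg (phiT_nonneg h u), phiT_eq h]
  have := Real.exp_one_lt_d9
  split_ifs <;> linarith

theorem phiT_meas (pt p1 : ℝ) : Measurable (phiT pt p1) := by
  unfold phiT
  exact (meas_ind_le pt).add (((meas_ind_le p1).sub (meas_ind_le pt)).const_mul _)

theorem integral_phiT {pt p1 : ℝ} (h0 : 0 ≤ pt) (h : pt ≤ p1) (h1 : p1 ≤ 1) :
    ∫ u, phiT pt p1 u ∂nu = pt + Real.exp 1 * (p1 - pt) := by
  have hi : ∀ p : ℝ, Integrable (fun u : ℝ => ind (u ≤ p)) nu := fun p =>
    Integrable.of_bound (meas_ind_le p).aestronglyMeasurable 1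
      (Filter.Eventually.of_forall (fun u => by
        rw [Real.norm_eq_abs, abs_of_nonneg (ind_nonneg _)]; exact ind_le_one _))
  have hj : Integrable (fun u : ℝ => Real.exp 1 * (ind (u ≤ p1) - ind (u ≤ pt))) nu :=
    ((hi p1).sub (hi pt)).const_mul _
  unfold phiT
  rw [integral_add (hi pt) hj, integral_const_mul,
    integral_sub (hi p1) (hi pt), integral_ind h0 (h.trans h1), integral_ind (h0.trans h) h1]

/-- the sum over the short paths -/
def TopF (pt p1 : ℝ) (M l0 : ℕ) (U : Ev n) : ℝ :=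
  Real.exp (-(M : ℝ)) * ∑ v : Fin n, ∑ l ∈ range l0, Wp (phiT pt p1) U l v (univ.erase v)

theorem TopF_nonneg {pt p1 : ℝ} (h : pt ≤ p1) (M l0 : ℕ) (U : Ev n) : 0 ≤ TopF pt p1 M l0 U :=
  mul_nonneg (Real.exp_pos _).le (Finset.sum_nonneg (fun v _ => Finset.sum_nonneg
    (fun l _ => Wp_nonneg (phiT_nonneg h) _ _ _ _)))

theorem BM_TopF {pt p1 : ℝ} (h : pt ≤ p1) (M l0 : ℕ) : BM (fun U : Ev n => TopF pt p1 M l0 U) :=
  (BM.const _).mul (BM.sum _ (fun v _ => BM.sum _ (fun l _ =>
    BM_Wp (phiT_meas _ _) (phiT_abs h) l v _)))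

theorem one_le_TopF {pt p1 : ℝ} (h : pt ≤ p1) {M l0 : ℕ} {U : Ev n} {l : ℕ} {p : ℕ → Fin n}
    (hinj : Set.InjOn p (Set.Iic l)) (hg : ∀ i < l, U s(p i, p (i + 1)) ≤ p1)
    (hM : M ≤ (open Classical in (range l).filter (fun i => pt < U s(p i, p (i + 1)))).card)
    (hl : l < l0) : 1 ≤ TopF pt p1 M l0 U := by
  classical
  have h1 := prod_le_Wp (phiT_nonneg h) U l p (univ.erase (p 0)) hinj (by
    intro i hi hi'
    rw [Finset.mem_erase]
    refine ⟨?_, Finset.mem_univ _⟩
    intro he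
    have := hinj (x₁ := i) (x₂ := 0) (by simp only [Set.mem_Iic]; omega)
      (by simp only [Set.mem_Iic]; omega) he
    omega)
  have h2 : Real.exp M ≤ ∏ i ∈ range l, phiT pt p1 (U s(p i, p (i + 1))) := by
    have e : ∏ i ∈ range l, phiT pt p1 (U s(p i, p (i + 1))) =
        ∏ i ∈ range l, if pt < U s(p i, p (i + 1)) then Real.exp 1 else 1 := by
      apply Finset.prod_congr rfl
      intro i hi
      rw [phiT_eq h]
      by_cases h3 : U s(p i, p (i + 1)) ≤ pt
      · rw [if_pos h3, if_neg (not_lt.2 h3)]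
      · rw [if_neg h3, if_pos (hg i (Finset.mem_range.1 hi)), if_pos (not_le.1 h3)]
    rw [e, Finset.prod_ite, Finset.prod_const, Finset.prod_const, one_pow, mul_one,
      ← Real.exp_nat_mul, mul_one]
    apply Real.exp_le_exp.2
    have := hM
    convert (Nat.cast_le (α := ℝ)).2 this
  have h3 : Wp (phiT pt p1) U l (p 0) (univ.erase (p 0)) ≤
      ∑ v : Fin n, ∑ l ∈ range l0, Wp (phiT pt p1) U l v (univ.erase v) := by
    calc Wp (phiT pt p1) U l (p 0) (univ.erase (p 0)) ≤
          ∑ l ∈ range l0, Wp (phiT pt p1) U l (p 0) (univ.erase (p 0)) :=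
          Finset.single_le_sum (f := fun l => Wp (phiT pt p1) U l (p 0) (univ.erase (p 0)))
            (fun l _ => Wp_nonneg (phiT_nonneg h) _ _ _ _) (Finset.mem_range.2 hl)
      _ ≤ _ :=
          Finset.single_le_sum (f := fun v => ∑ l ∈ range l0, Wp (phiT pt p1) U l v (univ.erase v))
            (fun v _ => Finset.sum_nonneg (fun l _ => Wp_nonneg (phiT_nonneg h) _ _ _ _))
            (Finset.mem_univ (p 0))
  unfold TopF
  calc (1:ℝ) = Real.exp (-(M : ℝ)) * Real.exp M := by rw [← Real.exp_add]; simp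
    _ ≤ _ := mul_le_mul_of_nonneg_left ((h2.trans h1).trans h3) (Real.exp_pos _).le

theorem Ex_TopF_le {pt p1 : ℝ} (h0 : 0 ≤ pt) (h : pt ≤ p1) (h1 : p1 ≤ 1) (M l0 : ℕ) {I : ℝ}
    (hI1 : 1 ≤ I) (hI : n * (pt + Real.exp 1 * (p1 - pt)) ≤ I) :
    Ex (fun U : Ev n => TopF pt p1 M l0 U) ≤ Real.exp (-(M : ℝ)) * (n * (l0 * I ^ l0)) := by
  have bW : ∀ (v : Fin n) (l : ℕ), BM (fun U : Ev n => Wp (phiT pt p1) U l v (univ.erase v)) :=
    fun v l => BM_Wp (phiT_meas _ _) (phiT_abs h) l v _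
  unfold TopF
  rw [Ex_const_mul]
  apply mul_le_mul_of_nonneg_left _ (Real.exp_pos _).le
  rw [Ex_sum _ (fun v _ => BM.sum _ (fun l _ => bW v l))]
  calc ∑ v : Fin n, Ex (fun U : Ev n => ∑ l ∈ range l0, Wp (phiT pt p1) U l v (univ.erase v)) ≤
        ∑ _v : Fin n, (l0 : ℝ) * I ^ l0 := by
        apply Finset.sum_le_sum
        intro v _
        rw [Ex_sum _ (fun l _ => bW v l)]
        calc ∑ l ∈ range l0, Ex (fun U : Ev n => Wp (phiT pt p1) U l v (univ.erase v)) ≤
              ∑ _l ∈ range l0, I ^ l0 := by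
              apply Finset.sum_le_sum
              intro l hl
              have h4 := Ex_Wp_le (n := n) (phiT_meas pt p1) (phiT_abs h) (phiT_nonneg h) (I := I)
                (by rw [integral_phiT h0 h h1]; exact hI) l v (univ.erase v)
                (Finset.notMem_erase _ _)
              refine h4.trans ?_
              apply pow_le_pow_right₀ hI1
              have := Finset.mem_range.1 hl
              omega
          _ = (l0 : ℝ) * I ^ l0 := by rw [Finset.sum_const, Finset.card_range, nsmul_eq_mul]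
    _ = _ := by
        rw [Finset.sum_const, Finset.card_univ, Fintype.card_fin, nsmul_eq_mul]

end

end Pool.Agent.TH972
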