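import Pool.Agent.TH972.Num2
import Pool.Agent.TH972.Tops
import Pool.Agent.TH972.GibbsK

/-!
# The lower bound: a fixed environment
-/

set_option autoImplicit false
set_option linter.unusedSectionVars false

namespace Pool.Agent.TH972

open Finset MeasureTheory Pool.Agent.W842.RST Filter Topology

noncomputable section

variable {n : ℕ}

/-- the weight function -/
def wexp (β u : ℝ) : ℝ := Real.exp (-(β * u))

theorem wexp_pos (β u : ℝ) : 0 < wexp β u := Real.exp_pos _

theorem wexp_meas (β : ℝ) : Measurable (wexp β) := by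
  unfold wexp
  fun_prop

/-- the conductances in the environment `U` -/
def kU (β : ℝ) (U : Ev n) (e : Sym2 (Fin n)) : ℝ := wexp β (U e)

theorem kU_pos (β : ℝ) (U : Ev n) (e : Sym2 (Fin n)) : 0 < kU β U e := wexp_pos _ _

theorem good_kU (β p1 : ℝ) (U : Ev n) :
    good (kU β U) (fun e => ¬ (U e ≤ p1)) = kap1 β p1 U := by
  funext e
  unfold good kap1 kU wexp
  by_cases h : U e ≤ p1
  · rw [if_pos h, if_neg (not_not.2 h)]
  · rw [if_neg h, if_pos h]

theorem cs_pos (hn : 2 ≤ n) {β : ℝ} (U : Ev n) (x : Fin n) : 0 < cs (kU β U) x := by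
  have hne : ∃ y : Fin n, x ≠ y := by
    have : Nontrivial (Fin n) := Fin.nontrivial_iff_two_le.2 hn
    obtain ⟨y, hy⟩ := exists_ne x
    exact ⟨y, hy.symm⟩
  obtain ⟨y, hy⟩ := hne
  unfold cs
  have h1 : 0 < Kc (kU β U) x y := by
    unfold Kc
    rw [if_neg hy]
    exact kU_pos _ _ _
  exact lt_of_lt_of_le h1 (Finset.single_le_sum (f := fun y => Kc (kU β U) x y)
    (fun y _ => Kc_nonneg (fun e => (kU_pos β U e).le) x y) (Finset.mem_univ y))

theorem sum_tr_one (hn : 2 ≤ n) {β : ℝ} (U : Ev n) (x : Fin n) : ∑ y, tr (kU β U) x y = 1 := by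
  unfold tr
  rw [← Finset.sum_div]
  exact div_self (cs_pos hn U x).ne'

theorem tr_lower (hn : 2 ≤ n) {β : ℝ} (hβ : 0 ≤ β) {U : Ev n} (hU : ∀ e, 0 ≤ U e ∧ U e ≤ 1)
    (x z : Fin n) (hxz : x ≠ z) : Real.exp (-β) / n ≤ tr (kU β U) x z := by
  unfold tr
  have hn0 : (0:ℝ) < n := by
    have : 0 < n := by omega
    exact_mod_cast this
  apply div_le_div₀ (Kc_nonneg (fun e => (kU_pos β U e).le) x z) _ (cs_pos hn U x) _
  · unfold Kc kU wexp
    rw [if_neg hxz]
    apply Real.exp_le_exp.2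
    have := (hU s(x, z)).2
    nlinarith
  · unfold cs
    calc ∑ y, Kc (kU β U) x y ≤ ∑ _y : Fin n, (1:ℝ) := by
          apply Finset.sum_le_sum
          intro y _
          unfold Kc kU wexp
          split_ifs
          · norm_num
          · rw [Real.exp_le_one_iff]
            have := mul_nonneg hβ (hU s(x, y)).1
            linarith
      _ = n := by simp

/-- the walk from `v` uses an edge above level `p1` before it visits `z` -/
theorem crs_num (hn : 2 ≤ n) {β p0 p1 : ℝ} (hβ : 0 ≤ β) (U : Ev n)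
    (v z : Fin n) (hvz : (GU U p0).Reachable v z) (m : ℕ) :
    crs (kU β U) (fun e => ¬ (U e ≤ p1)) z m v ≤ (n : ℝ) ^ 3 * Real.exp (-(β * (p1 - p0))) := by
  by_cases h : v = z
  · rw [h, crs_z]; positivity
  obtain ⟨q⟩ := hvz
  obtain ⟨l, x, _, hinj, hx0, hxl, hadj⟩ := walk_simple q
  have hκ : ∀ e, 0 ≤ kU β U e := fun e => (kU_pos β U e).le
  have h1 := crs_le hκ (fun e => ¬ (U e ≤ p1)) h l x hinj (fun i _ => kU_pos _ _ _) hx0 hxl
    (cs_pos hn U v) (B := Real.exp (-(β * p1))) (by
      intro e he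
      unfold kU wexp
      apply Real.exp_le_exp.2
      push Not at he
      nlinarith) (Real.exp_pos _).le m
  refine h1.trans ?_
  rw [Fintype.card_fin]
  have hln : (l : ℝ) ≤ n := by
    have h2 : (Finset.range (l + 1)).card ≤ (univ : Finset (Fin n)).card := by
      apply Finset.card_le_card_of_injOn x (fun i _ => Finset.mem_univ _)
      intro a ha b hb hab
      rw [Finset.mem_coe, Finset.mem_range] at ha hb
      exact hinj (by simp only [Set.mem_Iic]; omega) (by simp only [Set.mem_Iic]; omega) hab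
    rw [Finset.card_range, Finset.card_univ, Fintype.card_fin] at h2
    have : l ≤ n := by omega
    exact_mod_cast this
  have h2 : ∑ i ∈ range l, (kU β U s(x i, x (i + 1)))⁻¹ ≤ n * Real.exp (β * p0) := by
    calc ∑ i ∈ range l, (kU β U s(x i, x (i + 1)))⁻¹ ≤ ∑ _i ∈ range l, Real.exp (β * p0) := by
          apply Finset.sum_le_sum
          intro i hi
          have h3 := hadj i (Finset.mem_range.1 hi)
          rw [GU_adj] at h3
          unfold kU wexp
          rw [← Real.exp_neg, neg_neg]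
          apply Real.exp_le_exp.2
          exact mul_le_mul_of_nonneg_left h3.1 hβ
      _ = l * Real.exp (β * p0) := by rw [Finset.sum_const, Finset.card_range, nsmul_eq_mul]
      _ ≤ _ := mul_le_mul_of_nonneg_right hln (Real.exp_pos _).le
  calc (n : ℝ) ^ 2 * Real.exp (-(β * p1)) * ∑ i ∈ range l, (kU β U s(x i, x (i + 1)))⁻¹ ≤
        (n : ℝ) ^ 2 * Real.exp (-(β * p1)) * (n * Real.exp (β * p0)) :=
        mul_le_mul_of_nonneg_left h2 (by positivity)
    _ = (n : ℝ) ^ 3 * (Real.exp (-(β * p1)) * Real.exp (β * p0)) := by ring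
    _ = _ := by rw [← Real.exp_add]; ring_nf

/-- a tree which contains a long path has a large diameter -/
theorem diam_ge_of_path [Nonempty (Fin n)] (T : SimpleGraph (Fin n)) (hT : T.IsTree) {l : ℕ}
    {p : ℕ → Fin n} (hinj : Set.InjOn p (Set.Iic l))
    (hp : ∀ i < l, s(p i, p (i + 1)) ∈ T.edgeSet) : l ≤ T.diam := by
  have hwalk : ∀ k ≤ l, ∃ w : T.Walk (p 0) (p k), w.length = k ∧ w.IsPath ∧
      ∀ x ∈ w.support, ∃ i ≤ k, x = p i := by
    intro k
    induction k with
    | zero =>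
      intro _
      refine ⟨SimpleGraph.Walk.nil, rfl, SimpleGraph.Walk.IsPath.nil, ?_⟩
      intro x hx
      rw [SimpleGraph.Walk.mem_support_nil_iff] at hx
      exact ⟨0, le_rfl, hx⟩
    | succ k ih =>
      intro hk
      obtain ⟨w, hw1, hw2, hw3⟩ := ih (by omega)
      have hadj : T.Adj (p k) (p (k + 1)) := hp k (by omega)
      refine ⟨w.concat hadj, ?_, ?_, ?_⟩
      · rw [SimpleGraph.Walk.length_concat, hw1]
      · apply hw2.concat
        intro hmem
        obtain ⟨i, hi, hi'⟩ := hw3 _ hmem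
        have := hinj (x₁ := k + 1) (x₂ := i) (by simp only [Set.mem_Iic]; omega)
          (by simp only [Set.mem_Iic]; omega) hi'
        omega
      · intro x hx
        rw [SimpleGraph.Walk.support_concat, List.mem_append] at hx
        rcases hx with hx | hx
        · obtain ⟨i, hi, hi'⟩ := hw3 x hx
          exact ⟨i, by omega, hi'⟩
        · rw [List.mem_singleton] at hx
          exact ⟨k + 1, le_rfl, hx⟩
  obtain ⟨w, hw1, hw2, _⟩ := hwalk l le_rfl
  obtain ⟨q, hq⟩ := hT.connected.exists_walk_length_eq_dist (p 0) (p l)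
  have hqp : q.IsPath := q.isPath_of_length_eq_dist hq
  have huniq := (hT.existsUnique_path (p 0) (p l)).unique hw2 hqp
  have hne : T.ediam ≠ ⊤ := SimpleGraph.connected_iff_ediam_ne_top.1 hT.connected
  have h1 : T.dist (p 0) (p l) ≤ T.diam := SimpleGraph.dist_le_diam hne
  rw [huniq] at hw1
  omega

/-- the bound in a fixed environment, for one starting vertex -/
theorem point_bound (hn : 2 ≤ n) (P : Prm n) (hβ : 0 ≤ P.β) {p0 : ℝ} (hpt : P.pt ≤ P.p1)
    {U : Ev n}
    (hU : ∀ e, 0 ≤ U e ∧ U e ≤ 1) (M l0 s : ℕ) (hk0 : 0 < P.k0) (hkn : P.k0 ≤ n) (hks : P.k0 < s)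
    (v0 : Fin n) (hs : s ≤ (comp (GU U p0) v0).card) (m : ℕ) (v : Fin n)
    (hv : v ∈ comp (GU U p0) v0) (hvR : v ∉ P.R) :
    1 - GG (kU P.β U) (fun T => l0 ≤ T.diam) ≤
      (n : ℝ) * ((n : ℝ) ^ 3 * Real.exp (-(P.β * (P.p1 - p0)))) +
        n * (1 - Real.exp (-P.β) / n) ^ m + bnd P M m v U + TopF P.pt P.p1 M l0 U := by
  classical
  have : Nonempty (Fin n) := ⟨v⟩
  have hκ : ∀ e, 0 ≤ kU P.β U e := fun e => (kU_pos P.β U e).le
  have hκ' : ∀ e, 0 < kU P.β U e := fun e => kU_pos P.β U e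
  set B : ℝ := (n : ℝ) ^ 3 * Real.exp (-(P.β * (P.p1 - p0))) with hB
  have hB0 : 0 ≤ B := by positivity
  have hn0 : (0:ℝ) < n := by
    have : 0 < n := by omega
    exact_mod_cast this
  set d : ℝ := Real.exp (-P.β) / n with hd
  have hd1 : d ≤ 1 := by
    rw [hd, div_le_one hn0]
    have h1 : Real.exp (-P.β) ≤ 1 := by rw [Real.exp_le_one_iff]; linarith
    have h2 : (1:ℝ) ≤ n := by
      have : 1 ≤ n := by omega
      exact_mod_cast this
    linarith
  have hfb := fail_bound hκ (sum_tr_one hn U) (fun e => ¬ (U e ≤ P.p1)) P.k0 s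
    (by rw [Fintype.card_fin]; exact hkn) hks (LTP (Dt P U) M)
    (fun S S' h => LTP_mono (Dt P U) M S S' h) (comp (GU U p0) v0) hs hd1
    (fun x z hxz => tr_lower hn hβ hU x z hxz) m v (B := B) (by
      intro z hz
      apply crs_num hn hβ U v z
      rw [mem_comp] at hv hz
      exact hv.symm.trans hz) hB0
  rw [Fintype.card_fin, good_kU] at hfb
  have hfg := failG_le_bnd P hk0 M m v hvR U
  have hZ : 0 < sumT (kU P.β U) (fun _ => True) := sumT_pos hκ'
  have h1 : 1 - ((comp (GU U p0) v0).card / ((s : ℝ) - P.k0) * B + n * (1 - d) ^ m +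
      bnd P M m v U) ≤ GG (kU P.β U) (fun T => LTP (Dt P U) M T.edgeSet) := by
    unfold GG
    rw [le_div_iff₀ hZ, mul_comm]
    refine le_trans (mul_le_mul_of_nonneg_left ?_ hZ.le) hfb
    linarith
  have h2 : (comp (GU U p0) v0).card / ((s : ℝ) - P.k0) * B ≤ n * B := by
    apply mul_le_mul_of_nonneg_right _ hB0
    have h3 : (1:ℝ) ≤ (s : ℝ) - P.k0 := by
      have : (P.k0 : ℝ) + 1 ≤ s := by exact_mod_cast hks
      linarith
    have h4 : ((comp (GU U p0) v0).card : ℝ) ≤ n := by
      have := Finset.card_le_univ (comp (GU U p0) v0)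
      rw [Fintype.card_fin] at this
      exact_mod_cast this
    calc ((comp (GU U p0) v0).card : ℝ) / ((s : ℝ) - P.k0) ≤ (comp (GU U p0) v0).card / 1 :=
          div_le_div_of_nonneg_left (Nat.cast_nonneg _) (by norm_num) h3
      _ ≤ n := by rw [div_one]; exact h4
  have h3 : GG (kU P.β U) (fun T => LTP (Dt P U) M T.edgeSet) ≤
      GG (kU P.β U) (fun T => l0 ≤ T.diam) + TopF P.pt P.p1 M l0 U := by
    by_cases hex : ∃ (l : ℕ) (p : ℕ → Fin n), Set.InjOn p (Set.Iic l) ∧
        (∀ i < l, U s(p i, p (i + 1)) ≤ P.p1) ∧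
        M ≤ ((range l).filter (fun i => P.pt < U s(p i, p (i + 1)))).card ∧ l < l0
    · obtain ⟨l, p, a1, a2, a3, a4⟩ := hex
      have h5 := one_le_TopF hpt a1 a2 (M := M) (by convert a3) a4
      have h6 := GG_le_one hκ' (fun T => LTP (Dt P U) M T.edgeSet)
      have h7 := GG_nonneg hκ' (fun T => l0 ≤ T.diam)
      linarith
    · have h5 : GG (kU P.β U) (fun T => LTP (Dt P U) M T.edgeSet) ≤
          GG (kU P.β U) (fun T => l0 ≤ T.diam) := by
        apply GG_mono hκ'
        rintro T hT ⟨l, p, a1, a2, a3, a4⟩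
        by_contra hcon
        push Not at hcon
        apply hex
        refine ⟨l, p, a1, a3, by convert a4; exact Iff.rfl, ?_⟩
        have := diam_ge_of_path T hT a1 a2
        omega
      have h6 := TopF_nonneg hpt M l0 U
      linarith
  linarith

end

end Pool.Agent.TH972
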