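import Pool.Agent.TH972.Lower

/-!
# The lower bound: the average
-/

set_option autoImplicit false
set_option linter.unusedSectionVars false

namespace Pool.Agent.TH972

open Finset MeasureTheory Pool.Agent.W842.RST Filter Topology

noncomputable section

variable {n : ℕ}

theorem env_ae (n : ℕ) : ∀ᵐ U ∂(env n), ∀ e, 0 ≤ U e ∧ U e ≤ 1 := by
  rw [ae_all_iff]
  intro e
  have h : (env n) (Function.eval e ⁻¹' (Set.Icc (0:ℝ) 1)ᶜ) = 0 := by
    apply Measure.pi_eval_preimage_null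
    rw [Measure.restrict_apply measurableSet_Icc.compl]
    simp
  rw [ae_iff]
  convert h using 2
  ext U
  simp only [Set.mem_ofPred_eq, Set.mem_preimage, Set.mem_compl_iff, Set.mem_Icc, Function.eval]

theorem Ex_mono_ae {F G : Ev n → ℝ} (hF : BM F) (hG : BM G)
    (h : ∀ U : Ev n, (∀ e, 0 ≤ U e ∧ U e ≤ 1) → F U ≤ G U) : Ex F ≤ Ex G :=
  integral_mono_ae hF.integrable hG.integrable (by
    filter_upwards [env_ae n] with U hU
    exact h U hU)

theorem bnd_nonneg {P : Prm n} (hk0 : 0 < P.k0) (M m : ℕ) (v : Fin n) (hv : v ∉ P.R)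
    (U : Ev n) : 0 ≤ bnd P M m v U :=
  (failG_nonneg (kap1_nonneg _ _ _) _ _ _ _ _).trans (failG_le_bnd P hk0 M m v hv U)

theorem BM_GG {w : ℝ → ℝ} (hw : ∀ u, 0 < w u) (hm : Measurable w)
    (A : SimpleGraph (Fin n) → Prop) : BM (fun U : Ev n => GG (fun e => w (U e)) A) := by
  refine ⟨measurable_GG hm A, 1, fun U => ?_⟩
  rw [abs_of_nonneg (GG_nonneg (fun e => hw _) A)]
  exact GG_le_one (fun e => hw _) A

theorem mset_giant (s : ℕ) (p : ℝ) :
    MeasurableSet {U : Ev n | ¬ ∃ v, s ≤ (comp (GU U p) v).card} := by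
  have : {U : Ev n | ¬ ∃ v, s ≤ (comp (GU U p) v).card} =
      ⋂ v : Fin n, {U : Ev n | ¬ (s ≤ (comp (GU U p) v).card)} := by
    ext U
    simp
  rw [this]
  exact MeasurableSet.iInter (fun v => mset_comp (fun k => ¬ (s ≤ k)) p v)

/-- average over the starting vertices -/
theorem point_avg (hn : 2 ≤ n) (P : Prm n) (hβ : 0 ≤ P.β) {p0 : ℝ} (hpt : P.pt ≤ P.p1)
    (M l0 s : ℕ) (hk0 : 0 < P.k0) (hkn : P.k0 ≤ n) (hks : P.k0 < s) (m : ℕ)
    {U : Ev n} (hU : ∀ e, 0 ≤ U e ∧ U e ≤ 1) :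
    1 - GG (fun e => wexp P.β (U e)) (fun T => l0 ≤ T.diam) ≤
      ind (¬ ∃ v, s ≤ (comp (GU U p0) v).card) +
      (((n : ℝ) * ((n : ℝ) ^ 3 * Real.exp (-(P.β * (P.p1 - p0)))) +
        n * (1 - Real.exp (-P.β) / n) ^ m) + TopF P.pt P.p1 M l0 U +
      (s : ℝ)⁻¹ * (P.R.card + ∑ v ∈ P.Rᶜ, bnd P M m v U)) := by
  classical
  have hn0 : (0:ℝ) < n := by
    have : 0 < n := by omega
    exact_mod_cast this
  have hs0 : (0:ℝ) < s := by
    have : 0 < s := by omega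
    exact_mod_cast this
  set g := 1 - GG (kU P.β U) (fun T => l0 ≤ T.diam) with hg
  have hg' : 1 - GG (fun e => wexp P.β (U e)) (fun T => l0 ≤ T.diam) = g := rfl
  rw [hg']
  have hg1 : g ≤ 1 := by
    have := GG_nonneg (fun e => kU_pos P.β U e) (fun T => l0 ≤ T.diam)
    linarith
  have hg0 : 0 ≤ g := by
    have := GG_le_one (fun e => kU_pos P.β U e) (fun T => l0 ≤ T.diam)
    linarith
  set E := (n : ℝ) * ((n : ℝ) ^ 3 * Real.exp (-(P.β * (P.p1 - p0)))) +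
        n * (1 - Real.exp (-P.β) / n) ^ m with hE
  have hE0 : 0 ≤ E := by
    have h1 : Real.exp (-P.β) / n ≤ 1 := by
      rw [div_le_one hn0]
      have h1 : Real.exp (-P.β) ≤ 1 := by rw [Real.exp_le_one_iff]; linarith
      have h2 : (1:ℝ) ≤ n := by
        have : 1 ≤ n := by omega
        exact_mod_cast this
      linarith
    have h2 : 0 ≤ (1 - Real.exp (-P.β) / n) ^ m := pow_nonneg (by linarith) m
    positivity
  set F := TopF P.pt P.p1 M l0 U with hF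
  have hF0 : 0 ≤ F := TopF_nonneg hpt M l0 U
  set S := ∑ v ∈ P.Rᶜ, bnd P M m v U with hS
  have hS0 : 0 ≤ S := Finset.sum_nonneg (fun v hv =>
    bnd_nonneg hk0 M m v (Finset.mem_compl.1 hv) U)
  by_cases hex : ∃ v, s ≤ (comp (GU U p0) v).card
  · rw [ind_false (not_not.2 hex), zero_add]
    obtain ⟨v0, hv0⟩ := hex
    set C := comp (GU U p0) v0 with hC
    have h1 : ∑ _v ∈ C \ P.R, g ≤ ∑ v ∈ C \ P.R, ((E + F) + bnd P M m v U) := by
      apply Finset.sum_le_sum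
      intro v hv
      rw [Finset.mem_sdiff] at hv
      have := point_bound hn P hβ (p0 := p0) hpt hU M l0 s hk0 hkn hks v0 hv0 m v hv.1 hv.2
      linarith
    rw [Finset.sum_add_distrib, Finset.sum_const, Finset.sum_const, nsmul_eq_mul,
      nsmul_eq_mul] at h1
    have h2 : ∑ v ∈ C \ P.R, bnd P M m v U ≤ S := by
      apply Finset.sum_le_sum_of_subset_of_nonneg
      · intro v hv
        rw [Finset.mem_sdiff] at hv
        exact Finset.mem_compl.2 hv.2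
      · intro v hv _
        exact bnd_nonneg hk0 M m v (Finset.mem_compl.1 hv) U
    have h3 : ((C \ P.R).card : ℝ) ≤ C.card := by
      exact_mod_cast Finset.card_le_card Finset.sdiff_subset
    have h4 : (C.card : ℝ) ≤ (C \ P.R).card + P.R.card := by
      have := Finset.card_le_card_sdiff_add_card (s := C) (t := P.R)
      exact_mod_cast this
    have h5 : (s : ℝ) ≤ C.card := by exact_mod_cast hv0
    have hc0 : (0:ℝ) < C.card := lt_of_lt_of_le hs0 h5
    have hr0 : (0:ℝ) ≤ P.R.card := Nat.cast_nonneg _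
    have h6 : (C.card : ℝ) * g ≤ P.R.card + (C.card * (E + F) + S) := by
      have h7 : (C.card : ℝ) * g ≤ ((C \ P.R).card + P.R.card) * g :=
        mul_le_mul_of_nonneg_right h4 hg0
      have h8 : ((C \ P.R).card : ℝ) * (E + F) ≤ C.card * (E + F) :=
        mul_le_mul_of_nonneg_right h3 (by linarith)
      have h9 : (P.R.card : ℝ) * g ≤ P.R.card := by nlinarith
      linarith
    have h7 : g ≤ (E + F) + (C.card : ℝ)⁻¹ * (P.R.card + S) := by
      have h8 : (C.card : ℝ)⁻¹ * (C.card * g) ≤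
          (C.card : ℝ)⁻¹ * (P.R.card + (C.card * (E + F) + S)) :=
        mul_le_mul_of_nonneg_left h6 (by positivity)
      have e1 : (C.card : ℝ)⁻¹ * (C.card * g) = g := by field_simp
      have e2 : (C.card : ℝ)⁻¹ * (P.R.card + (C.card * (E + F) + S)) =
          (E + F) + (C.card : ℝ)⁻¹ * (P.R.card + S) := by field_simp; ring
      rw [e1, e2] at h8
      exact h8
    have h8 : (C.card : ℝ)⁻¹ * (P.R.card + S) ≤ (s : ℝ)⁻¹ * (P.R.card + S) :=
      mul_le_mul_of_nonneg_right (inv_anti₀ hs0 h5) (by linarith)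
    linarith
  · rw [ind_true hex]
    have : 0 ≤ (s : ℝ)⁻¹ * (P.R.card + S) := by positivity
    linarith

/-- the averaged bound -/
theorem avg_bound (hn : 2 ≤ n) (P : Prm n) (hβ : 0 ≤ P.β) {p0 : ℝ} (hpt0 : 0 ≤ P.pt)
    (hpt : P.pt ≤ P.p1) (hp1 : P.p1 ≤ 1)
    (M l0 s : ℕ) (hk0 : 0 < P.k0) (hkn : P.k0 ≤ n) (hks : P.k0 < s) (m : ℕ)
    {g b : ℝ} (hg0 : 0 ≤ g)
    (hg : env n {U | ¬ ∃ v, s ≤ (comp (GU U p0) v).card} ≤ ENNReal.ofReal g)
    (hb0 : 0 ≤ b) (hb : ∀ v, v ∉ P.R → Ex (fun U => bnd P M m v U) ≤ b) {I : ℝ} (hI1 : 1 ≤ I)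
    (hI : n * (P.pt + Real.exp 1 * (P.p1 - P.pt)) ≤ I) :
    1 - avgw (wexp P.β) n (fun T => l0 ≤ T.diam) ≤ g +
      (((n : ℝ) * ((n : ℝ) ^ 3 * Real.exp (-(P.β * (P.p1 - p0)))) +
        n * (1 - Real.exp (-P.β) / n) ^ m) + Real.exp (-(M : ℝ)) * (n * (l0 * I ^ l0)) +
      (s : ℝ)⁻¹ * (P.R.card + n * b)) := by
  classical
  have bG : BM (fun U : Ev n => GG (fun e => wexp P.β (U e)) (fun T => l0 ≤ T.diam)) :=
    BM_GG (wexp_pos _) (wexp_meas _) _
  have bI : BM (fun U : Ev n => ind (¬ ∃ v, s ≤ (comp (GU U p0) v).card)) :=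
    BM.ind (mset_giant s p0)
  have bT : BM (fun U : Ev n => TopF P.pt P.p1 M l0 U) := BM_TopF hpt M l0
  have bS : BM (fun U : Ev n => ∑ v ∈ P.Rᶜ, bnd P M m v U) :=
    BM.sum _ (fun v _ => BM_bnd P M m v)
  have bS2 : BM (fun U : Ev n => (s : ℝ)⁻¹ * (P.R.card + ∑ v ∈ P.Rᶜ, bnd P M m v U)) :=
    (BM.const _).mul ((BM.const _).add bS)
  have h1 := Ex_mono_ae ((BM.const 1).sub bG)
    (bI.add (((BM.const ((n : ℝ) * ((n : ℝ) ^ 3 * Real.exp (-(P.β * (P.p1 - p0)))) +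
        n * (1 - Real.exp (-P.β) / n) ^ m)).add bT).add bS2))
    (fun U hU => point_avg hn P hβ (p0 := p0) hpt M l0 s hk0 hkn hks m hU)
  rw [Ex_sub (BM.const 1) bG, Ex_const, Ex_add bI (((BM.const _).add bT).add bS2),
    Ex_add ((BM.const _).add bT) bS2, Ex_add (BM.const _) bT, Ex_const, Ex_const_mul,
    Ex_add (BM.const _) bS, Ex_const, Ex_sum _ (fun v _ => BM_bnd P M m v)] at h1
  have h2 : Ex (fun U : Ev n => ind (¬ ∃ v, s ≤ (comp (GU U p0) v).card)) ≤ g :=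
    Ex_ind_le (mset_giant s p0) hg0 hg
  have h3 := Ex_TopF_le (n := n) hpt0 hpt hp1 M l0 hI1 hI
  have h4 : ∑ v ∈ P.Rᶜ, Ex (fun U => bnd P M m v U) ≤ n * b := by
    calc ∑ v ∈ P.Rᶜ, Ex (fun U => bnd P M m v U) ≤ ∑ _v ∈ P.Rᶜ, b :=
          Finset.sum_le_sum (fun v hv => hb v (Finset.mem_compl.1 hv))
      _ = (P.Rᶜ.card : ℝ) * b := by rw [Finset.sum_const, nsmul_eq_mul]
      _ ≤ n * b := by
          apply mul_le_mul_of_nonneg_right _ hb0
          have := Finset.card_le_univ P.Rᶜ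
          rw [Fintype.card_fin] at this
          exact_mod_cast this
  have h5 : (s : ℝ)⁻¹ * (P.R.card + ∑ v ∈ P.Rᶜ, Ex (fun U => bnd P M m v U)) ≤
      (s : ℝ)⁻¹ * (P.R.card + n * b) := by
    apply mul_le_mul_of_nonneg_left _ (inv_nonneg.2 (Nat.cast_nonneg s))
    linarith
  have h6 : avgw (wexp P.β) n (fun T => l0 ≤ T.diam) =
      Ex (fun U : Ev n => GG (fun e => wexp P.β (U e)) (fun T => l0 ≤ T.diam)) := rfl
  rw [h6]
  linarith

end

end Pool.Agent.TH972
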