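import Pool.Agent.TH972.Escape

/-!
# Parameters, and the escape probability with explicit parameters
-/

set_option autoImplicit false
set_option linter.unusedSectionVars false

namespace Pool.Agent.TH972

open Finset MeasureTheory Pool.Agent.W842.RST Filter Topology

noncomputable section

/-- standing assumptions for the lower bound -/
structure LB (n : ℕ) (x y : ℝ) : Prop where
  hL : 1 ≤ Real.log n
  hx : 1000000000000 * (1 + 8 * Real.log n) ^ 6 ≤ x
  hxy : x ≤ y
  hn : y ^ 3 * x ^ 8 ≤ n

namespace LB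

variable {n : ℕ} {x y : ℝ} (H : LB n x y)

include H

theorem x_big : 1000000000000 ≤ x := by
  have h := H.hx
  have hA : 1 ≤ 1 + 8 * Real.log n := by have := H.hL; linarith
  have := one_le_pow₀ (n := 6) hA
  linarith

theorem x_pos : 0 < x := by have := H.x_big; linarith

theorem x_log (k : ℕ) (hk : k ≤ 6) :
    1000000000000 * Real.log n ^ k ≤ x := by
  have h := H.hx
  have hL := H.hL
  have hA : 1 ≤ 1 + 8 * Real.log n := by linarith
  have h1 : (1 + 8 * Real.log n) ^ k ≤ (1 + 8 * Real.log n) ^ 6 := pow_le_pow_right₀ hA hk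
  have h2 : Real.log n ^ k ≤ (1 + 8 * Real.log n) ^ k :=
    pow_le_pow_left₀ (by linarith) (by linarith) k
  linarith

theorem x_L : 1000000000000 * Real.log n ≤ x := by
  have := H.x_log 1 (by norm_num)
  simpa using this

theorem y_pos : 0 < y := by have := H.x_pos; have := H.hxy; linarith

theorem y_big : 1000000000000 ≤ y := H.x_big.trans H.hxy

theorem n_ge : y ^ 3 ≤ n := by
  refine le_trans ?_ H.hn
  have h1 : (1:ℝ) ≤ x ^ 8 := one_le_pow₀ (by have := H.x_big; linarith)
  have h2 : 0 < y ^ 3 := by have := H.y_pos; positivity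
  nlinarith

theorem y_le : y * 1000000 ≤ n := by
  have h := H.n_ge
  have h1 := H.y_big
  have : y * 1000000 ≤ y * y ^ 2 := by
    apply mul_le_mul_of_nonneg_left _ (by linarith)
    nlinarith
  nlinarith

theorem y_le' : y ≤ n := by have := H.y_le; have := H.y_pos; linarith

theorem n_pos : (0 : ℝ) < n := by have := H.y_big; have := H.y_le; linarith

theorem n_big : 1000000000000 ≤ (n : ℝ) := by have := H.y_big; have := H.y_le'; linarith

theorem exp_L : Real.exp (Real.log n) = n := Real.exp_log H.n_pos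

theorem log_y_le : Real.log y ≤ Real.log n := Real.log_le_log H.y_pos H.y_le'

theorem L_le_n : Real.log n ≤ n := by
  have h1 := H.x_L
  have h2 := H.hxy
  have h3 := H.y_le'
  have h4 := H.hL
  linarith

end LB

/-- number of generations of the exploration -/
def hh (n : ℕ) (y : ℝ) : ℕ := ⌈16 * y * Real.log n⌉₊ + 1

section

variable {n : ℕ} {x y : ℝ} (H : LB n x y)

include H

theorem hh_ge : 16 * y * Real.log n ≤ ((hh n y - 1 : ℕ) : ℝ) := by
  unfold hh
  rw [Nat.add_sub_cancel]
  exact Nat.le_ceil _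

theorem hh_le : (hh n y : ℝ) ≤ 16 * y * Real.log n + 2 := by
  unfold hh
  have h0 : 0 ≤ 16 * y * Real.log n := by
    have := H.y_pos
    have := H.hL
    positivity
  have := (Nat.ceil_lt_add_one h0).le
  push_cast
  linarith

theorem pow_ge_n : (n : ℝ) ≤ (1 + 1 / y / 8) ^ (hh n y - 1) := by
  have hy := H.y_pos
  have hyb := H.y_big
  set t : ℝ := 1 / y / 8 with ht
  have ht0 : 0 < t := by positivity
  have ht1 : t ≤ 1 := by
    rw [ht, div_div, div_le_one (by positivity)]
    linarith
  have h1 : Real.exp (t / 2) ≤ 1 + t := by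
    have := exp_le_two (x := t / 2) (by linarith) (by linarith)
    linarith
  have h2 := hh_ge H
  calc (n : ℝ) = Real.exp (Real.log n) := H.exp_L.symm
    _ ≤ Real.exp (((hh n y - 1 : ℕ) : ℝ) * (t / 2)) := by
        apply Real.exp_le_exp.2
        have h3 : 16 * y * Real.log n * (t / 2) ≤ ((hh n y - 1 : ℕ) : ℝ) * (t / 2) :=
          mul_le_mul_of_nonneg_right h2 (by linarith)
        have h4 : 16 * y * Real.log n * (t / 2) = Real.log n := by
          rw [ht]; field_simp; ring
        linarith
    _ = Real.exp (t / 2) ^ (hh n y - 1) := by rw [← Real.exp_nat_mul]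
    _ ≤ _ := pow_le_pow_left₀ (Real.exp_pos _).le h1 _

/-- the exploration with explicit parameters -/
theorem explore_num (R B : Finset (Fin n)) (v : Fin n) (hvB : v ∉ B) (hvR : v ∉ R)
    (hRB : ∀ w ∈ B, w ∉ R) (hr1 : y * x ≤ R.card) (hr2 : (R.card : ℝ) ≤ n / (32 * y))
    (hB : (B.card : ℝ) ≤ n / (32 * y)) :
    pr ((1 + 1 / y) / n) (edg Bᶜ) (Gx R (hh n y) (Bᶜ).card Bᶜ {v} (fun _ => 0)) ≤
      1 - 1 / y / 4 := by
  have hy := H.y_pos
  have hyb := H.y_big
  have hn := H.n_pos
  have hnb := H.n_big
  have hxb := H.x_big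
  have hL := H.hL
  have hxL := H.x_L
  have hyn := H.y_le
  set a : ℝ := 1 / y with ha
  have ha0 : 0 < a := by positivity
  have hay : a * y = 1 := by rw [ha]; field_simp
  have ha1 : a ≤ 1 / 2 := by
    rw [ha, div_le_div_iff₀ hy (by norm_num)]; linarith
  have hnp : (n : ℝ) * ((1 + a) / n) = 1 + a := by field_simp
  have hr0 : (0:ℝ) < R.card := lt_of_lt_of_le (mul_pos hy H.x_pos) hr1
  have hr3 : (R.card : ℝ) ≤ n := by
    refine hr2.trans ?_
    apply div_le_self hn.le
    linarith
  set ρ : ℝ := R.card / (2 * n) with hρ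
  have hρ0 : 0 ≤ ρ := by positivity
  have hρ1 : ρ ≤ 1 := by
    rw [hρ, div_le_one (by positivity)]; linarith
  have hW : ((Bᶜ).card : ℝ) = n - B.card := by
    rw [Finset.card_compl, Fintype.card_fin, Nat.cast_sub]
    have := Finset.card_le_univ B
    rwa [Fintype.card_fin] at this
  have hny : (n : ℝ) / (32 * y) = n * a / 32 := by rw [ha]; field_simp
  rw [hny] at hr2 hB
  have hna : 1000000 ≤ n * a := by
    have : n * a = n / y := by rw [ha]; ring
    rw [this, le_div_iff₀ hy]; linarith
  apply explore_fail (ρ := ρ) (by positivity) _ ha0 ha1 (le_of_eq hnp.symm) R Bᶜ v (by simpa using hvB)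
    hvR
  · intro u hu
    rw [Finset.mem_compl]
    exact fun h => hRB u h hu
  · have h1 := pow_ge_n H
    rw [← ha] at h1
    have h2 : (1:ℝ) ≤ R.card := by
      refine le_trans ?_ hr1
      nlinarith
    have h3 : 1 / (n : ℝ) ≤ (1 + a) / n * R.card := by
      rw [div_mul_eq_mul_div]
      apply div_le_div_of_nonneg_right _ hn.le
      nlinarith
    calc a / 2 ≤ 1 / (n : ℝ) * n := by rw [one_div_mul_cancel hn.ne']; linarith
      _ ≤ (1 + a) / n * R.card * (1 + a / 8) ^ (hh n y - 1) := by
          apply mul_le_mul h3 h1 hn.le (by positivity)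
  · unfold hh; omega
  · exact hρ0
  · have h1 := exp_le_two hρ0 hρ1
    have h2 : (Real.exp ρ - 1) * n ≤ 2 * ρ * n := mul_le_mul_of_nonneg_right (by linarith) hn.le
    have h3 : 2 * ρ * n = R.card := by rw [hρ]; field_simp
    linarith
  · rw [hW]
    have h1 : x / 16 ≤ ρ * (((n : ℝ) - B.card) - 1 - (n * (1 - a / 4) + R.card)) := by
      have h2 : n * a / 8 ≤ ((n : ℝ) - B.card) - 1 - (n * (1 - a / 4) + R.card) := by
        nlinarith
      have h3 : ρ * (n * a / 8) ≤ ρ * (((n : ℝ) - B.card) - 1 - (n * (1 - a / 4) + R.card)) :=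
        mul_le_mul_of_nonneg_left h2 hρ0
      refine le_trans ?_ h3
      have h4 : ρ * (n * a / 8) = R.card * a / 16 := by rw [hρ]; field_simp; ring
      rw [h4]
      have h5 : y * x * a ≤ R.card * a := mul_le_mul_of_nonneg_right hr1 ha0.le
      have h6 : y * x * a = x := by
        calc y * x * a = (a * y) * x := by ring
          _ = x := by rw [hay, one_mul]
      linarith
    have h2 : Real.log (8 * y) ≤ x / 16 := by
      rw [Real.log_mul (by norm_num) hy.ne']
      have h3 := H.log_y_le
      have h4 : Real.log 8 ≤ 7 := by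
        have := Real.log_le_sub_one_of_pos (show (0:ℝ) < 8 by norm_num)
        linarith
      linarith
    calc Real.exp (-(ρ * (((n : ℝ) - B.card) - 1 - (n * (1 - a / 4) + R.card)))) ≤
          Real.exp (-Real.log (8 * y)) := Real.exp_le_exp.2 (by linarith)
      _ = a / 8 := by
          rw [Real.exp_neg, Real.exp_log (by positivity), ha]
          field_simp
  · rw [div_le_one hn]
    linarith

/-- the walk parameters -/
def PP (n : ℕ) (y : ℝ) (R : Finset (Fin n)) (k0 : ℕ) : Prm n where
  β := n * y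
  p1 := (1 + 1 / y * (1 + 6 * Real.log n)) / n
  pt := (1 - 1 / y) / n
  R := R
  k0 := k0

omit H in
theorem PP_β (R : Finset (Fin n)) (k0 : ℕ) : (PP n y R k0).β = n * y := rfl

omit H in
theorem PP_p1 (R : Finset (Fin n)) (k0 : ℕ) :
    (PP n y R k0).p1 = (1 + 1 / y * (1 + 6 * Real.log n)) / n := rfl

omit H in
theorem PP_pt (R : Finset (Fin n)) (k0 : ℕ) : (PP n y R k0).pt = (1 - 1 / y) / n := rfl

omit H in
theorem PP_R (R : Finset (Fin n)) (k0 : ℕ) : (PP n y R k0).R = R := rfl

omit H in
theorem PP_k0 (R : Finset (Fin n)) (k0 : ℕ) : (PP n y R k0).k0 = k0 := rfl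

/-- the escape probability -/
def qq (n : ℕ) (y : ℝ) : ℝ := 1 / y / (16 * (1 + 500 * Real.log n))

theorem qq_pos : 0 < qq n y := by
  have := H.y_pos
  have := H.hL
  unfold qq
  positivity

theorem exp_two_le : Real.exp 2 ≤ 15 / 2 := by
  have h4 := Real.exp_one_lt_d9
  have h5 : Real.exp 2 = Real.exp 1 * Real.exp 1 := by rw [← Real.exp_add]; norm_num
  have h6 := Real.exp_pos 1
  rw [h5]
  nlinarith

theorem Hl_num (R B : Finset (Fin n)) (k0 : ℕ) (v : Fin n) (hvB : v ∉ B) (hvR : v ∉ R)
    (hRB : ∀ w ∈ B, w ∉ R) (hr1 : y * x ≤ R.card) (hr2 : (R.card : ℝ) ≤ n / (32 * y))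
    (hB : (B.card : ℝ) ≤ n / (32 * y)) :
    2 * qq n y ≤ Ex (fun U => Hl (PP n y R k0)
      (Real.exp (-((PP n y R k0).β * (PP n y R k0).pt))) B v U) := by
  have hy := H.y_pos
  have hyb := H.y_big
  have hn := H.n_pos
  have hnb := H.n_big
  have hL := H.hL
  have hyn := H.y_le
  have hLn := H.L_le_n
  set a : ℝ := 1 / y with ha
  have ha0 : 0 < a := by positivity
  have hay : a * y = 1 := by rw [ha]; field_simp
  have ha1 : a ≤ 1 / 2 := by
    rw [ha, div_le_div_iff₀ hy (by norm_num)]; linarith
  have hex := explore_num H R B v hvB hvR hRB hr1 hr2 hB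
  rw [← ha] at hex
  have key := Ex_Hl_ge (PP n y R k0) (p0 := (1 + a) / n) (lam := Real.exp (-2))
    (Rs := 500 * Real.log n) (I := 1 + 3 * a) (b := a / 4) (d := a / 8)
    (by rw [PP_β]; positivity)
    (by
      rw [PP_p1, ← ha]
      apply div_le_div_of_nonneg_right _ hn.le
      nlinarith)
    (by positivity) (by rw [div_le_one hn]; linarith) (Real.exp_pos _) (by positivity)
    (by
      rw [PP_β, PP_pt, ← ha, ← Real.exp_add]
      rw [Real.exp_le_one_iff]
      have : (n : ℝ) * y * ((1 + a) / n - (1 - a) / n) = 2 * (a * y) := by field_simp; ring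
      rw [this, hay]; norm_num)
    (by
      rw [PP_β]
      apply le_of_eq
      have : (n : ℝ) * ((1 + a) / n + 2 / (n * y)) = 1 + a + 2 * (1 / y) := by field_simp
      rw [this, ← ha]; ring)
    (by linarith) B v hvB (hh n y) (by rw [PP_R]; linarith) ?_
  · refine le_trans (le_of_eq ?_) key
    unfold qq
    rw [← ha]
    field_simp
    ring
  · -- the numerical inequality
    have h1 := hh_le H
    have hyL : 1 ≤ y * Real.log n := by nlinarith
    have h2 : ((hh n y : ℝ) + 1) ≤ 19 * (n * n) := by
      have h3 : y * Real.log n ≤ n * n := mul_le_mul H.y_le' hLn (by linarith) hn.le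
      nlinarith
    have hI : (1 + 3 * a) ^ (hh n y) ≤ Real.exp (54 * Real.log n) := by
      have h3 : 1 + 3 * a ≤ Real.exp (3 * a) := by
        have := Real.add_one_le_exp (3 * a); linarith
      calc (1 + 3 * a) ^ (hh n y) ≤ Real.exp (3 * a) ^ (hh n y) :=
            pow_le_pow_left₀ (by positivity) h3 _
        _ = Real.exp (hh n y * (3 * a)) := by rw [← Real.exp_nat_mul]
        _ ≤ Real.exp (54 * Real.log n) := by
            apply Real.exp_le_exp.2
            calc (hh n y : ℝ) * (3 * a) ≤ (16 * y * Real.log n + 2) * (3 * a) :=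
                  mul_le_mul_of_nonneg_right h1 (by positivity)
              _ = 48 * Real.log n * (a * y) + 6 * a := by ring
              _ ≤ 54 * Real.log n := by rw [hay]; linarith
    have hR : Real.exp (-(Real.exp (-2) * (500 * Real.log n))) ≤ Real.exp (-(66 * Real.log n)) := by
      apply Real.exp_le_exp.2
      have h3 : (66:ℝ) / 500 ≤ Real.exp (-2) := by
        rw [Real.exp_neg]
        have := exp_two_le (n := n) H
        rw [le_inv_comm₀ (by norm_num) (Real.exp_pos _)]
        refine this.trans ?_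
        norm_num
      nlinarith
    have hn6 : 19 * 8 * y * ((n : ℝ) * n) ≤ Real.exp (12 * Real.log n) := by
      have h3 : Real.exp (12 * Real.log n) = (n : ℝ) ^ 12 := by
        rw [show 12 * Real.log (n : ℝ) = ((12 : ℕ) : ℝ) * Real.log n by norm_num,
              Real.exp_nat_mul, Real.exp_log hn]
      rw [h3]
      have h4 : 19 * 8 * y * ((n : ℝ) * n) ≤ n * (n * n) := by
        have : 19 * 8 * y ≤ n := by linarith
        exact mul_le_mul_of_nonneg_right this (by positivity)
      refine h4.trans ?_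
      calc (n : ℝ) * (n * n) = n ^ 3 := by ring
        _ ≤ n ^ 12 := pow_le_pow_right₀ (by linarith) (by norm_num)
    calc ((hh n y : ℝ) + 1) * (Real.exp (-(Real.exp (-2) * (500 * Real.log n))) *
          (1 + 3 * a) ^ (hh n y)) ≤ (19 * (n * n)) *
          (Real.exp (-(66 * Real.log n)) * Real.exp (54 * Real.log n)) := by
          apply mul_le_mul h2 _ (by positivity) (by positivity)
          apply mul_le_mul hR hI (by positivity) (Real.exp_pos _).le
      _ = (19 * (n * n)) * Real.exp (-(12 * Real.log n)) := by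
          rw [← Real.exp_add]; ring_nf
      _ ≤ a / 8 := by
          rw [Real.exp_neg, ← div_eq_mul_inv, div_le_iff₀ (Real.exp_pos _), ha]
          rw [div_div, div_mul_eq_mul_div, one_mul, le_div_iff₀ (by positivity)]
          linarith

theorem Hm_num (R : Finset (Fin n)) (k0 : ℕ) (hr1 : y * x ≤ R.card)
    (hr2 : (R.card : ℝ) ≤ n / (32 * y)) (hk : (k0 : ℝ) ≤ n / (32 * y)) :
    ∃ m0 : ℕ, ∀ m, m0 ≤ m → ∀ (B : Finset (Fin n)) (v : Fin n), B.card < k0 →
      (∀ w ∈ B, w ∉ R) → v ∉ B →
      qq n y ≤ Ex (fun U => Hm (PP n y R k0)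
        (Real.exp (-((PP n y R k0).β * (PP n y R k0).pt))) B v m U) := by
  have hq := qq_pos H
  have hc0 : 0 ≤ Real.exp (-((PP n y R k0).β * (PP n y R k0).pt)) := (Real.exp_pos _).le
  have hev : ∀ᶠ m in atTop, ∀ i : Finset (Fin n) × Fin n, i.1.card < k0 →
      (∀ w ∈ i.1, w ∉ R) → i.2 ∉ i.1 →
      qq n y ≤ Ex (fun U => Hm (PP n y R k0)
        (Real.exp (-((PP n y R k0).β * (PP n y R k0).pt))) i.1 i.2 m U) := by
    rw [Filter.eventually_all]
    rintro ⟨B, v⟩
    by_cases hB : B.card < k0 ∧ (∀ w ∈ B, w ∉ R) ∧ v ∉ B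
    · by_cases hvR : v ∈ R
      · apply Filter.Eventually.of_forall
        intro m _ _ _
        have h1 : (fun U => Hm (PP n y R k0)
            (Real.exp (-((PP n y R k0).β * (PP n y R k0).pt))) B v m U) = fun _ => (1:ℝ) := by
          funext U
          unfold Hm
          cases m with
          | zero => unfold hit; rw [if_pos (show v ∈ (PP n y R k0).R from hvR)]
          | succ m => unfold hit; rw [if_pos (show v ∈ (PP n y R k0).R from hvR)]
        simp only
        rw [h1, Ex_const]
        have hy := H.y_big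
        have hL := H.hL
        unfold qq
        rw [div_div, div_le_one (by positivity)]
        nlinarith
      · have h2 := Hl_num H R B k0 v hB.2.2 hvR hB.2.1 hr1 hr2 (by
          refine le_trans ?_ hk
          exact_mod_cast hB.1.le)
        have h3 := Ex_Hm_tendsto (PP n y R k0) hc0 B v
        have h4 := h3.eventually_const_le (show qq n y < _ by linarith)
        filter_upwards [h4] with m hm _ _ _
        exact hm
    · apply Filter.Eventually.of_forall
      intro m h1 h2 h3
      exact absurd ⟨h1, h2, h3⟩ hB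
  obtain ⟨m0, hm0⟩ := Filter.eventually_atTop.1 hev
  exact ⟨m0, fun m hm B v h1 h2 h3 => hm0 m hm (B, v) h1 h2 h3⟩

end

end

end Pool.Agent.TH972
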