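import Pool.Agent.TH972.Num1
import Pool.Agent.TH972.Total

/-!
# The annealed failure probability with explicit parameters
-/

set_option autoImplicit false
set_option linter.unusedSectionVars false

namespace Pool.Agent.TH972

open Finset MeasureTheory Pool.Agent.W842.RST Filter Topology

noncomputable section

/-- the number of vertices visited by the walk -/
def kk (x y : ℝ) (M : ℕ) : ℕ := ⌈(M : ℝ) * y ^ 2 * x⌉₊

section

variable {n : ℕ} {x y : ℝ} (H : LB n x y)

include H

theorem kk_ge (M : ℕ) : (M : ℝ) * y ^ 2 * x ≤ kk x y M := Nat.le_ceil _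

theorem kk_le {M : ℕ} (hM1 : 1 ≤ M) : (kk x y M : ℝ) ≤ 2 * (M * y ^ 2 * x) := by
  have hM : (1:ℝ) ≤ M := by exact_mod_cast hM1
  have hx := H.x_big
  have hy := H.y_big
  have h1 : (1:ℝ) ≤ M * y ^ 2 * x := by
    have : (1:ℝ) ≤ y ^ 2 := by nlinarith
    have h2 : (1:ℝ) ≤ M * y ^ 2 := by nlinarith
    nlinarith
  have := (Nat.ceil_lt_add_one (show (0:ℝ) ≤ M * y ^ 2 * x by linarith)).le
  unfold kk
  linarith

theorem kk_pos {M : ℕ} (hM1 : 1 ≤ M) : 1 ≤ kk x y M := by
  have hM : (1:ℝ) ≤ M := by exact_mod_cast hM1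
  have hx := H.x_pos
  have hy := H.y_pos
  unfold kk
  rw [Nat.one_le_ceil_iff]
  positivity

/-- `M y ^ 3 x` is smaller than `n` -/
theorem M_small {M : ℕ} (hM : (M : ℝ) ^ 2 * x ^ 4 * y ^ 3 ≤ n) {c : ℝ} (hc0 : 0 ≤ c)
    (hc : c ≤ x ^ 2) : c * (M * x ^ 3 * y ^ 3) ≤ n := by
  have hx := H.x_pos
  have hy := H.y_pos
  have hn := H.n_pos
  have hn8 := H.hn
  apply le_of_sq_le_sq _ hn.le
  calc (c * (M * x ^ 3 * y ^ 3)) ^ 2 = ((M : ℝ) ^ 2 * x ^ 4 * y ^ 3) * (c ^ 2 * (y ^ 3 * x ^ 2)) := by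
        ring
    _ ≤ n * (c ^ 2 * (y ^ 3 * x ^ 2)) := mul_le_mul_of_nonneg_right hM (by positivity)
    _ ≤ n * ((x ^ 2) ^ 2 * (y ^ 3 * x ^ 2)) := by
        apply mul_le_mul_of_nonneg_left _ hn.le
        apply mul_le_mul_of_nonneg_right _ (by positivity)
        exact pow_le_pow_left₀ hc0 hc 2
    _ = n * (y ^ 3 * x ^ 6) := by ring
    _ ≤ n * (y ^ 3 * x ^ 8) := by
        apply mul_le_mul_of_nonneg_left _ hn.le
        apply mul_le_mul_of_nonneg_left _ (by positivity)
        apply pow_le_pow_right₀ _ (by norm_num)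
        have := H.x_big
        linarith
    _ ≤ n * n := mul_le_mul_of_nonneg_left hn8 hn.le
    _ = n ^ 2 := by ring

theorem kk_le_n {M : ℕ} (hM1 : 1 ≤ M) (hM : (M : ℝ) ^ 2 * x ^ 4 * y ^ 3 ≤ n) :
    (kk x y M : ℝ) ≤ n / (32 * y) := by
  have hx := H.x_pos
  have hxb := H.x_big
  have hy := H.y_pos
  have h1 := kk_le H hM1
  have h2 := M_small H hM (c := 64) (by norm_num) (by nlinarith)
  rw [le_div_iff₀ (by positivity)]
  have hM0 : (0:ℝ) ≤ M := Nat.cast_nonneg _
  calc (kk x y M : ℝ) * (32 * y) ≤ 2 * (M * y ^ 2 * x) * (32 * y) :=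
        mul_le_mul_of_nonneg_right h1 (by positivity)
    _ = 64 * (M * x * y ^ 3) := by ring
    _ ≤ 64 * (M * x ^ 3 * y ^ 3) := by
        apply mul_le_mul_of_nonneg_left _ (by norm_num)
        apply mul_le_mul_of_nonneg_right _ (by positivity)
        apply mul_le_mul_of_nonneg_left _ hM0
        calc x = x * 1 := by ring
          _ ≤ x * x ^ 2 := by
            apply mul_le_mul_of_nonneg_left _ hx.le
            nlinarith
          _ = x ^ 3 := by ring
    _ ≤ n := h2

theorem R_le_n {r : ℝ} (hr2 : r ≤ 2 * (y * x)) : r ≤ n / (32 * y) := by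
  have hx := H.x_pos
  have hxb := H.x_big
  have hy := H.y_pos
  have hyb := H.y_big
  rw [le_div_iff₀ (by positivity)]
  refine le_trans ?_ H.hn
  calc r * (32 * y) ≤ 2 * (y * x) * (32 * y) := mul_le_mul_of_nonneg_right hr2 (by positivity)
    _ = (64 * (x * 1)) * y ^ 2 := by ring
    _ ≤ (x ^ 6 * (x ^ 2)) * (y ^ 3) := by
        have h1 : (64:ℝ) ≤ x ^ 6 := by
          have h3 : (1:ℝ) ≤ x := by linarith
          have h2 : x ≤ x ^ 6 := le_self_pow₀ h3 (by norm_num)
          linarith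
        have h2 : x * 1 ≤ x ^ 2 := by nlinarith
        have h3 : y ^ 2 ≤ y ^ 3 := pow_le_pow_right₀ (by linarith) (by norm_num)
        apply mul_le_mul _ h3 (by positivity) (by positivity)
        apply mul_le_mul h1 h2 (by positivity) (by positivity)
    _ = y ^ 3 * x ^ 8 := by ring

/-- the level of the open edges -/
theorem theta_facts : 1 / y ≤ 1 / y * (1 + 6 * Real.log n) ∧
    1 / y * (1 + 6 * Real.log n) ≤ 7 * Real.log n / y ∧
    7 * Real.log n / y ≤ 1 / 100 := by
  have hx := H.x_pos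
  have hxb := H.x_big
  have hy := H.y_pos
  have hL := H.hL
  have hxL := H.x_L
  have hxy := H.hxy
  refine ⟨?_, ?_, ?_⟩
  · have : (0:ℝ) < 1 / y := by positivity
    nlinarith
  · rw [div_mul_eq_mul_div, one_mul]
    apply div_le_div_of_nonneg_right _ hy.le
    linarith
  · rw [div_le_div_iff₀ hy (by norm_num)]
    linarith

/-- expected size of the cluster -/
theorem clust_num (k : ℕ) (hk : (y ^ 2 : ℝ) ≤ k) (v : Fin n) :
    Ex (fun U : Ev n => ((min (comp (GU U ((1 + 1 / y * (1 + 6 * Real.log n)) / n)) v).card k : ℕ) : ℝ)) ≤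
      60 * (1 / y * (1 + 6 * Real.log n)) * k ∧
    Ex (fun U : Ev n => ind (k ≤ (comp (GU U ((1 + 1 / y * (1 + 6 * Real.log n)) / n)) v).card)) ≤
      60 * (1 / y * (1 + 6 * Real.log n)) := by
  obtain ⟨hθa, hθb, hθc⟩ := theta_facts H
  have hy := H.y_pos
  have hn := H.n_pos
  have hnb := H.n_big
  have hyn := H.y_le
  set θ : ℝ := 1 / y * (1 + 6 * Real.log n) with hθ
  have hθ0 : 0 < θ := lt_of_lt_of_le (by positivity) hθa
  have hθ1 : θ ≤ 1 / 100 := hθb.trans hθc
  set p : ℝ := (1 + θ) / n with hp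
  have hp0 : 0 < p := by positivity
  have hnp : n * p = 1 + θ := by rw [hp]; field_simp
  have hp1 : p ≤ θ / 100 := by
    rw [hp, div_le_iff₀ hn]
    have h1 : 1 / y * n ≤ θ * n := mul_le_mul_of_nonneg_right hθa hn.le
    have h2 : 1000000 ≤ 1 / y * n := by
      rw [one_div_mul_eq_div, le_div_iff₀ hy]; linarith
    nlinarith
  have hp2 : p < 1 := by linarith
  set h := ⌊1 / θ⌋₊ with hh
  have hh1 : (h : ℝ) ≤ 1 / θ := Nat.floor_le (by positivity)
  have hh2 : 1 / θ < (h : ℝ) + 1 := Nat.lt_floor_add_one _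
  set τ : ℝ := 1 + 2 * θ with hτ
  have hτ1 : 1 ≤ τ := by rw [hτ]; linarith
  have hc : (n : ℝ) * (-Real.log (1 - p)) ≤ τ := by
    have h1 := Real.one_sub_inv_le_log_of_pos (show 0 < 1 - p by linarith)
    have h2 : -Real.log (1 - p) ≤ p / (1 - p) := by
      have : p / (1 - p) = (1 - p)⁻¹ - 1 := by
        have : 1 - p ≠ 0 := by linarith
        field_simp
        ring
      linarith
    have h3 : (n : ℝ) * (-Real.log (1 - p)) ≤ n * (p / (1 - p)) :=
      mul_le_mul_of_nonneg_left h2 hn.le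
    refine h3.trans ?_
    rw [mul_div_assoc', div_le_iff₀ (by linarith), hnp, hτ]
    nlinarith
  have hτh : τ ^ h ≤ 15 / 2 := by
    have h1 : τ ≤ Real.exp (2 * θ) := by
      have := Real.add_one_le_exp (2 * θ); rw [hτ]; linarith
    have h2 : τ ^ h ≤ Real.exp 2 := by
      calc τ ^ h ≤ Real.exp (2 * θ) ^ h := pow_le_pow_left₀ (by linarith) h1 _
        _ = Real.exp (h * (2 * θ)) := by rw [← Real.exp_nat_mul]
        _ ≤ Real.exp 2 := by
          apply Real.exp_le_exp.2
          calc (h : ℝ) * (2 * θ) ≤ 1 / θ * (2 * θ) :=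
                mul_le_mul_of_nonneg_right hh1 (by positivity)
            _ = 2 := by field_simp
    exact h2.trans (exp_two_le H)
  have hτh1 : τ ^ (h + 1) ≤ 16 := by
    rw [pow_succ]
    have h3 : 0 ≤ τ ^ h := by positivity
    have : τ ≤ 2 := by rw [hτ]; linarith
    nlinarith
  have hinv : 1 / ((h : ℝ) + 1) ≤ θ := by
    rw [div_le_iff₀ (by positivity)]
    rw [div_lt_iff₀ hθ0] at hh2
    linarith
  have hh3 : (h : ℝ) + 1 ≤ 2 / θ := by
    have : (1:ℝ) ≤ 1 / θ := by rw [le_div_iff₀ hθ0]; linarith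
    have e : 2 / θ = 1 / θ + 1 / θ := by ring
    linarith
  have hkθ : 1 ≤ θ ^ 2 * k := by
    have h1 : (1 / y) ^ 2 ≤ θ ^ 2 := pow_le_pow_left₀ (by positivity) hθa 2
    calc (1:ℝ) = (1 / y) ^ 2 * y ^ 2 := by field_simp
      _ ≤ θ ^ 2 * k := mul_le_mul h1 hk (by positivity) (by positivity)
  have hk0 : (0:ℝ) < k := lt_of_lt_of_le (by positivity) hk
  have hk0' : 0 < k := by exact_mod_cast hk0
  have hA : ((h : ℝ) + 1) * τ ^ h ≤ 15 * θ * k := by
    calc ((h : ℝ) + 1) * τ ^ h ≤ 2 / θ * (15 / 2) := by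
          apply mul_le_mul hh3 hτh (by positivity) (by positivity)
      _ = 15 / θ := by ring
      _ ≤ 15 / θ * (θ ^ 2 * k) := by
          have : (0:ℝ) < 15 / θ := by positivity
          nlinarith
      _ = 15 * θ * k := by field_simp
  have hB : 2 * τ ^ (h + 1) / (h + 1) ≤ 32 * θ := by
    calc 2 * τ ^ (h + 1) / (h + 1) = 2 * τ ^ (h + 1) * (1 / (h + 1)) := by ring
      _ ≤ 2 * 16 * θ := by
          apply mul_le_mul _ hinv (by positivity) (by norm_num)
          linarith
      _ = 32 * θ := by ring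
  constructor
  · have h1 := Ex_comp hp0.le hp2 hτ1 (by rw [hnp, hτ]; linarith) hc v h k
    refine h1.trans ?_
    have h2 : (k : ℝ) * (2 * τ ^ (h + 1) / (h + 1)) ≤ k * (32 * θ) :=
      mul_le_mul_of_nonneg_left hB hk0.le
    have : 0 ≤ θ * k := by positivity
    nlinarith
  · have h1 := Ex_comp_ind hp0.le hp2 hτ1 (by rw [hnp, hτ]; linarith) hc v h k hk0'
    refine h1.trans ?_
    have h2 : ((h : ℝ) + 1) * τ ^ h / k ≤ 15 * θ := by
      rw [div_le_iff₀ hk0]; exact hA
    linarith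

theorem bnd_num (M : ℕ) (hM1 : 1 ≤ M) (hM : (M : ℝ) ^ 2 * x ^ 4 * y ^ 3 ≤ n)
    (R : Finset (Fin n)) (hr1 : y * x ≤ R.card) (hr2 : (R.card : ℝ) ≤ 2 * (y * x))
    (v : Fin n) (hv : v ∉ R) (m : ℕ) :
    Ex (fun U => bnd (PP n y R (kk x y M)) M m v U) ≤ 10000000 * Real.log n ^ 2 / (y * x) := by
  obtain ⟨hθa, hθb, hθc⟩ := theta_facts H
  have hx := H.x_pos
  have hxb := H.x_big
  have hy := H.y_pos
  have hyb := H.y_big
  have hL := H.hL
  have hxL := H.x_L
  have hn := H.n_pos
  have hnb := H.n_big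
  have hM1' : (1:ℝ) ≤ M := by exact_mod_cast hM1
  have hk1 := kk_ge H M
  have hk2 := kk_le H hM1
  have hk3 := kk_le_n H hM1 hM
  have hk4 := kk_pos H hM1
  have hr3 := R_le_n H hr2
  obtain ⟨m0, hm0⟩ := Hm_num H R (kk x y M) hr1 hr3 hk3
  set θ : ℝ := 1 / y * (1 + 6 * Real.log n) with hθ
  have hθ0 : 0 < θ := lt_of_lt_of_le (by positivity) hθa
  have hθ1 : θ ≤ 1 / 100 := hθb.trans hθc
  set k := kk x y M with hk
  have hk0 : (0:ℝ) < k := by exact_mod_cast hk4
  have hky : (y ^ 2 : ℝ) ≤ k := by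
    refine le_trans ?_ hk1
    have : (1:ℝ) ≤ M * x := by nlinarith
    calc y ^ 2 = 1 * y ^ 2 := by ring
      _ ≤ (M * x) * y ^ 2 := mul_le_mul_of_nonneg_right this (by positivity)
      _ = _ := by ring
  obtain ⟨hK, hπ⟩ := clust_num H k hky v
  rw [← hθ] at hK hπ
  have hkn : (k : ℝ) ≤ n / 2 := by
    refine hk3.trans ?_
    apply div_le_div_of_nonneg_left hn.le (by norm_num)
    linarith
  set b : ℝ := 1 / (y * x) with hb
  have hb0 : 0 < b := by positivity
  have hq0 := qq_pos H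
  have key := Ex_bnd (PP n y R k) (by rw [PP_β]; positivity)
    (by
      rw [PP_pt]
      apply div_nonneg _ hn.le
      have : 1 / y ≤ 1 := by rw [div_le_one hy]; linarith
      linarith)
    (by
      rw [PP_pt, div_le_one hn]
      have : 0 < 1 / y := by positivity
      linarith)
    (by rw [PP_p1]; positivity)
    (by rw [PP_p1, div_le_one hn]; linarith)
    (a := 1 / y) (θ := θ) (K := 60 * θ * k) (π := 60 * θ) (by positivity)
    (by rw [PP_pt]; apply le_of_eq; field_simp)
    hθ0.le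
    (by rw [PP_p1, ← hθ]; apply le_of_eq; field_simp)
    (by rw [PP_k0]; exact hk4) (by rw [PP_k0]; linarith) v (by rw [PP_R]; exact hv)
    (by rw [PP_p1, PP_k0, ← hθ]; exact hK) (by rw [PP_p1, PP_k0, ← hθ]; exact hπ) hq0 hm0 M m
    (b := b) ?_
  · rw [PP_k0] at key
    refine key.trans ?_
    -- (b + π) / q ≤ 3.5e6 L^2
    have hbθ : b ≤ θ := by
      refine le_trans ?_ hθa
      rw [hb]
      apply div_le_div_of_nonneg_left (by norm_num) hy
      nlinarith
    have h1 : (b + 60 * θ) / qq n y ≤ 3500000 * Real.log n ^ 2 := by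
      rw [div_le_iff₀ hq0]
      have h2 : b + 60 * θ ≤ 427 * Real.log n / y := by
        have e : 427 * Real.log n / y = 61 * (7 * Real.log n / y) := by ring
        rw [e]
        linarith
      have h3 : 1 / (8016 * (y * Real.log n)) ≤ qq n y := by
        unfold qq
        rw [div_div]
        apply div_le_div_of_nonneg_left (by norm_num) (by positivity)
        have : y * (16 * (1 + 500 * Real.log n)) = 16 * y + 8000 * (y * Real.log n) := by ring
        rw [this]
        nlinarith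
      calc b + 60 * θ ≤ 427 * Real.log n / y := h2
        _ ≤ 3500000 * Real.log n ^ 2 * (1 / (8016 * (y * Real.log n))) := by
            have e : 3500000 * Real.log n ^ 2 * (1 / (8016 * (y * Real.log n))) =
              (3500000 / 8016) * Real.log n / y := by
              have : Real.log n ≠ 0 := by linarith
              field_simp
            rw [e]
            apply div_le_div_of_nonneg_right _ hy.le
            nlinarith
        _ ≤ _ := mul_le_mul_of_nonneg_left h3 (by positivity)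
    have hL2 : 1 ≤ Real.log n ^ 2 := by nlinarith
    have h4 : (1 + (b + 60 * θ) / qq n y) / (1 / y) ≤ 3500001 * Real.log n ^ 2 * y := by
      rw [div_div_eq_mul_div, div_one]
      apply mul_le_mul_of_nonneg_right _ hy.le
      linarith
    have h5 : (k : ℝ)⁻¹ ≤ (M * y ^ 2 * x)⁻¹ := inv_anti₀ (by positivity) hk1
    have h6 : 1 + M * ((1 + (b + 60 * θ) / qq n y) / (1 / y)) ≤
        M * (3500002 * Real.log n ^ 2 * y) := by
      have h7 := mul_le_mul_of_nonneg_left h4 (show (0:ℝ) ≤ M by linarith)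
      have h8 : (1:ℝ) ≤ M * (Real.log n ^ 2 * y) := by
        have : (1:ℝ) ≤ Real.log n ^ 2 * y := by nlinarith
        nlinarith
      nlinarith
    calc b + (k : ℝ)⁻¹ * (1 + M * ((1 + (b + 60 * θ) / qq n y) / (1 / y)))
        ≤ b + (M * y ^ 2 * x)⁻¹ * (M * (3500002 * Real.log n ^ 2 * y)) := by
          apply add_le_add_right
          apply mul_le_mul h5 h6 _ (by positivity)
          have : 0 < qq n y := hq0
          positivity
      _ = (1 + 3500002 * Real.log n ^ 2) / (y * x) := by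
          have hM0 : (M : ℝ) ≠ 0 := by linarith
          have e : ((M : ℝ) * y ^ 2 * x)⁻¹ * (M * (3500002 * Real.log n ^ 2 * y)) =
              3500002 * Real.log n ^ 2 / (y * x) := by
            rw [← div_eq_inv_mul, div_eq_div_iff (by positivity) (by positivity)]
            ring
          rw [e, hb, ← add_div]
      _ ≤ 10000000 * Real.log n ^ 2 / (y * x) := by
          apply div_le_div_of_nonneg_right _ (by positivity)
          linarith
  · -- the closing probability
    rw [PP_k0, PP_R]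
    have hnk : (n : ℝ) / 2 ≤ n - k := by linarith
    have hnk0 : (0:ℝ) < n - k := by linarith
    have hθk : 1 ≤ θ ^ 2 * k := by
      have h1 : (1 / y) ^ 2 ≤ θ ^ 2 := pow_le_pow_left₀ (by positivity) hθa 2
      calc (1:ℝ) = (1 / y) ^ 2 * y ^ 2 := by field_simp
        _ ≤ θ ^ 2 * k := mul_le_mul h1 hky (by positivity) (by positivity)
    rw [← add_div]
    have h1 : (k : ℝ) * (1 + θ + θ * (60 * θ * k)) + R.card * (60 * θ * k) ≤
        62 * (θ * k) ^ 2 + 120 * (y * x) * (θ * k) := by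
      have h2 : 1 + θ + θ * (60 * θ * k) ≤ 62 * (θ ^ 2 * k) := by nlinarith
      have h3 := mul_le_mul_of_nonneg_left h2 hk0.le
      have h4 : (R.card : ℝ) * (60 * θ * k) ≤ 2 * (y * x) * (60 * θ * k) :=
        mul_le_mul_of_nonneg_right hr2 (by positivity)
      nlinarith
    have hθk2 : θ * k ≤ 14 * Real.log n * (M * y * x) := by
      calc θ * k ≤ 7 * Real.log n / y * (2 * (M * y ^ 2 * x)) := by
            apply mul_le_mul hθb hk2 hk0.le (by positivity)
        _ = 14 * Real.log n * (M * y * x) := by field_simp; ring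
    have h2 : 62 * (θ * k) ^ 2 ≤ 12152 * Real.log n ^ 2 * ((M : ℝ) ^ 2 * y ^ 2 * x ^ 2) := by
      have := pow_le_pow_left₀ (by positivity : 0 ≤ θ * k) hθk2 2
      nlinarith
    have h3 : 120 * (y * x) * (θ * k) ≤ 1680 * Real.log n * (M * y ^ 2 * x ^ 2) := by
      have := mul_le_mul_of_nonneg_left hθk2 (show 0 ≤ 120 * (y * x) by positivity)
      refine this.trans (le_of_eq ?_)
      ring
    have h4 : 12152 * Real.log n ^ 2 * ((M : ℝ) ^ 2 * y ^ 2 * x ^ 2) ≤ n / 4 * b := by
      rw [hb, mul_one_div, le_div_iff₀ (by positivity)]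
      have h5 : 12152 * Real.log n ^ 2 * 4 ≤ x := by
        have := H.x_log 2 (by norm_num)
        nlinarith
      calc 12152 * Real.log n ^ 2 * ((M : ℝ) ^ 2 * y ^ 2 * x ^ 2) * (y * x) =
            (12152 * Real.log n ^ 2 * 4) * ((M : ℝ) ^ 2 * x ^ 3 * y ^ 3) / 4 := by ring
        _ ≤ x * ((M : ℝ) ^ 2 * x ^ 3 * y ^ 3) / 4 := by
            apply div_le_div_of_nonneg_right _ (by norm_num)
            exact mul_le_mul_of_nonneg_right h5 (by positivity)
        _ = (M : ℝ) ^ 2 * x ^ 4 * y ^ 3 / 4 := by ring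
        _ ≤ (n : ℝ) / 4 := div_le_div_of_nonneg_right hM (by norm_num)
    have h5 : 1680 * Real.log n * ((M : ℝ) * y ^ 2 * x ^ 2) ≤ n / 4 * b := by
      rw [hb, mul_one_div, le_div_iff₀ (by positivity)]
      have h6 := M_small H hM (c := 6720 * Real.log n) (by positivity) (by nlinarith)
      calc 1680 * Real.log n * ((M : ℝ) * y ^ 2 * x ^ 2) * (y * x) =
            (6720 * Real.log n * ((M : ℝ) * x ^ 3 * y ^ 3)) / 4 := by ring
        _ ≤ (n : ℝ) / 4 := div_le_div_of_nonneg_right h6 (by norm_num)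
    rw [div_le_iff₀ hnk0]
    have h6 : (n : ℝ) / 2 * b ≤ b * (n - k) := by
      rw [mul_comm]
      exact mul_le_mul_of_nonneg_left hnk hb0.le
    linarith

end

end

end Pool.Agent.TH972
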