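import Pool.Agent.W842.RST.Levels
import Pool.Agent.TH972.Total

/-!
# Sums over simple paths
-/

set_option autoImplicit false
set_option linter.unusedSectionVars false

namespace Pool.Agent.TH972

open Finset MeasureTheory Pool.Agent.W842.RST

noncomputable section

variable {n : ℕ}

/-- weighted sum over the simple paths of given length from `v` with the other vertices in `W` -/
def Wp (φ : ℝ → ℝ) (U : Ev n) : ℕ → Fin n → Finset (Fin n) → ℝ
  | 0, _, _ => 1
  | (h + 1), v, W => ∑ u ∈ W, φ (U s(v, u)) * Wp φ U h u (W.erase u)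

theorem Wp_nonneg {φ : ℝ → ℝ} (hφ : ∀ x, 0 ≤ φ x) (U : Ev n) (h : ℕ) (v : Fin n)
    (W : Finset (Fin n)) : 0 ≤ Wp φ U h v W := by
  induction h generalizing v W with
  | zero => unfold Wp; norm_num
  | succ h ih =>
    unfold Wp
    exact Finset.sum_nonneg (fun u _ => mul_nonneg (hφ _) (ih _ _))

theorem BM_phi {φ : ℝ → ℝ} (hm : Measurable φ) {C : ℝ} (hC : ∀ x, |φ x| ≤ C)
    (e : Sym2 (Fin n)) : BM (fun U : Ev n => φ (U e)) :=
  ⟨hm.comp (meas_U e), C, fun U => hC _⟩

theorem BM_Wp {φ : ℝ → ℝ} (hm : Measurable φ) {C : ℝ} (hC : ∀ x, |φ x| ≤ C) (h : ℕ)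
    (v : Fin n) (W : Finset (Fin n)) : BM (fun U : Ev n => Wp φ U h v W) := by
  induction h generalizing v W with
  | zero => unfold Wp; exact BM.const 1
  | succ h ih =>
    unfold Wp
    exact BM.sum _ (fun u _ => (BM_phi hm hC _).mul (ih u (W.erase u)))

theorem Wp_congr (φ : ℝ → ℝ) (h : ℕ) (v w : Fin n) (W : Finset (Fin n)) (hvw : v ≠ w)
    (hw : w ∉ W) (U U' : Ev n) (hU : ∀ e : Sym2 (Fin n), w ∉ e → U e = U' e) :
    Wp φ U h v W = Wp φ U' h v W := by
  induction h generalizing v W with
  | zero => rfl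
  | succ h ih =>
    unfold Wp
    apply Finset.sum_congr rfl
    intro u hu
    have huw : u ≠ w := fun h => hw (h ▸ hu)
    rw [ih u (W.erase u) huw (fun h => hw (Finset.mem_of_mem_erase h)), hU s(v, u)]
    rw [Sym2.mem_iff, not_or]
    exact ⟨fun h => hvw h.symm, fun h => huw h.symm⟩

theorem Ex_phi (φ : ℝ → ℝ) (hm : Measurable φ) (e : Sym2 (Fin n)) :
    Ex (fun U : Ev n => φ (U e)) = ∫ x, φ x ∂nu := by
  have hμ : env n = Measure.pi (fun _ => nu) := rfl
  have hmp := measurePreserving_eval (fun _ : Sym2 (Fin n) => nu) e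
  unfold Ex
  rw [hμ]
  calc ∫ U : Ev n, φ (U e) ∂(Measure.pi fun _ => nu)
      = ∫ x, φ x ∂(Measure.map (Function.eval e) (Measure.pi fun _ : Sym2 (Fin n) => nu)) :=
        (integral_map (measurable_pi_apply e).aemeasurable hm.aestronglyMeasurable).symm
    _ = ∫ x, φ x ∂nu := by rw [hmp.map_eq]

theorem Ex_Wp_le {φ : ℝ → ℝ} (hm : Measurable φ) {C : ℝ} (hC : ∀ x, |φ x| ≤ C)
    (hφ : ∀ x, 0 ≤ φ x) {I : ℝ} (hI : (n : ℝ) * ∫ x, φ x ∂nu ≤ I) (h : ℕ)
    (v : Fin n) (W : Finset (Fin n)) (hv : v ∉ W) :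
    Ex (fun U : Ev n => Wp φ U h v W) ≤ I ^ h := by
  have hint0 : 0 ≤ ∫ x, φ x ∂nu := integral_nonneg hφ
  have hI0 : 0 ≤ I := le_trans (mul_nonneg (Nat.cast_nonneg _) hint0) hI
  induction h generalizing v W with
  | zero => unfold Wp; rw [Ex_const, pow_zero]
  | succ h ih =>
    unfold Wp
    rw [Ex_sum _ (fun u _ => (BM_phi hm hC _).mul (BM_Wp hm hC h u (W.erase u)))]
    have e1 : ∀ u ∈ W, Ex (fun U : Ev n => φ (U s(v, u)) * Wp φ U h u (W.erase u)) ≤
        (∫ x, φ x ∂nu) * I ^ h := by
      intro u hu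
      have hvu : u ≠ v := fun h => hv (h ▸ hu)
      rw [Ex_indep [v], Ex_phi φ hm]
      · exact mul_le_mul_of_nonneg_left (ih u (W.erase u) (Finset.notMem_erase _ _)) hint0
      · intro U U' hU
        rw [hU v (by simp) u]
      · intro U U' hU
        apply Wp_congr φ h u v (W.erase u) hvu (fun h => hv (Finset.mem_of_mem_erase h))
        intro e he
        apply hU e
        intro b hb
        rw [List.mem_singleton] at hb
        rw [hb]; exact he
    refine (Finset.sum_le_sum e1).trans ?_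
    rw [Finset.sum_const, nsmul_eq_mul, pow_succ]
    have h1 : (W.card : ℝ) ≤ n := by
      have := Finset.card_le_univ W
      rw [Fintype.card_fin] at this
      exact_mod_cast this
    have h2 : (W.card : ℝ) * ((∫ x, φ x ∂nu) * I ^ h) ≤ n * ((∫ x, φ x ∂nu) * I ^ h) :=
      mul_le_mul_of_nonneg_right h1 (mul_nonneg hint0 (pow_nonneg hI0 _))
    have h3 : (n : ℝ) * (∫ x, φ x ∂nu) * I ^ h ≤ I * I ^ h :=
      mul_le_mul_of_nonneg_right hI (pow_nonneg hI0 _)
    nlinarith

/-- a simple path contributes to the sum -/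
theorem prod_le_Wp {φ : ℝ → ℝ} (hφ : ∀ x, 0 ≤ φ x) (U : Ev n) (l : ℕ) (p : ℕ → Fin n)
    (W : Finset (Fin n)) (hinj : Set.InjOn p (Set.Iic l)) (hW : ∀ i, 1 ≤ i → i ≤ l → p i ∈ W) :
    ∏ i ∈ range l, φ (U s(p i, p (i + 1))) ≤ Wp φ U l (p 0) W := by
  induction l generalizing p W with
  | zero => simp [Wp]
  | succ l ih =>
    rw [Finset.prod_range_succ']
    unfold Wp
    have h1 : p 1 ∈ W := hW 1 le_rfl (by omega)
    have h2 := ih (fun i => p (i + 1)) (W.erase (p 1)) (by
        intro a ha b hb hab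
        simp only [Set.mem_Iic] at ha hb
        have := hinj (x₁ := a + 1) (x₂ := b + 1) (by simp only [Set.mem_Iic]; omega)
          (by simp only [Set.mem_Iic]; omega) hab
        omega) (by
        intro i hi hi'
        rw [Finset.mem_erase]
        refine ⟨?_, hW (i + 1) (by omega) (by omega)⟩
        intro he
        have := hinj (x₁ := i + 1) (x₂ := 1) (by simp only [Set.mem_Iic]; omega)
          (by simp only [Set.mem_Iic]; omega) he
        omega)
    have h3 : φ (U s(p 0, p 1)) * Wp φ U l (p 1) (W.erase (p 1)) ≤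
        ∑ u ∈ W, φ (U s(p 0, u)) * Wp φ U l u (W.erase u) :=
      Finset.single_le_sum (f := fun u => φ (U s(p 0, u)) * Wp φ U l u (W.erase u))
        (fun u _ => mul_nonneg (hφ _) (Wp_nonneg hφ _ _ _ _)) h1
    refine le_trans ?_ h3
    rw [mul_comm]
    apply mul_le_mul_of_nonneg_left _ (hφ _)
    exact h2

/-- the end points of the simple paths of length `l` -/
def Ep (p : ℝ) (U : Ev n) : ℕ → Fin n → Finset (Fin n) → Finset (Fin n)
  | 0, v, _ => {v}
  | (h + 1), v, W => (open Classical in W.filter (fun u => U s(v, u) ≤ p)).biUnion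
      (fun u => Ep p U h u (W.erase u))

theorem card_Ep_le (p : ℝ) (U : Ev n) (h : ℕ) (v : Fin n) (W : Finset (Fin n)) :
    ((Ep p U h v W).card : ℝ) ≤ Wp (fun x => ind (x ≤ p)) U h v W := by
  classical
  induction h generalizing v W with
  | zero => unfold Ep Wp; simp
  | succ h ih =>
    unfold Ep Wp
    have h1 : (((W.filter (fun u => U s(v, u) ≤ p)).biUnion
        (fun u => Ep p U h u (W.erase u))).card : ℝ) ≤
        ∑ u ∈ W.filter (fun u => U s(v, u) ≤ p), ((Ep p U h u (W.erase u)).card : ℝ) := by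
      exact_mod_cast Finset.card_biUnion_le
    refine h1.trans ?_
    rw [Finset.sum_filter]
    apply Finset.sum_le_sum
    intro u _
    by_cases hu : U s(v, u) ≤ p
    · rw [if_pos hu, ind_true hu, one_mul]
      exact ih u (W.erase u)
    · rw [if_neg hu, ind_false hu, zero_mul]

theorem mem_Ep (p : ℝ) (U : Ev n) (l : ℕ) (x : ℕ → Fin n) (W : Finset (Fin n))
    (hinj : Set.InjOn x (Set.Iic l)) (hW : ∀ i, 1 ≤ i → i ≤ l → x i ∈ W)
    (hU : ∀ i < l, U s(x i, x (i + 1)) ≤ p) : x l ∈ Ep p U l (x 0) W := by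
  classical
  induction l generalizing x W with
  | zero => unfold Ep; simp
  | succ l ih =>
    unfold Ep
    rw [Finset.mem_biUnion]
    refine ⟨x 1, Finset.mem_filter.2 ⟨hW 1 le_rfl (by omega), hU 0 (by omega)⟩, ?_⟩
    apply ih (fun i => x (i + 1)) (W.erase (x 1))
    · intro a ha b hb hab
      simp only [Set.mem_Iic] at ha hb
      have := hinj (x₁ := a + 1) (x₂ := b + 1) (by simp only [Set.mem_Iic]; omega)
        (by simp only [Set.mem_Iic]; omega) hab
      omega
    · intro i hi hi'
      rw [Finset.mem_erase]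
      refine ⟨?_, hW (i + 1) (by omega) (by omega)⟩
      intro he
      have := hinj (x₁ := i + 1) (x₂ := 1) (by simp only [Set.mem_Iic]; omega)
        (by simp only [Set.mem_Iic]; omega) he
      omega
    · intro i hi
      exact hU (i + 1) (by omega)

/-- simple path as a function -/
theorem exists_simple {G : SimpleGraph (Fin n)} {v w : Fin n} (h : G.Reachable v w) :
    ∃ (l : ℕ) (x : ℕ → Fin n), Set.InjOn x (Set.Iic l) ∧ x 0 = v ∧ x l = w ∧
      ∀ i < l, G.Adj (x i) (x (i + 1)) := by
  obtain ⟨q, hq⟩ := h.exists_isPath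
  refine ⟨q.length, q.getVert, ?_, by simp, by simp, fun i hi => q.adj_getVert_succ hi⟩
  intro a ha b hb hab
  exact hq.getVert_injOn ha hb hab

theorem mset_disc (p : ℝ) (Q : (Sym2 (Fin n) → Bool) → Prop) :
    MeasurableSet {U : Ev n | Q (fun e => open Classical in decide (U e ≤ p))} := by
  classical
  set φ : Ev n → (Sym2 (Fin n) → Bool) := fun U e => decide (U e ≤ p) with hφ
  have hm : Measurable φ := by
    rw [measurable_pi_iff]
    intro e
    apply measurable_to_bool
    have : (fun U : Ev n => φ U e) ⁻¹' {true} = {U : Ev n | U e ≤ p} := by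
      ext U
      rw [hφ]
      simp
    rw [this]
    exact mset_le e p
  have : {U : Ev n | Q (fun e => decide (U e ≤ p))} = φ ⁻¹' {b | Q b} := rfl
  convert hm (MeasurableSet.of_discrete (s := {b | Q b})) using 1

open Classical in
theorem mset_filter (p : ℝ) (E : Finset (Sym2 (Fin n))) (A : Finset (Sym2 (Fin n)) → Prop) :
    MeasurableSet {U : Ev n | A (E.filter (fun e => U e ≤ p))} := by
  have := mset_disc (n := n) p (fun b => A (E.filter (fun e => b e = true)))
  convert this using 4 with U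
  apply Finset.filter_congr
  intro e _
  simp

theorem Ex_ind_le {Q : Ev n → Prop} (hQ : MeasurableSet {U | Q U}) {r : ℝ} (hr : 0 ≤ r)
    (h : env n {U | Q U} ≤ ENNReal.ofReal r) : Ex (fun U => ind (Q U)) ≤ r := by
  have h2 : (fun U : Ev n => ind (Q U)) = Set.indicator {U : Ev n | Q U} 1 := by
    funext U
    by_cases h : Q U
    · rw [ind_true h, Set.indicator_of_mem (show U ∈ {U : Ev n | Q U} from h)]; rfl
    · rw [ind_false h, Set.indicator_of_notMem (show U ∉ {U : Ev n | Q U} from h)]
  unfold Ex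
  rw [h2, integral_indicator_one hQ, measureReal_def]
  exact ENNReal.toReal_le_of_le_ofReal hr h

open Classical in
/-- existence of a simple path of length `h` from `v` is unlikely -/
theorem Ex_HP {p : ℝ} (h0 : 0 ≤ p) (h1 : p < 1) (h : ℕ) (v : Fin n) :
    Ex (fun U : Ev n => ind (HP h v (univ.erase v)
      ((edg (univ : Finset (Fin n))).filter (fun e => U e ≤ p)))) ≤
      Qb (n * (-Real.log (1 - p))) h := by
  have hc : 0 ≤ (n : ℝ) * (-Real.log (1 - p)) := by
    apply mul_nonneg (Nat.cast_nonneg _)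
    have := Real.log_nonpos (by linarith : (0:ℝ) ≤ 1 - p) (by linarith)
    linarith
  apply Ex_ind_le (mset_filter p _ _) (Qb_nonneg hc h)
  refine (env_le_pr h0 h1.le (edg univ) (HP h v (univ.erase v))).trans ?_
  apply ENNReal.ofReal_le_ofReal
  have := HP_bound h0 h1 n h v (univ.erase v) (Finset.notMem_erase _ _) (by
    refine (Finset.card_le_univ _).trans ?_
    rw [Fintype.card_fin])
  rwa [Finset.insert_erase (Finset.mem_univ v)] at this

open Classical in
/-- the component is small if there is no long simple path -/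
theorem comp_card_le (p : ℝ) (U : Ev n) (v : Fin n) (h : ℕ)
    (hno : ¬ HP (h + 1) v (univ.erase v)
      ((edg (univ : Finset (Fin n))).filter (fun e => U e ≤ p))) :
    ((comp (GU U p) v).card : ℝ) ≤
      ∑ l ∈ range (h + 1), Wp (fun x => ind (x ≤ p)) U l v (univ.erase v) := by
  have h1 : comp (GU U p) v ⊆ (range (h + 1)).biUnion (fun l => Ep p U l v (univ.erase v)) := by
    intro w hw
    rw [mem_comp] at hw
    obtain ⟨l, x, hinj, hx0, hxl, hadj⟩ := exists_simple hw
    have hW : ∀ k ≤ l, ∀ i, 1 ≤ i → i ≤ k → x i ∈ (univ : Finset (Fin n)).erase v := by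
      intro k hk i hi hi'
      rw [Finset.mem_erase]
      refine ⟨?_, Finset.mem_univ _⟩
      intro he
      have := hinj (x₁ := i) (x₂ := 0) (by simp only [Set.mem_Iic]; omega)
        (by simp only [Set.mem_Iic]; omega) (by rw [he, hx0])
      omega
    have hl : l ≤ h := by
      by_contra hcon
      push Not at hcon
      apply hno
      rw [← hx0]
      apply HP_of_path (h + 1) x
      · intro a ha b hb hab
        simp only [Set.mem_Iic] at ha hb
        exact hinj (by simp only [Set.mem_Iic]; omega) (by simp only [Set.mem_Iic]; omega) hab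
      · intro i hi hi'
        rw [hx0]
        exact hW (h + 1) (by omega) i hi hi'
      · intro i hi
        have := hadj i (by omega)
        rw [GU_adj] at this
        rw [Finset.mem_filter, mem_edg]
        exact ⟨⟨Finset.mem_univ _, Finset.mem_univ _, this.2⟩, this.1⟩
    rw [Finset.mem_biUnion]
    refine ⟨l, Finset.mem_range.2 (by omega), ?_⟩
    rw [← hxl, ← hx0]
    apply mem_Ep p U l x _ hinj
    · intro i hi hi'
      rw [hx0]
      exact hW l le_rfl i hi hi'
    · intro i hi
      exact (GU_adj.1 (hadj i hi)).1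
  have h2 : ((comp (GU U p) v).card : ℝ) ≤
      ∑ l ∈ range (h + 1), ((Ep p U l v (univ.erase v)).card : ℝ) := by
    exact_mod_cast (Finset.card_le_card h1).trans Finset.card_biUnion_le
  exact h2.trans (Finset.sum_le_sum (fun l _ => card_Ep_le p U l v _))

theorem integral_ind {p : ℝ} (h0 : 0 ≤ p) (h1 : p ≤ 1) : ∫ x, ind (x ≤ p) ∂nu = p := by
  have h2 : (fun x : ℝ => ind (x ≤ p)) = Set.indicator (Set.Iic p) 1 := by
    funext x
    by_cases h : x ≤ p
    · rw [ind_true h, Set.indicator_of_mem (show x ∈ Set.Iic p from h)]; rfl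
    · rw [ind_false h, Set.indicator_of_notMem (show x ∉ Set.Iic p from h)]
  rw [h2, integral_indicator_one measurableSet_Iic, measureReal_def, nu_Iic h0 h1,
    ENNReal.toReal_ofReal h0]

theorem meas_ind_le (p : ℝ) : Measurable (fun x : ℝ => ind (x ≤ p)) := by
  unfold ind
  exact Measurable.ite measurableSet_Iic measurable_const measurable_const

/-- expected size of the truncated component -/
theorem Ex_comp {p : ℝ} (h0 : 0 ≤ p) (h1 : p < 1) {τ : ℝ} (hτ1 : 1 ≤ τ) (hτ : (n : ℝ) * p ≤ τ)
    (hτ' : (n : ℝ) * (-Real.log (1 - p)) ≤ τ) (v : Fin n) (h k : ℕ) :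
    Ex (fun U : Ev n => ((min (comp (GU U p) v).card k : ℕ) : ℝ)) ≤
      (h + 1) * τ ^ h + k * (2 * τ ^ (h + 1) / (h + 1)) := by
  classical
  have hc : 0 ≤ (n : ℝ) * (-Real.log (1 - p)) := by
    apply mul_nonneg (Nat.cast_nonneg _)
    have := Real.log_nonpos (by linarith : (0:ℝ) ≤ 1 - p) (by linarith)
    linarith
  have hab : ∀ x : ℝ, |ind (x ≤ p)| ≤ 1 := fun x => by
    rw [abs_of_nonneg (ind_nonneg _)]; exact ind_le_one _
  have bW : ∀ l, BM (fun U : Ev n => Wp (fun x => ind (x ≤ p)) U l v (univ.erase v)) := fun l =>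
    BM_Wp (meas_ind_le p) hab l v _
  have bH : BM (fun U : Ev n => ind (HP (h + 1) v (univ.erase v)
      ((edg (univ : Finset (Fin n))).filter (fun e => U e ≤ p)))) :=
    BM.ind (mset_filter p _ _)
  calc Ex (fun U : Ev n => ((min (comp (GU U p) v).card k : ℕ) : ℝ))
      ≤ Ex (fun U : Ev n => ∑ l ∈ range (h + 1),
          Wp (fun x => ind (x ≤ p)) U l v (univ.erase v) + k * ind (HP (h + 1) v (univ.erase v)
          ((edg (univ : Finset (Fin n))).filter (fun e => U e ≤ p)))) := by
        apply Ex_mono (BM_compmin p k v)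
          ((BM.sum _ (fun l _ => bW l)).add ((BM.const _).mul bH))
        intro U
        have hs0 : 0 ≤ ∑ l ∈ range (h + 1), Wp (fun x => ind (x ≤ p)) U l v (univ.erase v) :=
          Finset.sum_nonneg (fun l _ => Wp_nonneg (fun x => ind_nonneg _) _ _ _ _)
        by_cases hH : HP (h + 1) v (univ.erase v)
          ((edg (univ : Finset (Fin n))).filter (fun e => U e ≤ p))
        · rw [ind_true hH, mul_one]
          have : ((min (comp (GU U p) v).card k : ℕ) : ℝ) ≤ k := by
            exact_mod_cast min_le_right _ _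
          linarith
        · rw [ind_false hH, mul_zero, add_zero]
          refine le_trans ?_ (comp_card_le p U v h hH)
          exact_mod_cast min_le_left _ _
    _ = ∑ l ∈ range (h + 1), Ex (fun U : Ev n =>
          Wp (fun x => ind (x ≤ p)) U l v (univ.erase v)) + k * Ex (fun U : Ev n =>
          ind (HP (h + 1) v (univ.erase v)
          ((edg (univ : Finset (Fin n))).filter (fun e => U e ≤ p)))) := by
        rw [Ex_add (BM.sum _ (fun l _ => bW l)) ((BM.const _).mul bH),
          Ex_sum _ (fun l _ => bW l), Ex_const_mul]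
    _ ≤ ∑ _l ∈ range (h + 1), τ ^ h + k * (2 * τ ^ (h + 1) / (h + 1)) := by
        apply add_le_add
        · apply Finset.sum_le_sum
          intro l hl
          have h2 := Ex_Wp_le (n := n) (meas_ind_le p) hab (fun x => ind_nonneg _) (I := τ)
            (by rw [integral_ind h0 h1.le]; exact hτ) l v (univ.erase v)
            (Finset.notMem_erase _ _)
          refine h2.trans ?_
          apply pow_le_pow_right₀ hτ1
          have := Finset.mem_range.1 hl
          omega
        · apply mul_le_mul_of_nonneg_left _ (Nat.cast_nonneg _)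
          refine (Ex_HP h0 h1 (h + 1) v).trans ?_
          have h3 := Qb_le hc hτ' hτ1 (h + 1)
          have h4 : (0:ℝ) < (h : ℝ) + 1 := by positivity
          rw [le_div_iff₀ h4]
          push_cast at h3
          linarith
    _ = _ := by
        rw [Finset.sum_const, Finset.card_range, nsmul_eq_mul]
        push_cast
        ring

/-- probability of a large component -/
theorem Ex_comp_ind {p : ℝ} (h0 : 0 ≤ p) (h1 : p < 1) {τ : ℝ} (hτ1 : 1 ≤ τ)
    (hτ : (n : ℝ) * p ≤ τ)
    (hτ' : (n : ℝ) * (-Real.log (1 - p)) ≤ τ) (v : Fin n) (h k : ℕ) (hk : 0 < k) :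
    Ex (fun U : Ev n => ind (k ≤ (comp (GU U p) v).card)) ≤
      (h + 1) * τ ^ h / k + 2 * τ ^ (h + 1) / (h + 1) := by
  have h2 := Ex_comp h0 h1 hτ1 hτ hτ' v h k
  have hk' : (0:ℝ) < k := by exact_mod_cast hk
  have h3 : (k : ℝ) * Ex (fun U : Ev n => ind (k ≤ (comp (GU U p) v).card)) ≤
      Ex (fun U : Ev n => ((min (comp (GU U p) v).card k : ℕ) : ℝ)) := by
    rw [← Ex_const_mul]
    apply Ex_mono ((BM.const _).mul (BM.ind (mset_comp (fun c => k ≤ c) p v)))
      (BM_compmin p k v)
    intro U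
    by_cases h : k ≤ (comp (GU U p) v).card
    · rw [ind_true h, mul_one, min_eq_right h]
    · rw [ind_false h, mul_zero]; exact Nat.cast_nonneg _
  rw [div_add_div _ _ hk'.ne' (by positivity), le_div_iff₀ (by positivity)]
  have h4 : (0:ℝ) < (h : ℝ) + 1 := by positivity
  have h5 : (k : ℝ) * (2 * τ ^ (h + 1) / (h + 1)) * (h + 1) = k * (2 * τ ^ (h + 1)) := by
    field_simp
  have h6 := mul_le_mul_of_nonneg_right (h3.trans h2) h4.le
  nlinarith

end

end Pool.Agent.TH972
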