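import Pool.Agent.TH972.AB

/-!
# Hitting probabilities and energy
-/

set_option autoImplicit false
set_option linter.unusedSectionVars false

namespace Pool.Agent.TH972

open Finset Filter Topology

noncomputable section

variable {V : Type*} [Fintype V] [DecidableEq V]

/-- probability to hit `A` within `m` steps before `Z`, with killing `k` -/
def hit (κ : Sym2 V → ℝ) (k : V → ℝ) (A Z : Finset V) : ℕ → V → ℝ
  | 0, x => if x ∈ A then 1 else 0
  | (m + 1), x => if x ∈ A then 1 else if x ∈ Z then 0 else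
      (∑ y, Kc κ x y * hit κ k A Z m y) / (cs κ x + k x)

section

variable {κ : Sym2 V → ℝ} {k : V → ℝ} {A Z : Finset V}

theorem hit_nonneg (h : ∀ e, 0 ≤ κ e) (hk : ∀ x, 0 ≤ k x) (m : ℕ) (x : V) :
    0 ≤ hit κ k A Z m x := by
  induction m generalizing x with
  | zero => unfold hit; split_ifs <;> norm_num
  | succ m ih =>
    unfold hit
    split_ifs
    · norm_num
    · norm_num
    · apply div_nonneg
      · exact Finset.sum_nonneg (fun y _ => mul_nonneg (Kc_nonneg h _ _) (ih y))
      · exact add_nonneg (cs_nonneg h x) (hk x)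

theorem hit_le_one (h : ∀ e, 0 ≤ κ e) (hk : ∀ x, 0 ≤ k x) (m : ℕ) (x : V) :
    hit κ k A Z m x ≤ 1 := by
  induction m generalizing x with
  | zero => unfold hit; split_ifs <;> norm_num
  | succ m ih =>
    unfold hit
    split_ifs
    · norm_num
    · norm_num
    · apply div_le_one_of_le₀
      · calc ∑ y, Kc κ x y * hit κ k A Z m y ≤ ∑ y, Kc κ x y * 1 := by
              apply Finset.sum_le_sum
              intro y _
              exact mul_le_mul_of_nonneg_left (ih y) (Kc_nonneg h _ _)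
          _ = cs κ x := by simp [cs]
          _ ≤ _ := by linarith [hk x]
      · exact add_nonneg (cs_nonneg h x) (hk x)

theorem hit_mono (h : ∀ e, 0 ≤ κ e) (hk : ∀ x, 0 ≤ k x) (m : ℕ) (x : V) :
    hit κ k A Z m x ≤ hit κ k A Z (m + 1) x := by
  induction m generalizing x with
  | zero =>
    by_cases hx : x ∈ A
    · simp [hit, hx]
    · have := hit_nonneg (A := A) (Z := Z) h hk 1 x
      have e : hit κ k A Z 0 x = 0 := by simp [hit, hx]
      rw [e]; exact this
  | succ m ih =>
    rw [hit, hit]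
    split_ifs
    · exact le_rfl
    · exact le_rfl
    · apply div_le_div_of_nonneg_right _ (add_nonneg (cs_nonneg h x) (hk x))
      apply Finset.sum_le_sum
      intro y _
      exact mul_le_mul_of_nonneg_left (ih y) (Kc_nonneg h _ _)

theorem hit_monotone (h : ∀ e, 0 ≤ κ e) (hk : ∀ x, 0 ≤ k x) (x : V) :
    Monotone (fun m => hit κ k A Z m x) :=
  monotone_nat_of_le_succ (fun m => hit_mono h hk m x)

/-- probability to hit `A` before `Z` -/
def hl (κ : Sym2 V → ℝ) (k : V → ℝ) (A Z : Finset V) (x : V) : ℝ := ⨆ m, hit κ k A Z m x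

theorem hit_bdd (h : ∀ e, 0 ≤ κ e) (hk : ∀ x, 0 ≤ k x) (x : V) :
    BddAbove (Set.range (fun m => hit κ k A Z m x)) :=
  ⟨1, by rintro _ ⟨m, rfl⟩; exact hit_le_one h hk m x⟩

theorem hit_tendsto (h : ∀ e, 0 ≤ κ e) (hk : ∀ x, 0 ≤ k x) (x : V) :
    Tendsto (fun m => hit κ k A Z m x) atTop (𝓝 (hl κ k A Z x)) :=
  tendsto_atTop_ciSup (hit_monotone h hk x) (hit_bdd h hk x)

theorem hl_nonneg (h : ∀ e, 0 ≤ κ e) (hk : ∀ x, 0 ≤ k x) (x : V) : 0 ≤ hl κ k A Z x :=
  ge_of_tendsto' (hit_tendsto h hk x) (fun m => hit_nonneg h hk m x)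

theorem hl_le_one (h : ∀ e, 0 ≤ κ e) (hk : ∀ x, 0 ≤ k x) (x : V) : hl κ k A Z x ≤ 1 :=
  le_of_tendsto' (hit_tendsto h hk x) (fun m => hit_le_one h hk m x)

theorem hl_A (h : ∀ e, 0 ≤ κ e) (hk : ∀ x, 0 ≤ k x) {x : V} (hx : x ∈ A) :
    hl κ k A Z x = 1 := by
  have h1 := hit_tendsto (A := A) (Z := Z) h hk x
  have h2 : (fun m => hit κ k A Z m x) = fun _ => (1:ℝ) := by
    funext m
    cases m <;> simp [hit, hx]
  rw [h2] at h1
  exact tendsto_nhds_unique h1 tendsto_const_nhds |>.symm ▸ rfl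

theorem hl_Z (h : ∀ e, 0 ≤ κ e) (hk : ∀ x, 0 ≤ k x) {x : V} (hx : x ∉ A) (hz : x ∈ Z) :
    hl κ k A Z x = 0 := by
  have h1 := hit_tendsto (A := A) (Z := Z) h hk x
  have h2 : (fun m => hit κ k A Z m x) = fun _ => (0:ℝ) := by
    funext m
    cases m <;> simp [hit, hx, hz]
  rw [h2] at h1
  exact tendsto_nhds_unique h1 tendsto_const_nhds

theorem hl_eq (h : ∀ e, 0 ≤ κ e) (hk : ∀ x, 0 ≤ k x) {x : V} (hx : x ∉ A) (hz : x ∉ Z) :
    (cs κ x + k x) * hl κ k A Z x = ∑ y, Kc κ x y * hl κ k A Z y := by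
  have hs : 0 ≤ cs κ x + k x := add_nonneg (cs_nonneg h x) (hk x)
  have h1 := hit_tendsto (A := A) (Z := Z) h hk x
  have h2 := (h1.comp (tendsto_add_atTop_nat 1)).const_mul (cs κ x + k x)
  have h3 : Tendsto (fun m => ∑ y, Kc κ x y * hit κ k A Z m y) atTop
      (𝓝 (∑ y, Kc κ x y * hl κ k A Z y)) :=
    tendsto_finsetSum _ (fun y _ => (hit_tendsto h hk y).const_mul _)
  refine tendsto_nhds_unique h2 (h3.congr ?_)
  intro m
  simp only [Function.comp_apply]
  rw [hit, if_neg hx, if_neg hz]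
  rcases hs.eq_or_lt with h0 | h0
  · rw [← h0, zero_mul]
    have hc : cs κ x = 0 := by
      have := cs_nonneg h x
      have := hk x
      linarith
    apply Finset.sum_eq_zero
    intro y _
    have : Kc κ x y = 0 :=
      (Finset.sum_eq_zero_iff_of_nonneg (fun y _ => Kc_nonneg h x y)).1 hc y (Finset.mem_univ _)
    rw [this, zero_mul]
  · rw [mul_div_cancel₀ _ h0.ne']

/-- the Dirichlet form -/
def En (κ : Sym2 V → ℝ) (f : V → ℝ) : ℝ := (∑ x, ∑ y, Kc κ x y * (f x - f y) ^ 2) / 2

/-- energy identity -/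
theorem energy (f : V → ℝ) (hA : ∀ x ∈ A, f x = 1) (hZ : ∀ x, x ∉ A → x ∈ Z → f x = 0)
    (hf : ∀ x, x ∉ A → x ∉ Z → (cs κ x + k x) * f x = ∑ y, Kc κ x y * f y) :
    En κ f + ∑ x, k x * f x ^ 2 =
      ∑ x, k x * f x + ∑ x ∈ Z \ A, ∑ y, Kc κ x y * f y := by
  classical
  set g : V → ℝ := fun x => ∑ y, Kc κ x y * (f x - f y) + k x * f x with hg
  have hg' : ∀ x, g x = (cs κ x + k x) * f x - ∑ y, Kc κ x y * f y := by
    intro x
    rw [hg]
    simp only
    have : ∑ y, Kc κ x y * (f x - f y) = cs κ x * f x - ∑ y, Kc κ x y * f y := by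
      unfold cs
      rw [Finset.sum_mul, ← Finset.sum_sub_distrib]
      apply Finset.sum_congr rfl
      intro y _
      ring
    rw [this]; ring
  have e1 : ∑ x, f x * g x = En κ f + ∑ x, k x * f x ^ 2 := by
    have e2 : ∑ x, f x * g x = ∑ x, ∑ y, Kc κ x y * (f x * (f x - f y)) +
        ∑ x, k x * f x ^ 2 := by
      rw [← Finset.sum_add_distrib]
      apply Finset.sum_congr rfl
      intro x _
      rw [hg]
      simp only
      rw [mul_add, Finset.mul_sum]
      congr 1
      · apply Finset.sum_congr rfl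
        intro y _
        ring
      · ring
    rw [e2]
    congr 1
    unfold En
    have e3 : ∑ x, ∑ y, Kc κ x y * (f x * (f x - f y)) =
        ∑ x, ∑ y, Kc κ x y * (f y * (f y - f x)) := by
      rw [Finset.sum_comm]
      apply Finset.sum_congr rfl
      intro x _
      apply Finset.sum_congr rfl
      intro y _
      rw [Kc_symm κ y x]
    have e4 : ∑ x, ∑ y, Kc κ x y * (f x - f y) ^ 2 =
        ∑ x, ∑ y, Kc κ x y * (f x * (f x - f y)) + ∑ x, ∑ y, Kc κ x y * (f y * (f y - f x)) := by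
      rw [← Finset.sum_add_distrib]
      apply Finset.sum_congr rfl
      intro x _
      rw [← Finset.sum_add_distrib]
      apply Finset.sum_congr rfl
      intro y _
      ring
    rw [e4, ← e3]
    ring
  have e5 : ∑ x, g x = ∑ x, k x * f x := by
    have e6 : ∑ x, ∑ y, Kc κ x y * (f x - f y) = 0 := by
      have e7 : ∑ x, ∑ y, Kc κ x y * (f x - f y) = - ∑ x, ∑ y, Kc κ x y * (f x - f y) := by
        conv_lhs => rw [Finset.sum_comm]
        rw [← Finset.sum_neg_distrib]
        apply Finset.sum_congr rfl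
        intro x _
        rw [← Finset.sum_neg_distrib]
        apply Finset.sum_congr rfl
        intro y _
        rw [Kc_symm κ y x]
        ring
      linarith
    rw [hg]
    simp only
    rw [Finset.sum_add_distrib, e6, zero_add]
  have e8 : ∑ x, f x * g x = ∑ x, g x - ∑ x ∈ Z \ A, g x := by
    have e9 : ∑ x, g x = ∑ x ∈ A, g x + ∑ x ∈ Z \ A, g x := by
      have h1 : (univ : Finset V) = A ∪ (Z \ A) ∪ (univ \ (A ∪ Z)) := by
        ext x
        simp only [Finset.mem_univ, Finset.mem_union, Finset.mem_sdiff, true_and, true_iff]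
        tauto
      have h2 : Disjoint A (Z \ A) := Finset.disjoint_sdiff
      have h3 : Disjoint (A ∪ (Z \ A)) (univ \ (A ∪ Z)) := by
        rw [Finset.disjoint_left]
        intro x hx hx'
        simp only [Finset.mem_union, Finset.mem_sdiff, Finset.mem_univ, true_and] at hx hx'
        tauto
      conv_lhs => rw [h1]
      rw [Finset.sum_union h3, Finset.sum_union h2]
      have h4 : ∑ x ∈ univ \ (A ∪ Z), g x = 0 := by
        apply Finset.sum_eq_zero
        intro x hx
        rw [Finset.mem_sdiff, Finset.mem_union] at hx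
        push Not at hx
        rw [hg', hf x hx.2.1 hx.2.2, sub_self]
      rw [h4, add_zero]
    have e10 : ∑ x, f x * g x = ∑ x ∈ A, g x := by
      rw [← Finset.sum_subset (Finset.subset_univ A)]
      · apply Finset.sum_congr rfl
        intro x hx
        rw [hA x hx, one_mul]
      · intro x _ hx
        by_cases hz : x ∈ Z
        · rw [hZ x hx hz, zero_mul]
        · rw [hg', hf x hx hz, sub_self, mul_zero]
    rw [e10, e9]
    ring
  have e11 : ∑ x ∈ Z \ A, g x = - ∑ x ∈ Z \ A, ∑ y, Kc κ x y * f y := by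
    rw [← Finset.sum_neg_distrib]
    apply Finset.sum_congr rfl
    intro x hx
    rw [Finset.mem_sdiff] at hx
    rw [hg', hZ x hx.2 hx.1]
    ring
  rw [← e1, e8, e5, e11]
  ring

/-- the energy along a simple path -/
theorem path_energy (h : ∀ e, 0 ≤ κ e) (f : V → ℝ) (l : ℕ) (x : ℕ → V)
    (hinj : Set.InjOn x (Set.Iic l)) (hpos : ∀ i < l, 0 < κ s(x i, x (i + 1))) :
    (f (x l) - f (x 0)) ^ 2 ≤ (∑ i ∈ range l, (κ s(x i, x (i + 1)))⁻¹) * En κ f := by
  classical
  have hne : ∀ i < l, x i ≠ x (i + 1) := by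
    intro i hi he
    have := hinj (x₁ := i) (x₂ := i + 1) (by simp only [Set.mem_Iic]; omega)
      (by simp only [Set.mem_Iic]; omega) he
    omega
  have hK : ∀ i < l, Kc κ (x i) (x (i + 1)) = κ s(x i, x (i + 1)) := fun i hi => by
    unfold Kc; rw [if_neg (hne i hi)]
  have h1 : f (x l) - f (x 0) = ∑ i ∈ range l, (f (x (i + 1)) - f (x i)) := by
    rw [Finset.sum_range_sub (fun i => f (x i))]
  have h2 : (∑ i ∈ range l, (f (x (i + 1)) - f (x i))) ^ 2 ≤
      (∑ i ∈ range l, (κ s(x i, x (i + 1)))⁻¹) *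
      ∑ i ∈ range l, κ s(x i, x (i + 1)) * (f (x i) - f (x (i + 1))) ^ 2 := by
    apply Finset.sum_sq_le_sum_mul_sum_of_sq_le_mul
    · intro i _
      exact inv_nonneg.2 (h _)
    · intro i _
      exact mul_nonneg (h _) (sq_nonneg _)
    · intro i hi
      have := hpos i (Finset.mem_range.1 hi)
      apply le_of_eq
      field_simp
      ring
  rw [h1]
  refine h2.trans ?_
  apply mul_le_mul_of_nonneg_left
  · unfold En
    rw [le_div_iff₀ (by norm_num : (0:ℝ) < 2)]
    set F : V × V → ℝ := fun q => Kc κ q.1 q.2 * (f q.1 - f q.2) ^ 2 with hF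
    have hF0 : ∀ q, 0 ≤ F q := fun q => mul_nonneg (Kc_nonneg h _ _) (sq_nonneg _)
    have i1 : Set.InjOn (fun i => (x i, x (i + 1))) ((range l : Finset ℕ) : Set ℕ) := by
      intro a ha b hb hab
      rw [Finset.coe_range, Set.mem_Iio] at ha hb
      exact hinj (by simp only [Set.mem_Iic]; omega) (by simp only [Set.mem_Iic]; omega)
        (congrArg Prod.fst hab)
    have i2 : Set.InjOn (fun i => (x (i + 1), x i)) ((range l : Finset ℕ) : Set ℕ) := by
      intro a ha b hb hab
      rw [Finset.coe_range, Set.mem_Iio] at ha hb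
      exact hinj (by simp only [Set.mem_Iic]; omega) (by simp only [Set.mem_Iic]; omega)
        (congrArg Prod.snd hab)
    have hd : Disjoint ((range l).image (fun i => (x i, x (i + 1))))
        ((range l).image (fun i => (x (i + 1), x i))) := by
      rw [Finset.disjoint_left]
      intro q hq hq'
      obtain ⟨a, ha, rfl⟩ := Finset.mem_image.1 hq
      obtain ⟨b, hb, hab⟩ := Finset.mem_image.1 hq'
      rw [Finset.mem_range] at ha hb
      have e1 := hinj (x₁ := b + 1) (x₂ := a) (by simp only [Set.mem_Iic]; omega)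
        (by simp only [Set.mem_Iic]; omega) (congrArg Prod.fst hab)
      have e2 := hinj (x₁ := b) (x₂ := a + 1) (by simp only [Set.mem_Iic]; omega)
        (by simp only [Set.mem_Iic]; omega) (congrArg Prod.snd hab)
      omega
    have e1 : ∑ i ∈ range l, κ s(x i, x (i + 1)) * (f (x i) - f (x (i + 1))) ^ 2 =
        ∑ q ∈ (range l).image (fun i => (x i, x (i + 1))), F q := by
      rw [Finset.sum_image i1]
      apply Finset.sum_congr rfl
      intro i hi
      rw [hF]
      simp only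
      rw [hK i (Finset.mem_range.1 hi)]
    have e2 : ∑ i ∈ range l, κ s(x i, x (i + 1)) * (f (x i) - f (x (i + 1))) ^ 2 =
        ∑ q ∈ (range l).image (fun i => (x (i + 1), x i)), F q := by
      rw [Finset.sum_image i2]
      apply Finset.sum_congr rfl
      intro i hi
      rw [hF]
      simp only
      rw [Kc_symm, hK i (Finset.mem_range.1 hi)]
      ring
    calc (∑ i ∈ range l, κ s(x i, x (i + 1)) * (f (x i) - f (x (i + 1))) ^ 2) * 2
        = ∑ q ∈ (range l).image (fun i => (x i, x (i + 1))), F q +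
          ∑ q ∈ (range l).image (fun i => (x (i + 1), x i)), F q := by
          rw [← e1, ← e2]; ring
      _ = ∑ q ∈ (range l).image (fun i => (x i, x (i + 1))) ∪
          (range l).image (fun i => (x (i + 1), x i)), F q := (Finset.sum_union hd).symm
      _ ≤ ∑ q, F q := Finset.sum_le_univ_sum_of_nonneg hF0
      _ = _ := by rw [Fintype.sum_prod_type]
  · exact Finset.sum_nonneg (fun i _ => inv_nonneg.2 (h _))

/-- escape probability from the vertex where the killing takes place -/
theorem escape (h : ∀ e, 0 ≤ κ e) {c : ℝ} (hc : 0 ≤ c) (y : V) (l : ℕ) (x : ℕ → V)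
    (hinj : Set.InjOn x (Set.Iic l)) (hpos : ∀ i < l, 0 < κ s(x i, x (i + 1)))
    (h0 : x 0 = y) (hl' : x l ∈ A) {R : ℝ}
    (hR : c * ∑ i ∈ range l, (κ s(x i, x (i + 1)))⁻¹ ≤ R) :
    (1 + R)⁻¹ ≤ hl κ (fun v => if v = y then c else 0) A ∅ y := by
  classical
  set k : V → ℝ := fun v => if v = y then c else 0 with hk
  have hk0 : ∀ v, 0 ≤ k v := fun v => by rw [hk]; simp only; split_ifs <;> linarith
  set f := hl κ k A ∅ with hf
  have e1 := energy (κ := κ) (k := k) (A := A) (Z := ∅) f (fun v hv => hl_A h hk0 hv)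
    (fun v _ hv => absurd hv (Finset.notMem_empty _)) (fun v hv _ => hl_eq h hk0 hv
      (Finset.notMem_empty _))
  have e2 := path_energy (κ := κ) h f l x hinj hpos
  have e3 : ∑ v, k v * f v ^ 2 = c * f y ^ 2 := by
    rw [Finset.sum_eq_single y]
    · rw [hk]; simp
    · intro v _ hv; rw [hk]; simp [hv]
    · intro hh; exact absurd (Finset.mem_univ _) hh
  have e4 : ∑ v, k v * f v = c * f y := by
    rw [Finset.sum_eq_single y]
    · rw [hk]; simp
    · intro v _ hv; rw [hk]; simp [hv]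
    · intro hh; exact absurd (Finset.mem_univ _) hh
  rw [e3, e4, Finset.empty_sdiff, Finset.sum_empty, add_zero] at e1
  have e5 : f (x l) = 1 := hl_A h hk0 hl'
  rw [e5, h0] at e2
  set S := ∑ i ∈ range l, (κ s(x i, x (i + 1)))⁻¹ with hS
  have hS0 : 0 ≤ S := Finset.sum_nonneg (fun i _ => inv_nonneg.2 (h _))
  have hfy1 : f y ≤ 1 := hl_le_one h hk0 y
  have hfy0 : 0 ≤ f y := hl_nonneg h hk0 y
  have hR0 : 0 ≤ R := (mul_nonneg hc hS0).trans hR
  have e6 : En κ f = c * f y * (1 - f y) := by linarith [e1, sq (f y)]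
  rw [e6] at e2
  rw [inv_le_iff_one_le_mul₀ (by linarith)]
  rcases hfy1.eq_or_lt with h1 | h1
  · rw [h1]; linarith
  · have h2 : 0 < 1 - f y := by linarith
    have h3 : (1 - f y) * (1 - f y) ≤ (c * S * f y) * (1 - f y) := by nlinarith
    have h4 := le_of_mul_le_mul_right h3 h2
    have h5 : c * S * f y ≤ R * f y := mul_le_mul_of_nonneg_right hR hfy0
    nlinarith

/-- escape from a vertex `v` to `z` -/
theorem escape_vertex (h : ∀ e, 0 ≤ κ e) {v z : V} (hvz : v ≠ z) (l : ℕ) (x : ℕ → V)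
    (hinj : Set.InjOn x (Set.Iic l)) (hpos : ∀ i < l, 0 < κ s(x i, x (i + 1)))
    (h0 : x 0 = v) (hl' : x l = z) :
    1 ≤ (∑ i ∈ range l, (κ s(x i, x (i + 1)))⁻¹) *
      ∑ y, Kc κ v y * hl κ (fun _ => 0) {z} {v} y := by
  classical
  set k : V → ℝ := fun _ => 0 with hk
  have hk0 : ∀ v, 0 ≤ k v := fun v => le_rfl
  set f := hl κ k {z} {v} with hf
  have hvA : v ∉ ({z} : Finset V) := by simpa using hvz
  have e1 := energy (κ := κ) (k := k) (A := {z}) (Z := {v}) f (fun v hv => hl_A h hk0 hv)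
    (fun v hv hv' => hl_Z h hk0 hv hv') (fun v hv hv' => hl_eq h hk0 hv hv')
  have e2 := path_energy (κ := κ) h f l x hinj hpos
  have e3 : f (x l) = 1 := hl_A h hk0 (by rw [hl']; simp)
  have e4 : f (x 0) = 0 := hl_Z h hk0 (by rw [h0]; exact hvA) (by rw [h0]; simp)
  have e5 : ({v} : Finset V) \ {z} = {v} := by
    ext w
    simp only [Finset.mem_sdiff, Finset.mem_singleton]
    constructor
    · exact fun h => h.1
    · exact fun h => ⟨h, fun h' => hvz (h ▸ h')⟩
  rw [e5] at e1
  simp only [hk, zero_mul, Finset.sum_const_zero, add_zero, zero_add, Finset.sum_singleton] at e1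
  rw [e3, e4, e1] at e2
  linarith

end

end

end Pool.Agent.TH972
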