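import Mathlib

/-!
# The random spanning tree in random environment on the complete graph, weights `exp (-β U)`
-/

set_option autoImplicit false

namespace Pool.Agent.TH972.RSTRE

open MeasureTheory Filter Topology

/-- The law of the environment on the complete graph with vertex set `Fin n`: independent
variables `U e`, uniform on `[0, 1]`, one for every unordered pair `e` of vertices (those of the
loops are not used). -/
noncomputable def env (n : ℕ) : Measure (Sym2 (Fin n) → ℝ) :=
  Measure.pi (fun _ => (volume : Measure ℝ).restrict (Set.Icc 0 1))

open Classical in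
/-- The weight `exp (-β ∑ U e)` of `T`, as the product of `exp (-β U e)` over its edges. -/
noncomputable def treeWt {n : ℕ} (β : ℝ) (U : Sym2 (Fin n) → ℝ) (T : SimpleGraph (Fin n)) : ℝ :=
  ∏ e ∈ Finset.univ.filter (fun e => e ∈ T.edgeSet), Real.exp (-(β * U e))

open Classical in
/-- The probability of the event `A` for the random spanning tree of the complete graph on
`Fin n` whose probabilities are proportional to `treeWt β U`. -/
noncomputable def gibbs {n : ℕ} (β : ℝ) (U : Sym2 (Fin n) → ℝ) (A : SimpleGraph (Fin n) → Prop) :
    ℝ :=
  (∑ T ∈ Finset.univ.filter (fun T : SimpleGraph (Fin n) => T.IsTree ∧ A T), treeWt β U T) /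
    ∑ T ∈ Finset.univ.filter (fun T : SimpleGraph (Fin n) => T.IsTree), treeWt β U T

/-- The averaged probability of the event `A`. -/
noncomputable def avg (β : ℝ) (n : ℕ) (A : SimpleGraph (Fin n) → Prop) : ℝ :=
  ∫ U, gibbs β U A ∂(env n)

end Pool.Agent.TH972.RSTRE
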