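import Pool.Agent.TH972.Hist

/-!
# The stopped walk in a fixed environment
-/

set_option autoImplicit false
set_option linter.unusedSectionVars false

namespace Pool.Agent.TH972

open Finset

noncomputable section

/-- indicator of a proposition -/
def ind (P : Prop) : ℝ := open Classical in if P then 1 else 0

theorem ind_nonneg (P : Prop) : 0 ≤ ind P := by unfold ind; split_ifs <;> norm_num

theorem ind_le_one (P : Prop) : ind P ≤ 1 := by unfold ind; split_ifs <;> norm_num

theorem ind_true {P : Prop} (h : P) : ind P = 1 := by unfold ind; rw [if_pos h]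

theorem ind_false {P : Prop} (h : ¬ P) : ind P = 0 := by unfold ind; rw [if_neg h]

theorem ind_mono {P Q : Prop} (h : P → Q) : ind P ≤ ind Q := by
  by_cases hP : P
  · rw [ind_true hP, ind_true (h hP)]
  · rw [ind_false hP]; exact ind_nonneg Q

/-- the data of the stopped walk -/
structure Dat (V : Type*) where
  /-- conductances -/
  κ : Sym2 V → ℝ
  /-- open edges -/
  g : Sym2 V → Prop
  /-- top edges -/
  top : Sym2 V → Prop
  /-- target -/
  R : Finset V
  /-- maximal number of vertices -/
  k0 : ℕ
  κ0 : ∀ e, 0 ≤ κ e
  κg : ∀ e, κ e ≠ 0 → g e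

variable {V : Type*} [Fintype V] [DecidableEq V]

/-- the new vertex `x` has a second neighbour in the history -/
def clo (g : Sym2 V → Prop) (x : V) (t : List V) : Prop :=
  x ∉ t ∧ ∃ w ∈ t, t.head? ≠ some w ∧ g s(w, x)

/-- stopping rule -/
def stp (D : Dat V) (x : V) (t : List V) : Prop :=
  x ∈ D.R ∨ clo D.g x t ∨ D.k0 ≤ (vis x t).card

/-- number of top edges on the path of first entrance edges -/
def lev (top : Sym2 V → Prop) : List V → V → ℕ
  | [] => fun _ => 0
  | [_] => fun _ => 0
  | (y :: x :: t) => if y ∈ x :: t then lev top (x :: t) else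
      Function.update (lev top (x :: t)) y
        (lev top (x :: t) x + open Classical in if top s(x, y) then 1 else 0)

theorem lev_old (top : Sym2 V → Prop) {y x : V} {t : List V} (h : y ∈ x :: t) :
    lev top (y :: x :: t) = lev top (x :: t) := by
  conv_lhs => unfold lev
  rw [if_pos h]

theorem lev_new (top : Sym2 V → Prop) {y x : V} {t : List V} (h : y ∉ x :: t) :
    lev top (y :: x :: t) y =
      lev top (x :: t) x + open Classical in if top s(x, y) then 1 else 0 := by
  conv_lhs => unfold lev
  rw [if_neg h, Function.update_self]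

theorem lev_other (top : Sym2 V → Prop) {y x w : V} {t : List V} (h : w ≠ y) :
    lev top (y :: x :: t) w = lev top (x :: t) w := by
  by_cases h' : y ∈ x :: t
  · rw [lev_old top h']
  · conv_lhs => unfold lev
    rw [if_neg h', Function.update_of_ne h]

theorem tr_pos_g (D : Dat V) {x y : V} (h : tr D.κ x y ≠ 0) : D.g s(x, y) ∧ x ≠ y := by
  constructor
  · apply D.κg
    intro h'
    apply h
    unfold tr Kc
    split_ifs <;> simp [h']
  · rintro rfl
    exact h (tr_self _ _)

/-- occupation functional -/
def occ (D : Dat V) (G : ℕ → V → List V → ℝ) : ℕ → V → List V → ℝ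
  | 0, _, _ => 0
  | (m + 1), x, t => open Classical in if stp D x t then 0 else
      G m x t + ∑ y, tr D.κ x y * occ D G m y (x :: t)

/-- one step -/
def st (D : Dat V) (g : V → List V → ℝ) (x : V) (t : List V) : ℝ :=
  ∑ y, tr D.κ x y * g y (x :: t)

theorem occ_stp (D : Dat V) (G : ℕ → V → List V → ℝ) (m : ℕ) {x : V} {t : List V}
    (h : stp D x t) : occ D G m x t = 0 := by
  cases m with
  | zero => rfl
  | succ m => unfold occ; rw [if_pos h]

theorem occ_succ (D : Dat V) (G : ℕ → V → List V → ℝ) (m : ℕ) {x : V} {t : List V}
    (h : ¬ stp D x t) :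
    occ D G (m + 1) x t = G m x t + ∑ y, tr D.κ x y * occ D G m y (x :: t) := by
  conv_lhs => unfold occ
  rw [if_neg h]

theorem occ_nonneg (D : Dat V) {G : ℕ → V → List V → ℝ} (hG : ∀ m x t, 0 ≤ G m x t) (m : ℕ)
    (x : V) (t : List V) : 0 ≤ occ D G m x t := by
  induction m generalizing x t with
  | zero => exact le_rfl
  | succ m ih =>
    by_cases h : stp D x t
    · rw [occ_stp D G _ h]
    · rw [occ_succ D G m h]
      apply add_nonneg (hG _ _ _)
      exact Finset.sum_nonneg (fun y _ => mul_nonneg (tr_nonneg D.κ0 x y) (ih y _))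

theorem occ_mono (D : Dat V) {G G' : ℕ → V → List V → ℝ} (hG : ∀ m x t, G m x t ≤ G' m x t)
    (m : ℕ) (x : V) (t : List V) : occ D G m x t ≤ occ D G' m x t := by
  induction m generalizing x t with
  | zero => exact le_rfl
  | succ m ih =>
    by_cases h : stp D x t
    · rw [occ_stp D G _ h, occ_stp D G' _ h]
    · rw [occ_succ D G m h, occ_succ D G' m h]
      apply add_le_add (hG _ _ _)
      exact Finset.sum_le_sum
        (fun y _ => mul_le_mul_of_nonneg_left (ih y _) (tr_nonneg D.κ0 x y))

theorem occ_add (D : Dat V) (G G' : ℕ → V → List V → ℝ) (m : ℕ) (x : V) (t : List V) :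
    occ D (fun m x t => G m x t + G' m x t) m x t = occ D G m x t + occ D G' m x t := by
  induction m generalizing x t with
  | zero => unfold occ; norm_num
  | succ m ih =>
    by_cases h : stp D x t
    · rw [occ_stp D _ _ h, occ_stp D _ _ h, occ_stp D _ _ h, add_zero]
    · rw [occ_succ D _ m h, occ_succ D _ m h, occ_succ D _ m h]
      simp_rw [ih, mul_add]
      rw [Finset.sum_add_distrib]
      ring

theorem occ_mul (D : Dat V) (c : ℝ) (G : ℕ → V → List V → ℝ) (m : ℕ) (x : V) (t : List V) :
    occ D (fun m x t => c * G m x t) m x t = c * occ D G m x t := by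
  induction m generalizing x t with
  | zero => unfold occ; norm_num
  | succ m ih =>
    by_cases h : stp D x t
    · rw [occ_stp D _ _ h, occ_stp D _ _ h, mul_zero]
    · rw [occ_succ D _ m h, occ_succ D _ m h]
      simp_rw [ih]
      rw [mul_add, Finset.mul_sum]
      congr 1
      apply Finset.sum_congr rfl
      intro y _
      ring

theorem occ_sum (D : Dat V) {ι : Type*} (s : Finset ι) (G : ι → ℕ → V → List V → ℝ) (m : ℕ)
    (x : V) (t : List V) :
    occ D (fun m x t => ∑ i ∈ s, G i m x t) m x t = ∑ i ∈ s, occ D (G i) m x t := by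
  classical
  induction s using Finset.induction_on with
  | empty =>
    simp only [Finset.sum_empty]
    have : occ D (fun _ _ _ => (0:ℝ)) m x t = 0 := by
      have h := occ_mul D 0 (fun _ _ _ => (0:ℝ)) m x t
      simpa using h
    exact this
  | insert a s ha ih =>
    rw [Finset.sum_insert ha, ← ih, ← occ_add]
    congr 1
    funext m x t
    rw [Finset.sum_insert ha]

/-- probability that the walk stops within `m` steps -/
def Bf (D : Dat V) : ℕ → V → List V → ℝ
  | 0, x, t => ind (stp D x t)
  | (m + 1), x, t => open Classical in if stp D x t then 1 else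
      ∑ y, tr D.κ x y * Bf D m y (x :: t)

/-- probability that the walk stops within `m` steps before it visits `z` -/
def ef (D : Dat V) (z : V) : ℕ → V → List V → ℝ
  | 0, x, t => ind (stp D x t)
  | (m + 1), x, t => open Classical in if stp D x t then 1 else
      ∑ y, tr D.κ x y * (if y = z then 0 else ef D z m y (x :: t))

theorem Bf_stp (D : Dat V) (m : ℕ) {x : V} {t : List V} (h : stp D x t) : Bf D m x t = 1 := by
  cases m with
  | zero => unfold Bf; exact ind_true h
  | succ m => unfold Bf; rw [if_pos h]

theorem ef_stp (D : Dat V) (z : V) (m : ℕ) {x : V} {t : List V} (h : stp D x t) :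
    ef D z m x t = 1 := by
  cases m with
  | zero => unfold ef; exact ind_true h
  | succ m => unfold ef; rw [if_pos h]

theorem ef_nonneg (D : Dat V) (z : V) (m : ℕ) (x : V) (t : List V) : 0 ≤ ef D z m x t := by
  induction m generalizing x t with
  | zero => exact ind_nonneg _
  | succ m ih =>
    unfold ef
    split_ifs
    · norm_num
    · apply Finset.sum_nonneg
      intro y _
      apply mul_nonneg (tr_nonneg D.κ0 x y)
      split_ifs
      · exact le_rfl
      · exact ih y _

theorem Bf_nonneg (D : Dat V) (m : ℕ) (x : V) (t : List V) : 0 ≤ Bf D m x t := by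
  induction m generalizing x t with
  | zero => exact ind_nonneg _
  | succ m ih =>
    unfold Bf
    split_ifs
    · norm_num
    · exact Finset.sum_nonneg (fun y _ => mul_nonneg (tr_nonneg D.κ0 x y) (ih y _))

/-- `y` is entered through a top edge at level `j` -/
def isL (D : Dat V) (j : ℕ) (y : V) : List V → Prop
  | [] => False
  | (x :: t) => y ∉ x :: t ∧ D.top s(x, y) ∧ lev D.top (x :: t) x + 1 = j

/-- the walk is below a top edge `(z, .)` of level `j` -/
def alive (D : Dat V) (j : ℕ) (z x : V) (t : List V) : Prop :=
  ∃ S : Finset V, x ∈ S ∧ z ∉ S ∧ (∀ w ∈ S, w ∈ x :: t ∧ j ≤ lev D.top (x :: t) w) ∧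
    ∀ w ∈ S, ∀ w' ∈ x :: t, w' ≠ w → D.g s(w, w') → w' ∈ S ∨ w' = z

theorem alive_step (D : Dat V) {j : ℕ} {z x y : V} {t : List V} (h : alive D j z x t)
    (hg : D.g s(x, y)) (hxy : x ≠ y) (hyz : y ≠ z) (hs : ¬ stp D y (x :: t)) :
    alive D j z y (x :: t) := by
  obtain ⟨S, hx, hz, h1, h2⟩ := h
  by_cases hy : y ∈ x :: t
  · refine ⟨S, ?_, hz, ?_, ?_⟩
    · rcases h2 x hx y hy hxy.symm hg with h3 | h3
      · exact h3
      · exact absurd h3 hyz
    · intro w hw
      rw [lev_old D.top hy]
      exact ⟨List.mem_cons_of_mem _ (h1 w hw).1, (h1 w hw).2⟩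
    · intro w hw w' hw' hne hgw
      apply h2 w hw w' _ hne hgw
      rcases List.mem_cons.1 hw' with h3 | h3
      · rw [h3]; exact hy
      · exact h3
  · have hyS : y ∉ S := fun h => hy (h1 y h).1
    refine ⟨insert y S, Finset.mem_insert_self _ _, ?_, ?_, ?_⟩
    · rw [Finset.mem_insert, not_or]
      exact ⟨fun h => hyz h.symm, hz⟩
    · intro w hw
      rcases Finset.mem_insert.1 hw with h3 | h3
      · subst h3
        refine ⟨List.mem_cons_self, ?_⟩
        rw [lev_new D.top hy]
        have := (h1 x hx).2
        omega
      · have hwy : w ≠ y := fun h => hyS (h ▸ h3)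
        refine ⟨List.mem_cons_of_mem _ (h1 w h3).1, ?_⟩
        rw [lev_other D.top hwy]
        exact (h1 w h3).2
    · intro w hw w' hw' hne hgw
      rcases Finset.mem_insert.1 hw with h3 | h3
      · subst h3
        rcases List.mem_cons.1 hw' with h4 | h4
        · exact absurd h4 hne
        · left
          have hclo : ¬ clo D.g w (x :: t) := fun h => hs (Or.inr (Or.inl h))
          by_contra hcon
          apply hclo
          refine ⟨hy, w', h4, ?_, ?_⟩
          · simp only [List.head?_cons, ne_eq, Option.some.injEq]
            rintro rfl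
            exact hcon (Finset.mem_insert_of_mem hx)
          · rwa [Sym2.eq_swap]
      · rcases List.mem_cons.1 hw' with h4 | h4
        · left; rw [h4]; exact Finset.mem_insert_self _ _
        · rcases h2 w h3 w' h4 hne hgw with h5 | h5
          · left; exact Finset.mem_insert_of_mem h5
          · exact Or.inr h5

/-- the occupation functional of the entrances at level `j` -/
def GLe (D : Dat V) (j : ℕ) (m : ℕ) (x : V) (t : List V) : ℝ :=
  st D (fun y s => ind (isL D j y s) * ef D x m y s) x t

theorem GLe_eq (D : Dat V) (j : ℕ) (m : ℕ) (x : V) (t : List V) :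
    GLe D j m x t = ∑ y, tr D.κ x y * (ind (isL D j y (x :: t)) * ef D x m y (x :: t)) := rfl

/-- entrances at level `j` which do not return to the previous vertex before the walk stops -/
theorem occ_GLe_le (D : Dat V) (j : ℕ) (m : ℕ) :
    (∀ x t, occ D (GLe D j) m x t ≤ Bf D m x t) ∧
    (∀ z x t, alive D j z x t → occ D (GLe D j) m x t + ef D z m x t ≤ Bf D m x t) := by
  induction m with
  | zero =>
    refine ⟨fun x t => ?_, fun z x t _ => ?_⟩
    · unfold occ; exact Bf_nonneg _ _ _ _
    · unfold occ ef Bf; rw [zero_add]
  | succ m ih =>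
    obtain ⟨ihA, ihB⟩ := ih
    refine ⟨fun x t => ?_, fun z x t hal => ?_⟩
    · by_cases hs : stp D x t
      · rw [occ_stp D _ _ hs]; exact Bf_nonneg _ _ _ _
      · rw [occ_succ D _ m hs, GLe_eq]
        rw [← Finset.sum_add_distrib]
        conv_rhs => unfold Bf
        rw [if_neg hs]
        apply Finset.sum_le_sum
        intro y _
        rw [← mul_add]
        by_cases ht : tr D.κ x y = 0
        · rw [ht, zero_mul, zero_mul]
        apply mul_le_mul_of_nonneg_left _ (tr_nonneg D.κ0 x y)
        obtain ⟨hg, hxy⟩ := tr_pos_g D ht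
        by_cases hL : isL D j y (x :: t)
        · rw [ind_true hL, one_mul]
          by_cases hs' : stp D y (x :: t)
          · rw [ef_stp D _ _ hs', occ_stp D _ _ hs', Bf_stp D _ hs', add_zero]
          · rw [add_comm]
            apply ihB x y (x :: t)
            refine ⟨{y}, by simp, by simpa using hxy, ?_, ?_⟩
            · intro w hw
              rw [Finset.mem_singleton] at hw
              subst hw
              refine ⟨List.mem_cons_self, ?_⟩
              rw [lev_new D.top hL.1, if_pos hL.2.1, hL.2.2]
            · intro w hw w' hw' hne hgw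
              rw [Finset.mem_singleton] at hw
              subst hw
              right
              rcases List.mem_cons.1 hw' with h4 | h4
              · exact absurd h4 hne
              · by_contra hcon
                apply hs'
                right; left
                refine ⟨hL.1, w', h4, ?_, ?_⟩
                · simp only [List.head?_cons, ne_eq, Option.some.injEq]
                  exact fun h => hcon h.symm
                · rwa [Sym2.eq_swap]
        · rw [ind_false hL, zero_mul, zero_add]
          exact ihA y (x :: t)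
    · by_cases hs : stp D x t
      · rw [occ_stp D _ _ hs, ef_stp D _ _ hs, Bf_stp D _ hs, zero_add]
      · rw [occ_succ D _ m hs, GLe_eq]
        conv_lhs => arg 2; unfold ef
        rw [if_neg hs, ← Finset.sum_add_distrib, ← Finset.sum_add_distrib]
        conv_rhs => unfold Bf
        rw [if_neg hs]
        apply Finset.sum_le_sum
        intro y _
        rw [← mul_add, ← mul_add]
        by_cases ht : tr D.κ x y = 0
        · rw [ht, zero_mul, zero_mul]
        apply mul_le_mul_of_nonneg_left _ (tr_nonneg D.κ0 x y)
        obtain ⟨hg, hxy⟩ := tr_pos_g D ht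
        have hlx : j ≤ lev D.top (x :: t) x := by
          obtain ⟨S, hx, _, h1, _⟩ := hal
          exact (h1 x hx).2
        have hL : ¬ isL D j y (x :: t) := by
          rintro ⟨_, _, h3⟩
          omega
        rw [ind_false hL, zero_mul, zero_add]
        by_cases hyz : y = z
        · rw [if_pos hyz, add_zero]
          exact ihA y (x :: t)
        · rw [if_neg hyz]
          by_cases hs' : stp D y (x :: t)
          · rw [ef_stp D _ _ hs', occ_stp D _ _ hs', Bf_stp D _ hs', zero_add]
          · exact ihB z y (x :: t) (alive_step D hal hg hxy hyz hs')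

end

end Pool.Agent.TH972
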