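import Pool.Agent.TH972.Walk

/-!
# Deterministic inequalities for the stopped walk
-/

set_option autoImplicit false
set_option linter.unusedSectionVars false

namespace Pool.Agent.TH972

open Finset

noncomputable section

variable {V : Type*} [Fintype V] [DecidableEq V]

/-- occupation of a step functional -/
def oc (D : Dat V) (g : V → List V → ℝ) (m : ℕ) (x : V) (t : List V) : ℝ :=
  occ D (fun _ => st D g) m x t

theorem oc_zero (D : Dat V) (g : V → List V → ℝ) (x : V) (t : List V) : oc D g 0 x t = 0 := rfl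

theorem oc_stp (D : Dat V) (g : V → List V → ℝ) (m : ℕ) {x : V} {t : List V}
    (h : stp D x t) : oc D g m x t = 0 := occ_stp D _ m h

theorem oc_succ (D : Dat V) (g : V → List V → ℝ) (m : ℕ) {x : V} {t : List V}
    (h : ¬ stp D x t) :
    oc D g (m + 1) x t = ∑ y, tr D.κ x y * (g y (x :: t) + oc D g m y (x :: t)) := by
  unfold oc
  rw [occ_succ D _ m h]
  unfold st
  rw [← Finset.sum_add_distrib]
  apply Finset.sum_congr rfl
  intro y _
  ring

theorem oc_nonneg (D : Dat V) {g : V → List V → ℝ} (hg : ∀ x t, 0 ≤ g x t) (m : ℕ) (x : V)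
    (t : List V) : 0 ≤ oc D g m x t :=
  occ_nonneg D (fun _ x t => Finset.sum_nonneg
    (fun y _ => mul_nonneg (tr_nonneg D.κ0 x y) (hg y _))) m x t

/-- weighted sums with total weight at most one -/
theorem sum_tr_mul_le (D : Dat V) (x : V) {f : V → ℝ} {c : ℝ} (hc : 0 ≤ c)
    (h : ∀ y, tr D.κ x y ≠ 0 → f y ≤ c) : ∑ y, tr D.κ x y * f y ≤ c := by
  calc ∑ y, tr D.κ x y * f y ≤ ∑ y, tr D.κ x y * c := by
        apply Finset.sum_le_sum
        intro y _
        by_cases ht : tr D.κ x y = 0
        · rw [ht, zero_mul, zero_mul]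
        · exact mul_le_mul_of_nonneg_left (h y ht) (tr_nonneg D.κ0 x y)
    _ = (∑ y, tr D.κ x y) * c := by rw [Finset.sum_mul]
    _ ≤ 1 * c := mul_le_mul_of_nonneg_right (sum_tr_le D.κ0 x) hc
    _ = c := one_mul c

/-- induction scheme: potential `Φ` pays for `g` with income `g'` -/
theorem oc_le_potential (D : Dat V) (g g' Φ : V → List V → ℝ)
    (I : V → List V → Prop)
    (hΦ0 : ∀ x t, I x t → 0 ≤ Φ x t)
    (hstep : ∀ x t y, I x t → ¬ stp D x t → tr D.κ x y ≠ 0 →
      I y (x :: t) ∧ g y (x :: t) + Φ y (x :: t) ≤ Φ x t + g' y (x :: t))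
    (m : ℕ) (x : V) (t : List V) (hI : I x t) :
    oc D g m x t ≤ Φ x t + oc D g' m x t := by
  induction m generalizing x t with
  | zero => rw [oc_zero, oc_zero, add_zero]; exact hΦ0 x t hI
  | succ m ih =>
    by_cases hs : stp D x t
    · rw [oc_stp D _ _ hs, oc_stp D _ _ hs, add_zero]; exact hΦ0 x t hI
    · rw [oc_succ D g m hs, oc_succ D g' m hs]
      have h1 : ∑ y, tr D.κ x y * (g y (x :: t) + oc D g m y (x :: t)) ≤
          ∑ y, tr D.κ x y * (Φ x t) +
          ∑ y, tr D.κ x y * (g' y (x :: t) + oc D g' m y (x :: t)) := by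
        rw [← Finset.sum_add_distrib]
        apply Finset.sum_le_sum
        intro y _
        by_cases ht : tr D.κ x y = 0
        · rw [ht]; simp
        · rw [← mul_add]
          apply mul_le_mul_of_nonneg_left _ (tr_nonneg D.κ0 x y)
          obtain ⟨h2, h3⟩ := hstep x t y hI hs ht
          have h4 := ih y (x :: t) h2
          linarith
      have h5 : ∑ y, tr D.κ x y * (Φ x t) ≤ Φ x t :=
        sum_tr_mul_le D x (hΦ0 x t hI) (fun _ _ => le_rfl)
      linarith

/-- number of edges with property `q` from `w` to the complement of `S` -/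
def cnt (q : Sym2 V → Prop) (S : Finset V) (w : V) : ℝ := ∑ u ∈ Sᶜ, ind (q s(w, u))

theorem cnt_nonneg (q : Sym2 V → Prop) (S : Finset V) (w : V) : 0 ≤ cnt q S w :=
  Finset.sum_nonneg (fun _ _ => ind_nonneg _)

theorem cnt_insert (q : Sym2 V → Prop) {S : Finset V} {w y : V} (hy : y ∉ S) :
    cnt q (insert y S) w + ind (q s(w, y)) = cnt q S w := by
  unfold cnt
  rw [Finset.compl_insert, add_comm, Finset.add_sum_erase Sᶜ (fun u => ind (q s(w, u)))
    (Finset.mem_compl.2 hy)]

/-- number of edges with property `q` from the vertices of `S` with property `P` to the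
complement of `S` -/
def bdy (q : Sym2 V → Prop) (P : V → Prop) (S : Finset V) : ℝ :=
  ∑ w ∈ S, ind (P w) * cnt q S w

theorem bdy_nonneg (q : Sym2 V → Prop) (P : V → Prop) (S : Finset V) : 0 ≤ bdy q P S :=
  Finset.sum_nonneg (fun _ _ => mul_nonneg (ind_nonneg _) (cnt_nonneg _ _ _))

theorem bdy_insert (q : Sym2 V → Prop) (P P' : V → Prop) {S : Finset V} {x y : V} (hx : x ∈ S)
    (hy : y ∉ S) (hP : ∀ w ∈ S, (P w ↔ P' w)) :
    bdy q P' (insert y S) + ind (P x) * ind (q s(x, y)) ≤
      bdy q P S + ind (P' y) * cnt q (insert y S) y := by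
  unfold bdy
  rw [Finset.sum_insert hy]
  have h1 : ∑ w ∈ S, ind (P' w) * cnt q (insert y S) w +
      ∑ w ∈ S, ind (P w) * ind (q s(w, y)) = ∑ w ∈ S, ind (P w) * cnt q S w := by
    rw [← Finset.sum_add_distrib]
    apply Finset.sum_congr rfl
    intro w hw
    have : ind (P' w) = ind (P w) := by
      by_cases h : P w
      · rw [ind_true h, ind_true ((hP w hw).1 h)]
      · rw [ind_false h, ind_false (fun h' => h ((hP w hw).2 h'))]
    rw [this, ← mul_add, cnt_insert q hy]
  have h2 : ind (P x) * ind (q s(x, y)) ≤ ∑ w ∈ S, ind (P w) * ind (q s(w, y)) :=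
    Finset.single_le_sum (f := fun w => ind (P w) * ind (q s(w, y)))
      (fun w _ => mul_nonneg (ind_nonneg _) (ind_nonneg _)) hx
  linarith

theorem self_mem_vis (x : V) (t : List V) : x ∈ vis x t := mem_vis.2 List.mem_cons_self

/-- new vertices at level `j` -/
theorem oc_newj (D : Dat V) (j : ℕ) (m : ℕ) (x : V) (t : List V) :
    oc D (fun y s => ind (y ∉ s ∧ lev D.top (y :: s) y = j)) m x t ≤
      bdy (fun e => ¬ D.top e) (fun w => lev D.top (x :: t) w = j) (vis x t) +
      oc D (fun y s => ind (isL D j y s) + ind (y ∉ s ∧ lev D.top (y :: s) y = j) *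
        cnt (fun e => ¬ D.top e) (vis y s) y) m x t := by
  apply oc_le_potential D _ _
    (fun x t => bdy (fun e => ¬ D.top e) (fun w => lev D.top (x :: t) w = j) (vis x t))
    (fun _ _ => True)
  · intro x t _
    exact bdy_nonneg _ _ _
  · intro x t y _ _ ht
    refine ⟨trivial, ?_⟩
    obtain ⟨_, hxy⟩ := tr_pos_g D ht
    by_cases hy : y ∈ x :: t
    · have e1 : vis y (x :: t) = vis x t := by
        rw [vis_cons, Finset.insert_eq_of_mem (mem_vis.2 hy)]
      rw [e1, lev_old D.top hy, ind_false (fun h => h.1 hy)]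
      have := ind_nonneg (isL D j y (x :: t))
      linarith
    · have hy' : y ∉ vis x t := fun h => hy (mem_vis.1 h)
      have h1 := bdy_insert (fun e => ¬ D.top e) (fun w => lev D.top (x :: t) w = j)
        (fun w => lev D.top (y :: x :: t) w = j) (self_mem_vis x t) hy' (by
          intro w hw
          have : w ≠ y := fun h => hy' (h ▸ hw)
          rw [lev_other D.top this])
      rw [vis_cons]
      have h3 : ind (y ∉ x :: t ∧ lev D.top (y :: x :: t) y = j) =
          ind (lev D.top (y :: x :: t) y = j) := by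
        by_cases h : lev D.top (y :: x :: t) y = j
        · rw [ind_true h, ind_true ⟨hy, h⟩]
        · rw [ind_false h, ind_false (fun h' => h h'.2)]
      rw [h3]
      have h4 : ind (lev D.top (y :: x :: t) y = j) ≤ ind (isL D j y (x :: t)) +
          ind (lev D.top (x :: t) x = j) * ind (¬ D.top s(x, y)) := by
        by_cases h : lev D.top (y :: x :: t) y = j
        · rw [ind_true h]
          rw [lev_new D.top hy] at h
          by_cases htop : D.top s(x, y)
          · rw [if_pos htop] at h
            rw [ind_true (show isL D j y (x :: t) from ⟨hy, htop, h⟩)]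
            have := mul_nonneg (ind_nonneg (lev D.top (x :: t) x = j))
              (ind_nonneg (¬ D.top s(x, y)))
            linarith
          · rw [if_neg htop, add_zero] at h
            rw [ind_true h, ind_true htop]
            have := ind_nonneg (isL D j y (x :: t))
            linarith
        · rw [ind_false h]
          have := ind_nonneg (isL D j y (x :: t))
          have := mul_nonneg (ind_nonneg (lev D.top (x :: t) x = j))
              (ind_nonneg (¬ D.top s(x, y)))
          linarith
      linarith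
  · trivial

/-- number of new vertices -/
theorem oc_new (D : Dat V) (C : Finset V) (hC : ∀ w ∈ C, ∀ u, D.g s(w, u) → u ∈ C) (m : ℕ)
    (x : V) (t : List V) (hx : vis x t ⊆ C) (hk : (vis x t).card ≤ D.k0) :
    oc D (fun y s => ind (y ∉ s)) m x t ≤ (min C.card D.k0 : ℕ) - (vis x t).card := by
  have h := oc_le_potential D (fun y s => ind (y ∉ s)) (fun _ _ => 0)
    (fun x t => ((min C.card D.k0 : ℕ) : ℝ) - (vis x t).card)
    (fun x t => vis x t ⊆ C ∧ (vis x t).card ≤ D.k0) ?_ ?_ m x t ⟨hx, hk⟩
  · have h0 : oc D (fun _ _ => (0:ℝ)) m x t = 0 := by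
      have : (fun (_ : ℕ) => st D (fun _ _ => (0:ℝ))) = fun (_ : ℕ) (_ : V) (_ : List V) =>
          (0:ℝ) * (0:ℝ) := by
        funext _ x t
        unfold st
        simp
      unfold oc
      rw [this, occ_mul, zero_mul]
    rw [h0, add_zero] at h
    exact h
  · rintro x t ⟨h1, h2⟩
    have h3 := Finset.card_le_card h1
    have : ((vis x t).card : ℝ) ≤ (min C.card D.k0 : ℕ) := by
      exact_mod_cast le_min h3 h2
    linarith
  · rintro x t y ⟨h1, h2⟩ hs ht
    obtain ⟨hg, hxy⟩ := tr_pos_g D ht
    have hlt : (vis x t).card < D.k0 := by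
      by_contra hcon
      exact hs (Or.inr (Or.inr (by omega)))
    by_cases hy : y ∈ x :: t
    · have e1 : vis y (x :: t) = vis x t := by
        rw [vis_cons, Finset.insert_eq_of_mem (mem_vis.2 hy)]
      rw [e1, ind_false (fun h => h hy)]
      exact ⟨⟨h1, h2⟩, by linarith⟩
    · have hy' : y ∉ vis x t := fun h => hy (mem_vis.1 h)
      have hyC : y ∈ C := hC x (h1 (self_mem_vis x t)) y hg
      rw [vis_cons, Finset.card_insert_of_notMem hy', ind_true hy]
      refine ⟨⟨Finset.insert_subset hyC h1, by omega⟩, ?_⟩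
      push_cast
      linarith

/-- the walk stops only by a closing, in `R`, or if the component is large -/
theorem Bf_le (D : Dat V) (C : Finset V) (hC : ∀ w ∈ C, ∀ u, D.g s(w, u) → u ∈ C) (m : ℕ)
    (x : V) (t : List V) (hx : vis x t ⊆ C) (hxR : x ∉ D.R) (hcl : ¬ clo D.g x t) :
    Bf D m x t ≤ oc D (fun y s => ind (clo D.g y s) + ind (y ∈ D.R)) m x t +
      ind (D.k0 ≤ C.card) := by
  have hg0 : ∀ y s, (0:ℝ) ≤ ind (clo D.g y s) + ind (y ∈ D.R) :=
    fun y s => add_nonneg (ind_nonneg _) (ind_nonneg _)
  have hstop : ∀ (m : ℕ) (x : V) (t : List V), vis x t ⊆ C → x ∉ D.R → ¬ clo D.g x t →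
      stp D x t → Bf D m x t ≤ oc D (fun y s => ind (clo D.g y s) + ind (y ∈ D.R)) m x t +
      ind (D.k0 ≤ C.card) := by
    intro m x t hx hxR hcl hs
    rw [Bf_stp D _ hs, oc_stp D _ _ hs, zero_add]
    rcases hs with h | h | h
    · exact absurd h hxR
    · exact absurd h hcl
    · rw [ind_true (h.trans (Finset.card_le_card hx))]
  induction m generalizing x t with
  | zero =>
    by_cases hs : stp D x t
    · exact hstop 0 x t hx hxR hcl hs
    · unfold Bf
      rw [ind_false hs, oc_zero, zero_add]
      exact ind_nonneg _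
  | succ m ih =>
    by_cases hs : stp D x t
    · exact hstop (m + 1) x t hx hxR hcl hs
    · rw [oc_succ D _ m hs]
      conv_lhs => unfold Bf
      rw [if_neg hs]
      have h1 : ∑ y, tr D.κ x y * Bf D m y (x :: t) ≤
          ∑ y, tr D.κ x y * ((fun y s => ind (clo D.g y s) + ind (y ∈ D.R)) y (x :: t) +
            oc D (fun y s => ind (clo D.g y s) + ind (y ∈ D.R)) m y (x :: t)) +
          ∑ y, tr D.κ x y * ind (D.k0 ≤ C.card) := by
        rw [← Finset.sum_add_distrib]
        apply Finset.sum_le_sum
        intro y _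
        by_cases ht : tr D.κ x y = 0
        · rw [ht]; simp
        · rw [← mul_add]
          apply mul_le_mul_of_nonneg_left _ (tr_nonneg D.κ0 x y)
          obtain ⟨hg, hxy⟩ := tr_pos_g D ht
          have hyC : vis y (x :: t) ⊆ C := by
            rw [vis_cons]
            exact Finset.insert_subset (hC x (hx (self_mem_vis x t)) y hg) hx
          have h2 := oc_nonneg D hg0 m y (x :: t)
          have h3 := ind_nonneg (D.k0 ≤ C.card)
          by_cases hcy : clo D.g y (x :: t)
          · simp only [ind_true hcy]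
            have h4 := ind_nonneg (y ∈ D.R)
            have h5 : Bf D m y (x :: t) = 1 := Bf_stp D m (Or.inr (Or.inl hcy))
            linarith
          · by_cases hyR : y ∈ D.R
            · simp only [ind_true hyR, ind_false hcy]
              have h5 : Bf D m y (x :: t) = 1 := Bf_stp D m (Or.inl hyR)
              linarith
            · have h4 := ih y (x :: t) hyC hyR hcy
              have h5 := hg0 y (x :: t)
              simp only at h5 ⊢
              linarith
      have h2 : ∑ y, tr D.κ x y * ind (D.k0 ≤ C.card) ≤ ind (D.k0 ≤ C.card) :=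
        sum_tr_mul_le D x (ind_nonneg _) (fun _ _ => le_rfl)
      linarith

/-- the boundary of the visited set at the steps to new vertices -/
theorem oc_bdy (D : Dat V) (m : ℕ) (x : V) (t : List V) (hk : (vis x t).card ≤ D.k0) :
    oc D (fun y s => ind (y ∉ s) * bdy D.g (fun _ => True) (s.toFinset)) m x t ≤
      ((D.k0 : ℝ) - (vis x t).card) * bdy D.g (fun _ => True) (vis x t) +
      oc D (fun y s => ind (y ∉ s) * (((D.k0 : ℝ) - (vis y s).card) *
        (cnt D.g (vis y s) y - 1))) m x t := by
  apply oc_le_potential D _ _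
    (fun x t => ((D.k0 : ℝ) - (vis x t).card) * bdy D.g (fun _ => True) (vis x t))
    (fun x t => (vis x t).card ≤ D.k0)
  · intro x t h
    apply mul_nonneg _ (bdy_nonneg _ _ _)
    have : ((vis x t).card : ℝ) ≤ D.k0 := by exact_mod_cast h
    linarith
  · intro x t y h hs ht
    obtain ⟨hg, hxy⟩ := tr_pos_g D ht
    have hlt : (vis x t).card < D.k0 := by
      by_contra hcon
      exact hs (Or.inr (Or.inr (by omega)))
    by_cases hy : y ∈ x :: t
    · have e1 : vis y (x :: t) = vis x t := by
        rw [vis_cons, Finset.insert_eq_of_mem (mem_vis.2 hy)]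
      rw [e1, ind_false (fun h => h hy), zero_mul, zero_mul, zero_add, add_zero]
      exact ⟨h, le_rfl⟩
    · have hy' : y ∉ vis x t := fun h => hy (mem_vis.1 h)
      have hv : vis y (x :: t) = insert y (vis x t) := vis_cons y x t
      have hc : (vis y (x :: t)).card = (vis x t).card + 1 := by
        rw [hv, Finset.card_insert_of_notMem hy']
      refine ⟨by omega, ?_⟩
      rw [hc, ind_true hy, one_mul, one_mul]
      have h1 := bdy_insert D.g (fun _ => True) (fun _ => True) (self_mem_vis x t) hy'
        (fun _ _ => Iff.rfl)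
      rw [← hv, ind_true trivial, ind_true hg, one_mul, one_mul] at h1
      have h2 : (0:ℝ) ≤ (D.k0 : ℝ) - ((vis x t).card + 1) := by
        have : ((vis x t).card : ℝ) + 1 ≤ D.k0 := by exact_mod_cast hlt
        linarith
      have h3 : bdy D.g (fun _ => True) (x :: t).toFinset = bdy D.g (fun _ => True) (vis x t) :=
        rfl
      rw [h3]
      push_cast
      have h4 := mul_le_mul_of_nonneg_left h1 h2
      nlinarith
  · exact hk

end

end Pool.Agent.TH972
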